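import Mathlib

namespace Pool.Agent.Helper14.RG

open MvPolynomial

/-- `A` is an algebra of functions on the group `G` (the regular functions) and `S` a subgroup.
The field of `S`-invariant (for right translations) rational functions is purely transcendental over
`k`: there are fractions `p i / q i` of elements of `A`, invariant under `S`, algebraically
independent over `k`, such that every `S`-invariant fraction `a / b` of elements of `A` is a rational
function in them. -/
def RationalQuotient {k : Type*} [Field k] {G : Type*} [Group G] (A : Set (G → k))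
    (S : Subgroup G) : Prop :=
  ∃ (r : ℕ) (p q : Fin r → G → k),
    (∀ i, p i ∈ A ∧ q i ∈ A ∧ q i ≠ 0) ∧
    (∀ i, ∀ h ∈ S, ∀ g, p i (g * h) * q i g = p i g * q i (g * h)) ∧
    (∀ P : MvPolynomial (Fin r) k, P ≠ 0 →
      ∃ g, (∀ i, q i g ≠ 0) ∧ eval (fun i => p i g / q i g) P ≠ 0) ∧
    (∀ a ∈ A, ∀ b ∈ A, b ≠ 0 → (∀ h ∈ S, ∀ g, a (g * h) * b g = a g * b (g * h)) →
      ∃ P Q : MvPolynomial (Fin r) k, Q ≠ 0 ∧ ∀ g, (∀ i, q i g ≠ 0) →
        a g * eval (fun i => p i g / q i g) Q = b g * eval (fun i => p i g / q i g) P)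

/-- The fixed points of an automorphism. -/
def fixSub {G : Type*} [Group G] (τ : G ≃* G) : Subgroup G where
  carrier := {g | τ g = g}
  mul_mem' := by
    intro a b ha hb
    show τ (a * b) = a * b
    rw [map_mul, ha, hb]
  one_mem' := map_one τ
  inv_mem' := by
    intro a ha
    show τ a⁻¹ = a⁻¹
    rw [map_inv, ha]

end Pool.Agent.Helper14.RG
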