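import Pool.Agent.Helper14.RG.Inner
import Pool.Agent.Helper14.RG.RQ

namespace Pool.Agent.Helper14.RG

open MvPolynomial Matrix

lemma mem_fixSub {G : Type*} [Group G] {τ : G ≃* G} {g : G} : g ∈ fixSub τ ↔ τ g = g := Iff.rfl

/-- elements fixed up to the centre -/
def fixMod {G : Type*} [Group G] (τ : G ≃* G) : Subgroup G where
  carrier := {g | ∃ z ∈ Subgroup.center G, τ g = z * g}
  mul_mem' := by
    rintro a b ⟨z, hz, ha⟩ ⟨z', hz', hb⟩
    refine ⟨z * z', mul_mem hz hz', ?_⟩
    rw [map_mul, ha, hb]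
    have := Subgroup.mem_center_iff.mp hz' a
    calc z * a * (z' * b) = z * (a * z') * b := by simp only [mul_assoc]
      _ = z * (z' * a) * b := by rw [this]
      _ = z * z' * (a * b) := by simp only [mul_assoc]
  one_mem' := ⟨1, one_mem _, by rw [map_one, mul_one]⟩
  inv_mem' := by
    rintro a ⟨z, hz, ha⟩
    refine ⟨z⁻¹, inv_mem hz, ?_⟩
    rw [map_inv, ha, _root_.mul_inv_rev]
    exact Subgroup.mem_center_iff.mp (inv_mem hz) a⁻¹

lemma mem_fixMod {G : Type*} [Group G] {τ : G ≃* G} {g : G} :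
    g ∈ fixMod τ ↔ ∃ z ∈ Subgroup.center G, τ g = z * g := Iff.rfl

lemma fixSub_le_fixMod {G : Type*} [Group G] (τ : G ≃* G) : fixSub τ ≤ fixMod τ := by
  intro g hg
  exact ⟨1, one_mem _, by rw [one_mul]; exact hg⟩

section

variable {k : Type*} [Field k] {n : ℕ} (χ : Fin n → k)

lemma TT_mem (A : Subalgebra k (Matrix.SpecialLinearGroup (Fin n) k → k))
    (w : Matrix.SpecialLinearGroup (Fin n) k → Matrix (Fin n) (Fin n) k)
    (h : ∀ i j, (fun g => w g i j) ∈ A) (i j : Fin n) : (fun g => TT χ (w g) i j) ∈ A := by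
  by_cases hij : χ i = χ j
  · simp only [TT_apply χ _ hij]
    exact h _ _
  · simp only [TT_apply_ne χ _ hij]
    exact const_mem A 0

lemma wu_mem (u : Matrix (Fin n) (Fin n) k) (i j : Fin n) :
    (fun g : Matrix.SpecialLinearGroup (Fin n) k => ((g : Matrix (Fin n) (Fin n) k) * u) i j)
      ∈ slAlg k n :=
  mul_mem_alg (slAlg k n) (fun g => (g : Matrix (Fin n) (Fin n) k)) (fun _ => u) entry_mem
    (fun _ _ => const_mem _ _) i j

lemma TT_mul_diag (w : Matrix (Fin n) (Fin n) k) (δ : Fin n → k) :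
    TT χ (w * diagonal δ) = TT χ w * diagonal δ := by
  ext i j
  rw [Matrix.mul_diagonal]
  by_cases h : χ i = χ j
  · rw [TT_apply χ _ h, TT_apply χ _ h, Matrix.mul_diagonal]
  · rw [TT_apply_ne χ _ h, TT_apply_ne χ _ h, zero_mul]

lemma dl_ne (n : ℕ) (c : k) (hc : c ≠ 0) (j : Fin n) : dl n c j ≠ 0 := by
  unfold dl
  split_ifs
  · exact hc
  · exact one_ne_zero

lemma exists_generic [Infinite k] (u : Matrix (Fin n) (Fin n) k) (hu : u.det ≠ 0) :
    ∃ g : Matrix.SpecialLinearGroup (Fin n) k,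
      (TT χ ((g : Matrix (Fin n) (Fin n) k) * u)).det ≠ 0 := by
  classical
  -- the generic block determinant
  let TP : Matrix (Fin n) (Fin n) (MvPolynomial (Fin n × Fin n) k) :=
    Matrix.of fun i j => if χ i = χ j then X (rr χ i, j) else 0
  have hTP : ∀ Y : Fin n × Fin n → k, TP.map (eval Y) = TT χ (Matrix.of fun i j => Y (i, j)) := by
    intro Y
    ext i j
    show eval Y (if χ i = χ j then X (rr χ i, j) else 0) = _
    by_cases h : χ i = χ j
    · rw [if_pos h, TT_apply χ _ h, eval_X]; rfl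
    · rw [if_neg h, TT_apply_ne χ _ h, map_zero]
  have hTP0 : TP.det ≠ 0 := by
    intro h0
    have h1 := congrArg (eval (fun p : Fin n × Fin n => if rr χ p.2 = p.1 then (1 : k) else 0)) h0
    rw [RingHom.map_det, map_zero] at h1
    have h2 : (eval (fun p : Fin n × Fin n => if rr χ p.2 = p.1 then (1 : k) else 0)).mapMatrix TP
        = 1 := by
      show TP.map (eval _) = 1
      rw [hTP]
      ext i j
      by_cases h : χ i = χ j
      · rw [TT_apply χ _ h, Matrix.of_apply, Matrix.one_apply]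
        show (if rr χ j = rr χ i then (1 : k) else 0) = _
        by_cases hij : i = j
        · subst hij; simp
        · rw [if_neg hij, if_neg]
          intro h3
          exact hij (rr_inj χ i j h h3.symm)
      · rw [TT_apply_ne χ _ h, Matrix.one_apply_ne]
        rintro rfl; exact h rfl
    rw [h2, Matrix.det_one] at h1
    exact one_ne_zero h1
  have hX0 := Matrix.det_mvPolynomialX_ne_zero (Fin n) k
  obtain ⟨Y, hY⟩ : ∃ Y, eval Y (TP.det * (Matrix.mvPolynomialX (Fin n) (Fin n) k).det) ≠ 0 := by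
    by_contra hcon
    push Not at hcon
    exact mul_ne_zero hTP0 hX0 (MvPolynomial.funext fun Y => by rw [hcon Y, map_zero])
  rw [map_mul] at hY
  let W : Matrix (Fin n) (Fin n) k := Matrix.of fun i j => Y (i, j)
  have hW1 : (TT χ W).det ≠ 0 := by
    have := left_ne_zero_of_mul hY
    rw [RingHom.map_det] at this
    have h2 : (eval Y).mapMatrix TP = TT χ W := hTP Y
    rw [h2] at this
    exact this
  have hW2 : W.det ≠ 0 := by
    have := right_ne_zero_of_mul hY
    rw [RingHom.map_det] at this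
    have h2 : (eval Y).mapMatrix (Matrix.mvPolynomialX (Fin n) (Fin n) k) = W := by
      ext i j; simp [W]
    rw [h2] at this
    exact this
  refine ⟨nrm u W hu, ?_⟩
  rw [nrm_coe u W hu hW2, mul_assoc, Matrix.nonsing_inv_mul _ (isUnit_iff_ne_zero.mpr hu), mul_one,
    TT_mul_diag, Matrix.det_mul, Matrix.det_diagonal]
  refine mul_ne_zero hW1 (Finset.prod_ne_zero_iff.mpr fun j _ => dl_ne n _ (div_ne_zero hu hW2) j)

/-- the matrix of coordinates -/
noncomputable def tm (u g : Matrix (Fin n) (Fin n) k) : Matrix (Fin n) (Fin n) k :=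
  g * u * (TT χ (g * u))⁻¹

/-- The chart for an inner automorphism of `SL_n`. -/
noncomputable def innerChart [Infinite k] (a u : Matrix (Fin n) (Fin n) k) (ha : a.det ≠ 0)
    (hu : u.det ≠ 0) (hau : a * u = u * diagonal χ)
    (τ : Matrix.SpecialLinearGroup (Fin n) k ≃* Matrix.SpecialLinearGroup (Fin n) k)
    (hτ : ∀ g, (τ g : Matrix (Fin n) (Fin n) k) * a = a * (g : Matrix (Fin n) (Fin n) k)) :
    Chart (slAlg k n) (fixSub τ) (fixMod τ) (NP χ) where
  hH := fixSub_le_fixMod τ
  q0 := fun g => (TT χ ((g : Matrix (Fin n) (Fin n) k) * u)).det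
  q0_mem := det_mem_alg _ _ (TT_mem χ _ _ (wu_mem u))
  q0_ne := by
    obtain ⟨g, hg⟩ := exists_generic χ u hu
    exact Function.ne_iff.mpr ⟨g, hg⟩
  t := fun g p => (((g : Matrix (Fin n) (Fin n) k) * u)
    * (TT χ ((g : Matrix (Fin n) (Fin n) k) * u))⁻¹) p.1.1 p.1.2
  treg := by
    intro p
    refine ⟨_, mul_mem_alg (slAlg k n) (fun g => ((g : Matrix (Fin n) (Fin n) k) * u))
      (fun g => (TT χ ((g : Matrix (Fin n) (Fin n) k) * u)).adjugate) (wu_mem u)
      (adjugate_mem_alg _ _ (TT_mem χ _ _ (wu_mem u))) p.1.1 p.1.2, _,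
      det_mem_alg _ _ (TT_mem χ _ _ (wu_mem u)), fun g hg => ⟨hg, ?_⟩⟩
    show ((((g : Matrix (Fin n) (Fin n) k) * u)
      * (TT χ ((g : Matrix (Fin n) (Fin n) k) * u))⁻¹) p.1.1 p.1.2)
      * (TT χ ((g : Matrix (Fin n) (Fin n) k) * u)).det = _
    rw [Matrix.inv_def, Ring.inverse_eq_inv', Matrix.mul_smul, Matrix.smul_apply, smul_eq_mul]
    have hg' : (TT χ ((g : Matrix (Fin n) (Fin n) k) * u)).det ≠ 0 := hg
    field_simp
  dbl := fun _ => false
  D := (PM χ).det
  D_ne := by
    obtain ⟨g, hg⟩ := exists_generic χ u hu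
    intro h0
    have h1 := congrArg (eval (fun p : NP χ => (((g : Matrix (Fin n) (Fin n) k) * u)
      * (TT χ ((g : Matrix (Fin n) (Fin n) k) * u))⁻¹) p.1.1 p.1.2)) h0
    rw [RingHom.map_det, map_zero] at h1
    have h2 := PM_eq χ ((g : Matrix (Fin n) (Fin n) k) * u) hg _ (fun p => rfl)
    rw [RingHom.mapMatrix_apply, h2, Matrix.det_mul, Matrix.det_mul, g.2, one_mul,
      Matrix.det_nonsing_inv, Ring.inverse_eq_inv'] at h1
    exact mul_ne_zero hu (inv_ne_zero hg) h1
  s := fun Y => nrm u ((PM χ).map (eval Y)) hu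
  sreg := fun x hx => nrm_reg u hu (PM χ) hx
  fiber := by
    intro g hg Y hY
    have hu' : IsUnit u.det := isUnit_iff_ne_zero.mpr hu
    have hY' : ∀ p : NP χ, Y p = (((g : Matrix (Fin n) (Fin n) k) * u)
      * (TT χ ((g : Matrix (Fin n) (Fin n) k) * u))⁻¹) p.1.1 p.1.2 := by
      intro p
      have := hY p
      simpa [dd] using this
    have h2 := PM_eq χ ((g : Matrix (Fin n) (Fin n) k) * u) hg Y hY'
    have hdet : eval Y (PM χ).det = ((PM χ).map (eval Y)).det := by
      rw [RingHom.map_det]; rfl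
    have hne : ((PM χ).map (eval Y)).det ≠ 0 := by
      rw [h2, Matrix.det_mul, Matrix.det_mul, g.2, one_mul,
        Matrix.det_nonsing_inv, Ring.inverse_eq_inv']
      exact mul_ne_zero hu (inv_ne_zero hg)
    refine ⟨hdet ▸ hne, (nrm u ((PM χ).map (eval Y)) hu)⁻¹ * g, ?_, by rw [mul_inv_cancel_left]⟩
    generalize hs : nrm u ((PM χ).map (eval Y)) hu = s
    have hscoe : (s : Matrix (Fin n) (Fin n) k) = _ := hs ▸ nrm_coe u _ hu hne
    generalize hδ : dl n (u.det / ((PM χ).map (eval Y)).det) = δ at hscoe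
    have hδne : ∀ j, δ j ≠ 0 := by
      intro j
      rw [← hδ]
      exact dl_ne n _ (div_ne_zero hu hne) j
    generalize hT : TT χ ((g : Matrix (Fin n) (Fin n) k) * u) = T at h2 hscoe
    have hTdet : T.det ≠ 0 := hT ▸ hg
    have hTu : IsUnit T.det := isUnit_iff_ne_zero.mpr hTdet
    have hTc : T * diagonal χ = diagonal χ * T := hT ▸ TT_comm χ _
    have hδδ : diagonal δ * diagonal (fun j => (δ j)⁻¹) = (1 : Matrix (Fin n) (Fin n) k) := by
      rw [Matrix.diagonal_mul_diagonal, ← Matrix.diagonal_one]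
      congr 1
      funext j
      exact mul_inv_cancel₀ (hδne j)
    have hcoe : (((s⁻¹ * g : Matrix.SpecialLinearGroup (Fin n) k)) : Matrix (Fin n) (Fin n) k)
        = u * diagonal (fun j => (δ j)⁻¹) * T * u⁻¹ := by
      have h3 : (s : Matrix (Fin n) (Fin n) k) * (u * diagonal (fun j => (δ j)⁻¹) * T * u⁻¹)
          = g := by
        rw [hscoe, h2]
        calc (g : Matrix (Fin n) (Fin n) k) * u * T⁻¹ * diagonal δ * u⁻¹
              * (u * diagonal (fun j => (δ j)⁻¹) * T * u⁻¹)
            = (g : Matrix (Fin n) (Fin n) k) * u * T⁻¹ * diagonal δ * (u⁻¹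
              * u) * diagonal (fun j => (δ j)⁻¹) * T * u⁻¹ := by simp only [mul_assoc]
          _ = (g : Matrix (Fin n) (Fin n) k) * u * T⁻¹ * (diagonal δ
              * diagonal (fun j => (δ j)⁻¹)) * T * u⁻¹ := by
            rw [Matrix.nonsing_inv_mul _ hu', mul_one]; simp only [mul_assoc]
          _ = (g : Matrix (Fin n) (Fin n) k) * u * (T⁻¹ * T) * u⁻¹ := by
            rw [hδδ, mul_one]; simp only [mul_assoc]
          _ = (g : Matrix (Fin n) (Fin n) k) * (u * u⁻¹) := by
            rw [Matrix.nonsing_inv_mul _ hTu, mul_one]; simp only [mul_assoc]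
          _ = g := by rw [Matrix.mul_nonsing_inv _ hu', mul_one]
      have h4 : ((s⁻¹ : Matrix.SpecialLinearGroup (Fin n) k) : Matrix (Fin n) (Fin n) k)
          * (s : Matrix (Fin n) (Fin n) k) = 1 := by
        rw [← Matrix.SpecialLinearGroup.coe_mul, inv_mul_cancel, Matrix.SpecialLinearGroup.coe_one]
      rw [Matrix.SpecialLinearGroup.coe_mul]
      calc ((s⁻¹ : Matrix.SpecialLinearGroup (Fin n) k) : Matrix (Fin n) (Fin n) k)
            * (g : Matrix (Fin n) (Fin n) k)
          = ((s⁻¹ : Matrix.SpecialLinearGroup (Fin n) k) : Matrix (Fin n) (Fin n) k)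
            * ((s : Matrix (Fin n) (Fin n) k) * (u * diagonal (fun j => (δ j)⁻¹) * T * u⁻¹)) := by
            rw [h3]
        _ = _ := by rw [← mul_assoc, h4, one_mul]
    rw [mem_fixSub]
    apply Subtype.ext
    have hau' : IsUnit a.det := isUnit_iff_ne_zero.mpr ha
    have h5 := hτ (s⁻¹ * g)
    have h6 : a * (((s⁻¹ * g : Matrix.SpecialLinearGroup (Fin n) k)) : Matrix (Fin n) (Fin n) k)
        = (((s⁻¹ * g : Matrix.SpecialLinearGroup (Fin n) k)) : Matrix (Fin n) (Fin n) k) * a := by
      have h7 : a = u * diagonal χ * u⁻¹ := by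
        rw [← hau, mul_assoc, Matrix.mul_nonsing_inv _ hu', mul_one]
      rw [hcoe, h7]
      calc u * diagonal χ * u⁻¹ * (u * diagonal (fun j => (δ j)⁻¹) * T * u⁻¹)
          = u * diagonal χ * (u⁻¹ * u) * diagonal (fun j => (δ j)⁻¹) * T * u⁻¹ := by
            simp only [mul_assoc]
        _ = u * (diagonal χ * diagonal (fun j => (δ j)⁻¹)) * T * u⁻¹ := by
            rw [Matrix.nonsing_inv_mul _ hu', mul_one]; simp only [mul_assoc]
        _ = u * (diagonal (fun j => (δ j)⁻¹) * diagonal χ) * T * u⁻¹ := by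
            rw [Matrix.diagonal_mul_diagonal, Matrix.diagonal_mul_diagonal]
            congr 4
            funext j
            exact mul_comm _ _
        _ = u * diagonal (fun j => (δ j)⁻¹) * (diagonal χ * T) * u⁻¹ := by
            simp only [mul_assoc]
        _ = u * diagonal (fun j => (δ j)⁻¹) * T * (u⁻¹ * u) * diagonal χ * u⁻¹ := by
            rw [← hTc, Matrix.nonsing_inv_mul _ hu', mul_one]; simp only [mul_assoc]
        _ = u * diagonal (fun j => (δ j)⁻¹) * T * u⁻¹ * (u * diagonal χ * u⁻¹) := by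
            simp only [mul_assoc]
    rw [h6] at h5
    calc ((τ (s⁻¹ * g) : Matrix.SpecialLinearGroup (Fin n) k) : Matrix (Fin n) (Fin n) k)
        = ((τ (s⁻¹ * g) : Matrix.SpecialLinearGroup (Fin n) k) : Matrix (Fin n) (Fin n) k)
          * a * a⁻¹ := by rw [mul_assoc, Matrix.mul_nonsing_inv _ hau', mul_one]
      _ = _ := by rw [h5, mul_assoc, Matrix.mul_nonsing_inv _ hau', mul_one]
  dom := by
    intro Y hY
    have hu' : IsUnit u.det := isUnit_iff_ne_zero.mpr hu
    have hdet : eval Y (PM χ).det = ((PM χ).map (eval Y)).det := by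
      rw [RingHom.map_det]; rfl
    have hne : ((PM χ).map (eval Y)).det ≠ 0 := hdet ▸ hY
    have h1 : ((nrm u ((PM χ).map (eval Y)) hu : Matrix.SpecialLinearGroup (Fin n) k) :
        Matrix (Fin n) (Fin n) k) * u
        = (PM χ).map (eval Y) * diagonal (dl n (u.det / ((PM χ).map (eval Y)).det)) := by
      rw [nrm_coe u _ hu hne, mul_assoc, Matrix.nonsing_inv_mul _ hu', mul_one]
    have hδne : ∀ j, dl n (u.det / ((PM χ).map (eval Y)).det) j ≠ 0 := fun j =>
      dl_ne n _ (div_ne_zero hu hne) j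
    have h2 : (TT χ (((nrm u ((PM χ).map (eval Y)) hu : Matrix.SpecialLinearGroup (Fin n) k) :
        Matrix (Fin n) (Fin n) k) * u)) = diagonal (dl n (u.det / ((PM χ).map (eval Y)).det)) := by
      rw [h1, TT_PM]
    have h3 : (diagonal (dl n (u.det / ((PM χ).map (eval Y)).det))).det ≠ 0 := by
      rw [Matrix.det_diagonal]
      exact Finset.prod_ne_zero_iff.mpr fun j _ => hδne j
    refine ⟨?_, ?_⟩
    · show (TT χ _).det ≠ 0
      rw [h2]; exact h3
    · intro p
      show (tm χ u _) p.1.1 p.1.2 = _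
      unfold tm
      rw [h2, h1, mul_assoc, Matrix.mul_nonsing_inv _ (isUnit_iff_ne_zero.mpr h3), mul_one,
        PM_eval χ Y _ _ p.2]
      simp [dd]
  inv := by
    intro h hh g hg p
    have hu' : IsUnit u.det := isUnit_iff_ne_zero.mpr hu
    have h1 : diagonal χ * (u⁻¹ * (h : Matrix (Fin n) (Fin n) k) * u)
        = (1 : k) • ((u⁻¹ * (h : Matrix (Fin n) (Fin n) k) * u) * diagonal χ) := by
      have h2 := hτ h
      rw [mem_fixSub.mp hh] at h2
      have h3 : u⁻¹ * a = diagonal χ * u⁻¹ := by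
        calc u⁻¹ * a = u⁻¹ * (a * u) * u⁻¹ := by
              rw [mul_assoc, mul_assoc a, Matrix.mul_nonsing_inv _ hu', mul_one]
          _ = (u⁻¹ * u) * diagonal χ * u⁻¹ := by rw [hau]; simp only [mul_assoc]
          _ = _ := by rw [Matrix.nonsing_inv_mul _ hu', one_mul]
      rw [one_smul]
      calc diagonal χ * (u⁻¹ * (h : Matrix (Fin n) (Fin n) k) * u)
          = (diagonal χ * u⁻¹) * (h : Matrix (Fin n) (Fin n) k) * u := by simp only [mul_assoc]
        _ = u⁻¹ * (a * (h : Matrix (Fin n) (Fin n) k)) * u := by rw [← h3]; simp only [mul_assoc]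
        _ = u⁻¹ * (h : Matrix (Fin n) (Fin n) k) * (a * u) := by rw [← h2]; simp only [mul_assoc]
        _ = _ := by rw [hau]; simp only [mul_assoc]
    have hdet : (u⁻¹ * (h : Matrix (Fin n) (Fin n) k) * u).det ≠ 0 := by
      rw [Matrix.det_mul, Matrix.det_mul, h.2, mul_one, ← Matrix.det_mul,
        Matrix.nonsing_inv_mul _ hu', Matrix.det_one]
      exact one_ne_zero
    have h4 := (PP_shift χ ((g : Matrix (Fin n) (Fin n) k) * u) _ hg hdet 1 one_ne_zero h1 id
      (fun j => by simp) (fun j => rfl)).2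
    have h5 : (g : Matrix (Fin n) (Fin n) k) * u * (u⁻¹ * (h : Matrix (Fin n) (Fin n) k) * u)
        = ((g * h : Matrix.SpecialLinearGroup (Fin n) k) : Matrix (Fin n) (Fin n) k) * u := by
      rw [Matrix.SpecialLinearGroup.coe_mul]
      calc _ = (g : Matrix (Fin n) (Fin n) k) * (u * u⁻¹) * (h : Matrix (Fin n) (Fin n) k) * u := by
            simp only [mul_assoc]
        _ = _ := by rw [Matrix.mul_nonsing_inv _ hu', mul_one]
    rw [h5] at h4
    show (tm χ u _) p.1.1 p.1.2 = (tm χ u _) p.1.1 p.1.2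
    unfold tm
    rw [h4]
    rfl
  equiv := by
    intro h hh
    have hu' : IsUnit u.det := isUnit_iff_ne_zero.mpr hu
    obtain ⟨z, hz, hzh⟩ := mem_fixMod.mp hh
    obtain ⟨r, hr, hrz⟩ := Matrix.SpecialLinearGroup.mem_center_iff.mp hz
    rw [Fintype.card_fin] at hr
    rcases Nat.eq_zero_or_pos n with hn | hn
    · refine ⟨0, fun g hg => ⟨?_, fun j => ?_⟩⟩
      · subst hn
        show (TT χ _).det ≠ 0
        rw [Matrix.det_isEmpty]; exact one_ne_zero
      · subst hn
        exact j.1.1.elim0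
    have hr0 : r ≠ 0 := by
      rintro rfl
      rw [zero_pow hn.ne'] at hr
      exact zero_ne_one hr
    have h1 : diagonal χ * (u⁻¹ * (h : Matrix (Fin n) (Fin n) k) * u)
        = r • ((u⁻¹ * (h : Matrix (Fin n) (Fin n) k) * u) * diagonal χ) := by
      have h2 := hτ h
      rw [hzh, Matrix.SpecialLinearGroup.coe_mul, ← hrz] at h2
      have h2' : r • ((h : Matrix (Fin n) (Fin n) k) * a) = a * (h : Matrix (Fin n) (Fin n) k) := by
        rw [← h2]
        rw [Matrix.scalar_apply, ← Matrix.smul_one_eq_diagonal]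
        rw [Matrix.smul_mul, one_mul, Matrix.smul_mul]
      have h3 : u⁻¹ * a = diagonal χ * u⁻¹ := by
        calc u⁻¹ * a = u⁻¹ * (a * u) * u⁻¹ := by
              rw [mul_assoc, mul_assoc a, Matrix.mul_nonsing_inv _ hu', mul_one]
          _ = (u⁻¹ * u) * diagonal χ * u⁻¹ := by rw [hau]; simp only [mul_assoc]
          _ = _ := by rw [Matrix.nonsing_inv_mul _ hu', one_mul]
      calc diagonal χ * (u⁻¹ * (h : Matrix (Fin n) (Fin n) k) * u)
          = (diagonal χ * u⁻¹) * (h : Matrix (Fin n) (Fin n) k) * u := by simp only [mul_assoc]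
        _ = u⁻¹ * (a * (h : Matrix (Fin n) (Fin n) k)) * u := by rw [← h3]; simp only [mul_assoc]
        _ = r • (u⁻¹ * (h : Matrix (Fin n) (Fin n) k) * (a * u)) := by
            rw [← h2', Matrix.mul_smul, Matrix.smul_mul]; simp only [mul_assoc]
        _ = _ := by rw [hau]; simp only [mul_assoc]
    have hdet : (u⁻¹ * (h : Matrix (Fin n) (Fin n) k) * u).det ≠ 0 := by
      rw [Matrix.det_mul, Matrix.det_mul, h.2, mul_one, ← Matrix.det_mul,
        Matrix.nonsing_inv_mul _ hu', Matrix.det_one]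
      exact one_ne_zero
    obtain ⟨π, hπ1, hπ2⟩ := exists_pi χ _ hdet r hr0 h1
    have hcard : ∀ j, (blk χ (χ (π j))).card = (blk χ (χ j)).card := by
      intro j
      have hχeq : ∀ m : k, (blk χ m).card ≤ (blk χ (r * m)).card := by
        intro m
        refine Finset.card_le_card_of_injOn π ?_ ?_
        · intro i hi
          have := mem_blk.mp hi
          exact mem_blk.mpr (by rw [hπ1, this])
        · intro i hi i' hi' hii
          apply rk_inj χ
          · exact (mem_blk.mp hi).trans (mem_blk.mp hi').symm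
          · rw [← hπ2 i, ← hπ2 i', hii]
      -- iterate: r ^ n = 1
      have hiter : ∀ (m : k) (e : ℕ), (blk χ m).card ≤ (blk χ (r ^ e * m)).card := by
        intro m e
        induction e with
        | zero => simp
        | succ e ih =>
          refine ih.trans ?_
          have := hχeq (r ^ e * m)
          rwa [← mul_assoc, ← pow_succ'] at this
      apply le_antisymm
      · rw [hπ1]
        have := hiter (r * χ j) (n - 1)
        rwa [← mul_assoc, ← pow_succ, Nat.sub_add_cancel hn, hr, one_mul] at this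
      · rw [hπ1]
        exact hχeq _
    refine ⟨Matrix.of fun p q : NP χ => if q = ⟨(p.1.1, π p.1.2), by
      have := p.2; rw [← hcard] at this; exact this⟩ then 1 else 0, fun g hg => ?_⟩
    have h4 := PP_shift χ ((g : Matrix (Fin n) (Fin n) k) * u) _ hg hdet r hr0 h1 π hπ1 hπ2
    have h5 : (g : Matrix (Fin n) (Fin n) k) * u * (u⁻¹ * (h : Matrix (Fin n) (Fin n) k) * u)
        = ((g * h : Matrix.SpecialLinearGroup (Fin n) k) : Matrix (Fin n) (Fin n) k) * u := by
      rw [Matrix.SpecialLinearGroup.coe_mul]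
      calc _ = (g : Matrix (Fin n) (Fin n) k) * (u * u⁻¹) * (h : Matrix (Fin n) (Fin n) k) * u := by
            simp only [mul_assoc]
        _ = _ := by rw [Matrix.mul_nonsing_inv _ hu', mul_one]
    rw [h5] at h4
    refine ⟨h4.1, fun p => ?_⟩
    show (tm χ u _) p.1.1 p.1.2 = _
    unfold tm
    rw [h4.2]
    simp only [Matrix.of_apply, ite_mul, one_mul, zero_mul, Finset.sum_ite_eq', Finset.mem_univ,
      if_true]
    rfl

end

end Pool.Agent.Helper14.RG
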