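import Pool.Agent.Helper14.RG.InnerChart

namespace Pool.Agent.Helper14.RG

open MvPolynomial Matrix

section

variable {k : Type*} [Field k] {n : ℕ}

/-- positions different from `(0,0)` -/
abbrev NZ (n : ℕ) : Type := {p : Fin n × Fin n // ¬ (p.1.val = 0 ∧ p.2.val = 0)}

/-- generic matrix with zero entry in position `(0,0)` -/
noncomputable def GM (k : Type*) [Field k] (n : ℕ) : Matrix (Fin n) (Fin n) (MvPolynomial (NZ n) k) :=
  Matrix.of fun i j => if h : ¬ (i.val = 0 ∧ j.val = 0) then X (⟨(i, j), h⟩ : NZ n) else 0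

lemma GM_eval (Y : NZ n → k) (i j : Fin n) (h : ¬ (i.val = 0 ∧ j.val = 0)) :
    ((GM k n).map (eval Y)) i j = Y ⟨(i, j), h⟩ := by
  rw [Matrix.map_apply, GM, Matrix.of_apply, dif_pos h, eval_X]

lemma GM_eval0 (Y : NZ n → k) (i j : Fin n) (h : i.val = 0 ∧ j.val = 0) :
    ((GM k n).map (eval Y)) i j = 0 := by
  rw [Matrix.map_apply, GM, Matrix.of_apply, dif_neg (not_not.mpr h), map_zero]

lemma add_single_eq (M : Matrix (Fin n) (Fin n) k) (o : Fin n) (x : k) :
    M + Matrix.single o o x = M.updateRow o (M o + x • Pi.single o 1) := by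
  ext i j
  by_cases hi : i = o
  · subst hi
    rw [Matrix.updateRow_self, Matrix.add_apply]
    by_cases hj : j = i
    · subst hj; simp
    · rw [Matrix.single_apply_of_col_ne _ _ (Ne.symm hj)]
      simp [hj]
  · rw [Matrix.updateRow_ne hi, Matrix.add_apply, Matrix.single_apply_of_row_ne (Ne.symm hi), add_zero]

lemma det_add_single (M : Matrix (Fin n) (Fin n) k) (o : Fin n) (x : k) :
    (M + Matrix.single o o x).det = M.det + x * M.adjugate o o := by
  rw [add_single_eq, Matrix.det_updateRow_add, Matrix.det_updateRow_smul, Matrix.adjugate_apply,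
    Matrix.updateRow_eq_self]

lemma adj_add_single (M : Matrix (Fin n) (Fin n) k) (o : Fin n) (x : k) :
    (M + Matrix.single o o x).adjugate o o = M.adjugate o o := by
  rw [add_single_eq, Matrix.adjugate_apply, Matrix.adjugate_apply, Matrix.updateRow_idem]

lemma eval_adj (Y : NZ n → k) (o : Fin n) :
    eval Y ((GM k n).adjugate o o) = ((GM k n).map (eval Y)).adjugate o o := by
  have := congrFun (congrFun ((eval Y).map_adjugate (GM k n)) o) o
  exact this

open Classical in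
/-- the section of the centre chart -/
noncomputable def cs (hn : 0 < n) (Y : NZ n → k) : Matrix.SpecialLinearGroup (Fin n) k :=
  if h : ((GM k n).map (eval Y)).adjugate ⟨0, hn⟩ ⟨0, hn⟩ ≠ 0 then
    ⟨(GM k n).map (eval Y) + Matrix.single ⟨0, hn⟩ ⟨0, hn⟩
      ((1 - ((GM k n).map (eval Y)).det) / ((GM k n).map (eval Y)).adjugate ⟨0, hn⟩ ⟨0, hn⟩), by
      rw [det_add_single, div_mul_cancel₀ _ h]; ring⟩
  else 1

lemma cs_coe (hn : 0 < n) (Y : NZ n → k)
    (h : ((GM k n).map (eval Y)).adjugate ⟨0, hn⟩ ⟨0, hn⟩ ≠ 0) :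
    (cs hn Y : Matrix (Fin n) (Fin n) k) = (GM k n).map (eval Y) + Matrix.single ⟨0, hn⟩ ⟨0, hn⟩
      ((1 - ((GM k n).map (eval Y)).det) / ((GM k n).map (eval Y)).adjugate ⟨0, hn⟩ ⟨0, hn⟩) := by
  unfold cs; rw [dif_pos h]

/-- The chart of `SL_n` for the translations by the centre. -/
noncomputable def centerChart (hn : 0 < n) :
    Chart (slAlg k n) ⊥ (Subgroup.center (Matrix.SpecialLinearGroup (Fin n) k)) (NZ n) where
  hH := bot_le
  q0 := fun g => (g : Matrix (Fin n) (Fin n) k).adjugate ⟨0, hn⟩ ⟨0, hn⟩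
  q0_mem := adjugate_mem_alg (slAlg k n) (fun g => (g : Matrix (Fin n) (Fin n) k)) entry_mem _ _
  q0_ne := by
    refine Function.ne_iff.mpr ⟨1, ?_⟩
    rw [Matrix.SpecialLinearGroup.coe_one, Matrix.adjugate_one, Matrix.one_apply_eq]
    exact one_ne_zero
  t := fun g p => (g : Matrix (Fin n) (Fin n) k) p.1.1 p.1.2
  treg := fun p => le_RegU _ _ (entry_mem _ _)
  dbl := fun _ => false
  D := (GM k n).adjugate ⟨0, hn⟩ ⟨0, hn⟩
  D_ne := by
    intro h0
    have h1 := congrArg (eval (fun p : NZ n => (1 : Matrix (Fin n) (Fin n) k) p.1.1 p.1.2)) h0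
    rw [eval_adj, map_zero] at h1
    have h2 : (1 : Matrix (Fin n) (Fin n) k) = (GM k n).map (eval (fun p : NZ n =>
        (1 : Matrix (Fin n) (Fin n) k) p.1.1 p.1.2)) + Matrix.single ⟨0, hn⟩ ⟨0, hn⟩ 1 := by
      ext i j
      rw [Matrix.add_apply]
      by_cases h : i.val = 0 ∧ j.val = 0
      · have hi : i = ⟨0, hn⟩ := Fin.ext h.1
        have hj : j = ⟨0, hn⟩ := Fin.ext h.2
        rw [GM_eval0 _ _ _ h, hi, hj]
        simp
      · rw [GM_eval _ _ _ h, Matrix.single_apply_of_ne, add_zero]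
        rintro ⟨h3, h4⟩
        exact h ⟨by rw [← h3], by rw [← h4]⟩
    rw [← adj_add_single _ _ 1, ← h2, Matrix.adjugate_one, Matrix.one_apply_eq] at h1
    exact one_ne_zero h1
  s := cs hn
  sreg := by
    intro a ha
    have hle : slAlg k n ≤ RegAlong ((GM k n).adjugate ⟨0, hn⟩ ⟨0, hn⟩) (cs hn) := by
      apply slAlg_le
      intro i j
      refine ⟨(GM k n) i j * (GM k n).adjugate ⟨0, hn⟩ ⟨0, hn⟩
        + (Matrix.single ⟨0, hn⟩ ⟨0, hn⟩ (1 - (GM k n).det) : Matrix (Fin n) (Fin n) _) i j, 1,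
        fun Y hY => ?_⟩
      show (cs hn Y : Matrix (Fin n) (Fin n) k) i j * _ = _
      rw [eval_adj] at hY
      rw [cs_coe hn Y hY, pow_one, eval_adj, Matrix.add_apply, add_mul, map_add, map_mul, eval_adj]
      congr 1
      by_cases h : i = ⟨0, hn⟩ ∧ j = ⟨0, hn⟩
      · obtain ⟨rfl, rfl⟩ := h
        rw [Matrix.single_apply_same, Matrix.single_apply_same, div_mul_cancel₀ _ hY, map_sub,
          map_one, RingHom.map_det]
        rfl
      · rw [Matrix.single_apply_of_ne, Matrix.single_apply_of_ne, zero_mul, map_zero]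
        · rintro ⟨h3, h4⟩; exact h ⟨h3.symm, h4.symm⟩
        · rintro ⟨h3, h4⟩; exact h ⟨h3.symm, h4.symm⟩
    exact hle ha
  fiber := by
    intro g hg Y hY
    have hY' : ∀ p : NZ n, Y p = (g : Matrix (Fin n) (Fin n) k) p.1.1 p.1.2 := by
      intro p
      have := hY p
      simpa [dd] using this
    have h1 : (g : Matrix (Fin n) (Fin n) k) = (GM k n).map (eval Y) + Matrix.single ⟨0, hn⟩ ⟨0, hn⟩
        ((g : Matrix (Fin n) (Fin n) k) ⟨0, hn⟩ ⟨0, hn⟩) := by
      ext i j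
      rw [Matrix.add_apply]
      by_cases h : i.val = 0 ∧ j.val = 0
      · have hi : i = ⟨0, hn⟩ := Fin.ext h.1
        have hj : j = ⟨0, hn⟩ := Fin.ext h.2
        rw [GM_eval0 _ _ _ h, hi, hj]
        simp
      · rw [GM_eval _ _ _ h, Matrix.single_apply_of_ne, add_zero, hY']
        rintro ⟨h3, h4⟩
        exact h ⟨by rw [← h3], by rw [← h4]⟩
    have h2 : ((GM k n).map (eval Y)).adjugate ⟨0, hn⟩ ⟨0, hn⟩ ≠ 0 := by
      rw [← adj_add_single _ _ ((g : Matrix (Fin n) (Fin n) k) ⟨0, hn⟩ ⟨0, hn⟩), ← h1]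
      exact hg
    refine ⟨by rw [eval_adj]; exact h2, 1, one_mem _, ?_⟩
    rw [mul_one]
    apply Subtype.ext
    rw [cs_coe hn Y h2]
    have h3 := det_add_single ((GM k n).map (eval Y)) ⟨0, hn⟩
      ((g : Matrix (Fin n) (Fin n) k) ⟨0, hn⟩ ⟨0, hn⟩)
    rw [← h1, g.2] at h3
    have h4 : (1 - ((GM k n).map (eval Y)).det) / ((GM k n).map (eval Y)).adjugate ⟨0, hn⟩ ⟨0, hn⟩
        = (g : Matrix (Fin n) (Fin n) k) ⟨0, hn⟩ ⟨0, hn⟩ := by
      rw [div_eq_iff h2]
      linear_combination h3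
    rw [h4]
    exact h1
  dom := by
    intro Y hY
    rw [eval_adj] at hY
    refine ⟨?_, ?_⟩
    · show (cs hn Y : Matrix (Fin n) (Fin n) k).adjugate _ _ ≠ 0
      rw [cs_coe hn Y hY, adj_add_single]
      exact hY
    · intro p
      show (cs hn Y : Matrix (Fin n) (Fin n) k) p.1.1 p.1.2 = _
      rw [cs_coe hn Y hY, Matrix.add_apply, GM_eval Y _ _ p.2, Matrix.single_apply_of_ne, add_zero]
      · simp [dd]
      · rintro ⟨h3, h4⟩
        exact p.2 ⟨by rw [← h3], by rw [← h4]⟩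
  inv := by
    intro h hh g _ p
    rw [Subgroup.mem_bot.mp hh, mul_one]
  equiv := by
    intro h hh
    obtain ⟨r, hr, hrz⟩ := Matrix.SpecialLinearGroup.mem_center_iff.mp hh
    rw [Fintype.card_fin] at hr
    have hr0 : r ≠ 0 := by
      rintro rfl
      rw [zero_pow hn.ne'] at hr
      exact zero_ne_one hr
    have hgh : ∀ g : Matrix.SpecialLinearGroup (Fin n) k,
        ((g * h : Matrix.SpecialLinearGroup (Fin n) k) : Matrix (Fin n) (Fin n) k)
        = r • (g : Matrix (Fin n) (Fin n) k) := by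
      intro g
      rw [Matrix.SpecialLinearGroup.coe_mul, ← hrz, Matrix.scalar_apply,
        ← Matrix.smul_one_eq_diagonal, Matrix.mul_smul, mul_one]
    refine ⟨r • 1, fun g hg => ⟨?_, fun p => ?_⟩⟩
    · show ((g * h : Matrix.SpecialLinearGroup (Fin n) k) : Matrix (Fin n) (Fin n) k).adjugate _ _ ≠ 0
      rw [hgh, Matrix.adjugate_smul, Matrix.smul_apply, smul_eq_mul]
      exact mul_ne_zero (pow_ne_zero _ hr0) hg
    · show ((g * h : Matrix.SpecialLinearGroup (Fin n) k) : Matrix (Fin n) (Fin n) k) p.1.1 p.1.2 = _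
      rw [hgh, Matrix.smul_apply]
      simp [Matrix.one_apply]

end

end Pool.Agent.Helper14.RG
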