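import Mathlib

namespace Pool.Agent.Helper14.RG

/-- Decomposition of a permutation of a finite type into cyclic shifts. -/
theorem exists_cycles {ι : Type*} [Fintype ι] [DecidableEq ι] (p : Equiv.Perm ι) :
    ∃ (C : Type) (_ : Fintype C) (_ : DecidableEq C) (m : C → ℕ)
      (e : (Σ c, Fin (m c + 1)) ≃ ι), ∀ c j, p (e ⟨c, j⟩) = e ⟨c, j + 1⟩ := by
  classical
  let s := Equiv.Perm.SameCycle.setoid p
  have hfin : Finite (Quotient s) := inferInstance
  let f : Quotient s ≃ Fin (Nat.card (Quotient s)) := Finite.equivFin _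
  let r : Fin (Nat.card (Quotient s)) → ι := fun c => (f.symm c).out
  have hper : ∀ x : ι, x ∈ Function.periodicPts p := by
    intro x
    refine Function.mk_mem_periodicPts (orderOf_pos p) ?_
    show p^[orderOf p] x = x
    rw [← Equiv.Perm.coe_pow, pow_orderOf_eq_one]
    rfl
  let m : Fin (Nat.card (Quotient s)) → ℕ := fun c => Function.minimalPeriod p (r c) - 1
  have hm : ∀ c, m c + 1 = Function.minimalPeriod p (r c) := fun c => by
    have := Function.minimalPeriod_pos_of_mem_periodicPts (hper (r c))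
    show Function.minimalPeriod p (r c) - 1 + 1 = _
    omega
  let e0 : (Σ c, Fin (m c + 1)) → ι := fun x => p^[x.2.val] (r x.1)
  have hsc : ∀ (c) (j : ℕ), Equiv.Perm.SameCycle p (r c) (p^[j] (r c)) := by
    intro c j
    refine ⟨j, ?_⟩
    rw [zpow_natCast, Equiv.Perm.coe_pow]
  have hbij : Function.Bijective e0 := by
    constructor
    · rintro ⟨c, j⟩ ⟨c', j'⟩ h
      have h : p^[j.val] (r c) = p^[j'.val] (r c') := h
      have h1 : Equiv.Perm.SameCycle p (r c) (r c') := by
        have h2 := hsc c j.val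
        rw [h] at h2
        exact h2.trans (hsc c' j'.val).symm
      have h2 : c = c' := by
        have h3 : (⟦r c⟧ : Quotient s) = ⟦r c'⟧ := Quotient.sound h1
        have h4 : f.symm c = f.symm c' := by
          rw [← Quotient.out_eq (f.symm c), ← Quotient.out_eq (f.symm c')]
          exact h3
        exact f.symm.injective h4
      subst h2
      have hj : j.val < Function.minimalPeriod p (r c) := by rw [← hm]; exact j.isLt
      have hj' : j'.val < Function.minimalPeriod p (r c) := by rw [← hm]; exact j'.isLt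
      have h5 := Function.iterate_injOn_Iio_minimalPeriod (f := p) (x := r c) hj hj' h
      have h6 : j = j' := Fin.ext h5
      rw [h6]
    · intro x
      have h1 : Equiv.Perm.SameCycle p (r (f ⟦x⟧)) x := by
        have h2 : (⟦(Quotient.out (⟦x⟧ : Quotient s))⟧ : Quotient s) = ⟦x⟧ := Quotient.out_eq _
        have h3 := Quotient.exact h2
        show Equiv.Perm.SameCycle p ((f.symm (f ⟦x⟧)).out) x
        rw [Equiv.symm_apply_apply]
        exact h3
      obtain ⟨i, -, hi⟩ := h1.exists_pow_eq'
      refine ⟨⟨f ⟦x⟧, ⟨i % (m (f ⟦x⟧) + 1), Nat.mod_lt _ (Nat.succ_pos _)⟩⟩, ?_⟩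
      show p^[i % (m (f ⟦x⟧) + 1)] (r (f ⟦x⟧)) = x
      rw [hm, Function.iterate_mod_minimalPeriod_eq, ← Equiv.Perm.coe_pow]
      exact hi
  refine ⟨Fin (Nat.card (Quotient s)), inferInstance, inferInstance, m,
    Equiv.ofBijective e0 hbij, ?_⟩
  intro c j
  show p (p^[j.val] (r c)) = p^[(j + 1 : Fin (m c + 1)).val] (r c)
  have h1 : (j + 1 : Fin (m c + 1)).val = (j.val + 1) % (m c + 1) := by
    rw [Fin.val_add]
    rcases Nat.eq_zero_or_pos (m c) with h | h
    · have : ∀ (a : ℕ), a % (m c + 1) = 0 := by rw [h]; intro a; exact Nat.mod_one a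
      rw [this, this]
    · have : (1 : Fin (m c + 1)).val = 1 := by
        rw [Fin.val_one']
        exact Nat.mod_eq_of_lt (by omega)
      rw [this]
  have h2 : (j.val + 1) % (m c + 1) = (j.val + 1) % Function.minimalPeriod p (r c) :=
    congrArg (fun P => (j.val + 1) % P) (hm c)
  rw [h1, h2, Function.iterate_mod_minimalPeriod_eq, Function.iterate_succ_apply']

end Pool.Agent.Helper14.RG
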