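import Pool.Agent.Helper14.RG.CycMain
import Pool.Agent.Helper14.RG.Perm

namespace Pool.Agent.Helper14.RG

open MvPolynomial Matrix

section Mk

variable {k : Type*} [Field k] {n : ℕ}

/-- conjugation by an invertible matrix -/
noncomputable def innerStd (a : Matrix (Fin n) (Fin n) k) (ha : a.det ≠ 0) :
    Matrix.SpecialLinearGroup (Fin n) k ≃* Matrix.SpecialLinearGroup (Fin n) k where
  toFun g := ⟨a * (g : Matrix (Fin n) (Fin n) k) * a⁻¹, by
    rw [Matrix.det_mul, Matrix.det_mul, g.2, mul_one, Matrix.det_nonsing_inv,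
      Ring.inverse_eq_inv', mul_inv_cancel₀ ha]⟩
  invFun g := ⟨a⁻¹ * (g : Matrix (Fin n) (Fin n) k) * a, by
    rw [Matrix.det_mul, Matrix.det_mul, g.2, mul_one, Matrix.det_nonsing_inv,
      Ring.inverse_eq_inv', inv_mul_cancel₀ ha]⟩
  left_inv := by
    intro g
    have hau : IsUnit a.det := isUnit_iff_ne_zero.mpr ha
    apply Subtype.ext
    show a⁻¹ * (a * (g : Matrix (Fin n) (Fin n) k) * a⁻¹) * a = g
    calc a⁻¹ * (a * (g : Matrix (Fin n) (Fin n) k) * a⁻¹) * a
        = (a⁻¹ * a) * (g : Matrix (Fin n) (Fin n) k) * (a⁻¹ * a) := by simp only [mul_assoc]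
      _ = g := by rw [Matrix.nonsing_inv_mul _ hau, one_mul, mul_one]
  right_inv := by
    intro g
    have hau : IsUnit a.det := isUnit_iff_ne_zero.mpr ha
    apply Subtype.ext
    show a * (a⁻¹ * (g : Matrix (Fin n) (Fin n) k) * a) * a⁻¹ = g
    calc a * (a⁻¹ * (g : Matrix (Fin n) (Fin n) k) * a) * a⁻¹
        = (a * a⁻¹) * (g : Matrix (Fin n) (Fin n) k) * (a * a⁻¹) := by simp only [mul_assoc]
      _ = g := by rw [Matrix.mul_nonsing_inv _ hau, one_mul, mul_one]
  map_mul' := by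
    intro g h
    have hau : IsUnit a.det := isUnit_iff_ne_zero.mpr ha
    apply Subtype.ext
    show a * ((g * h : Matrix.SpecialLinearGroup (Fin n) k) : Matrix (Fin n) (Fin n) k) * a⁻¹
      = (a * (g : Matrix (Fin n) (Fin n) k) * a⁻¹) * (a * (h : Matrix (Fin n) (Fin n) k) * a⁻¹)
    rw [Matrix.SpecialLinearGroup.coe_mul]
    calc a * ((g : Matrix (Fin n) (Fin n) k) * (h : Matrix (Fin n) (Fin n) k)) * a⁻¹
        = a * (g : Matrix (Fin n) (Fin n) k) * 1 * (h : Matrix (Fin n) (Fin n) k) * a⁻¹ := by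
          rw [mul_one]; simp only [mul_assoc]
      _ = a * (g : Matrix (Fin n) (Fin n) k) * (a⁻¹ * a) * (h : Matrix (Fin n) (Fin n) k) * a⁻¹ := by
          rw [Matrix.nonsing_inv_mul _ hau]
      _ = _ := by simp only [mul_assoc]

lemma innerStd_rel (a : Matrix (Fin n) (Fin n) k) (ha : a.det ≠ 0)
    (g : Matrix.SpecialLinearGroup (Fin n) k) :
    (innerStd a ha g : Matrix (Fin n) (Fin n) k) * a = a * (g : Matrix (Fin n) (Fin n) k) := by
  show a * (g : Matrix (Fin n) (Fin n) k) * a⁻¹ * a = _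
  rw [mul_assoc, Matrix.nonsing_inv_mul _ (isUnit_iff_ne_zero.mpr ha), mul_one]

/-- transpose -/
def trS (g : Matrix.SpecialLinearGroup (Fin n) k) : Matrix.SpecialLinearGroup (Fin n) k :=
  ⟨(g : Matrix (Fin n) (Fin n) k).transpose, by rw [Matrix.det_transpose]; exact g.2⟩

lemma trS_mul (g h : Matrix.SpecialLinearGroup (Fin n) k) : trS (g * h) = trS h * trS g := by
  apply Subtype.ext
  show ((g * h : Matrix.SpecialLinearGroup (Fin n) k) : Matrix (Fin n) (Fin n) k).transpose
    = (h : Matrix (Fin n) (Fin n) k).transpose * (g : Matrix (Fin n) (Fin n) k).transpose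
  rw [Matrix.SpecialLinearGroup.coe_mul, Matrix.transpose_mul]

lemma trS_one : trS (1 : Matrix.SpecialLinearGroup (Fin n) k) = 1 := by
  apply Subtype.ext
  show ((1 : Matrix.SpecialLinearGroup (Fin n) k) : Matrix (Fin n) (Fin n) k).transpose = 1
  rw [Matrix.SpecialLinearGroup.coe_one, Matrix.transpose_one]

lemma trS_trS (g : Matrix.SpecialLinearGroup (Fin n) k) : trS (trS g) = g := by
  apply Subtype.ext
  show ((g : Matrix (Fin n) (Fin n) k).transpose).transpose = g
  rw [Matrix.transpose_transpose]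

lemma trS_inv (g : Matrix.SpecialLinearGroup (Fin n) k) : (trS g)⁻¹ = trS g⁻¹ := by
  apply inv_eq_of_mul_eq_one_right
  rw [← trS_mul, inv_mul_cancel, trS_one]

/-- inverse transpose -/
def invT : Matrix.SpecialLinearGroup (Fin n) k ≃* Matrix.SpecialLinearGroup (Fin n) k where
  toFun g := trS g⁻¹
  invFun g := trS g⁻¹
  left_inv := by
    intro g
    show trS (trS g⁻¹)⁻¹ = g
    rw [trS_inv, trS_trS, inv_inv]
  right_inv := by
    intro g
    show trS (trS g⁻¹)⁻¹ = g
    rw [trS_inv, trS_trS, inv_inv]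
  map_mul' := by
    intro g h
    rw [_root_.mul_inv_rev, trS_mul]

lemma invT_rel (g : Matrix.SpecialLinearGroup (Fin n) k) :
    (invT g : Matrix (Fin n) (Fin n) k) * (g : Matrix (Fin n) (Fin n) k).transpose = 1 := by
  show ((g⁻¹ : Matrix.SpecialLinearGroup (Fin n) k) : Matrix (Fin n) (Fin n) k).transpose * _ = _
  rw [← Matrix.transpose_mul, ← Matrix.SpecialLinearGroup.coe_mul, mul_inv_cancel,
    Matrix.SpecialLinearGroup.coe_one, Matrix.transpose_one]

lemma outerStd_rel (a : Matrix (Fin n) (Fin n) k) (ha : a.det ≠ 0)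
    (g : Matrix.SpecialLinearGroup (Fin n) k) :
    ((invT.trans (innerStd a ha)) g : Matrix (Fin n) (Fin n) k) * a
      * (g : Matrix (Fin n) (Fin n) k).transpose = a := by
  show (innerStd a ha (invT g) : Matrix (Fin n) (Fin n) k) * a * _ = a
  rw [innerStd_rel, mul_assoc, invT_rel, mul_one]

/-- the standard relation between two matrices -/
def StdRel (ε : Bool) {p q : ℕ} (a : Matrix (Fin p) (Fin q) k) (h : Matrix (Fin p) (Fin p) k)
    (g : Matrix (Fin q) (Fin q) k) : Prop :=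
  if ε then h * a * g.transpose = a else h * a = a * g

lemma exists_std (ε : Bool) (a : Matrix (Fin n) (Fin n) k) (ha : a.det ≠ 0) :
    ∃ τ : Matrix.SpecialLinearGroup (Fin n) k ≃* Matrix.SpecialLinearGroup (Fin n) k, IsStd τ ∧
      ∀ h g : Matrix.SpecialLinearGroup (Fin n) k, StdRel ε a (h : Matrix (Fin n) (Fin n) k)
        (g : Matrix (Fin n) (Fin n) k) → h = τ g := by
  cases ε
  · refine ⟨innerStd a ha, ⟨a, ha, Or.inl (innerStd_rel a ha)⟩, fun h g hr => ?_⟩
    have hr' : (h : Matrix (Fin n) (Fin n) k) * a = a * (g : Matrix (Fin n) (Fin n) k) := hr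
    apply Subtype.ext
    apply cancel_right ha
    rw [hr', innerStd_rel]
  · refine ⟨invT.trans (innerStd a ha), ⟨a, ha, Or.inr (outerStd_rel a ha)⟩, fun h g hr => ?_⟩
    have hr' : (h : Matrix (Fin n) (Fin n) k) * a * (g : Matrix (Fin n) (Fin n) k).transpose = a := hr
    apply Subtype.ext
    apply cancel_right ha
    have hg : (g : Matrix (Fin n) (Fin n) k).transpose.det ≠ 0 := by
      rw [Matrix.det_transpose, g.2]; exact one_ne_zero
    apply cancel_right hg
    rw [hr', outerStd_rel]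

lemma exists_tau {C : Type*} {m : C → ℕ} (ν : C → ℕ) (x y : Σ c, Fin (m c + 1)) (ε : Bool)
    (a : Matrix (Fin (ν x.1)) (Fin (ν y.1)) k) (b : Matrix (Fin (ν y.1)) (Fin (ν x.1)) k)
    (hab : a * b = 1) (c : C) (j : Fin (m c + 1)) (hx : x = ⟨c, j⟩) (hy : y = ⟨c, j + 1⟩) :
    ∃ τ : Matrix.SpecialLinearGroup (Fin (ν c)) k ≃* Matrix.SpecialLinearGroup (Fin (ν c)) k,
      IsStd τ ∧ ∀ h g : (∀ c, Fin (m c + 1) → Matrix.SpecialLinearGroup (Fin (ν c)) k),
        StdRel ε a (h x.1 x.2 : Matrix (Fin (ν x.1)) (Fin (ν x.1)) k)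
          (g y.1 y.2 : Matrix (Fin (ν y.1)) (Fin (ν y.1)) k) → h c j = τ (g c (j + 1)) := by
  subst hx hy
  have ha : a.det ≠ 0 := by
    intro h0
    have := congrArg Matrix.det hab
    rw [Matrix.det_mul, h0, zero_mul, Matrix.det_one] at this
    exact zero_ne_one this
  obtain ⟨τ, h1, h2⟩ := exists_std ε a ha
  exact ⟨τ, h1, fun h g hr => h2 _ _ hr⟩

end Mk

theorem general_rational {k : Type*} [Field k] [IsAlgClosed k] [CharZero k] {ι : Type*} [Fintype ι]
    [DecidableEq ι] (n : ι → ℕ) {Q : Type*} [Group Q] (π : SC k n →* Q)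
    (hπ : Function.Surjective π) (hZ : π.ker ≤ Subgroup.center _) (σ : Q ≃* Q) (M : ℕ) (hM : 0 < M)
    (hfin : ∀ x, σ^[M] x = x) (p : Equiv.Perm ι) (ε : ι → Bool)
    (a : ∀ i, Matrix (Fin (n i)) (Fin (n (p i))) k) (b : ∀ i, Matrix (Fin (n (p i))) (Fin (n i)) k)
    (hab : ∀ i, a i * b i = 1) (hba : ∀ i, b i * a i = 1)
    (hσ : ∀ g : SC k n, ∃ h : SC k n, σ (π g) = π h ∧
      ∀ i, StdRel (ε i) (a i) (h i : Matrix (Fin (n i)) (Fin (n i)) k)
        (g (p i) : Matrix (Fin (n (p i))) (Fin (n (p i))) k)) :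
    RationalQuotient (quotAlg (regSC k n) π : Set (Q → k)) (fixSub σ) := by
  classical
  obtain ⟨C, _, _, m, e, he⟩ := exists_cycles p
  have hn : ∀ i, n (p i) = n i := by
    intro i
    have h1 := Matrix.square_of_invertible (a i) (b i) (hab i) (hba i)
    simpa using h1.symm
  have hν : ∀ c (j : Fin (m c + 1)), n (e ⟨c, j⟩) = n (e ⟨c, 0⟩) := by
    intro c j
    induction j using Fin.induction with
    | zero => rfl
    | succ j ih =>
      rw [← Fin.coeSucc_eq_succ, ← he, hn, ih]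
  obtain ⟨ν, hne⟩ : ∃ ν : C → ℕ, n = fun i => ν (e.symm i).1 := by
    refine ⟨fun c => n (e ⟨c, 0⟩), funext fun i => ?_⟩
    obtain ⟨⟨c, j⟩, rfl⟩ := e.surjective i
    show n (e ⟨c, j⟩) = n (e ⟨(e.symm (e ⟨c, j⟩)).1, 0⟩)
    rw [Equiv.symm_apply_apply]
    exact hν c j
  subst hne
  have hcong : ∀ c (j : Fin (m c + 1)), e.symm (e ⟨c, j⟩) = ⟨c, j⟩ := fun c j =>
    Equiv.symm_apply_apply _ _
  have hcong' : ∀ c (j : Fin (m c + 1)), e.symm (p (e ⟨c, j⟩)) = ⟨c, j + 1⟩ := fun c j => by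
    rw [he]; exact Equiv.symm_apply_apply _ _
  choose τ hτ1 hτ2 using fun c (j : Fin (m c + 1)) =>
    exists_tau ν (e.symm (e ⟨c, j⟩)) (e.symm (p (e ⟨c, j⟩))) (ε (e ⟨c, j⟩)) (a (e ⟨c, j⟩))
      (b (e ⟨c, j⟩)) (hab _) c j (hcong c j) (hcong' c j)
  -- the identification
  let Ψe : (∀ c, Fin (m c + 1) → Matrix.SpecialLinearGroup (Fin (ν c)) k)
      ≃ SC k (fun i => ν (e.symm i).1) :=
    (Equiv.piCurry (fun c (_ : Fin (m c + 1)) => Matrix.SpecialLinearGroup (Fin (ν c)) k)).symm.trans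
      (Equiv.piCongrLeft' (fun x : Σ c, Fin (m c + 1) =>
        Matrix.SpecialLinearGroup (Fin (ν x.1)) k) e)
  have hΨ : ∀ g i, Ψe g i = g (e.symm i).1 (e.symm i).2 := fun g i => rfl
  let Ψ : (∀ c, Fin (m c + 1) → Matrix.SpecialLinearGroup (Fin (ν c)) k)
      →* SC k (fun i => ν (e.symm i).1) :=
    { toFun := fun g => Ψe g
      map_one' := rfl
      map_mul' := fun _ _ => rfl }
  have hΨs : Function.Surjective Ψ := Ψe.surjective
  have hΨi : Function.Injective Ψ := Ψe.injective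
  have hker : (π.comp Ψ).ker ≤ Subgroup.center _ := by
    intro g hg
    have h1 : Ψ g ∈ π.ker := hg
    rw [Subgroup.mem_center_iff]
    intro h
    apply hΨi
    rw [map_mul, map_mul]
    exact Subgroup.mem_center_iff.mp (hZ h1) (Ψ h)
  have hσ' : ∀ g, σ ((π.comp Ψ) g) = (π.comp Ψ) (fun c => cycAut (m c) (τ c) (g c)) := by
    intro g
    obtain ⟨h, h1, h2⟩ := hσ (Ψ g)
    obtain ⟨h', rfl⟩ := hΨs h
    have h3 : h' = fun c => cycAut (m c) (τ c) (g c) := by
      funext c j
      exact hτ2 c j h' g (h2 (e ⟨c, j⟩))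
    rw [← h3]
    exact h1
  have main := cyc_rational m ν τ hτ1 (π.comp Ψ) (hπ.comp hΨs) hker σ hσ' M hM hfin
  -- comparison of the regular functions
  have hfwd : ∀ F ∈ regSC k (fun i => ν (e.symm i).1), (fun g => F (Ψ g)) ∈
      prodAlg (fun c => prodAlg (fun _ : Fin (m c + 1) => slAlg k (ν c))) := by
    intro F hF
    induction hF using Algebra.adjoin_induction with
    | mem x hx =>
      obtain ⟨i, a, b, rfl⟩ := hx
      exact mem_prodAlg (fun c => prodAlg (fun _ : Fin (m c + 1) => slAlg k (ν c))) (e.symm i).1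
        (mem_prodAlg (fun _ : Fin (m (e.symm i).1 + 1) => slAlg k (ν (e.symm i).1)) (e.symm i).2
          (entry_mem a b))
    | algebraMap r => exact Subalgebra.algebraMap_mem _ r
    | add x y _ _ hx hy => exact add_mem hx hy
    | mul x y _ _ hx hy => exact mul_mem hx hy
  have hbwd : ∀ F ∈ prodAlg (fun c => prodAlg (fun _ : Fin (m c + 1) => slAlg k (ν c))),
      (fun g => F (Ψe.symm g)) ∈ regSC k (fun i => ν (e.symm i).1) := by
    have hent : ∀ (y : Σ c, Fin (m c + 1)) (a b : Fin (ν y.1)),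
        (fun g : SC k (fun i => ν (e.symm i).1) =>
          ((Ψe.symm g) y.1 y.2 : Matrix (Fin (ν y.1)) (Fin (ν y.1)) k) a b)
            ∈ regSC k (fun i => ν (e.symm i).1) := by
      intro y
      obtain ⟨x, rfl⟩ := e.symm.surjective y
      intro a b
      have h1 : ∀ g : SC k (fun i => ν (e.symm i).1),
          (Ψe.symm g) (e.symm x).1 (e.symm x).2 = g x := by
        intro g
        rw [← hΨ (Ψe.symm g) x, Equiv.apply_symm_apply]
      simp only [h1]
      exact Algebra.subset_adjoin ⟨x, a, b, rfl⟩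
    intro F hF
    induction hF using Algebra.adjoin_induction with
    | mem x hx =>
      obtain ⟨c, a', ha', rfl⟩ := hx
      induction ha' using Algebra.adjoin_induction with
      | mem x hx =>
        obtain ⟨j, a'', ha'', rfl⟩ := hx
        exact slAlg_comp _ (fun g => (Ψe.symm g) c j) (fun a b => hent ⟨c, j⟩ a b) a'' ha''
      | algebraMap r => exact Subalgebra.algebraMap_mem _ r
      | add x y _ _ hx hy => exact add_mem hx hy
      | mul x y _ _ hx hy => exact mul_mem hx hy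
    | algebraMap r => exact Subalgebra.algebraMap_mem _ r
    | add x y _ _ hx hy => exact add_mem hx hy
    | mul x y _ _ hx hy => exact mul_mem hx hy
  have hset : (quotAlg (regSC k (fun i => ν (e.symm i).1)) π : Set (Q → k))
      = (quotAlg (prodAlg (fun c => prodAlg (fun _ : Fin (m c + 1) => slAlg k (ν c))))
        (π.comp Ψ) : Set (Q → k)) := by
    ext f
    constructor
    · intro hf
      exact hfwd _ hf
    · intro hf
      have h1 := hbwd _ hf
      have h2 : (fun g => (fun g' => f ((π.comp Ψ) g')) (Ψe.symm g)) = fun g => f (π g) := by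
        funext g
        show f (π (Ψe (Ψe.symm g))) = _
        rw [Equiv.apply_symm_apply]
      rw [h2] at h1
      exact h1
  rw [hset]
  exact main

end Pool.Agent.Helper14.RG
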