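import Mathlib

namespace Pool.Agent.Helper14.RG

open MvPolynomial

variable {k : Type*} [Field k] {X : Type*}

/-- Irreducibility of an algebra of functions. -/
def Irr (A : Subalgebra k (X → k)) : Prop :=
  Nonempty X ∧ ∀ a ∈ A, ∀ b ∈ A, a ≠ 0 → b ≠ 0 → ∃ x, a x ≠ 0 ∧ b x ≠ 0

lemma Irr.isDomain {A : Subalgebra k (X → k)} (h : Irr A) : IsDomain A := by
  have h1 : NoZeroDivisors A := by
    refine ⟨?_⟩
    intro a b hab
    by_contra hne
    rw [not_or] at hne
    obtain ⟨x, hx1, hx2⟩ := h.2 a.1 a.2 b.1 b.2 (fun h => hne.1 (Subtype.ext h))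
      (fun h => hne.2 (Subtype.ext h))
    have := congrFun (congrArg Subtype.val hab) x
    exact mul_ne_zero hx1 hx2 this
  have h2 : Nontrivial A := by
    obtain ⟨x⟩ := h.1
    refine ⟨⟨0, 1, ?_⟩⟩
    intro h
    have := congrFun (congrArg Subtype.val h) x
    exact zero_ne_one this
  exact NoZeroDivisors.to_isDomain A

section Rep

variable (A : Subalgebra k (X → k)) [IsDomain A]

/-- The rational function `x` is represented by the function `f` on a non-empty open set. -/
def Rep (x : FractionRing A) (f : X → k) : Prop :=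
  ∃ a b : A, b ≠ 0 ∧ x * algebraMap A (FractionRing A) b = algebraMap A (FractionRing A) a ∧
    ∀ g, (b : X → k) g ≠ 0 → f g * (b : X → k) g = (a : X → k) g

variable {A}

lemma aM_inj {a b : A} (h : algebraMap A (FractionRing A) a = algebraMap A (FractionRing A) b) :
    a = b := IsFractionRing.injective A (FractionRing A) h

lemma aM_ne {a : A} (h : a ≠ 0) : algebraMap A (FractionRing A) a ≠ 0 := by
  intro h1
  apply h
  apply aM_inj
  rw [h1, map_zero]

lemma Rep.unique {x x' : FractionRing A} {f f' : X → k} (h : Rep A x f) (h' : Rep A x' f')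
    (c : A) (hc : c ≠ 0) (hff : ∀ g, (c : X → k) g ≠ 0 → f g = f' g) : x = x' := by
  obtain ⟨a, b, hb, hx, hf⟩ := h
  obtain ⟨a', b', hb', hx', hf'⟩ := h'
  have hbb : b * b' * c ≠ 0 := mul_ne_zero (mul_ne_zero hb hb') hc
  have h1 : (a * b' - a' * b) * (b * b' * c) = 0 := by
    apply Subtype.ext
    funext g
    show ((a : X → k) g * (b' : X → k) g - (a' : X → k) g * (b : X → k) g)
      * ((b : X → k) g * (b' : X → k) g * (c : X → k) g) = 0
    by_cases h1 : (b : X → k) g = 0
    · rw [h1]; ring
    by_cases h2 : (b' : X → k) g = 0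
    · rw [h2]; ring
    by_cases h3 : (c : X → k) g = 0
    · rw [h3]; ring
    rw [← hf g h1, ← hf' g h2, hff g h3]
    ring
  have h2 : a * b' - a' * b = 0 := (mul_eq_zero.mp h1).resolve_right hbb
  have h3 : (x - x') * algebraMap A (FractionRing A) (b * b') = 0 := by
    have : (x - x') * algebraMap A (FractionRing A) (b * b')
        = algebraMap A (FractionRing A) (a * b' - a' * b) := by
      rw [map_sub, map_mul, map_mul, map_mul, ← hx, ← hx']
      ring
    rw [this, h2, map_zero]
  exact sub_eq_zero.mp ((mul_eq_zero.mp h3).resolve_right (aM_ne (mul_ne_zero hb hb')))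

lemma Rep.of (a : A) : Rep A (algebraMap A (FractionRing A) a) a :=
  ⟨a, 1, one_ne_zero, by rw [map_one, mul_one], fun g _ => mul_one _⟩

lemma Rep.const (c : k) : Rep A (algebraMap k (FractionRing A) c) (fun _ => c) := by
  rw [IsScalarTower.algebraMap_apply k A (FractionRing A)]
  exact Rep.of _

lemma Rep.add {x x' : FractionRing A} {f f' : X → k} (h : Rep A x f) (h' : Rep A x' f') :
    Rep A (x + x') (fun g => f g + f' g) := by
  obtain ⟨a, b, hb, hx, hf⟩ := h
  obtain ⟨a', b', hb', hx', hf'⟩ := h'
  refine ⟨a * b' + a' * b, b * b', mul_ne_zero hb hb', ?_, ?_⟩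
  · rw [map_add, map_mul, map_mul, map_mul, ← hx, ← hx']
    ring
  · intro g hg
    have hg' : (b : X → k) g * (b' : X → k) g ≠ 0 := hg
    show (f g + f' g) * ((b : X → k) g * (b' : X → k) g)
      = (a : X → k) g * (b' : X → k) g + (a' : X → k) g * (b : X → k) g
    rw [← hf g (left_ne_zero_of_mul hg'), ← hf' g (right_ne_zero_of_mul hg')]
    ring

lemma Rep.mul {x x' : FractionRing A} {f f' : X → k} (h : Rep A x f) (h' : Rep A x' f') :
    Rep A (x * x') (fun g => f g * f' g) := by
  obtain ⟨a, b, hb, hx, hf⟩ := h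
  obtain ⟨a', b', hb', hx', hf'⟩ := h'
  refine ⟨a * a', b * b', mul_ne_zero hb hb', ?_, ?_⟩
  · rw [map_mul, map_mul, ← hx, ← hx']
    ring
  · intro g hg
    have hg' : (b : X → k) g * (b' : X → k) g ≠ 0 := hg
    show (f g * f' g) * ((b : X → k) g * (b' : X → k) g) = (a : X → k) g * (a' : X → k) g
    rw [← hf g (left_ne_zero_of_mul hg'), ← hf' g (right_ne_zero_of_mul hg')]
    ring

lemma Rep.sum {ι : Type*} (s : Finset ι) {x : ι → FractionRing A} {f : ι → X → k}
    (h : ∀ i ∈ s, Rep A (x i) (f i)) : Rep A (∑ i ∈ s, x i) (fun g => ∑ i ∈ s, f i g) := by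
  classical
  induction s using Finset.induction_on with
  | empty =>
    simp only [Finset.sum_empty]
    have := Rep.const (A := A) 0
    rwa [map_zero] at this
  | insert a s ha ih =>
    simp only [Finset.sum_insert ha]
    exact (h a (Finset.mem_insert_self a s)).add
      (ih fun i hi => h i (Finset.mem_insert_of_mem hi))

lemma Rep.congr {x : FractionRing A} {f f' : X → k} (h : Rep A x f)
    (c : A) (hc : c ≠ 0) (hff : ∀ g, (c : X → k) g ≠ 0 → f g = f' g) : Rep A x f' := by
  obtain ⟨a, b, hb, hx, hf⟩ := h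
  refine ⟨a * c, b * c, mul_ne_zero hb hc, ?_, ?_⟩
  · rw [map_mul, map_mul, ← hx]; ring
  · intro g hg
    have hg' : (b : X → k) g * (c : X → k) g ≠ 0 := hg
    show f' g * ((b : X → k) g * (c : X → k) g) = (a : X → k) g * (c : X → k) g
    rw [← hf g (left_ne_zero_of_mul hg'), ← hff g (right_ne_zero_of_mul hg')]
    ring

lemma Rep.of_div (a b : A) (hb : b ≠ 0) {f : X → k}
    (hf : ∀ g, (b : X → k) g ≠ 0 → f g * (b : X → k) g = (a : X → k) g) :
    Rep A (algebraMap A (FractionRing A) a / algebraMap A (FractionRing A) b) f :=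
  ⟨a, b, hb, div_mul_cancel₀ _ (aM_ne hb), hf⟩

lemma Rep.aeval {N : Type*} {x : N → FractionRing A} {f : N → X → k}
    (h : ∀ j, Rep A (x j) (f j)) (P : MvPolynomial N k) :
    Rep A (MvPolynomial.aeval x P) (fun g => eval (fun j => f j g) P) := by
  induction P using MvPolynomial.induction_on with
  | C c => simpa using Rep.const c
  | add p q hp hq => simpa using hp.add hq
  | mul_X p j hp => simpa using hp.mul (h j)

end Rep

section Act

variable {G : Type*} [Group G]

/-- Stability under right translations. -/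
def RStable (A : Subalgebra k (G → k)) : Prop := ∀ h : G, ∀ a ∈ A, (fun g => a (g * h)) ∈ A

/-- Right translation on an algebra of functions. -/
def trA {A : Subalgebra k (G → k)} (hA : RStable A) : G →* (A ≃ₐ[k] A) where
  toFun h :=
    { toFun := fun a => ⟨fun g => (a : G → k) (g * h), hA h a.1 a.2⟩
      invFun := fun a => ⟨fun g => (a : G → k) (g * h⁻¹), hA h⁻¹ a.1 a.2⟩
      left_inv := by
        intro a
        apply Subtype.ext
        funext g
        show (a : G → k) (g * h⁻¹ * h) = (a : G → k) g
        rw [inv_mul_cancel_right]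
      right_inv := by
        intro a
        apply Subtype.ext
        funext g
        show (a : G → k) (g * h * h⁻¹) = (a : G → k) g
        rw [mul_inv_cancel_right]
      map_mul' := fun _ _ => rfl
      map_add' := fun _ _ => rfl
      commutes' := fun _ => rfl }
  map_one' := by
    ext a g
    show (a : G → k) (g * 1) = (a : G → k) g
    rw [mul_one]
  map_mul' := by
    intro h h'
    ext a g
    show (a : G → k) (g * (h * h')) = (a : G → k) (g * h * h')
    rw [mul_assoc]

lemma trA_apply {A : Subalgebra k (G → k)} (hA : RStable A) (h : G) (a : A) (g : G) :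
    ((trA hA h a : A) : G → k) g = (a : G → k) (g * h) := rfl

/-- Right translation on the field of rational functions. -/
noncomputable def trK {A : Subalgebra k (G → k)} [IsDomain A] (hA : RStable A) :
    G →* (FractionRing A ≃ₐ[k] FractionRing A) :=
  (IsFractionRing.fieldEquivOfAlgEquivHom k (FractionRing A)).comp (trA hA)

lemma trK_algebraMap {A : Subalgebra k (G → k)} [IsDomain A] (hA : RStable A) (h : G) (a : A) :
    trK hA h (algebraMap A (FractionRing A) a) = algebraMap A (FractionRing A) (trA hA h a) :=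
  IsFractionRing.fieldEquivOfAlgEquiv_algebraMap _ _ _ _ _

lemma Rep.tr {A : Subalgebra k (G → k)} [IsDomain A] (hA : RStable A) (h : G)
    {x : FractionRing A} {f : G → k} (hx : Rep A x f) : Rep A (trK hA h x) (fun g => f (g * h)) := by
  obtain ⟨a, b, hb, hx, hf⟩ := hx
  refine ⟨trA hA h a, trA hA h b, ?_, ?_, ?_⟩
  · intro h0
    exact hb ((trA hA h).injective (h0.trans (map_zero _).symm))
  · rw [← trK_algebraMap, ← trK_algebraMap, ← hx, map_mul]
  · intro g hg
    exact hf (g * h) hg

end Act

end Pool.Agent.Helper14.RG
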