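import Pool.Agent.Helper14.RG.Linear
import Pool.Agent.Helper14.RG.Rep

namespace Pool.Agent.Helper14.RG

open MvPolynomial

section Poly

variable {k : Type*} [Field k] {N : Type*} [Fintype N]

/-- exponents of the cover -/
def dd (dbl : N → Bool) (j : N) : ℕ := if dbl j then 2 else 1

lemma dd_pos (dbl : N → Bool) (j : N) : 0 < dd dbl j := by
  unfold dd; split_ifs <;> norm_num

/-- The map `X_j ↦ X_j ^ d_j`. -/
noncomputable def pw (dbl : N → Bool) : MvPolynomial N k →ₐ[k] MvPolynomial N k :=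
  aeval (fun j => X j ^ dd dbl j)

lemma eval_pw (dbl : N → Bool) (Y : N → k) (P : MvPolynomial N k) :
    eval Y (pw dbl P) = eval (fun j => Y j ^ dd dbl j) P := by
  induction P using MvPolynomial.induction_on with
  | C c => simp [pw]
  | add p q hp hq => rw [map_add, map_add, map_add, hp, hq]
  | mul_X p j hp => rw [map_mul, map_mul, map_mul, hp]; simp [pw]

lemma eval_sc (e : N → k) (Y : N → k) (P : MvPolynomial N k) :
    eval Y (sc e P) = eval (fun j => e j * Y j) P := by
  induction P using MvPolynomial.induction_on with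
  | C c => simp [sc]
  | add p q hp hq => rw [map_add, map_add, map_add, hp, hq]
  | mul_X p j hp => rw [map_mul, map_mul, map_mul, hp]; simp [sc]

lemma exists_pw [DecidableEq N] (h2 : (2 : k) ≠ 0) (dbl : N → Bool) (P : MvPolynomial N k)
    (hP : ∀ e : N → k, (∀ j, e j ^ dd dbl j = 1) → sc e P = P) :
    ∃ P0, P = pw dbl P0 := by
  classical
  have hmem : P ∈ (pw (k := k) dbl).range := by
    rw [P.as_sum]
    refine sum_mem fun m hm => ?_
    have hmc : coeff m P ≠ 0 := by simpa using hm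
    have hdiv : ∀ j, dd dbl j ∣ m j := by
      intro j
      unfold dd
      split_ifs with hj
      · have h1 := hP (Function.update 1 j (-1)) (by
          intro i
          by_cases hij : i = j
          · subst hij
            rw [Function.update_self]
            unfold dd
            rw [if_pos hj]
            norm_num
          · rw [Function.update_of_ne hij]
            simp)
        have h3 := congrArg (coeff m) h1
        rw [coeff_sc] at h3
        have h4 : ∏ i, (Function.update (1 : N → k) j (-1)) i ^ m i = (-1) ^ m j := by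
          rw [Finset.prod_eq_single j]
          · rw [Function.update_self]
          · intro i _ hij
            rw [Function.update_of_ne hij]; simp
          · intro h; exact absurd (Finset.mem_univ _) h
        rw [h4] at h3
        rcases Nat.even_or_odd (m j) with he | ho
        · exact even_iff_two_dvd.mp he
        · exfalso
          rw [ho.neg_one_pow] at h3
          have h5 : coeff m P * 2 = 0 := by linear_combination -h3
          exact (mul_ne_zero hmc h2) h5
      · exact one_dvd _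
    choose m0 hm0 using hdiv
    refine ⟨monomial (Finsupp.equivFunOnFinite.symm m0) (coeff m P), ?_⟩
    show pw dbl _ = _
    unfold pw
    rw [aeval_monomial, Finsupp.prod_fintype _ _ (fun i => by simp), monomial_eq,
      Finsupp.prod_fintype _ _ (fun i => by simp)]
    congr 1
    refine Finset.prod_congr rfl fun j _ => ?_
    rw [← pow_mul, Finsupp.equivFunOnFinite_symm_apply_apply, hm0 j]
  obtain ⟨P0, hP0⟩ := hmem
  exact ⟨P0, hP0.symm⟩

/-- Norm trick: making numerator and denominator invariant. -/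
lemma norm_trick [DecidableEq N] (dbl : N → Bool) (A B : MvPolynomial N k) (hB : B ≠ 0)
    (hAB : ∀ e : N → k, (∀ j, e j ^ dd dbl j = 1) → sc e A * B = A * sc e B) :
    ∃ A' B' C' : MvPolynomial N k, B' ≠ 0 ∧ A' * B = A * B' ∧ B' = B * C' ∧
      (∀ e : N → k, (∀ j, e j ^ dd dbl j = 1) → sc e A' = A') ∧
      (∀ e : N → k, (∀ j, e j ^ dd dbl j = 1) → sc e B' = B') := by
  classical
  have hfin : {e : N → k | ∀ j, e j ^ dd dbl j = 1}.Finite := by
    refine (Set.Finite.pi' (t := fun j : N => {x : k | x ^ dd dbl j = 1}) (fun j => ?_)).subset ?_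
    · refine ((Polynomial.nthRoots (dd dbl j) (1 : k)).toFinset.finite_toSet).subset ?_
      intro x hx
      simp only [Finset.mem_coe, Multiset.mem_toFinset]
      exact (Polynomial.mem_nthRoots (dd_pos dbl j)).mpr hx
    · intro e he j
      exact he j
  obtain ⟨E, hE⟩ : ∃ E : Finset (N → k), ∀ e, e ∈ E ↔ ∀ j, e j ^ dd dbl j = 1 :=
    ⟨hfin.toFinset, fun e => by simp⟩
  have hne : ∀ e ∈ E, ∀ j, e j ≠ 0 := by
    intro e he j h0
    have := (hE e).mp he j
    rw [h0, zero_pow (dd_pos dbl j).ne'] at this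
    exact zero_ne_one this
  have h1E : (1 : N → k) ∈ E := (hE _).mpr fun j => by simp
  have hmulE : ∀ e ∈ E, ∀ e' ∈ E, e * e' ∈ E := by
    intro e he e' he'
    rw [hE]
    intro j
    rw [Pi.mul_apply, mul_pow, (hE e).mp he j, (hE e').mp he' j, one_mul]
  have hinvE : ∀ e ∈ E, e⁻¹ ∈ E := by
    intro e he
    rw [hE]
    intro j
    rw [Pi.inv_apply, inv_pow, (hE e).mp he j, inv_one]
  let C' := ∏ e ∈ E.erase 1, sc e B
  let B' := ∏ e ∈ E, sc e B
  have hBC : B' = B * C' := by
    show ∏ e ∈ E, sc e B = B * ∏ e ∈ E.erase 1, sc e B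
    rw [← Finset.mul_prod_erase E _ h1E, sc_one]
  have hB'0 : B' ≠ 0 := by
    refine Finset.prod_ne_zero_iff.mpr fun e he => ?_
    intro h0
    exact hB ((injective_iff_map_eq_zero _).mp (sc_injective e (hne e he)) _ h0)
  have hB'inv : ∀ e ∈ E, sc e B' = B' := by
    intro e he
    show sc e (∏ e ∈ E, sc e B) = ∏ e ∈ E, sc e B
    rw [map_prod]
    refine Finset.prod_nbij' (fun f => e * f) (fun f => e⁻¹ * f) ?_ ?_ ?_ ?_ ?_
    · intro f hf; exact hmulE e he f hf
    · intro f hf; exact hmulE _ (hinvE e he) f hf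
    · intro f hf
      show e⁻¹ * (e * f) = f
      funext j
      simp only [Pi.mul_apply, Pi.inv_apply]
      rw [inv_mul_cancel_left₀ (hne e he j)]
    · intro f hf
      show e * (e⁻¹ * f) = f
      funext j
      simp only [Pi.mul_apply, Pi.inv_apply]
      rw [mul_inv_cancel_left₀ (hne e he j)]
    · intro f hf
      exact sc_sc _ _ _
  refine ⟨A * C', B', C', hB'0, ?_, hBC, ?_, ?_⟩
  · rw [hBC]; ring
  · intro e he
    have he' := (hE e).mpr he
    have h1 : A * C' * B = A * B' := by rw [hBC]; ring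
    have h2 : sc e (A * C') * sc e B = sc e A * B' := by
      rw [← map_mul, h1, map_mul, hB'inv e he']
    have h3 : sc e (A * C') * (sc e B * B) = A * C' * (sc e B * B) := by
      calc sc e (A * C') * (sc e B * B) = (sc e (A * C') * sc e B) * B := by ring
        _ = (sc e A * B) * B' := by rw [h2]; ring
        _ = (A * sc e B) * B' := by rw [hAB e he]
        _ = (A * B') * sc e B := by ring
        _ = A * C' * (sc e B * B) := by rw [← h1]; ring
    have h4 : sc e B * B ≠ 0 := by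
      refine mul_ne_zero ?_ hB
      intro h0
      exact hB ((injective_iff_map_eq_zero _).mp (sc_injective e (hne e he')) _ h0)
    exact mul_right_cancel₀ h4 h3
  · intro e he
    exact hB'inv e ((hE e).mpr he)

end Poly

section RegU

variable {k : Type*} [Field k] {X : Type*}

/-- Functions which are regular on the open set `q0 ≠ 0`. -/
def RegU (A : Subalgebra k (X → k)) (q0 : X → k) : Subalgebra k (X → k) where
  carrier := {f | ∃ a ∈ A, ∃ b ∈ A, ∀ g, q0 g ≠ 0 → b g ≠ 0 ∧ f g * b g = a g}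
  mul_mem' := by
    rintro f f' ⟨a, ha, b, hb, h⟩ ⟨a', ha', b', hb', h'⟩
    refine ⟨a * a', mul_mem ha ha', b * b', mul_mem hb hb', fun g hg => ?_⟩
    refine ⟨mul_ne_zero (h g hg).1 (h' g hg).1, ?_⟩
    show f g * f' g * (b g * b' g) = a g * a' g
    rw [← (h g hg).2, ← (h' g hg).2]; ring
  add_mem' := by
    rintro f f' ⟨a, ha, b, hb, h⟩ ⟨a', ha', b', hb', h'⟩
    refine ⟨a * b' + a' * b, add_mem (mul_mem ha hb') (mul_mem ha' hb), b * b', mul_mem hb hb',
      fun g hg => ?_⟩
    refine ⟨mul_ne_zero (h g hg).1 (h' g hg).1, ?_⟩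
    show (f g + f' g) * (b g * b' g) = a g * b' g + a' g * b g
    rw [← (h g hg).2, ← (h' g hg).2]; ring
  algebraMap_mem' := by
    intro r
    refine ⟨algebraMap k _ r, Subalgebra.algebraMap_mem _ _, 1, one_mem _, fun g hg => ?_⟩
    exact ⟨one_ne_zero, mul_one _⟩

lemma mem_RegU_iff {A : Subalgebra k (X → k)} {q0 f : X → k} :
    f ∈ RegU A q0 ↔ ∃ a ∈ A, ∃ b ∈ A, ∀ g, q0 g ≠ 0 → b g ≠ 0 ∧ f g * b g = a g := Iff.rfl

lemma le_RegU (A : Subalgebra k (X → k)) (q0 : X → k) : A ≤ RegU A q0 := by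
  intro a ha
  exact ⟨a, ha, 1, one_mem _, fun g _ => ⟨one_ne_zero, mul_one _⟩⟩

lemma inv_mem_RegU {A : Subalgebra k (X → k)} {q0 f : X → k} (hf : f ∈ A)
    (h : ∀ g, q0 g ≠ 0 → f g ≠ 0) : (fun g => (f g)⁻¹) ∈ RegU A q0 :=
  ⟨1, one_mem _, f, hf, fun g hg => ⟨h g hg, inv_mul_cancel₀ (h g hg)⟩⟩

lemma eval_mem_RegU {A : Subalgebra k (X → k)} {q0 : X → k} {N : Type*} {t : X → N → k}
    (ht : ∀ j, (fun g => t g j) ∈ RegU A q0) (P : MvPolynomial N k) :
    (fun g => eval (t g) P) ∈ RegU A q0 := by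
  induction P using MvPolynomial.induction_on with
  | C c =>
    simp only [eval_C]
    exact Subalgebra.algebraMap_mem _ c
  | add p q hp hq => simp only [map_add]; exact add_mem hp hq
  | mul_X p j hp => simp only [map_mul, eval_X]; exact mul_mem hp (ht j)

variable {A : Subalgebra k (X → k)} [IsDomain A]

lemma exists_rep_of_mem_RegU {q0 f : X → k} (hq : q0 ∈ A) (hq0 : q0 ≠ 0) (hf : f ∈ RegU A q0) :
    ∃ x : FractionRing A, Rep A x f := by
  obtain ⟨a, ha, b, hb, h⟩ := hf
  have hb0 : (⟨b, hb⟩ : A) ≠ 0 := by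
    intro h0
    obtain ⟨g, hg⟩ := Function.ne_iff.mp hq0
    exact (h g hg).1 (congrFun (congrArg Subtype.val h0) g)
  refine ⟨_, ⟨⟨a, ha⟩ * ⟨q0, hq⟩, ⟨b, hb⟩ * ⟨q0, hq⟩, ?_, div_mul_cancel₀ _ (aM_ne ?_), ?_⟩⟩
  · exact mul_ne_zero hb0 (fun h0 => hq0 (congrArg Subtype.val h0))
  · exact mul_ne_zero hb0 (fun h0 => hq0 (congrArg Subtype.val h0))
  · intro g hg
    have hg' : b g * q0 g ≠ 0 := hg
    show f g * (b g * q0 g) = a g * q0 g
    rw [← (h g (right_ne_zero_of_mul hg')).2]
    ring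

lemma eq_zero_of_rep {q0 f : X → k} (hq : q0 ∈ A) (hf : f ∈ RegU A q0) (h0 : Rep A 0 f) :
    ∀ g, q0 g ≠ 0 → f g = 0 := by
  obtain ⟨a, ha, b, hb, h⟩ := hf
  obtain ⟨a', b', hb', hx, hf'⟩ := h0
  have ha' : a' = 0 := by
    apply aM_inj
    rw [← hx, zero_mul, map_zero]
  have h1 : (⟨a, ha⟩ : A) * ⟨q0, hq⟩ * b' = 0 := by
    apply Subtype.ext
    funext g
    show a g * q0 g * (b' : X → k) g = 0
    by_cases hg : q0 g = 0
    · rw [hg]; ring
    by_cases hg' : (b' : X → k) g = 0
    · rw [hg']; ring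
    have h2 := hf' g hg'
    rw [ha'] at h2
    have h3 : f g = 0 := (mul_eq_zero.mp h2).resolve_right hg'
    rw [← (h g hg).2, h3]; ring
  have h2 := (mul_eq_zero.mp h1).resolve_right hb'
  intro g hg
  have h3 : a g * q0 g = 0 := congrFun (congrArg Subtype.val h2) g
  have h4 : a g = 0 := (mul_eq_zero.mp h3).resolve_right hg
  have h5 := (h g hg).2
  rw [h4] at h5
  exact (mul_eq_zero.mp h5).resolve_right (h g hg).1

end RegU

/-- A linear chart for `G/H`, equivariant for the group `H' ≥ H`. -/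
structure Chart {k : Type*} [Field k] {G : Type*} [Group G] (A : Subalgebra k (G → k))
    (H H' : Subgroup G) (N : Type*) [Fintype N] [DecidableEq N] where
  hH : H ≤ H'
  q0 : G → k
  q0_mem : q0 ∈ A
  q0_ne : q0 ≠ 0
  t : G → N → k
  treg : ∀ j, (fun g => t g j) ∈ RegU A q0
  dbl : N → Bool
  D : MvPolynomial N k
  D_ne : D ≠ 0
  s : (N → k) → G
  sreg : ∀ a ∈ A, ∃ (P : MvPolynomial N k) (m : ℕ), ∀ Y, eval Y D ≠ 0 →
    a (s Y) * eval Y D ^ m = eval Y P
  fiber : ∀ g, q0 g ≠ 0 → ∀ Y : N → k, (∀ j, Y j ^ dd dbl j = t g j) →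
    eval Y D ≠ 0 ∧ ∃ h ∈ H, g = s Y * h
  dom : ∀ Y, eval Y D ≠ 0 → q0 (s Y) ≠ 0 ∧ ∀ j, t (s Y) j = Y j ^ dd dbl j
  inv : ∀ h ∈ H, ∀ g, q0 g ≠ 0 → ∀ j, t (g * h) j = t g j
  equiv : ∀ h ∈ H', ∃ ρ : Matrix N N k, ∀ g, q0 g ≠ 0 →
    q0 (g * h) ≠ 0 ∧ ∀ j, t (g * h) j = ∑ l, ρ j l * t g l

lemma Chart.eq_zero_of_vanish {k : Type*} [Field k] [IsAlgClosed k] {G : Type*} [Group G]
    {A : Subalgebra k (G → k)} {H H' : Subgroup G} {N : Type*}
    [Fintype N] [DecidableEq N] (ch : Chart A H H' N) (P : MvPolynomial N k)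
    (h2 : ∀ g, ch.q0 g ≠ 0 → eval (fun j => ch.t g j) P = 0) : P = 0 := by
  have h3 : pw ch.dbl P * ch.D = 0 := by
    apply MvPolynomial.funext
    intro Y
    rw [map_mul, map_zero]
    by_cases hD : eval Y ch.D = 0
    · rw [hD, mul_zero]
    · have h4 := h2 _ (ch.dom Y hD).1
      have h5 : ch.t (ch.s Y) = fun j => Y j ^ dd ch.dbl j := funext (ch.dom Y hD).2
      rw [h5] at h4
      rw [eval_pw, h4, zero_mul]
  have h4 : pw ch.dbl P = 0 := (mul_eq_zero.mp h3).resolve_right ch.D_ne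
  apply MvPolynomial.funext
  intro Z
  rw [map_zero]
  choose Y hY using fun j => IsAlgClosed.exists_pow_nat_eq (Z j) (dd_pos ch.dbl j)
  have h5 := congrArg (eval Y) h4
  rw [eval_pw, map_zero] at h5
  rw [← h5]
  congr 2
  funext j
  exact (hY j).symm

lemma Chart.mat_unique {k : Type*} [Field k] [IsAlgClosed k] {G : Type*} [Group G]
    {A : Subalgebra k (G → k)} {H H' : Subgroup G} {N : Type*}
    [Fintype N] [DecidableEq N] (ch : Chart A H H' N) (R R' : Matrix N N k)
    (h : ∀ g, ch.q0 g ≠ 0 → ∀ j, ∑ l, R j l * ch.t g l = ∑ l, R' j l * ch.t g l) : R = R' := by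
  ext i l0
  have h1 := ch.eq_zero_of_vanish (∑ l, C (R i l - R' i l) * X l) (by
    intro g hg
    simp only [map_sum, map_mul, eval_C, eval_X, sub_mul, Finset.sum_sub_distrib]
    rw [h g hg i, sub_self])
  have h2 := congrArg (eval (Pi.single l0 (1 : k))) h1
  simp only [map_sum, map_mul, eval_C, eval_X, map_zero] at h2
  rw [Finset.sum_eq_single l0] at h2
  · rw [Pi.single_eq_same, mul_one] at h2
    exact sub_eq_zero.mp h2
  · intro l _ hl
    rw [Pi.single_eq_of_ne hl, mul_zero]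
  · intro hl; exact absurd (Finset.mem_univ _) hl

theorem Chart.rational {k : Type*} [Field k] [IsAlgClosed k] [CharZero k] {G : Type*} [Group G]
    {A : Subalgebra k (G → k)} [IsDomain A] (hA : RStable A) {H H' : Subgroup G} {N : Type*}
    [Fintype N] [DecidableEq N] (ch : Chart A H H' N)
    (hHcomm : ∀ h ∈ H', ∀ h' ∈ H', ∃ c ∈ H, h' * h = h * h' * c)
    (M : ℕ) (hM : 0 < M) (hHpow : ∀ h ∈ H', h ^ M ∈ H) :
    ∃ r : ℕ, ∃ v : Fin r → FractionRing A, AlgebraicIndependent k v ∧
      ∀ f : FractionRing A, f ∈ IntermediateField.adjoin k (Set.range v) ↔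
        ∀ h ∈ H', trK hA h f = f := by
  classical
  have hqA : (⟨ch.q0, ch.q0_mem⟩ : A) ≠ 0 := fun h => ch.q0_ne (congrArg Subtype.val h)
  choose ρ hρ using fun h : H' => ch.equiv h.1 h.2
  have hρH : ∀ h : H', (h : G) ∈ H → ρ h = 1 := by
    intro h hh
    apply ch.mat_unique
    intro g hg j
    rw [← (hρ h g hg).2 j, ch.inv h hh g hg j]
    simp [Matrix.one_apply]
  have hρmul : ∀ h h' : H', ρ (h * h') = ρ h' * ρ h := by
    intro h h'
    apply ch.mat_unique
    intro g hg j
    rw [← (hρ (h * h') g hg).2 j]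
    have e1 : g * ((h * h' : H') : G) = g * h * h' := by push_cast; rw [mul_assoc]
    rw [e1, (hρ h' _ (hρ h g hg).1).2 j]
    simp only [(hρ h g hg).2, Matrix.mul_apply, Finset.mul_sum, Finset.sum_mul]
    rw [Finset.sum_comm]
    exact Finset.sum_congr rfl fun l _ => Finset.sum_congr rfl fun i _ => by ring
  have hρcomm : ∀ h h' : H', ρ h * ρ h' = ρ h' * ρ h := by
    intro h h'
    obtain ⟨c, hc, hcc⟩ := hHcomm h.1 h.2 h'.1 h'.2
    have e : h' * h = h * h' * ⟨c, ch.hH hc⟩ := Subtype.ext hcc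
    rw [← hρmul, ← hρmul, e, hρmul (h * h') _, hρH ⟨c, ch.hH hc⟩ hc, one_mul]
  have hρpow' : ∀ (m : ℕ) (h : H'), ρ (h ^ m) = ρ h ^ m := by
    intro m h
    induction m with
    | zero => rw [pow_zero, pow_zero, hρH 1 (one_mem H)]
    | succ m ih => rw [pow_succ', hρmul, ih, pow_succ]
  have hρpow : ∀ h : H', ρ h ^ M = 1 := by
    intro h
    rw [← hρpow']
    exact hρH _ (hHpow h.1 h.2)
  choose τ hτ using fun j => exists_rep_of_mem_RegU ch.q0_mem ch.q0_ne (ch.treg j)
  have hroot : ∀ g : G, ∃ Y : N → k, ∀ j, Y j ^ dd ch.dbl j = ch.t g j := by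
    intro g
    choose Y hY using fun j => IsAlgClosed.exists_pow_nat_eq (ch.t g j) (dd_pos ch.dbl j)
    exact ⟨Y, hY⟩
  -- algebraic independence
  have hind : AlgebraicIndependent k τ := by
    rw [algebraicIndependent_iff]
    intro P hP
    have h1 : Rep A (aeval τ P) (fun g => eval (fun j => ch.t g j) P) := Rep.aeval hτ P
    rw [hP] at h1
    exact ch.eq_zero_of_vanish P (eq_zero_of_rep ch.q0_mem (eval_mem_RegU ch.treg P) h1)
  -- the fixed field is contained in k(τ)
  have hsub : ∀ f : FractionRing A, (∀ h ∈ H', trK hA h f = f) →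
      f ∈ IntermediateField.adjoin k (Set.range τ) := by
    intro f hf
    obtain ⟨a, b, hb, rfl⟩ := IsFractionRing.div_surjective A f
    have hb0 : b ≠ 0 := nonZeroDivisors.ne_zero hb
    have hinv : ∀ h ∈ H', ∀ g, (a : G → k) (g * h) * (b : G → k) g
        = (a : G → k) g * (b : G → k) (g * h) := by
      intro h hh g
      have h1 := hf h hh
      rw [map_div₀, trK_algebraMap, trK_algebraMap] at h1
      have hb1 : trA hA h b ≠ 0 := fun h0 => hb0 ((trA hA h).injective (h0.trans (map_zero _).symm))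
      rw [div_eq_div_iff (aM_ne hb1) (aM_ne hb0), ← map_mul, ← map_mul] at h1
      have h2 := aM_inj h1
      have h3 := congrFun (congrArg Subtype.val h2) g
      exact h3
    have hbq : b * ⟨ch.q0, ch.q0_mem⟩ ≠ 0 := mul_ne_zero hb0 hqA
    obtain ⟨g0, hg0⟩ : ∃ g0, (b : G → k) g0 * ch.q0 g0 ≠ 0 := by
      by_contra hcon
      push Not at hcon
      exact hbq (Subtype.ext (funext hcon))
    obtain ⟨Y0, hY0⟩ := hroot g0
    obtain ⟨hD0, h0', hh0', hgs'⟩ := ch.fiber g0 (right_ne_zero_of_mul hg0) Y0 hY0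
    obtain ⟨h0, hh0, hgs⟩ : ∃ h0 : H', (h0 : G) ∈ H ∧ g0 = ch.s Y0 * h0 :=
      ⟨⟨h0', ch.hH hh0'⟩, hh0', hgs'⟩
    obtain ⟨PA, mA, hPA⟩ := ch.sreg _ (hA (h0 : G) a.1 a.2)
    obtain ⟨PB, mB, hPB⟩ := ch.sreg _ (hA (h0 : G) b.1 b.2)
    obtain ⟨A1, hA1⟩ : ∃ A1 : MvPolynomial N k, ∀ Y, eval Y ch.D ≠ 0 →
        (a : G → k) (ch.s Y * h0) * eval Y ch.D ^ (mA + mB) = eval Y A1 := by
      refine ⟨PA * ch.D ^ mB, fun Y hY => ?_⟩
      have := hPA Y hY
      rw [map_mul, map_pow, ← this]
      ring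
    obtain ⟨B1, hB1⟩ : ∃ B1 : MvPolynomial N k, ∀ Y, eval Y ch.D ≠ 0 →
        (b : G → k) (ch.s Y * h0) * eval Y ch.D ^ (mA + mB) = eval Y B1 := by
      refine ⟨PB * ch.D ^ mA, fun Y hY => ?_⟩
      have := hPB Y hY
      rw [map_mul, map_pow, ← this]
      ring
    have hB10 : B1 ≠ 0 := by
      rintro rfl
      have := hB1 Y0 hD0
      rw [map_zero, ← hgs] at this
      exact mul_ne_zero (left_ne_zero_of_mul hg0) (pow_ne_zero _ hD0) this
    have key : ∀ g, ch.q0 g ≠ 0 → ∀ Y : N → k, (∀ j, Y j ^ dd ch.dbl j = ch.t g j) →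
        (a : G → k) g * eval Y B1 = eval Y A1 * (b : G → k) g := by
      intro g hg Y hY
      obtain ⟨hD, h', hh', hgs''⟩ := ch.fiber g hg Y hY
      obtain ⟨h, hgs'⟩ : ∃ h : H', g = ch.s Y * h := ⟨⟨h', ch.hH hh'⟩, hgs''⟩
      have h1 := hinv (h0⁻¹ * h : H') (SetLike.coe_mem _) (ch.s Y * h0)
      have h2 : ch.s Y * h0 * ((h0⁻¹ * h : H') : G) = g := by
        rw [hgs']
        push_cast
        group
      rw [h2] at h1
      rw [← hB1 Y hD, ← hA1 Y hD]
      linear_combination (eval Y ch.D ^ (mA + mB)) * h1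
    have hsign : ∀ e : N → k, (∀ j, e j ^ dd ch.dbl j = 1) → sc e A1 * B1 = A1 * sc e B1 := by
      intro e he
      have h1 : (sc e A1 * B1 - A1 * sc e B1) * (B1 * ch.D) = 0 := by
        apply MvPolynomial.funext
        intro Y
        rw [map_zero]
        simp only [map_mul, map_sub, eval_sc]
        by_cases hD : eval Y ch.D = 0
        · rw [hD]; ring
        · have hg1 := hρ h0 (ch.s Y) (ch.dom Y hD).1
          have ht : ∀ j, ch.t (ch.s Y * h0) j = Y j ^ dd ch.dbl j := by
            intro j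
            rw [ch.inv h0 hh0 _ (ch.dom Y hD).1 j, ← (ch.dom Y hD).2 j]
          have k1 := key _ hg1.1 Y (fun j => (ht j).symm)
          have k2 := key _ hg1.1 (fun j => e j * Y j) (fun j => by
            rw [mul_pow, he j, one_mul]; exact (ht j).symm)
          have k3 := hB1 Y hD
          have k4 : eval (fun j => e j * Y j) A1 * (b : G → k) (ch.s Y * h0) * eval Y B1
              = eval Y A1 * (b : G → k) (ch.s Y * h0) * eval (fun j => e j * Y j) B1 := by
            rw [← k1, ← k2]; ring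
          rw [← k3] at k4 ⊢
          linear_combination (eval Y ch.D ^ (mA + mB) * eval Y ch.D) * k4
      have h2 := (mul_eq_zero.mp h1).resolve_right (mul_ne_zero hB10 ch.D_ne)
      exact sub_eq_zero.mp h2
    obtain ⟨A', B', C', hB'0, hA'B', hB'C', hA'inv, hB'inv⟩ := norm_trick ch.dbl A1 B1 hB10 hsign
    have h20 : (2 : k) ≠ 0 := two_ne_zero
    obtain ⟨A0, hA0⟩ := exists_pw h20 ch.dbl A' hA'inv
    obtain ⟨B0, hB0⟩ := exists_pw h20 ch.dbl B' hB'inv
    have hB00 : B0 ≠ 0 := by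
      rintro rfl
      exact hB'0 (by rw [hB0, map_zero])
    have hB0τ : aeval τ B0 ≠ 0 := by
      intro h
      exact hB00 ((injective_iff_map_eq_zero (aeval τ : MvPolynomial N k →ₐ[k] _)).mp hind _ h)
    have hfin : algebraMap A (FractionRing A) a * aeval τ B0 * aeval τ B0
        = aeval τ A0 * algebraMap A (FractionRing A) b * aeval τ B0 := by
      refine Rep.unique (((Rep.of a).mul (Rep.aeval hτ B0)).mul (Rep.aeval hτ B0))
        (((Rep.aeval hτ A0).mul (Rep.of b)).mul (Rep.aeval hτ B0)) ⟨ch.q0, ch.q0_mem⟩ hqA ?_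
      intro g hg
      obtain ⟨Y, hY⟩ := hroot g
      have e1 : eval (fun j => ch.t g j) B0 = eval Y B' := by
        rw [hB0, eval_pw]
        congr 2
        funext j
        exact (hY j).symm
      have e2 : eval (fun j => ch.t g j) A0 = eval Y A' := by
        rw [hA0, eval_pw]
        congr 2
        funext j
        exact (hY j).symm
      show (a : G → k) g * eval (fun j => ch.t g j) B0 * eval (fun j => ch.t g j) B0
        = eval (fun j => ch.t g j) A0 * (b : G → k) g * eval (fun j => ch.t g j) B0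
      rw [e1, e2]
      have k1 := key g hg Y hY
      have k2 := congrArg (eval Y) hA'B'
      have k3 := congrArg (eval Y) hB'C'
      rw [map_mul, map_mul] at k2
      rw [map_mul] at k3
      calc (a : G → k) g * eval Y B' * eval Y B'
          = ((a : G → k) g * eval Y B1) * eval Y C' * eval Y B' := by rw [k3]; ring
        _ = (b : G → k) g * eval Y C' * (eval Y A1 * eval Y B') := by rw [k1]; ring
        _ = (b : G → k) g * eval Y C' * (eval Y A' * eval Y B1) := by rw [k2]
        _ = eval Y A' * (b : G → k) g * eval Y B' := by rw [k3]; ring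
    rw [IntermediateField.mem_adjoin_range_iff]
    refine ⟨A0, B0, ?_⟩
    have hfin' := mul_right_cancel₀ hB0τ hfin
    rw [div_eq_div_iff (aM_ne hb0) hB0τ, hfin']
  -- the action on τ
  have hact : ∀ (h : H') j, trK hA (h : G) (τ j)
      = ∑ l, algebraMap k (FractionRing A) (ρ h j l) * τ l := by
    intro h j
    refine Rep.unique (Rep.tr hA (h : G) (hτ j))
      (Rep.sum Finset.univ (fun l _ => (Rep.const (ρ h j l)).mul (hτ l)))
      ⟨ch.q0, ch.q0_mem⟩ hqA ?_
    intro g hg
    exact (hρ h g hg).2 j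
  obtain ⟨r, v, hv, hv2⟩ := linear_fixed τ hind ((trK hA).comp H'.subtype) ρ
    (fun h j => hact h j) hρcomm M (Nat.cast_ne_zero.mpr hM.ne') hρpow
  refine ⟨r, v, hv, fun f => ?_⟩
  rw [hv2]
  constructor
  · rintro ⟨_, h2⟩ h hh
    exact h2 ⟨h, hh⟩
  · intro h
    exact ⟨hsub f h, fun γ => h γ.1 γ.2⟩

end Pool.Agent.Helper14.RG
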