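import Pool.Agent.Helper14.RG.CenterChart

namespace Pool.Agent.Helper14.RG

open MvPolynomial

variable {k : Type*} [Field k]

/-- Transport of a chart along a bijection which is a cocycle for the subgroup `H1'`. -/
noncomputable def Chart.transport {G1 G2 : Type*} [Group G1] [Group G2]
    {A1 : Subalgebra k (G1 → k)} {A2 : Subalgebra k (G2 → k)} {H2 H2' : Subgroup G2}
    {N : Type*} [Fintype N] [DecidableEq N] (ch : Chart A2 H2 H2' N)
    (H1 H1' : Subgroup G1) (hH : H1 ≤ H1') (Φ : G1 ≃ G2)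
    (hΦ : ∀ a ∈ A2, (fun g => a (Φ g)) ∈ A1) (hΦ' : ∀ a ∈ A1, (fun g => a (Φ.symm g)) ∈ A2)
    (φ : G1 → G2) (hφ' : ∀ h ∈ H1', φ h ∈ H2') (hφ : ∀ h ∈ H1, φ h ∈ H2)
    (hφs : ∀ h2 ∈ H2, ∃ h ∈ H1, φ h = h2)
    (hcoc : ∀ h ∈ H1', ∀ g, Φ (g * h) = Φ g * φ h) : Chart A1 H1 H1' N where
  hH := hH
  q0 := fun g => ch.q0 (Φ g)
  q0_mem := hΦ _ ch.q0_mem
  q0_ne := by
    obtain ⟨g, hg⟩ := Function.ne_iff.mp ch.q0_ne
    exact Function.ne_iff.mpr ⟨Φ.symm g, by rw [Equiv.apply_symm_apply]; exact hg⟩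
  t := fun g => ch.t (Φ g)
  treg := by
    intro j
    obtain ⟨a, ha, b, hb, h⟩ := ch.treg j
    exact ⟨_, hΦ a ha, _, hΦ b hb, fun g hg => h (Φ g) hg⟩
  dbl := ch.dbl
  D := ch.D
  D_ne := ch.D_ne
  s := fun Y => Φ.symm (ch.s Y)
  sreg := fun a ha => ch.sreg _ (hΦ' a ha)
  fiber := by
    intro g hg Y hY
    obtain ⟨h1, h2, hh2, h3⟩ := ch.fiber (Φ g) hg Y hY
    obtain ⟨h, hh, rfl⟩ := hφs h2 hh2
    refine ⟨h1, h, hh, ?_⟩
    apply Φ.injective
    rw [hcoc h (hH hh), Equiv.apply_symm_apply, h3]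
  dom := by
    intro Y hY
    rw [Equiv.apply_symm_apply]
    exact ch.dom Y hY
  inv := by
    intro h hh g hg j
    rw [hcoc h (hH hh)]
    exact ch.inv (φ h) (hφ h hh) (Φ g) hg j
  equiv := by
    intro h hh
    obtain ⟨ρ, hρ⟩ := ch.equiv (φ h) (hφ' h hh)
    refine ⟨ρ, fun g hg => ?_⟩
    rw [hcoc h hh]
    exact hρ (Φ g) hg

section Cyc

variable {S : Type*} [Group S] (m : ℕ) (τ : Fin (m + 1) → (S ≃* S))

/-- The automorphism `(g_j) ↦ (τ_j g_{j+1})` of `S^{m+1}`. -/
def cycAut : (Fin (m + 1) → S) ≃* (Fin (m + 1) → S) where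
  toFun g j := τ j (g (j + 1))
  invFun g j := (τ (j - 1)).symm (g (j - 1))
  left_inv := by
    intro g
    funext j
    show (τ (j - 1)).symm (τ (j - 1) (g (j - 1 + 1))) = g j
    rw [MulEquiv.symm_apply_apply, sub_add_cancel]
  right_inv := by
    intro g
    funext j
    show τ j ((τ (j + 1 - 1)).symm (g (j + 1 - 1))) = g j
    rw [add_sub_cancel_right, MulEquiv.apply_symm_apply]
  map_mul' := by
    intro g h
    funext j
    show τ j (g (j + 1) * h (j + 1)) = τ j (g (j + 1)) * τ j (h (j + 1))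
    rw [map_mul]

/-- partial compositions `τ_0 ∘ ... ∘ τ_{j-1}` -/
def thN : ℕ → (S ≃* S)
  | 0 => MulEquiv.refl S
  | j + 1 => (τ (Fin.ofNat (m + 1) j)).trans (thN j)

/-- the coordinates `g_0`, `θ_j(g_j) g_0⁻¹` -/
def cycPhi : (Fin (m + 1) → S) ≃ (Fin (m + 1) → S) where
  toFun g j := if j = 0 then g 0 else thN m τ j.val (g j) * (g 0)⁻¹
  invFun u j := if j = 0 then u 0 else (thN m τ j.val).symm (u j * u 0)
  left_inv := by
    intro g
    funext j
    by_cases hj : j = 0
    · subst hj; simp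
    · simp [hj]
  right_inv := by
    intro g
    funext j
    by_cases hj : j = 0
    · subst hj; simp
    · simp [hj]

lemma cycPhi_zero (g : Fin (m + 1) → S) : cycPhi m τ g 0 = g 0 := by simp [cycPhi]

lemma cycPhi_ne (g : Fin (m + 1) → S) {j : Fin (m + 1)} (hj : j ≠ 0) :
    cycPhi m τ g j = thN m τ j.val (g j) * (g 0)⁻¹ := by simp [cycPhi, hj]

lemma cycPhi_symm_zero (g : Fin (m + 1) → S) : (cycPhi m τ).symm g 0 = g 0 := by simp [cycPhi]

lemma cycPhi_symm_ne (g : Fin (m + 1) → S) {j : Fin (m + 1)} (hj : j ≠ 0) :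
    (cycPhi m τ).symm g j = (thN m τ j.val).symm (g j * g 0) := by simp [cycPhi, hj]

lemma map_center {S : Type*} [Group S] (f : S ≃* S) {z : S} (hz : z ∈ Subgroup.center S) :
    f z ∈ Subgroup.center S := by
  rw [Subgroup.mem_center_iff]
  intro g
  have := Subgroup.mem_center_iff.mp hz (f.symm g)
  have h2 := congrArg f this
  rw [map_mul, map_mul, MulEquiv.apply_symm_apply] at h2
  exact h2

/-- elements fixed up to the centre: `θ_j(h_j)` is central times `h_0`. -/
lemma thN_mod {h : Fin (m + 1) → S} (hh : h ∈ fixMod (cycAut m τ)) (j : ℕ) (hj : j ≤ m) :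
    ∃ z ∈ Subgroup.center S, thN m τ j (h (Fin.ofNat (m + 1) j)) = z * h 0 := by
  obtain ⟨z, hz, hzh⟩ := mem_fixMod.mp hh
  induction j with
  | zero => exact ⟨1, one_mem _, by rw [one_mul]; rfl⟩
  | succ j ih =>
    obtain ⟨z', hz', h2⟩ := ih (by omega)
    have h3 : τ (Fin.ofNat (m + 1) j) (h (Fin.ofNat (m + 1) (j + 1)))
        = z (Fin.ofNat (m + 1) j) * h (Fin.ofNat (m + 1) j) := by
      have h4 := congrFun hzh (Fin.ofNat (m + 1) j)
      have h5 : Fin.ofNat (m + 1) j + 1 = Fin.ofNat (m + 1) (j + 1) := by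
        apply Fin.ext
        simp [Fin.val_add, Fin.ofNat]
      rw [← h5]
      exact h4
    have hzc : z (Fin.ofNat (m + 1) j) ∈ Subgroup.center S := by
      rw [Subgroup.mem_center_iff]
      intro g
      have := congrFun (Subgroup.mem_center_iff.mp hz (Pi.mulSingle (Fin.ofNat (m + 1) j) g))
        (Fin.ofNat (m + 1) j)
      simpa using this
    refine ⟨thN m τ j (z (Fin.ofNat (m + 1) j)) * z', mul_mem (map_center _ hzc) hz', ?_⟩
    show thN m τ j (τ (Fin.ofNat (m + 1) j) (h (Fin.ofNat (m + 1) (j + 1)))) = _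
    rw [h3, map_mul, h2, mul_assoc]

lemma T_mod {h : Fin (m + 1) → S} (hh : h ∈ fixMod (cycAut m τ)) :
    h 0 ∈ fixMod (thN m τ (m + 1)) := by
  obtain ⟨z', hz', h2⟩ := thN_mod m τ hh m le_rfl
  obtain ⟨z, hz, hzh⟩ := mem_fixMod.mp hh
  have h3 : τ (Fin.ofNat (m + 1) m) (h 0) = z (Fin.ofNat (m + 1) m) * h (Fin.ofNat (m + 1) m) := by
    have h4 := congrFun hzh (Fin.ofNat (m + 1) m)
    have h5 : Fin.ofNat (m + 1) m + 1 = 0 := by
      apply Fin.ext
      simp [Fin.val_add, Fin.ofNat]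
    rw [← h5]
    exact h4
  have hzc : z (Fin.ofNat (m + 1) m) ∈ Subgroup.center S := by
    rw [Subgroup.mem_center_iff]
    intro g
    have := congrFun (Subgroup.mem_center_iff.mp hz (Pi.mulSingle (Fin.ofNat (m + 1) m) g))
      (Fin.ofNat (m + 1) m)
    simpa using this
  refine ⟨thN m τ m (z (Fin.ofNat (m + 1) m)) * z', mul_mem (map_center _ hzc) hz', ?_⟩
  show thN m τ m (τ (Fin.ofNat (m + 1) m) (h 0)) = _
  rw [h3, map_mul, h2, mul_assoc]

lemma ofNat_val (j : Fin (m + 1)) : Fin.ofNat (m + 1) j.val = j :=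
  Fin.ext (Nat.mod_eq_of_lt j.isLt)

lemma thN_fix {h : Fin (m + 1) → S} (hh : h ∈ fixSub (cycAut m τ)) (j : ℕ) (hj : j ≤ m) :
    thN m τ j (h (Fin.ofNat (m + 1) j)) = h 0 := by
  have hh' : cycAut m τ h = h := hh
  induction j with
  | zero => rfl
  | succ j ih =>
    have h2 := ih (by omega)
    have h3 : τ (Fin.ofNat (m + 1) j) (h (Fin.ofNat (m + 1) (j + 1)))
        = h (Fin.ofNat (m + 1) j) := by
      have h4 := congrFun hh' (Fin.ofNat (m + 1) j)
      have h5 : Fin.ofNat (m + 1) j + 1 = Fin.ofNat (m + 1) (j + 1) := by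
        apply Fin.ext
        simp [Fin.val_add, Fin.ofNat]
      rw [← h5]
      exact h4
    show thN m τ j (τ (Fin.ofNat (m + 1) j) (h (Fin.ofNat (m + 1) (j + 1)))) = _
    rw [h3, h2]

lemma T_fix {h : Fin (m + 1) → S} (hh : h ∈ fixSub (cycAut m τ)) :
    h 0 ∈ fixSub (thN m τ (m + 1)) := by
  have h2 := thN_fix m τ hh m le_rfl
  have hh' : cycAut m τ h = h := hh
  have h3 : τ (Fin.ofNat (m + 1) m) (h 0) = h (Fin.ofNat (m + 1) m) := by
    have h4 := congrFun hh' (Fin.ofNat (m + 1) m)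
    have h5 : Fin.ofNat (m + 1) m + 1 = 0 := by
      apply Fin.ext
      simp [Fin.val_add, Fin.ofNat]
    rw [← h5]
    exact h4
  show thN m τ m (τ (Fin.ofNat (m + 1) m) (h 0)) = h 0
  rw [h3, h2]

variable {A : Subalgebra k (S → k)} {N0 NC : Type} [Fintype N0] [DecidableEq N0] [Fintype NC]
  [DecidableEq NC]

/-- index types of the coordinates -/
def cycN (N0 NC : Type) (m : ℕ) : Fin (m + 1) → Type := Fin.cases N0 (fun _ => NC)

instance cycN_fintype (j : Fin (m + 1)) : Fintype (cycN N0 NC m j) := by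
  refine Fin.cases ?_ ?_ j
  · exact (inferInstance : Fintype N0)
  · intro i; exact (inferInstance : Fintype NC)

instance cycN_decEq (j : Fin (m + 1)) : DecidableEq (cycN N0 NC m j) := by
  refine Fin.cases ?_ ?_ j
  · exact (inferInstance : DecidableEq N0)
  · intro i; exact (inferInstance : DecidableEq NC)

/-- subgroups -/
def cycH (H : Subgroup S) (H2 : Subgroup S) : Fin (m + 1) → Subgroup S := Fin.cases H (fun _ => H2)

/-- the family of charts -/
noncomputable def cycCh {H H' : Subgroup S} (ch : Chart A H H' N0)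
    (cc : Chart A ⊥ (Subgroup.center S) NC) (j : Fin (m + 1)) :
    Chart A (cycH m H ⊥ j) (cycH m H' (Subgroup.center S) j) (cycN N0 NC m j) := by
  refine Fin.cases ?_ ?_ j
  · exact ch
  · intro i; exact cc

/-- The chart for the automorphism `(g_j) ↦ (τ_j g_{j+1})`. -/
noncomputable def cycChart
    (hmul : ∀ a ∈ A, ∀ (B : Subalgebra k ((Fin (m + 1) → S) → k)) (f f' : (Fin (m + 1) → S) → S),
      (∀ b ∈ A, (fun g => b (f g)) ∈ B) → (∀ b ∈ A, (fun g => b (f' g)) ∈ B) →
      (fun g => a (f g * f' g)) ∈ B)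
    (hinv : ∀ a ∈ A, (fun g => a g⁻¹) ∈ A)
    (hτ : ∀ j, ∀ a ∈ A, (fun g => a (τ j g)) ∈ A) (hτ' : ∀ j, ∀ a ∈ A, (fun g => a ((τ j).symm g)) ∈ A)
    (ch : Chart A (fixSub (thN m τ (m + 1))) (fixMod (thN m τ (m + 1))) N0)
    (cc : Chart A ⊥ (Subgroup.center S) NC) :
    Chart (prodAlg (fun _ : Fin (m + 1) => A)) (fixSub (cycAut m τ)) (fixMod (cycAut m τ))
      (Σ j, cycN N0 NC m j) := by
  have hθ : ∀ j, ∀ a ∈ A, (fun g => a (thN m τ j g)) ∈ A := by
    intro j
    induction j with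
    | zero => intro a ha; exact ha
    | succ j ih => intro a ha; exact hτ _ _ (ih a ha)
  have hθ' : ∀ j, ∀ a ∈ A, (fun g => a ((thN m τ j).symm g)) ∈ A := by
    intro j
    induction j with
    | zero => intro a ha; exact ha
    | succ j ih => intro a ha; exact ih _ (hτ' _ _ ha)
  refine Chart.transport (Chart.prod (cycCh m ch cc)
    (Subgroup.pi Set.univ (cycH m (fixMod (thN m τ (m + 1))) (Subgroup.center S))) ?_ le_rfl)
    (fixSub (cycAut m τ)) (fixMod (cycAut m τ)) (fixSub_le_fixMod _) (cycPhi m τ) ?_ ?_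
    (cycPhi m τ) ?_ ?_ ?_ ?_
  · intro h hh j _
    have := hh j (Set.mem_univ j)
    revert this
    refine Fin.cases ?_ ?_ j
    · intro h1; exact fixSub_le_fixMod _ h1
    · intro i h1
      have h2 : h i.succ = 1 := Subgroup.mem_bot.mp h1
      show h i.succ ∈ Subgroup.center S
      rw [h2]; exact one_mem _
  · intro a ha
    induction ha using Algebra.adjoin_induction with
    | mem x hx =>
      obtain ⟨j, a', ha', rfl⟩ := hx
      by_cases hj : j = 0
      · subst hj
        simp only [cycPhi_zero]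
        exact mem_prodAlg _ 0 ha'
      · simp only [cycPhi_ne m τ _ hj]
        exact hmul a' ha' _ (fun g => thN m τ j.val (g j)) (fun g => (g 0)⁻¹)
          (fun b hb => mem_prodAlg (fun _ => A) j (hθ _ b hb))
          (fun b hb => mem_prodAlg (fun _ => A) 0 (hinv b hb))
    | algebraMap r => exact Subalgebra.algebraMap_mem _ r
    | add x y _ _ hx hy => exact add_mem hx hy
    | mul x y _ _ hx hy => exact mul_mem hx hy
  · intro a ha
    induction ha using Algebra.adjoin_induction with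
    | mem x hx =>
      obtain ⟨j, a', ha', rfl⟩ := hx
      by_cases hj : j = 0
      · subst hj
        simp only [cycPhi_symm_zero]
        exact mem_prodAlg _ 0 ha'
      · simp only [cycPhi_symm_ne m τ _ hj]
        exact hmul _ (hθ' j.val a' ha') _ (fun g => g j) (fun g => g 0)
          (fun b hb => mem_prodAlg (fun _ => A) j hb)
          (fun b hb => mem_prodAlg (fun _ => A) 0 hb)
    | algebraMap r => exact Subalgebra.algebraMap_mem _ r
    | add x y _ _ hx hy => exact add_mem hx hy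
    | mul x y _ _ hx hy => exact mul_mem hx hy
  · intro h hh j _
    have hval : ∀ i : Fin m, (i.succ : Fin (m + 1)).val ≤ m := fun i => by
      have := i.isLt
      simp only [Fin.val_succ]; omega
    refine Fin.cases ?_ ?_ j
    · show cycPhi m τ h 0 ∈ fixMod _
      rw [cycPhi_zero]
      exact T_mod m τ hh
    · intro i
      show cycPhi m τ h i.succ ∈ Subgroup.center S
      rw [cycPhi_ne m τ h (Fin.succ_ne_zero i)]
      obtain ⟨z, hz, h2⟩ := thN_mod m τ hh (i.succ : Fin (m + 1)).val (hval i)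
      rw [ofNat_val] at h2
      rw [h2, mul_inv_cancel_right]
      exact hz
  · intro h hh j _
    have hval : ∀ i : Fin m, (i.succ : Fin (m + 1)).val ≤ m := fun i => by
      have := i.isLt
      simp only [Fin.val_succ]; omega
    refine Fin.cases ?_ ?_ j
    · show cycPhi m τ h 0 ∈ fixSub _
      rw [cycPhi_zero]
      exact T_fix m τ hh
    · intro i
      show cycPhi m τ h i.succ ∈ (⊥ : Subgroup S)
      rw [cycPhi_ne m τ h (Fin.succ_ne_zero i)]
      have h2 := thN_fix m τ hh (i.succ : Fin (m + 1)).val (hval i)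
      rw [ofNat_val] at h2
      rw [h2, mul_inv_cancel]
      exact one_mem _
  · intro h2 hh2
    have h20 : thN m τ (m + 1) (h2 0) = h2 0 := hh2 0 (Set.mem_univ 0)
    have h2s : ∀ j : Fin (m + 1), j ≠ 0 → h2 j = 1 := by
      intro j hj
      have := hh2 j (Set.mem_univ j)
      obtain ⟨i, rfl⟩ := Fin.exists_succ_eq.mpr hj
      exact Subgroup.mem_bot.mp this
    refine ⟨(cycPhi m τ).symm h2, ?_, Equiv.apply_symm_apply _ _⟩
    have hval : ∀ j : Fin (m + 1), (cycPhi m τ).symm h2 j = (thN m τ j.val).symm (h2 0) := by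
      intro j
      by_cases hj : j = 0
      · subst hj
        rw [cycPhi_symm_zero]
        rfl
      · rw [cycPhi_symm_ne m τ h2 hj, h2s j hj, one_mul]
    show cycAut m τ ((cycPhi m τ).symm h2) = (cycPhi m τ).symm h2
    funext j
    show τ j ((cycPhi m τ).symm h2 (j + 1)) = (cycPhi m τ).symm h2 j
    rw [hval, hval]
    by_cases hj : j.val = m
    · have h5 : j + 1 = 0 := by
        apply Fin.ext
        simp [Fin.val_add, hj]
      have h6 : j = Fin.ofNat (m + 1) m := by
        apply Fin.ext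
        simp [Fin.ofNat, hj]
      rw [h5]
      apply (thN m τ j.val).injective
      rw [MulEquiv.apply_symm_apply]
      show thN m τ j.val (τ j ((thN m τ 0).symm (h2 0))) = h2 0
      rw [hj]
      have h7 : thN m τ m (τ (Fin.ofNat (m + 1) m) (h2 0)) = h2 0 := h20
      rw [← h6] at h7
      exact h7
    · have hj' : j.val < m := by have := j.isLt; omega
      have h5 : (j + 1 : Fin (m + 1)).val = j.val + 1 := by
        rw [Fin.val_add_one_of_lt]
        exact Fin.lt_def.mpr (by simpa using hj')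
      rw [h5]
      apply (thN m τ j.val).injective
      rw [MulEquiv.apply_symm_apply]
      have h7 : thN m τ (j.val + 1) ((thN m τ (j.val + 1)).symm (h2 0)) = h2 0 :=
        MulEquiv.apply_symm_apply _ _
      have h8 : ∀ x, thN m τ (j.val + 1) x = thN m τ j.val (τ (Fin.ofNat (m + 1) j.val) x) :=
        fun x => rfl
      rw [h8, ofNat_val] at h7
      exact h7
  · intro h hh g
    funext j
    by_cases hj : j = 0
    · subst hj
      rw [Pi.mul_apply, cycPhi_zero, cycPhi_zero, cycPhi_zero, Pi.mul_apply]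
    · rw [Pi.mul_apply, cycPhi_ne m τ _ hj, cycPhi_ne m τ _ hj, cycPhi_ne m τ _ hj, Pi.mul_apply,
        Pi.mul_apply]
      obtain ⟨z, hz, h2⟩ := thN_mod m τ hh j.val (by have := j.isLt; omega)
      rw [ofNat_val] at h2
      rw [map_mul, h2, mul_inv_cancel_right, mul_inv_rev]
      have := Subgroup.mem_center_iff.mp hz
      calc thN m τ j.val (g j) * (z * h 0) * ((h 0)⁻¹ * (g 0)⁻¹)
          = thN m τ j.val (g j) * (z * (g 0)⁻¹) := by group
        _ = thN m τ j.val (g j) * ((g 0)⁻¹ * z) := by rw [this]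
        _ = thN m τ j.val (g j) * (g 0)⁻¹ * z := by group

end Cyc

end Pool.Agent.Helper14.RG
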