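import Pool.Agent.Helper14.RG.StdChart

namespace Pool.Agent.Helper14.RG

open MvPolynomial Matrix

section Iter

variable {S : Type*} [Group S] (m : ℕ) (τ : Fin (m + 1) → (S ≃* S))

lemma cyc_iterate (j : ℕ) (g : Fin (m + 1) → S) :
    (cycAut m τ)^[j] g 0 = thN m τ j (g (Fin.ofNat (m + 1) j)) := by
  induction j generalizing g with
  | zero => rfl
  | succ j ih =>
    rw [Function.iterate_succ_apply, ih]
    have h5 : Fin.ofNat (m + 1) j + 1 = Fin.ofNat (m + 1) (j + 1) := by
      apply Fin.ext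
      simp [Fin.val_add, Fin.ofNat]
    show thN m τ j (τ (Fin.ofNat (m + 1) j) (g (Fin.ofNat (m + 1) j + 1))) = _
    rw [h5]
    rfl

lemma cyc_iterate_period (g : Fin (m + 1) → S) :
    (cycAut m τ)^[m + 1] g 0 = thN m τ (m + 1) (g 0) := by
  rw [cyc_iterate]
  have h5 : Fin.ofNat (m + 1) (m + 1) = 0 := by
    apply Fin.ext
    simp [Fin.ofNat]
  rw [h5]

lemma cyc_iterate_mul (M : ℕ) (g : Fin (m + 1) → S) :
    (cycAut m τ)^[(m + 1) * M] g 0 = (thN m τ (m + 1))^[M] (g 0) := by
  induction M with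
  | zero => rfl
  | succ M ih =>
    have e : (m + 1) * (M + 1) = (m + 1) + (m + 1) * M := by ring
    rw [e, Function.iterate_add_apply, cyc_iterate_period, Function.iterate_succ_apply', ih]

end Iter

lemma finite_of_center {C : Type*} [Finite C] [DecidableEq C] {G : C → Type*} [∀ c, Group (G c)]
    (h : ∀ c, Finite (Subgroup.center (G c))) (Z : Subgroup (∀ c, G c))
    (hZ : Z ≤ Subgroup.center _) : Finite Z := by
  have := h
  refine Finite.of_injective (β := ∀ c, Subgroup.center (G c))
    (fun z c => ⟨(z : ∀ c, G c) c, center_apply (hZ z.2) c⟩) ?_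
  intro z z' h
  apply Subtype.ext
  funext c
  exact congrArg Subtype.val (congrFun h c)

theorem cyc_rational {k : Type*} [Field k] [IsAlgClosed k] [CharZero k] {C : Type*} [Fintype C]
    [DecidableEq C] (m ν : C → ℕ)
    (τ : ∀ c, Fin (m c + 1) → (Matrix.SpecialLinearGroup (Fin (ν c)) k ≃*
      Matrix.SpecialLinearGroup (Fin (ν c)) k)) (hτ : ∀ c j, IsStd (τ c j))
    {Q : Type*} [Group Q]
    (π : (∀ c, Fin (m c + 1) → Matrix.SpecialLinearGroup (Fin (ν c)) k) →* Q)
    (hπ : Function.Surjective π) (hZ : π.ker ≤ Subgroup.center _) (σ : Q ≃* Q)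
    (hσ : ∀ g, σ (π g) = π (fun c => cycAut (m c) (τ c) (g c))) (M : ℕ) (hM : 0 < M)
    (hfin : ∀ x, σ^[M] x = x) :
    RationalQuotient (quotAlg (prodAlg (fun c => prodAlg (fun _ : Fin (m c + 1) => slAlg k (ν c)))) π
      : Set (Q → k)) (fixSub σ) := by
  classical
  -- the kernel is finite
  have hc1 : ∀ c, Finite (Subgroup.center (Fin (m c + 1) → Matrix.SpecialLinearGroup (Fin (ν c)) k)) :=
    fun c => finite_of_center (fun _ => finite_center_SL (k := k) (ν c)) _ le_rfl
  have hfinker : Finite π.ker := finite_of_center hc1 _ hZ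
  -- iterates
  have hit : ∀ (j : ℕ) (g : ∀ c, Fin (m c + 1) → Matrix.SpecialLinearGroup (Fin (ν c)) k),
      σ^[j] (π g) = π (fun c => (cycAut (m c) (τ c))^[j] (g c)) := by
    intro j
    induction j with
    | zero => intro g; rfl
    | succ j ih =>
      intro g
      rw [Function.iterate_succ_apply, hσ, ih]
      rfl
  have hfin' : ∀ (j : ℕ) (x : Q), σ^[M * j] x = x := by
    intro j x
    rw [Function.iterate_mul]
    induction j with
    | zero => rfl
    | succ j ih => rw [Function.iterate_succ_apply, hfin, ih]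
  -- the power condition
  have hpow : ∀ c (x : Matrix.SpecialLinearGroup (Fin (ν c)) k),
      ∃ z ∈ Subgroup.center (Matrix.SpecialLinearGroup (Fin (ν c)) k),
        (thN (m c) (τ c) (m c + 1))^[M] x = z * x := by
    intro c x
    let g : ∀ c, Fin (m c + 1) → Matrix.SpecialLinearGroup (Fin (ν c)) k :=
      Pi.mulSingle c (Pi.mulSingle 0 x)
    have hg : g c 0 = x := by simp [g]
    have h1 := hit ((m c + 1) * M) g
    have h2 : σ^[(m c + 1) * M] (π g) = π g := by rw [mul_comm]; exact hfin' _ _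
    rw [h2] at h1
    have h3 : (fun c' => (cycAut (m c') (τ c'))^[(m c + 1) * M] (g c')) * g⁻¹ ∈ π.ker := by
      rw [MonoidHom.mem_ker, map_mul, map_inv, ← h1, mul_inv_cancel]
    have h4 := center_apply (center_apply (hZ h3) c) (0 : Fin (m c + 1))
    refine ⟨_, h4, ?_⟩
    simp only [Pi.mul_apply, Pi.inv_apply]
    rw [cyc_iterate_mul, hg, inv_mul_cancel_right]
  -- charts
  choose N0 f0 d0 h0 using fun c => exists_chart (thN (m c) (τ c) (m c + 1))
    (IsStd.thN (m c) (τ c) (hτ c) _) M hM (hpow c)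
  choose NC fC dC hC using fun c => exists_centerChart (k := k) (ν c)
  refine prod_quot_rational (A := fun c => prodAlg (fun _ : Fin (m c + 1) => slAlg k (ν c)))
    (fun c => Irr.prod fun _ => slAlg_irr) (fun c => RStable.prod fun _ => slAlg_rstable)
    (fun c => cycAut (m c) (τ c))
    (fun c => cycChart (m c) (τ c) (fun a ha B f f' hf hf' => slAlg_mul a ha B f f' hf hf')
      slAlg_inv (fun j => (hτ c j).reg) (fun j => (hτ c j).symm.reg) (h0 c).some (hC c).some)
    π hπ hZ σ hσ

end Pool.Agent.Helper14.RG
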