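import Pool.Agent.Helper14.RG.Main

namespace Pool.Agent.Helper14.RG

variable (k : Type*) [Field k] {ι : Type*} (n : ι → ℕ)

/-- The simply connected group `∏ SL_{n i}(k)`. -/
abbrev SC : Type _ := ∀ i, Matrix.SpecialLinearGroup (Fin (n i)) k

/-- The regular functions on `∏ SL_{n i}(k)`: the polynomials in the matrix entries. -/
def regSC : Subalgebra k (SC k n → k) :=
  Algebra.adjoin k {f | ∃ i a b, f = fun g : SC k n => (g i : Matrix (Fin (n i)) (Fin (n i)) k) a b}

variable {k} {n}

lemma regSC_eq [Fintype ι] [DecidableEq ι] : regSC k n = prodAlg (fun i => slAlg k (n i)) := by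
  apply le_antisymm
  · apply Algebra.adjoin_le
    rintro _ ⟨i, a, b, rfl⟩
    exact mem_prodAlg (fun i => slAlg k (n i)) i (entry_mem a b)
  · apply Algebra.adjoin_le
    rintro _ ⟨i, a, ha, rfl⟩
    induction ha using Algebra.adjoin_induction with
    | mem x hx =>
      obtain ⟨a, b, rfl⟩ := hx
      exact Algebra.subset_adjoin ⟨i, a, b, rfl⟩
    | algebraMap r => exact Subalgebra.algebraMap_mem _ r
    | add x y _ _ hx hy => exact add_mem hx hy
    | mul x y _ _ hx hy => exact mul_mem hx hy

lemma regSC_irr [Infinite k] [Fintype ι] [DecidableEq ι] : Irr (regSC k n) := by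
  rw [regSC_eq]
  exact Irr.prod fun _ => slAlg_irr

lemma regSC_rstable [Fintype ι] [DecidableEq ι] : RStable (regSC k n) := by
  rw [regSC_eq]
  exact RStable.prod fun _ => slAlg_rstable

theorem inner_typeA' [IsAlgClosed k] [CharZero k] [Fintype ι] [DecidableEq ι]
    {Q : Type*} [Group Q] (π : SC k n →* Q) (hπ : Function.Surjective π)
    (hZ : π.ker ≤ Subgroup.center _) (s : Q) (hs : IsOfFinOrder (MulAut.conj s)) :
    RationalQuotient (quotAlg (regSC k n) π : Set (Q → k)) (fixSub (MulAut.conj s)) := by
  have key : ∀ (A : Subalgebra k (SC k n → k)) (_ : A = prodAlg (fun i => slAlg k (n i))),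
      RationalQuotient (quotAlg A π : Set (Q → k)) (fixSub (MulAut.conj s)) := by
    intro A h1
    subst h1
    exact inner_typeA n π hπ hZ s hs
  exact key _ regSC_eq

end Pool.Agent.Helper14.RG
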