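import Mathlib

namespace Pool.Agent.Helper14.RG

open Matrix

variable {k : Type*} [Field k] [IsAlgClosed k] {N : Type*} [Fintype N] [DecidableEq N]

/-- Commuting matrices with a common power being scalar are simultaneously diagonalizable
(row version). -/
theorem exists_simul_diag {Γ : Type*} (ρ : Γ → Matrix N N k)
    (hcomm : ∀ γ γ', ρ γ * ρ γ' = ρ γ' * ρ γ) (M : ℕ) (hM : (M : k) ≠ 0) (a : Γ → k)
    (ha : ∀ γ, a γ ≠ 0) (hpow : ∀ γ, ρ γ ^ M = a γ • (1 : Matrix N N k)) :
    ∃ c : Matrix N N k, IsUnit c ∧ ∃ χ : Γ → N → k, ∀ γ, c * ρ γ = diagonal (χ γ) * c := by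
  classical
  let F : Γ → Module.End k (N → k) := fun γ => Matrix.toLin' (ρ γ)ᵀ
  have hFcomm : ∀ γ γ', Commute (F γ) (F γ') := by
    intro γ γ'
    show F γ * F γ' = F γ' * F γ
    show Matrix.toLin' _ ∘ₗ Matrix.toLin' _ = Matrix.toLin' _ ∘ₗ Matrix.toLin' _
    rw [← Matrix.toLin'_mul, ← Matrix.toLin'_mul, ← Matrix.transpose_mul, ← Matrix.transpose_mul,
      hcomm]
  have hFpow : ∀ γ, F γ ^ M = a γ • (1 : Module.End k (N → k)) := by
    intro γ
    show Matrix.toLin' _ ^ M = _
    rw [← Matrix.toLin'_pow, ← Matrix.transpose_pow, hpow, Matrix.transpose_smul,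
      Matrix.transpose_one, map_smul, Matrix.toLin'_one]
    rfl
  have hss : ∀ γ, (F γ).IsSemisimple := by
    intro γ
    refine Module.End.isSemisimple_of_squarefree_aeval_eq_zero
      (Polynomial.separable_X_pow_sub_C (a γ) hM (ha γ)).squarefree ?_
    rw [map_sub, map_pow, Polynomial.aeval_X, Polynomial.aeval_C, hFpow]
    rw [Module.algebraMap_end_eq_smul_id]
    exact sub_self _
  have htop := Module.End.iSup_iInf_maxGenEigenspace_eq_top_of_iSup_maxGenEigenspace_eq_top_of_commute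
    F (fun i j _ => hFcomm i j) (fun i => Module.End.iSup_maxGenEigenspace_eq_top (F i))
  let S : Set (N → k) := {v | ∀ γ, ∃ c : k, F γ v = c • v}
  have hS : ⊤ ≤ Submodule.span k S := by
    rw [← htop]
    refine iSup_le fun χ v hv => Submodule.subset_span ?_
    intro γ
    refine ⟨χ γ, ?_⟩
    have h1 : v ∈ (F γ).maxGenEigenspace (χ γ) := (Submodule.mem_iInf _).mp hv γ
    rw [(hss γ).isFinitelySemisimple.maxGenEigenspace_eq_eigenspace] at h1
    exact Module.End.mem_eigenspace_iff.mp h1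
  let b := Module.Basis.ofSpan hS
  let e := (Pi.basisFun k N).indexEquiv b
  let c : Matrix N N k := Matrix.of (fun j => b (e j))
  have hcS : ∀ j, c j ∈ S := fun j => Module.Basis.ofSpan_subset hS ⟨e j, rfl⟩
  have hlin : LinearIndependent k c.row := by
    have := b.linearIndependent.comp e e.injective
    exact this
  refine ⟨c, Matrix.linearIndependent_rows_iff_isUnit.mp hlin, ?_⟩
  choose χ hχ using hcS
  refine ⟨fun γ j => χ j γ, fun γ => ?_⟩
  ext i j
  have h1 := congrFun (hχ i γ) j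
  rw [Matrix.diagonal_mul]
  rw [Matrix.mul_apply]
  have h2 : (F γ (c i)) j = ∑ l, (ρ γ) l j * c i l := by
    show (Matrix.toLin' (ρ γ)ᵀ (c i)) j = _
    rw [Matrix.toLin'_apply]
    rfl
  rw [h2] at h1
  rw [← smul_eq_mul (a := χ i γ)]
  exact (Finset.sum_congr rfl fun l _ => mul_comm _ _).trans h1

end Pool.Agent.Helper14.RG
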