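import Pool.Agent.Helper14.RG.Quot

namespace Pool.Agent.Helper14.RG

open MvPolynomial

lemma fix_iff {k : Type*} [Field k] {G : Type*} [Group G] {A : Subalgebra k (G → k)}
    [IsDomain A] (hA : RStable A) (h : G) (a b : A) (hb : b ≠ 0) :
    trK hA h (algebraMap A (FractionRing A) a / algebraMap A (FractionRing A) b)
      = algebraMap A (FractionRing A) a / algebraMap A (FractionRing A) b ↔
    ∀ g, (a : G → k) (g * h) * (b : G → k) g = (a : G → k) g * (b : G → k) (g * h) := by
  have hb1 : trA hA h b ≠ 0 := fun h0 => hb ((trA hA h).injective (h0.trans (map_zero _).symm))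
  rw [map_div₀, trK_algebraMap, trK_algebraMap, div_eq_div_iff (aM_ne hb1) (aM_ne hb), ← map_mul,
    ← map_mul]
  constructor
  · intro h1 g
    exact congrFun (congrArg Subtype.val (aM_inj h1)) g
  · intro h1
    congr 1
    apply Subtype.ext
    funext g
    exact h1 g

theorem rationalQuotient_of {k : Type*} [Field k] {G : Type*} [Group G] {A : Subalgebra k (G → k)}
    [IsDomain A] (hA : RStable A) (S : Subgroup G) {r : ℕ} (v : Fin r → FractionRing A)
    (hv : AlgebraicIndependent k v)
    (hv2 : ∀ f : FractionRing A, f ∈ IntermediateField.adjoin k (Set.range v) ↔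
      ∀ h ∈ S, trK hA h f = f) : RationalQuotient (A : Set (G → k)) S := by
  classical
  choose p q hq hpq using fun i => IsFractionRing.div_surjective A (v i)
  have hq0 : ∀ i, q i ≠ 0 := fun i => nonZeroDivisors.ne_zero (hq i)
  have hQ0 : (∏ i, q i) ≠ 0 := Finset.prod_ne_zero_iff.mpr fun i _ => hq0 i
  have hQg : ∀ g, ((∏ i, q i : A) : G → k) g ≠ 0 ↔ ∀ i, (q i : G → k) g ≠ 0 := by
    intro g
    have : ((∏ i, q i : A) : G → k) g = ∏ i, (q i : G → k) g := by
      rw [← Subalgebra.coe_val, map_prod, Finset.prod_apply]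
    rw [this, Finset.prod_ne_zero_iff]
    exact ⟨fun h i => h i (Finset.mem_univ i), fun h i _ => h i⟩
  have hrep : ∀ i, Rep A (v i) (fun g => (p i : G → k) g / (q i : G → k) g) := by
    intro i
    rw [← hpq i]
    exact Rep.of_div _ _ (hq0 i) (fun g hg => div_mul_cancel₀ _ hg)
  have hreg : ∀ i, (fun g => (p i : G → k) g / (q i : G → k) g) ∈ RegU A ((∏ i, q i : A) : G → k) := by
    intro i
    exact ⟨_, (p i).2, _, (q i).2, fun g hg => ⟨(hQg g).mp hg i, div_mul_cancel₀ _ ((hQg g).mp hg i)⟩⟩
  refine ⟨r, fun i => p i, fun i => q i, fun i => ⟨(p i).2, (q i).2, ?_⟩, ?_, ?_, ?_⟩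
  · intro h; exact hq0 i (Subtype.ext h)
  · intro i h hh
    have h1 : trK hA h (v i) = v i :=
      (hv2 (v i)).mp (IntermediateField.subset_adjoin k _ (Set.mem_range_self i)) h hh
    rw [← hpq i] at h1
    exact (fix_iff hA h _ _ (hq0 i)).mp h1
  · intro P hP
    by_contra hcon
    push Not at hcon
    apply hP
    have h1 : aeval v P = 0 := by
      have h0 : Rep A (0 : FractionRing A) (fun _ => (0 : k)) := by
        have := Rep.const (A := A) 0
        rwa [map_zero] at this
      exact Rep.unique (Rep.aeval hrep P) h0 _ hQ0 (fun g hg => hcon g ((hQg g).mp hg))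
    exact (injective_iff_map_eq_zero (aeval v : MvPolynomial (Fin r) k →ₐ[k] _)).mp hv _ h1
  · intro a ha b hb hb0 hinv
    have hb1 : (⟨b, hb⟩ : A) ≠ 0 := fun h => hb0 (congrArg Subtype.val h)
    have h1 : algebraMap A (FractionRing A) ⟨a, ha⟩ / algebraMap A (FractionRing A) ⟨b, hb⟩
        ∈ IntermediateField.adjoin k (Set.range v) := by
      rw [hv2]
      intro h hh
      exact (fix_iff hA h _ _ hb1).mpr (hinv h hh)
    obtain ⟨P, Q, hPQ⟩ := (IntermediateField.mem_adjoin_range_iff k v _).mp h1
    have hfin : ∀ P Q : MvPolynomial (Fin r) k, algebraMap A (FractionRing A) ⟨a, ha⟩ * aeval v Q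
        = algebraMap A (FractionRing A) ⟨b, hb⟩ * aeval v P → ∀ g, (∀ i, (q i : G → k) g ≠ 0) →
        a g * eval (fun i => (p i : G → k) g / (q i : G → k) g) Q
          = b g * eval (fun i => (p i : G → k) g / (q i : G → k) g) P := by
      intro P Q h2 g hg
      have h3 : Rep A (0 : FractionRing A) (fun g =>
          a g * eval (fun i => (p i : G → k) g / (q i : G → k) g) Q
          + (-1) * (b g * eval (fun i => (p i : G → k) g / (q i : G → k) g) P)) := by
        have h4 := ((Rep.of (⟨a, ha⟩ : A)).mul (Rep.aeval hrep Q)).add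
          ((Rep.const (A := A) (-1)).mul ((Rep.of (⟨b, hb⟩ : A)).mul (Rep.aeval hrep P)))
        rw [h2, map_neg, map_one, neg_one_mul, add_neg_cancel] at h4
        exact h4
      have h5 : (fun g => a g * eval (fun i => (p i : G → k) g / (q i : G → k) g) Q
          + (-1) * (b g * eval (fun i => (p i : G → k) g / (q i : G → k) g) P))
          ∈ RegU A ((∏ i, q i : A) : G → k) := by
        refine add_mem (mul_mem (le_RegU A _ ha) (eval_mem_RegU hreg Q)) (mul_mem ?_
          (mul_mem (le_RegU A _ hb) (eval_mem_RegU hreg P)))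
        exact Subalgebra.algebraMap_mem _ (-1 : k)
      have h6 := eq_zero_of_rep (∏ i, q i : A).2 h5 h3 g ((hQg g).mpr hg)
      linear_combination h6
    by_cases hQ : aeval v Q = 0
    · refine ⟨0, 1, one_ne_zero, hfin 0 1 ?_⟩
      rw [hQ, div_zero, div_eq_zero_iff] at hPQ
      rw [map_zero, mul_zero, map_one, mul_one]
      exact hPQ.resolve_right (aM_ne hb1)
    · refine ⟨P, Q, ?_, hfin P Q ?_⟩
      · rintro rfl; exact hQ (map_zero _)
      · rw [div_eq_div_iff (aM_ne hb1) hQ] at hPQ
        rw [hPQ, mul_comm]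

end Pool.Agent.Helper14.RG
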