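import Mathlib

namespace Pool.Agent.Helper14.RG

open MvPolynomial

section Mon

variable {k K : Type*} [Field k] [Field K] [Algebra k K] {N : Type*} [Fintype N]

/-- The Laurent monomial `∏ y_j ^ m_j`. -/
noncomputable def mon (y : N → K) (m : N → ℤ) : K := ∏ j, y j ^ m j

lemma mon_ne_zero (y : N → K) (hy : ∀ j, y j ≠ 0) (m : N → ℤ) : mon y m ≠ 0 :=
  Finset.prod_ne_zero_iff.mpr fun j _ => zpow_ne_zero _ (hy j)

lemma mon_add (y : N → K) (hy : ∀ j, y j ≠ 0) (m m' : N → ℤ) :
    mon y (m + m') = mon y m * mon y m' := by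
  unfold mon
  rw [← Finset.prod_mul_distrib]
  exact Finset.prod_congr rfl fun j _ => zpow_add₀ (hy j) _ _

lemma mon_zero (y : N → K) : mon y 0 = 1 := by simp [mon]

lemma mon_zsmul (y : N → K) (z : ℤ) (m : N → ℤ) : mon y (z • m) = mon y m ^ z := by
  unfold mon
  rw [← Finset.prod_zpow]
  refine Finset.prod_congr rfl fun j _ => ?_
  rw [Pi.smul_apply, smul_eq_mul, mul_comm, zpow_mul]

lemma mon_neg (y : N → K) (m : N → ℤ) : mon y (-m) = (mon y m)⁻¹ := by
  have := mon_zsmul y (-1) m
  rw [neg_smul, one_smul] at this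
  rw [this, zpow_neg_one]

lemma mon_sum (y : N → K) (hy : ∀ j, y j ≠ 0) {ι : Type*} (s : Finset ι) (f : ι → N → ℤ) :
    mon y (∑ i ∈ s, f i) = ∏ i ∈ s, mon y (f i) := by
  classical
  induction s using Finset.induction_on with
  | empty => simp [mon_zero]
  | insert a s ha ih => rw [Finset.sum_insert ha, Finset.prod_insert ha, mon_add y hy, ih]

lemma aeval_monomial_eq (y : N → K) (u : N →₀ ℕ) (c : k) :
    aeval y (monomial u c) = algebraMap k K c * mon y (fun j => (u j : ℤ)) := by
  rw [aeval_monomial, Finsupp.prod_fintype _ _ (fun i => by simp)]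
  simp [mon]

lemma y_ne_zero {y : N → K} (hy : AlgebraicIndependent k y) (j : N) : y j ≠ 0 := hy.ne_zero j

lemma mon_linearIndependent {y : N → K} (hy : AlgebraicIndependent k y) :
    LinearIndependent k (mon y) := by
  classical
  have hy0 : ∀ j, y j ≠ 0 := fun j => hy.ne_zero j
  rw [linearIndependent_iff']
  intro s g hs m hm
  obtain ⟨e, he⟩ : ∃ e : N → ℤ, ∀ m ∈ s, ∀ j, 0 ≤ m j + e j := by
    refine ⟨fun j => ∑ m ∈ s, |m j|, fun m hm j => ?_⟩
    have h1 : |m j| ≤ ∑ m ∈ s, |m j| :=
      Finset.single_le_sum (f := fun m : N → ℤ => |m j|) (fun _ _ => abs_nonneg _) hm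
    have h2 := neg_abs_le (m j)
    show 0 ≤ m j + ∑ m ∈ s, |m j|
    linarith
  let u : (N → ℤ) → (N →₀ ℕ) := fun m => Finsupp.equivFunOnFinite.symm (fun j => (m j + e j).toNat)
  have hu : ∀ m ∈ s, (fun j => ((u m j : ℕ) : ℤ)) = m + e := by
    intro m hm
    funext j
    simp only [u, Finsupp.equivFunOnFinite_symm_apply_apply, Pi.add_apply]
    exact Int.toNat_of_nonneg (he m hm j)
  have hinj : ∀ m ∈ s, ∀ m' ∈ s, u m = u m' → m = m' := by
    intro m hm m' hm' h
    have h1 := hu m hm
    rw [h, hu m' hm'] at h1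
    exact (add_right_cancel h1).symm
  have h0 : aeval y (∑ m ∈ s, monomial (u m) (g m)) = 0 := by
    rw [map_sum]
    have : ∀ m ∈ s, aeval y (monomial (u m) (g m)) = (g m • mon y m) * mon y e := by
      intro m hm
      rw [aeval_monomial_eq, hu m hm, mon_add y hy0, Algebra.smul_def, mul_assoc]
    rw [Finset.sum_congr rfl this, ← Finset.sum_mul, hs, zero_mul]
  have h1 : ∑ m ∈ s, monomial (u m) (g m) = 0 :=
    (injective_iff_map_eq_zero (aeval y : MvPolynomial N k →ₐ[k] K)).mp hy _ h0
  have h2 := congrArg (coeff (u m)) h1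
  rw [coeff_sum, coeff_zero, Finset.sum_eq_single m] at h2
  · simpa using h2
  · intro m' hm' hne
    rw [coeff_monomial, if_neg]
    intro h
    exact hne (hinj m' hm' m hm h)
  · intro h
    exact absurd hm h

/-- Monomials with linearly independent exponents are algebraically independent. -/
lemma algebraicIndependent_mon {y : N → K} (hy : AlgebraicIndependent k y) {r : ℕ}
    (b : Fin r → N → ℤ) (hb : LinearIndependent ℤ b) :
    AlgebraicIndependent k (fun i => mon y (b i)) := by
  classical
  have hy0 : ∀ j, y j ≠ 0 := fun j => hy.ne_zero j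
  rw [algebraicIndependent_iff]
  intro P hP
  let φ : (Fin r →₀ ℕ) → (N → ℤ) := fun a => ∑ i, (a i : ℤ) • b i
  have hφ : Function.Injective φ := by
    intro a a' h
    have h1 : ∑ i, ((a i : ℤ) - (a' i : ℤ)) • b i = 0 := by
      simp only [sub_smul, Finset.sum_sub_distrib]
      exact sub_eq_zero.mpr h
    have h2 := Fintype.linearIndependent_iff.mp hb _ h1
    ext i
    have := h2 i
    omega
  have hmon : ∀ a : Fin r →₀ ℕ, ∀ c : k, aeval (fun i => mon y (b i)) (monomial a c)
      = c • mon y (φ a) := by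
    intro a c
    rw [aeval_monomial, Finsupp.prod_fintype _ _ (fun i => by simp), Algebra.smul_def]
    congr 1
    rw [mon_sum y hy0]
    refine Finset.prod_congr rfl fun i _ => ?_
    rw [mon_zsmul, zpow_natCast]
  have hlin := (mon_linearIndependent hy).comp φ hφ
  rw [linearIndependent_iff'] at hlin
  have hsum : ∑ a ∈ P.support, coeff a P • (mon y ∘ φ) a = 0 := by
    rw [← hP]
    conv_rhs => rw [P.as_sum, map_sum]
    exact Finset.sum_congr rfl fun a _ => (hmon a _).symm
  have := hlin P.support (fun a => coeff a P) hsum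
  ext a
  rw [coeff_zero]
  by_cases ha : a ∈ P.support
  · exact this a ha
  · simpa using ha

end Mon

section Scale

variable {k : Type*} [Field k] {N : Type*} [Fintype N]

/-- Scaling of the variables. -/
noncomputable def sc (e : N → k) : MvPolynomial N k →ₐ[k] MvPolynomial N k :=
  aeval (fun j => C (e j) * X j)

lemma sc_monomial (e : N → k) (a : N →₀ ℕ) (c : k) :
    sc e (monomial a c) = monomial a (c * ∏ j, e j ^ a j) := by
  unfold sc
  rw [aeval_monomial, Finsupp.prod_fintype _ _ (fun i => by simp)]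
  simp only [mul_pow, Finset.prod_mul_distrib]
  rw [monomial_eq, Finsupp.prod_fintype _ _ (fun i => by simp)]
  simp only [map_mul, map_prod, map_pow, algebraMap_eq]
  ring

lemma coeff_sc (e : N → k) (P : MvPolynomial N k) (m : N →₀ ℕ) :
    coeff m (sc e P) = coeff m P * ∏ j, e j ^ m j := by
  classical
  induction P using MvPolynomial.induction_on' with
  | monomial a c =>
    rw [sc_monomial, coeff_monomial, coeff_monomial]
    split_ifs with h
    · rw [h]
    · simp
  | add p q hp hq => rw [map_add, coeff_add, hp, hq, coeff_add, add_mul]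

lemma sc_injective (e : N → k) (he : ∀ j, e j ≠ 0) : Function.Injective (sc e) := by
  rw [injective_iff_map_eq_zero]
  intro P hP
  ext m
  have := congrArg (coeff m) hP
  rw [coeff_sc, coeff_zero] at this
  rcases mul_eq_zero.mp this with h | h
  · simpa using h
  · exact absurd h (Finset.prod_ne_zero_iff.mpr fun j _ => pow_ne_zero _ (he j))

lemma sc_sc (e e' : N → k) (P : MvPolynomial N k) : sc e (sc e' P) = sc (e * e') P := by
  ext m
  rw [coeff_sc, coeff_sc, coeff_sc]
  simp only [Pi.mul_apply, mul_pow, Finset.prod_mul_distrib]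
  ring

lemma sc_one (P : MvPolynomial N k) : sc (1 : N → k) P = P := by
  ext m
  rw [coeff_sc]
  simp

end Scale

section Main

variable {k K : Type*} [Field k] [Field K] [Algebra k K] {N : Type*} [Fintype N]
  {Γ : Type*} [Group Γ]

/-- Invariants of a diagonal action of a group through a finite group. -/
theorem monomial_fixed (y : N → K) (hy : AlgebraicIndependent k y)
    (act : Γ →* (K ≃ₐ[k] K)) (χ : Γ → N → k)
    (hχ : ∀ γ j, act γ (y j) = algebraMap k K (χ γ j) * y j)
    (M : ℕ) (hM : 0 < M) (hpow : ∀ γ j, χ γ j ^ M = 1) :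
    ∃ r : ℕ, ∃ v : Fin r → K, AlgebraicIndependent k v ∧
      ∀ f : K, f ∈ IntermediateField.adjoin k (Set.range v) ↔
        (f ∈ IntermediateField.adjoin k (Set.range y) ∧ ∀ γ, act γ f = f) := by
  classical
  have hy0 : ∀ j, y j ≠ 0 := fun j => hy.ne_zero j
  have hχ0 : ∀ γ j, χ γ j ≠ 0 := by
    intro γ j h
    have := hpow γ j
    rw [h, zero_pow hM.ne'] at this
    exact zero_ne_one this
  have hmul : ∀ γ γ', χ (γ * γ') = χ γ * χ γ' := by
    intro γ γ'
    funext j
    have h1 := hχ (γ * γ') j
    rw [map_mul, AlgEquiv.mul_apply, hχ γ' j, map_mul, AlgEquiv.commutes, hχ γ j] at h1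
    have h2 : algebraMap k K (χ γ' j * χ γ j) * y j = algebraMap k K (χ (γ * γ') j) * y j := by
      rw [map_mul, mul_assoc]; exact h1
    have h3 := mul_right_cancel₀ (hy0 j) h2
    have h4 := (algebraMap k K).injective h3
    rw [Pi.mul_apply, ← h4, mul_comm]
  have hone : χ 1 = 1 := by
    have h := hmul 1 1
    rw [mul_one] at h
    funext j
    have hj := congrFun h j
    rw [Pi.mul_apply] at hj
    have := mul_left_cancel₀ (hχ0 1 j) (a := χ 1 j) (b := χ 1 j) (c := 1) (by rw [mul_one]; exact hj.symm)
    exact this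
  -- finiteness
  have hfin : (Set.range χ).Finite := by
    have hroots : {x : k | x ^ M = 1}.Finite := by
      refine ((Polynomial.nthRoots M (1 : k)).toFinset.finite_toSet).subset ?_
      intro x hx
      simp only [Finset.mem_coe, Multiset.mem_toFinset]
      exact (Polynomial.mem_nthRoots hM).mpr hx
    refine (Set.Finite.pi' (t := fun _ : N => {x : k | x ^ M = 1}) (fun _ => hroots)).subset ?_
    rintro _ ⟨γ, rfl⟩ j
    exact hpow γ j
  obtain ⟨E, hE⟩ : ∃ E : Finset (N → k), ∀ e, e ∈ E ↔ e ∈ Set.range χ :=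
    ⟨hfin.toFinset, fun e => by simp⟩
  -- action on polynomials in y
  have hact : ∀ γ (P : MvPolynomial N k), act γ (aeval y P) = aeval y (sc (χ γ) P) := by
    intro γ P
    have : ((act γ : K ≃ₐ[k] K) : K →ₐ[k] K).comp (aeval y) = (aeval y).comp (sc (χ γ)) := by
      ext j
      simp [sc, hχ]
    exact DFunLike.congr_fun this P
  have hactmon : ∀ γ (m : N → ℤ), act γ (mon y m) = mon (fun j => algebraMap k K (χ γ j)) m * mon y m := by
    intro γ m
    unfold mon
    rw [map_prod, ← Finset.prod_mul_distrib]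
    refine Finset.prod_congr rfl fun j _ => ?_
    rw [map_zpow₀, hχ, mul_zpow]
  -- the lattice
  let L : AddSubgroup (N → ℤ) :=
    { carrier := {m | ∀ γ, mon (χ γ) m = 1}
      zero_mem' := fun γ => mon_zero _
      add_mem' := by
        intro a b ha hb γ
        rw [mon_add _ (hχ0 γ), ha γ, hb γ, one_mul]
      neg_mem' := by
        intro a ha γ
        rw [mon_neg, ha γ, inv_one] }
  let L' : Submodule ℤ (N → ℤ) := AddSubgroup.toIntSubmodule L
  have hL' : ∀ m, m ∈ L' ↔ ∀ γ, mon (χ γ) m = 1 := fun m => Iff.rfl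
  let b := Module.finBasis ℤ L'
  let v : Fin (Module.finrank ℤ L') → K := fun i => mon y ((b i : L') : N → ℤ)
  have hmapmon : ∀ γ m, mon (fun j => algebraMap k K (χ γ j)) m = algebraMap k K (mon (χ γ) m) := by
    intro γ m
    unfold mon
    rw [map_prod]
    exact Finset.prod_congr rfl fun j _ => (map_zpow₀ _ _ _).symm
  have hvfix : ∀ γ i, act γ (v i) = v i := by
    intro γ i
    have := (hL' _).mp (b i).2 γ
    show act γ (mon y _) = mon y _
    rw [hactmon, hmapmon, this, map_one, one_mul]
  have hmonL : ∀ m ∈ L', mon y m ∈ IntermediateField.adjoin k (Set.range v) := by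
    intro m hm
    have h1 : m = ∑ i, (b.repr ⟨m, hm⟩ i) • ((b i : L') : N → ℤ) := by
      have h := congrArg L'.subtype (b.sum_repr ⟨m, hm⟩)
      rw [map_sum] at h
      simp only [map_smul] at h
      exact h.symm
    rw [h1, mon_sum y hy0]
    refine prod_mem fun i _ => ?_
    rw [mon_zsmul]
    exact zpow_mem (IntermediateField.subset_adjoin k (Set.range v) (Set.mem_range_self i)) _
  -- invariant polynomials
  have hinv : ∀ P : MvPolynomial N k, (∀ γ, act γ (aeval y P) = aeval y P) →
      aeval y P ∈ IntermediateField.adjoin k (Set.range v) := by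
    intro P hP
    have hP' : ∀ γ, sc (χ γ) P = P := by
      intro γ
      exact hy ((hact γ P).symm.trans (hP γ))
    rw [P.as_sum, map_sum]
    refine sum_mem fun m hm => ?_
    rw [aeval_monomial_eq]
    refine mul_mem (IntermediateField.algebraMap_mem _ _) (hmonL _ ((hL' _).mpr fun γ => ?_))
    have h1 := congrArg (coeff m) (hP' γ)
    rw [coeff_sc] at h1
    have h2 : coeff m P ≠ 0 := by simpa using hm
    have h3 : ∏ j, χ γ j ^ m j = 1 := by
      have : coeff m P * ∏ j, χ γ j ^ m j = coeff m P * 1 := by rw [h1, mul_one]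
      exact mul_left_cancel₀ h2 this
    unfold mon
    simpa using h3
  refine ⟨_, v, ?_, ?_⟩
  · apply algebraicIndependent_mon hy
    have := b.linearIndependent
    exact this.map' L'.subtype (Submodule.ker_subtype L')
  · intro f
    constructor
    · intro hf
      refine ⟨?_, ?_⟩
      · have hle : IntermediateField.adjoin k (Set.range v) ≤ IntermediateField.adjoin k (Set.range y) := by
          rw [IntermediateField.adjoin_le_iff]
          rintro _ ⟨i, rfl⟩
          refine prod_mem fun j _ => ?_
          exact zpow_mem (IntermediateField.subset_adjoin k (Set.range y) (Set.mem_range_self j)) _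
        exact hle hf
      · intro γ
        induction hf using IntermediateField.adjoin_induction with
        | mem x hx => obtain ⟨i, rfl⟩ := hx; exact hvfix γ i
        | algebraMap x => exact AlgEquiv.commutes _ _
        | add x y _ _ hx hy => rw [map_add, hx, hy]
        | inv x _ hx => rw [map_inv₀, hx]
        | mul x y _ _ hx hy => rw [map_mul, hx, hy]
    · rintro ⟨hf, hfix⟩
      obtain ⟨P, Q, rfl⟩ := (IntermediateField.mem_adjoin_range_iff k y f).mp hf
      by_cases hQ : aeval y Q = 0
      · rw [hQ, div_zero]; exact zero_mem _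
      have hQ0 : Q ≠ 0 := by rintro rfl; exact hQ (map_zero _)
      have h1E : (1 : N → k) ∈ E := (hE _).mpr ⟨1, hone⟩
      let Q' := ∏ e ∈ E, sc e Q
      let P' := P * ∏ e ∈ E.erase 1, sc e Q
      have hQ' : aeval y Q' ≠ 0 := by
        intro h
        have h2 : Q' = 0 := (injective_iff_map_eq_zero (aeval y : MvPolynomial N k →ₐ[k] K)).mp hy _ h
        obtain ⟨e, he, he2⟩ := Finset.prod_eq_zero_iff.mp h2
        obtain ⟨γ, rfl⟩ := (hE e).mp he
        exact hQ0 ((injective_iff_map_eq_zero _).mp (sc_injective _ (hχ0 γ)) _ he2)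
      have hQQ : Q' = Q * ∏ e ∈ E.erase 1, sc e Q := by
        show ∏ e ∈ E, sc e Q = _
        rw [← Finset.mul_prod_erase E _ h1E, sc_one]
      have hPQ : aeval y P / aeval y Q = aeval y P' / aeval y Q' := by
        have hR : aeval y (∏ e ∈ E.erase 1, sc e Q) ≠ 0 := by
          intro h
          apply hQ'
          rw [hQQ, map_mul, h, mul_zero]
        rw [hQQ]
        show _ = aeval y (P * ∏ e ∈ E.erase 1, sc e Q) / _
        rw [map_mul, map_mul, mul_div_mul_right _ _ hR]
      have hQinv : ∀ γ, act γ (aeval y Q') = aeval y Q' := by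
        intro γ
        rw [hact]
        congr 1
        show sc (χ γ) (∏ e ∈ E, sc e Q) = ∏ e ∈ E, sc e Q
        rw [map_prod]
        refine Finset.prod_nbij' (fun e => χ γ * e) (fun e => χ γ⁻¹ * e) ?_ ?_ ?_ ?_ ?_
        · intro e he
          obtain ⟨γ', rfl⟩ := (hE e).mp he
          exact (hE _).mpr ⟨γ * γ', hmul _ _⟩
        · intro e he
          obtain ⟨γ', rfl⟩ := (hE e).mp he
          exact (hE _).mpr ⟨γ⁻¹ * γ', hmul _ _⟩
        · intro e he
          show χ γ⁻¹ * (χ γ * e) = e
          rw [← mul_assoc, ← hmul, inv_mul_cancel, hone, one_mul]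
        · intro e he
          show χ γ * (χ γ⁻¹ * e) = e
          rw [← mul_assoc, ← hmul, mul_inv_cancel, hone, one_mul]
        · intro e he
          exact sc_sc _ _ _
      have hPinv : ∀ γ, act γ (aeval y P') = aeval y P' := by
        intro γ
        have h1 := hfix γ
        rw [hPQ, map_div₀, hQinv γ] at h1
        exact (div_left_inj' hQ').mp h1
      rw [hPQ]
      exact div_mem (hinv _ hPinv) (hinv _ hQinv)

end Main

end Pool.Agent.Helper14.RG
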