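import Pool.Agent.Helper14.RG.SLn

namespace Pool.Agent.Helper14.RG

open MvPolynomial Matrix

section Rank

variable {k : Type*} {n : ℕ}

open Classical in
/-- the block of indices with `χ`-value `l`. -/
noncomputable def blk (χ : Fin n → k) (l : k) : Finset (Fin n) := Finset.univ.filter (fun i => χ i = l)

lemma mem_blk {χ : Fin n → k} {l : k} {i : Fin n} : i ∈ blk χ l ↔ χ i = l := by
  simp [blk]

/-- the rank of an index within its block. -/
noncomputable def rk (χ : Fin n → k) (j : Fin n) : ℕ :=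
  ((blk χ (χ j)).equivFin ⟨j, mem_blk.mpr rfl⟩).val

lemma rk_eq (χ : Fin n → k) (j : Fin n) (l : k) (h : χ j = l) :
    rk χ j = ((blk χ l).equivFin ⟨j, mem_blk.mpr h⟩).val := by
  subst h; rfl

lemma rk_lt (χ : Fin n → k) (j : Fin n) : rk χ j < (blk χ (χ j)).card :=
  ((blk χ (χ j)).equivFin ⟨j, mem_blk.mpr rfl⟩).isLt

lemma blk_card_le (χ : Fin n → k) (l : k) : (blk χ l).card ≤ n := by
  have := Finset.card_le_univ (blk χ l)
  simpa using this

lemma rk_inj (χ : Fin n → k) (i j : Fin n) (h : χ i = χ j) (hr : rk χ i = rk χ j) : i = j := by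
  rw [rk_eq χ i (χ j) h, rk_eq χ j (χ j) rfl] at hr
  have h1 := (blk χ (χ j)).equivFin.injective (Fin.ext hr)
  exact congrArg Subtype.val h1

lemma rk_surj (χ : Fin n → k) (l : k) (x : ℕ) (hx : x < (blk χ l).card) :
    ∃ i, χ i = l ∧ rk χ i = x := by
  obtain ⟨i, hi⟩ := (blk χ l).equivFin.surjective ⟨x, hx⟩
  refine ⟨i.1, mem_blk.mp i.2, ?_⟩
  rw [rk_eq χ i.1 l (mem_blk.mp i.2)]
  have : (⟨i.1, mem_blk.mpr (mem_blk.mp i.2)⟩ : {x // x ∈ blk χ l}) = i := rfl
  rw [this, hi]

/-- the rank as an element of `Fin n`. -/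
noncomputable def rr (χ : Fin n → k) (j : Fin n) : Fin n :=
  ⟨rk χ j, lt_of_lt_of_le (rk_lt χ j) (blk_card_le χ _)⟩

lemma rr_inj (χ : Fin n → k) (i j : Fin n) (h : χ i = χ j) (hr : rr χ i = rr χ j) : i = j :=
  rk_inj χ i j h (congrArg Fin.val hr)

/-- non-pivot positions -/
abbrev NP (χ : Fin n → k) : Type := {p : Fin n × Fin n // ¬ p.1.val < (blk χ (χ p.2)).card}

end Rank

section Blocks

variable {k : Type*} [Field k] {n : ℕ} (χ : Fin n → k)

open Classical in
/-- the pivot blocks of a matrix. -/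
noncomputable def TT (w : Matrix (Fin n) (Fin n) k) : Matrix (Fin n) (Fin n) k :=
  Matrix.of fun i j => if χ i = χ j then w (rr χ i) j else 0

lemma TT_apply (w : Matrix (Fin n) (Fin n) k) {i j : Fin n} (h : χ i = χ j) :
    TT χ w i j = w (rr χ i) j := by
  unfold TT; rw [Matrix.of_apply, if_pos h]

lemma TT_apply_ne (w : Matrix (Fin n) (Fin n) k) {i j : Fin n} (h : χ i ≠ χ j) :
    TT χ w i j = 0 := by
  unfold TT; rw [Matrix.of_apply, if_neg h]

lemma comm_iff (B : Matrix (Fin n) (Fin n) k) :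
    B * diagonal χ = diagonal χ * B ↔ ∀ i j, χ i ≠ χ j → B i j = 0 := by
  constructor
  · intro h i j hij
    have h1 := congrFun (congrFun h i) j
    rw [Matrix.mul_diagonal, Matrix.diagonal_mul] at h1
    have h2 : (χ i - χ j) * B i j = 0 := by linear_combination -h1
    exact (mul_eq_zero.mp h2).resolve_left (sub_ne_zero.mpr hij)
  · intro h
    ext i j
    rw [Matrix.mul_diagonal, Matrix.diagonal_mul]
    by_cases hij : χ i = χ j
    · rw [hij]; ring
    · rw [h i j hij]; ring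

lemma TT_comm (w : Matrix (Fin n) (Fin n) k) : TT χ w * diagonal χ = diagonal χ * TT χ w :=
  (comm_iff χ _).mpr fun _ _ h => TT_apply_ne χ w h

lemma inv_comm {B L : Matrix (Fin n) (Fin n) k} (hB : B.det ≠ 0) (h : B * L = L * B) :
    B⁻¹ * L = L * B⁻¹ := by
  have hu : IsUnit B.det := isUnit_iff_ne_zero.mpr hB
  calc B⁻¹ * L = B⁻¹ * L * (B * B⁻¹) := by rw [Matrix.mul_nonsing_inv _ hu, mul_one]
    _ = B⁻¹ * (L * B) * B⁻¹ := by simp only [mul_assoc]
    _ = B⁻¹ * (B * L) * B⁻¹ := by rw [h]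
    _ = (B⁻¹ * B) * L * B⁻¹ := by simp only [mul_assoc]
    _ = L * B⁻¹ := by rw [Matrix.nonsing_inv_mul _ hu, one_mul]

lemma pivot_entry (w : Matrix (Fin n) (Fin n) k) (hT : (TT χ w).det ≠ 0) {i j : Fin n}
    (hij : χ i = χ j) : (w * (TT χ w)⁻¹) (rr χ i) j = if i = j then 1 else 0 := by
  have hu : IsUnit (TT χ w).det := isUnit_iff_ne_zero.mpr hT
  have h1 : (TT χ w * (TT χ w)⁻¹) i j = if i = j then 1 else 0 := by
    rw [Matrix.mul_nonsing_inv _ hu, Matrix.one_apply]
  rw [← h1, Matrix.mul_apply, Matrix.mul_apply]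
  refine Finset.sum_congr rfl fun l _ => ?_
  by_cases hl : χ l = χ j
  · rw [TT_apply χ w (hij.trans hl.symm)]
  · have h2 := (comm_iff χ _).mp (inv_comm hT (TT_comm χ w)) l j hl
    rw [h2, mul_zero, mul_zero]

open Classical in
/-- the generic matrix with normalized pivot blocks. -/
noncomputable def PM : Matrix (Fin n) (Fin n) (MvPolynomial (NP χ) k) :=
  Matrix.of fun x j => if h : ¬ x.val < (blk χ (χ j)).card then X (⟨(x, j), h⟩ : NP χ)
    else if rr χ j = x then 1 else 0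

lemma PM_eval (Y : NP χ → k) (x j : Fin n) (h : ¬ x.val < (blk χ (χ j)).card) :
    ((PM χ).map (eval Y)) x j = Y ⟨(x, j), h⟩ := by
  rw [Matrix.map_apply, PM, Matrix.of_apply, dif_pos h, eval_X]

lemma PM_eval_pivot (Y : NP χ → k) (x j : Fin n) (h : x.val < (blk χ (χ j)).card) :
    ((PM χ).map (eval Y)) x j = if rr χ j = x then 1 else 0 := by
  rw [Matrix.map_apply, PM, Matrix.of_apply, dif_neg (not_not.mpr h)]
  split_ifs
  · exact map_one _
  · exact map_zero _

lemma PM_eq (w : Matrix (Fin n) (Fin n) k) (hT : (TT χ w).det ≠ 0) (Y : NP χ → k)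
    (hY : ∀ p : NP χ, Y p = (w * (TT χ w)⁻¹) p.1.1 p.1.2) :
    (PM χ).map (eval Y) = w * (TT χ w)⁻¹ := by
  ext x j
  by_cases h : x.val < (blk χ (χ j)).card
  · rw [PM_eval_pivot χ Y x j h]
    obtain ⟨i, hi1, hi2⟩ := rk_surj χ (χ j) x.val h
    have hx : x = rr χ i := Fin.ext hi2.symm
    subst hx
    rw [pivot_entry χ w hT hi1]
    by_cases hij : i = j
    · subst hij; simp
    · rw [if_neg hij, if_neg]
      intro h1
      exact hij (rr_inj χ i j hi1 h1.symm)
  · rw [PM_eval χ Y x j h, hY]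

lemma TT_PM (Y : NP χ → k) (δ : Fin n → k) :
    TT χ ((PM χ).map (eval Y) * diagonal δ) = diagonal δ := by
  ext i j
  by_cases h : χ i = χ j
  · rw [TT_apply χ _ h, Matrix.mul_diagonal]
    have h1 : (rr χ i).val < (blk χ (χ j)).card := by rw [← h]; exact rk_lt χ i
    rw [PM_eval_pivot χ Y _ j h1]
    by_cases hij : i = j
    · subst hij; simp
    · rw [if_neg, zero_mul, Matrix.diagonal_apply_ne _ hij]
      intro h2
      exact hij (rr_inj χ i j h h2.symm)
  · rw [TT_apply_ne χ _ h, Matrix.diagonal_apply_ne]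
    rintro rfl
    exact h rfl

/-- The effect of a right multiplication by a matrix which shifts the eigenvalues. -/
lemma TT_shift (w h : Matrix (Fin n) (Fin n) k) (z : k) (hz : z ≠ 0)
    (hh : diagonal χ * h = z • (h * diagonal χ)) (π : Fin n → Fin n)
    (hπ : ∀ j, χ (π j) = z * χ j) (hπr : ∀ j, rk χ (π j) = rk χ j) :
    TT χ (w * h) = (TT χ w).submatrix π id * h := by
  ext i j
  rw [Matrix.mul_apply]
  have hentry : ∀ l, h l j ≠ 0 → χ l = z * χ j := by
    intro l hl
    have h1 := congrFun (congrFun hh l) j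
    rw [Matrix.smul_apply, Matrix.mul_diagonal, Matrix.diagonal_mul, smul_eq_mul] at h1
    have h2 : (χ l - z * χ j) * h l j = 0 := by linear_combination h1
    exact sub_eq_zero.mp ((mul_eq_zero.mp h2).resolve_right hl)
  have hrr : rr χ (π i) = rr χ i := Fin.ext (hπr i)
  by_cases hij : χ i = χ j
  · rw [TT_apply χ _ hij, Matrix.mul_apply]
    refine Finset.sum_congr rfl fun l _ => ?_
    by_cases hl : h l j = 0
    · rw [hl, mul_zero, mul_zero]
    · have h1 := hentry l hl
      rw [Matrix.submatrix_apply, id, TT_apply χ w (by rw [hπ, h1, hij]), hrr]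
  · rw [TT_apply_ne χ _ hij]
    symm
    refine Finset.sum_eq_zero fun l _ => ?_
    by_cases hl : h l j = 0
    · rw [hl, mul_zero]
    · have h1 := hentry l hl
      rw [Matrix.submatrix_apply, id, TT_apply_ne χ w, zero_mul]
      rw [hπ, h1]
      intro h2
      exact hij (mul_left_cancel₀ hz h2)

lemma PP_shift (w h : Matrix (Fin n) (Fin n) k) (hT : (TT χ w).det ≠ 0) (hdet : h.det ≠ 0)
    (z : k) (hz : z ≠ 0)
    (hh : diagonal χ * h = z • (h * diagonal χ)) (π : Fin n → Fin n)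
    (hπ : ∀ j, χ (π j) = z * χ j) (hπr : ∀ j, rk χ (π j) = rk χ j) :
    (TT χ (w * h)).det ≠ 0 ∧
      w * h * (TT χ (w * h))⁻¹ = (w * (TT χ w)⁻¹).submatrix id π := by
  have hinj : Function.Injective π := by
    intro i j hij
    apply rk_inj χ
    · have := congrArg χ hij
      rw [hπ, hπ] at this
      exact mul_left_cancel₀ hz this
    · rw [← hπr i, ← hπr j, hij]
  let e : Fin n ≃ Fin n := Equiv.ofBijective π (Finite.injective_iff_bijective.mp hinj)
  have he : ⇑e = π := rfl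
  have h1 := TT_shift χ w h z hz hh π hπ hπr
  have hd : (TT χ (w * h)).det ≠ 0 := by
    rw [h1, Matrix.det_mul]
    refine mul_ne_zero ?_ hdet
    rw [← he, Matrix.det_permute]
    refine mul_ne_zero ?_ hT
    rcases Int.units_eq_one_or (Equiv.Perm.sign e) with h2 | h2 <;> rw [h2] <;> simp
  refine ⟨hd, ?_⟩
  have hu : IsUnit (TT χ (w * h)).det := isUnit_iff_ne_zero.mpr hd
  have hu' : IsUnit (TT χ w).det := isUnit_iff_ne_zero.mpr hT
  have h2 : (w * (TT χ w)⁻¹).submatrix id π * TT χ (w * h) = w * h := by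
    rw [h1, ← mul_assoc, ← he, Matrix.submatrix_mul_equiv, mul_assoc,
      Matrix.nonsing_inv_mul _ hu', mul_one]
    rfl
  calc w * h * (TT χ (w * h))⁻¹
      = ((w * (TT χ w)⁻¹).submatrix id π * TT χ (w * h)) * (TT χ (w * h))⁻¹ := by rw [h2]
    _ = (w * (TT χ w)⁻¹).submatrix id π := by
      rw [mul_assoc, Matrix.mul_nonsing_inv _ hu, mul_one]

lemma exists_pi (h : Matrix (Fin n) (Fin n) k) (hdet : h.det ≠ 0) (z : k) (hz : z ≠ 0)
    (hh : diagonal χ * h = z • (h * diagonal χ)) :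
    ∃ π : Fin n → Fin n, (∀ j, χ (π j) = z * χ j) ∧ (∀ j, rk χ (π j) = rk χ j) := by
  have hentry : ∀ l j, h l j ≠ 0 → χ l = z * χ j := by
    intro l j hl
    have h1 := congrFun (congrFun hh l) j
    rw [Matrix.smul_apply, Matrix.mul_diagonal, Matrix.diagonal_mul, smul_eq_mul] at h1
    have h2 : (χ l - z * χ j) * h l j = 0 := by linear_combination h1
    exact sub_eq_zero.mp ((mul_eq_zero.mp h2).resolve_right hl)
  obtain ⟨σ, hσ⟩ : ∃ σ : Equiv.Perm (Fin n), ∀ j, h (σ j) j ≠ 0 := by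
    by_contra hcon
    push Not at hcon
    apply hdet
    rw [Matrix.det_apply]
    refine Finset.sum_eq_zero fun σ _ => ?_
    obtain ⟨j, hj⟩ := hcon σ
    have h3 : ∏ i, h (σ i) i = 0 := Finset.prod_eq_zero (Finset.mem_univ j) hj
    rw [h3, smul_zero]
  have hσ' : ∀ j, χ (σ j) = z * χ j := fun j => hentry _ _ (hσ j)
  have hcard : ∀ m : k, (blk χ m).card = (blk χ (z * m)).card := by
    intro m
    refine Finset.card_nbij' (fun j => σ j) (fun j => σ.symm j) ?_ ?_ ?_ ?_
    · intro j hj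
      have := mem_blk.mp hj
      exact mem_blk.mpr (by rw [hσ', this])
    · intro j hj
      have h1 : χ j = z * m := mem_blk.mp hj
      refine mem_blk.mpr ?_
      have h2 := hσ' (σ.symm j)
      rw [Equiv.apply_symm_apply, h1] at h2
      exact (mul_left_cancel₀ hz h2).symm
    · intro j _; exact σ.symm_apply_apply j
    · intro j _; exact σ.apply_symm_apply j
  have hex : ∀ j, ∃ i, χ i = z * χ j ∧ rk χ i = rk χ j := by
    intro j
    exact rk_surj χ (z * χ j) (rk χ j) (by rw [← hcard]; exact rk_lt χ j)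
  choose π h1 h2 using hex
  exact ⟨π, h1, h2⟩

end Blocks

end Pool.Agent.Helper14.RG
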