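import Pool.Agent.Helper14.RG.Elem

namespace Pool.Agent.Helper14.RG

open MvPolynomial

section General

variable {k : Type*} [Field k] [IsAlgClosed k] [CharZero k] {C : Type*} [Fintype C]
  [DecidableEq C] {G : C → Type*} [∀ c, Group (G c)]

omit [Fintype C] in
lemma center_apply {z : ∀ c, G c} (hz : z ∈ Subgroup.center (∀ c, G c)) (c : C) :
    z c ∈ Subgroup.center (G c) := by
  rw [Subgroup.mem_center_iff]
  intro g
  have h1 := congrFun (Subgroup.mem_center_iff.mp hz (Pi.mulSingle c g)) c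
  simpa using h1

theorem prod_quot_rational {A : ∀ c, Subalgebra k (G c → k)} (hirr : ∀ c, Irr (A c))
    (hst : ∀ c, RStable (A c)) (τ : ∀ c, G c ≃* G c)
    {N : C → Type*} [∀ c, Fintype (N c)] [∀ c, DecidableEq (N c)]
    (ch : ∀ c, Chart (A c) (fixSub (τ c)) (fixMod (τ c)) (N c))
    {Q : Type*} [Group Q] (π : (∀ c, G c) →* Q) (hπ : Function.Surjective π)
    (hZ : π.ker ≤ Subgroup.center _) [Finite π.ker]
    (σ : Q ≃* Q) (hσ : ∀ g : ∀ c, G c, σ (π g) = π (fun c => τ c (g c))) :
    RationalQuotient (quotAlg (prodAlg A) π : Set (Q → k)) (fixSub σ) := by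
  have hA : RStable (prodAlg A) := RStable.prod hst
  have hdom : IsDomain (prodAlg A) := (Irr.prod hirr).isDomain
  have hdomq : IsDomain (quotAlg (prodAlg A) π) := ((Irr.prod hirr).quot π hπ).isDomain
  let HH : Subgroup (∀ c, G c) := (fixSub σ).comap π
  have hHH : ∀ g : ∀ c, G c, g ∈ HH ↔ ∃ z ∈ π.ker, (fun c => τ c (g c)) = z * g := by
    intro g
    have h0 : g ∈ HH ↔ σ (π g) = π g := Iff.rfl
    rw [h0, hσ]
    constructor
    · intro h
      refine ⟨(fun c => τ c (g c)) * g⁻¹, ?_, by group⟩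
      rw [MonoidHom.mem_ker, map_mul, map_inv, h, mul_inv_cancel]
    · rintro ⟨z, hz, h⟩
      rw [h, map_mul, MonoidHom.mem_ker.mp hz, one_mul]
  have h1 : Subgroup.pi Set.univ (fun c => fixSub (τ c)) ≤ HH := by
    intro g hg
    rw [hHH]
    refine ⟨1, one_mem _, ?_⟩
    rw [one_mul]
    funext c
    exact hg c (Set.mem_univ c)
  have h2 : HH ≤ Subgroup.pi Set.univ (fun c => fixMod (τ c)) := by
    intro g hg c _
    obtain ⟨z, hz, h⟩ := (hHH g).mp hg
    exact ⟨z c, center_apply (hZ hz) c, congrFun h c⟩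
  have hcomm : ∀ h ∈ HH, ∀ h' ∈ HH, ∃ c ∈ Subgroup.pi Set.univ (fun c => fixSub (τ c)),
      h' * h = h * h' * c := by
    intro h hh h' hh'
    refine ⟨(h * h')⁻¹ * (h' * h), ?_, by group⟩
    intro c _
    obtain ⟨z, hz, e1⟩ := h2 hh c (Set.mem_univ c)
    obtain ⟨z', hz', e2⟩ := h2 hh' c (Set.mem_univ c)
    show τ c (((h * h')⁻¹ * (h' * h)) c) = ((h * h')⁻¹ * (h' * h)) c
    simp only [Pi.mul_apply, Pi.inv_apply]
    rw [map_mul, map_inv, map_mul, map_mul, e1, e2]
    have c1 := Subgroup.mem_center_iff.mp hz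
    have c2 := Subgroup.mem_center_iff.mp hz'
    have e3 : z * h c * (z' * h' c) = (z * z') * (h c * h' c) := by
      calc z * h c * (z' * h' c) = z * (h c * z') * h' c := by simp only [mul_assoc]
        _ = z * (z' * h c) * h' c := by rw [c2]
        _ = (z * z') * (h c * h' c) := by simp only [mul_assoc]
    have e4 : z' * h' c * (z * h c) = (z * z') * (h' c * h c) := by
      calc z' * h' c * (z * h c) = z' * (h' c * z) * h c := by simp only [mul_assoc]
        _ = z' * (z * h' c) * h c := by rw [c1]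
        _ = (z' * z) * (h' c * h c) := by simp only [mul_assoc]
        _ = (z * z') * (h' c * h c) := by rw [c1 z']
    rw [e3, e4]
    group
  have hpow : ∀ h ∈ HH, h ^ Nat.card π.ker ∈ Subgroup.pi Set.univ (fun c => fixSub (τ c)) := by
    intro h hh c _
    obtain ⟨z, hz, h3⟩ := (hHH h).mp hh
    have e1 : τ c (h c) = z c * h c := congrFun h3 c
    have hzc := center_apply (hZ hz) c
    show τ c ((h ^ Nat.card π.ker) c) = (h ^ Nat.card π.ker) c
    rw [Pi.pow_apply, map_pow, e1]
    have hcm : Commute (z c) (h c) := (Subgroup.mem_center_iff.mp hzc (h c)).symm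
    rw [hcm.mul_pow]
    have h4 : z ^ Nat.card π.ker = 1 := by
      have := pow_card_eq_one' (x := (⟨z, hz⟩ : π.ker))
      exact congrArg Subtype.val this
    have h5 : (z c) ^ Nat.card π.ker = 1 := by
      rw [← Pi.pow_apply, h4]; rfl
    rw [h5, one_mul]
  obtain ⟨r, v, hv, hv2⟩ := (Chart.prod ch HH h1 h2).rational hA hcomm (Nat.card π.ker)
    Nat.card_pos hpow
  obtain ⟨y, hy, hy2⟩ := quot_rational' hA π hπ (fixSub σ) v hv hv2
  exact rationalQuotient_of (hA.quot π hπ) (fixSub σ) y hy hy2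

end General

section TypeA

variable {k : Type*} [Field k]

lemma finite_center_SL (n : ℕ) : Finite (Subgroup.center (Matrix.SpecialLinearGroup (Fin n) k)) := by
  have : NeZero (max (Fintype.card (Fin n)) 1) := ⟨by positivity⟩
  exact Finite.of_equiv _
    (Matrix.SpecialLinearGroup.center_equiv_rootsOfUnity (n := Fin n) (R := k)).symm.toEquiv

lemma finite_Z {C : Type*} [Finite C] [DecidableEq C] (n : C → ℕ)
    (Z : Subgroup (∀ c, Matrix.SpecialLinearGroup (Fin (n c)) k))
    (hZ : Z ≤ Subgroup.center _) : Finite Z := by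
  have := fun c => finite_center_SL (k := k) (n c)
  refine Finite.of_injective (β := ∀ c, Subgroup.center (Matrix.SpecialLinearGroup (Fin (n c)) k))
    (fun z c => ⟨(z : ∀ c, Matrix.SpecialLinearGroup (Fin (n c)) k) c, center_apply (hZ z.2) c⟩) ?_
  intro z z' h
  apply Subtype.ext
  funext c
  exact congrArg Subtype.val (congrFun h c)

lemma exists_eigenbasis [IsAlgClosed k] {n : ℕ} (a : Matrix (Fin n) (Fin n) k) (M : ℕ)
    (hM : (M : k) ≠ 0) (r : k) (hr : r ≠ 0) (h : a ^ M = r • (1 : Matrix (Fin n) (Fin n) k)) :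
    ∃ (u : Matrix (Fin n) (Fin n) k) (χ : Fin n → k), u.det ≠ 0 ∧
      a * u = u * Matrix.diagonal χ := by
  obtain ⟨c, hc, χ, hχ⟩ := exists_simul_diag (Γ := Unit) (fun _ => a.transpose) (fun _ _ => rfl) M hM
    (fun _ => r) (fun _ => hr) (fun _ => by
      rw [← Matrix.transpose_pow, h, Matrix.transpose_smul, Matrix.transpose_one])
  refine ⟨c.transpose, χ (), ?_, ?_⟩
  · rw [Matrix.det_transpose]
    exact ((Matrix.isUnit_iff_isUnit_det _).mp hc).ne_zero
  · have h1 := congrArg Matrix.transpose (hχ ())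
    rw [Matrix.transpose_mul, Matrix.transpose_mul, Matrix.transpose_transpose,
      Matrix.diagonal_transpose] at h1
    exact h1

lemma pow_central {G Q : Type*} [Group G] [Group Q] (π : G →* Q) (hZ : π.ker ≤ Subgroup.center G)
    [Finite π.ker] (s : G) (m : ℕ) (hs : ∀ x : Q, (π s) ^ m * x = x * (π s) ^ m) :
    s ^ (m * Nat.card π.ker) ∈ Subgroup.center G := by
  rw [Subgroup.mem_center_iff]
  intro g
  obtain ⟨z, hz, h⟩ : ∃ z ∈ π.ker, s ^ m * g = z * (g * s ^ m) := by
    refine ⟨s ^ m * g * (g * s ^ m)⁻¹, ?_, by group⟩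
    have h1 := hs (π g)
    rw [MonoidHom.mem_ker, map_mul, map_inv, map_mul, map_mul, map_pow, h1, mul_inv_cancel]
  have hzc := Subgroup.mem_center_iff.mp (hZ hz)
  have key : ∀ j : ℕ, (s ^ m) ^ j * g = z ^ j * (g * (s ^ m) ^ j) := by
    intro j
    induction j with
    | zero => simp
    | succ j ih =>
      have hzj : ∀ y : G, y * z ^ j = z ^ j * y := by
        intro y
        have : Commute y z := hzc y
        exact this.pow_right j
      calc (s ^ m) ^ (j + 1) * g = s ^ m * ((s ^ m) ^ j * g) := by rw [pow_succ']; group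
        _ = (s ^ m * z ^ j) * (g * (s ^ m) ^ j) := by rw [ih]; simp only [mul_assoc]
        _ = z ^ j * (s ^ m * g) * (s ^ m) ^ j := by rw [hzj]; simp only [mul_assoc]
        _ = z ^ j * (z * (g * s ^ m)) * (s ^ m) ^ j := by rw [h]
        _ = z ^ (j + 1) * (g * (s ^ m) ^ (j + 1)) := by
          rw [pow_succ z, pow_succ' (s ^ m)]; simp only [mul_assoc]
  have h1 : z ^ Nat.card π.ker = 1 := by
    have := pow_card_eq_one' (x := (⟨z, hz⟩ : π.ker))
    exact congrArg Subtype.val this
  have h2 := key (Nat.card π.ker)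
  rw [h1, one_mul, ← pow_mul] at h2
  exact h2.symm

theorem inner_typeA [IsAlgClosed k] [CharZero k] {C : Type*} [Fintype C] [DecidableEq C]
    (n : C → ℕ) {Q : Type*} [Group Q]
    (π : (∀ c, Matrix.SpecialLinearGroup (Fin (n c)) k) →* Q) (hπ : Function.Surjective π)
    (hZ : π.ker ≤ Subgroup.center _) (s : Q) (hs : IsOfFinOrder (MulAut.conj s)) :
    RationalQuotient (quotAlg (prodAlg (fun c => slAlg k (n c))) π : Set (Q → k))
      (fixSub (MulAut.conj s)) := by
  have hfin := finite_Z n π.ker hZ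
  obtain ⟨s', rfl⟩ := hπ s
  obtain ⟨m, hm, hsm⟩ := isOfFinOrder_iff_pow_eq_one.mp hs
  have hcen : s' ^ (m * Nat.card π.ker) ∈ Subgroup.center _ := by
    apply pow_central π hZ
    intro x
    have h1 := MulEquiv.congr_fun hsm x
    rw [← map_pow, MulAut.conj_apply, MulAut.one_apply] at h1
    rw [mul_inv_eq_iff_eq_mul] at h1
    exact h1
  have hM : ((m * Nat.card π.ker : ℕ) : k) ≠ 0 := by
    rw [Nat.cast_ne_zero]
    exact (Nat.mul_pos hm Nat.card_pos).ne'
  have hdata : ∀ c, ∃ (u : Matrix (Fin (n c)) (Fin (n c)) k) (χ : Fin (n c) → k), u.det ≠ 0 ∧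
      (s' c : Matrix (Fin (n c)) (Fin (n c)) k) * u = u * Matrix.diagonal χ := by
    intro c
    have h1 := center_apply hcen c
    rw [Pi.pow_apply] at h1
    obtain ⟨r, hr, hr2⟩ := Matrix.SpecialLinearGroup.mem_center_iff.mp h1
    rw [Matrix.SpecialLinearGroup.coe_pow] at hr2
    rcases Nat.eq_zero_or_pos (n c) with h0 | h0
    · refine exists_eigenbasis _ _ hM 1 one_ne_zero ?_
      have : IsEmpty (Fin (n c)) := by rw [h0]; infer_instance
      exact Subsingleton.elim _ _
    · refine exists_eigenbasis _ _ hM r ?_ ?_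
      · rintro rfl
        rw [Fintype.card_fin, zero_pow h0.ne'] at hr
        exact zero_ne_one hr
      · rw [← hr2, Matrix.scalar_apply, Matrix.smul_one_eq_diagonal]
  choose u χ hu hau using hdata
  refine prod_quot_rational (fun c => slAlg_irr) (fun c => slAlg_rstable)
    (fun c => MulAut.conj (s' c))
    (fun c => innerChart (χ c) (s' c : Matrix (Fin (n c)) (Fin (n c)) k) (u c)
      (by rw [(s' c).2]; exact one_ne_zero) (hu c) (hau c) (MulAut.conj (s' c)) ?_) π hπ hZ _ ?_
  · intro g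
    rw [← Matrix.SpecialLinearGroup.coe_mul, ← Matrix.SpecialLinearGroup.coe_mul]
    congr 1
    rw [MulAut.conj_apply, inv_mul_cancel_right]
  · intro g
    rw [MulAut.conj_apply, ← map_mul, ← map_inv, ← map_mul]
    rfl

end TypeA

end Pool.Agent.Helper14.RG
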