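import Pool.Agent.Helper14.RG.Prod

namespace Pool.Agent.Helper14.RG

open MvPolynomial Matrix

section Gen

variable {k : Type*} [Field k] {X : Type*} {n : Type*} [Fintype n] [DecidableEq n]

lemma det_mem_alg (A : Subalgebra k (X → k)) (M : X → Matrix n n k)
    (h : ∀ i j, (fun g => M g i j) ∈ A) : (fun g => (M g).det) ∈ A := by
  have : (fun g => (M g).det) = ∑ σ : Equiv.Perm n, (Equiv.Perm.sign σ : ℤ) •
      ∏ i, (fun g => M g (σ i) i) := by
    funext g
    rw [Matrix.det_apply]
    simp only [Finset.sum_apply, Pi.smul_apply, Finset.prod_apply]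
    rfl
  rw [this]
  exact sum_mem fun σ _ => zsmul_mem (prod_mem fun i _ => h _ _) _

lemma mul_mem_alg {m l : Type*} [Fintype l] (A : Subalgebra k (X → k)) (M : X → Matrix m l k)
    (M' : X → Matrix l n k)
    (h : ∀ i j, (fun g => M g i j) ∈ A) (h' : ∀ i j, (fun g => M' g i j) ∈ A) (i : m) (j : n) :
    (fun g => (M g * M' g) i j) ∈ A := by
  have : (fun g => (M g * M' g) i j) = ∑ x, (fun g => M g i x) * (fun g => M' g x j) := by
    funext g
    rw [Matrix.mul_apply, Finset.sum_apply]
    rfl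
  rw [this]
  exact sum_mem fun x _ => mul_mem (h _ _) (h' _ _)

lemma adjugate_mem_alg (A : Subalgebra k (X → k)) (M : X → Matrix n n k)
    (h : ∀ i j, (fun g => M g i j) ∈ A) (i j : n) : (fun g => (M g).adjugate i j) ∈ A := by
  simp only [Matrix.adjugate_apply]
  apply det_mem_alg
  intro i' j'
  by_cases hi : i' = j
  · subst hi
    simp only [Matrix.updateRow_self]
    exact Subalgebra.algebraMap_mem A _
  · simp only [Matrix.updateRow_ne hi]
    exact h i' j'

/-- the functions which become regular along a map from affine space. -/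
def RegAlong {N : Type*} (D : MvPolynomial N k) (s : (N → k) → X) : Subalgebra k (X → k) where
  carrier := {a | ∃ (P : MvPolynomial N k) (m : ℕ), ∀ Y, eval Y D ≠ 0 →
    a (s Y) * eval Y D ^ m = eval Y P}
  mul_mem' := by
    rintro a a' ⟨P, m, h⟩ ⟨P', m', h'⟩
    refine ⟨P * P', m + m', fun Y hY => ?_⟩
    rw [map_mul, ← h Y hY, ← h' Y hY, Pi.mul_apply]
    ring
  add_mem' := by
    rintro a a' ⟨P, m, h⟩ ⟨P', m', h'⟩
    refine ⟨P * D ^ m' + P' * D ^ m, m + m', fun Y hY => ?_⟩
    rw [map_add, map_mul, map_mul, map_pow, map_pow, ← h Y hY, ← h' Y hY, Pi.add_apply]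
    ring
  algebraMap_mem' := by
    intro r
    refine ⟨C r, 0, fun Y _ => ?_⟩
    rw [pow_zero, mul_one, eval_C]
    rfl

lemma mem_RegAlong_iff {N : Type*} {D : MvPolynomial N k} {s : (N → k) → X} {a : X → k} :
    a ∈ RegAlong D s ↔ ∃ (P : MvPolynomial N k) (m : ℕ), ∀ Y, eval Y D ≠ 0 →
    a (s Y) * eval Y D ^ m = eval Y P := Iff.rfl

/-- Irreducibility from a dominant map from affine space hitting every point. -/
lemma irr_of_param [Infinite k] {N : Type*} (A : Subalgebra k (X → k)) (D : MvPolynomial N k)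
    (s : (N → k) → X) (hA : A ≤ RegAlong D s) (hs : ∀ x, ∃ Y, eval Y D ≠ 0 ∧ s Y = x)
    (hX : Nonempty X) : Irr A := by
  refine ⟨hX, fun a ha b hb ha0 hb0 => ?_⟩
  obtain ⟨P, m, hP⟩ := hA ha
  obtain ⟨Q, m', hQ⟩ := hA hb
  obtain ⟨x, hx⟩ := Function.ne_iff.mp ha0
  obtain ⟨y, hy⟩ := Function.ne_iff.mp hb0
  obtain ⟨Y1, hY1, rfl⟩ := hs x
  obtain ⟨Y2, hY2, rfl⟩ := hs y
  have hP0 : P ≠ 0 := by
    rintro rfl
    have := hP Y1 hY1
    rw [map_zero] at this
    exact mul_ne_zero hx (pow_ne_zero _ hY1) this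
  have hQ0 : Q ≠ 0 := by
    rintro rfl
    have := hQ Y2 hY2
    rw [map_zero] at this
    exact mul_ne_zero hy (pow_ne_zero _ hY2) this
  have hD0 : D ≠ 0 := by
    rintro rfl
    exact hY1 (map_zero _)
  have h1 : P * Q * D ≠ 0 := mul_ne_zero (mul_ne_zero hP0 hQ0) hD0
  obtain ⟨Y, hY⟩ : ∃ Y, eval Y (P * Q * D) ≠ 0 := by
    by_contra hcon
    push Not at hcon
    exact h1 (MvPolynomial.funext fun Y => by rw [hcon Y, map_zero])
  rw [map_mul, map_mul] at hY
  have hD := right_ne_zero_of_mul hY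
  have hPY := left_ne_zero_of_mul (left_ne_zero_of_mul hY)
  have hQY := right_ne_zero_of_mul (left_ne_zero_of_mul hY)
  refine ⟨s Y, ?_, ?_⟩
  · intro h0
    have := hP Y hD
    rw [h0, zero_mul] at this
    exact hPY this.symm
  · intro h0
    have := hQ Y hD
    rw [h0, zero_mul] at this
    exact hQY this.symm

end Gen

section SL

variable (k : Type*) [Field k] (n : ℕ)

/-- The algebra of regular functions on `SL_n(k)`: generated by the matrix entries. -/
def slAlg : Subalgebra k (Matrix.SpecialLinearGroup (Fin n) k → k) :=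
  Algebra.adjoin k {f | ∃ i j, f = fun g : Matrix.SpecialLinearGroup (Fin n) k =>
    (g : Matrix (Fin n) (Fin n) k) i j}

variable {k n}

lemma entry_mem (i j : Fin n) :
    (fun g : Matrix.SpecialLinearGroup (Fin n) k => (g : Matrix (Fin n) (Fin n) k) i j) ∈ slAlg k n :=
  Algebra.subset_adjoin ⟨i, j, rfl⟩

lemma slAlg_le (B : Subalgebra k (Matrix.SpecialLinearGroup (Fin n) k → k))
    (h : ∀ i j, (fun g : Matrix.SpecialLinearGroup (Fin n) k =>
      (g : Matrix (Fin n) (Fin n) k) i j) ∈ B) : slAlg k n ≤ B := by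
  apply Algebra.adjoin_le
  rintro _ ⟨i, j, rfl⟩
  exact h i j

lemma const_mem {X : Type*} (A : Subalgebra k (X → k)) (c : k) : (fun _ => c) ∈ A :=
  Subalgebra.algebraMap_mem A c

lemma slAlg_rstable : RStable (slAlg k n) := by
  intro h a ha
  induction ha using Algebra.adjoin_induction with
  | mem x hx =>
    obtain ⟨i, j, rfl⟩ := hx
    simp only [Matrix.SpecialLinearGroup.coe_mul]
    exact mul_mem_alg (slAlg k n) (fun g => (g : Matrix (Fin n) (Fin n) k))
      (fun _ => (h : Matrix (Fin n) (Fin n) k)) entry_mem (fun _ _ => const_mem _ _) i j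
  | algebraMap r => exact Subalgebra.algebraMap_mem _ r
  | add x y _ _ hx hy => exact add_mem hx hy
  | mul x y _ _ hx hy => exact mul_mem hx hy

/-- the scaling of the first coordinate which normalizes the determinant. -/
noncomputable def dl (n : ℕ) (c : k) : Fin n → k := fun j => if j.val = 0 then c else 1

lemma prod_dl (n : ℕ) (hn : 0 < n) (c : k) : ∏ j, dl n c j = c := by
  rw [Finset.prod_eq_single (⟨0, hn⟩ : Fin n)]
  · simp [dl]
  · intro j _ hj
    unfold dl
    rw [if_neg]
    intro h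
    exact hj (Fin.ext h)
  · intro h; exact absurd (Finset.mem_univ _) h

/-- If `det W / det u` is defined, then scaling the first column of `W` gives determinant `det u`. -/
lemma det_norm {W u : Matrix (Fin n) (Fin n) k} (hW : W.det ≠ 0) :
    (W * diagonal (dl n (u.det / W.det))).det = u.det := by
  rw [Matrix.det_mul, Matrix.det_diagonal]
  rcases Nat.eq_zero_or_pos n with h | h
  · subst h
    simp [Matrix.det_isEmpty]
  · rw [prod_dl n h, mul_div_cancel₀ _ hW]

open Classical in
/-- normalization of an invertible matrix `W` to `SL_n`, relative to `u`. -/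
noncomputable def nrm (u W : Matrix (Fin n) (Fin n) k) (hu : u.det ≠ 0) :
    Matrix.SpecialLinearGroup (Fin n) k :=
  if h : W.det ≠ 0 then
    ⟨W * diagonal (dl n (u.det / W.det)) * u⁻¹, by
      rw [Matrix.det_mul, det_norm h, Matrix.det_nonsing_inv, Ring.mul_inverse_cancel]
      exact isUnit_iff_ne_zero.mpr hu⟩
  else 1

lemma nrm_coe (u W : Matrix (Fin n) (Fin n) k) (hu : u.det ≠ 0) (h : W.det ≠ 0) :
    (nrm u W hu : Matrix (Fin n) (Fin n) k) = W * diagonal (dl n (u.det / W.det)) * u⁻¹ := by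
  unfold nrm
  rw [dif_pos h]

/-- regularity of the normalization -/
lemma nrm_reg {N : Type*} (u : Matrix (Fin n) (Fin n) k) (hu : u.det ≠ 0)
    (W : Matrix (Fin n) (Fin n) (MvPolynomial N k)) :
    slAlg k n ≤ RegAlong W.det (fun Y => nrm u (W.map (eval Y)) hu) := by
  apply slAlg_le
  intro i j
  refine ⟨(W * diagonal (fun j : Fin n => if j.val = 0 then C u.det else W.det)
    * (u⁻¹).map C : Matrix (Fin n) (Fin n) (MvPolynomial N k)) i j, 1, fun Y hY => ?_⟩
  have hdet : eval Y W.det = (W.map (eval Y)).det := by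
    rw [RingHom.map_det]; rfl
  have hY' : (W.map (eval Y)).det ≠ 0 := hdet ▸ hY
  show (nrm u (W.map (eval Y)) hu : Matrix (Fin n) (Fin n) k) i j * eval Y W.det ^ 1 = _
  rw [nrm_coe _ _ _ hY', pow_one]
  have h1 : eval Y ((W * diagonal (fun j : Fin n => if j.val = 0 then C u.det else W.det)
    * (u⁻¹).map C : Matrix (Fin n) (Fin n) (MvPolynomial N k)) i j)
    = ((W * diagonal (fun j : Fin n => if j.val = 0 then C u.det else W.det)
    * (u⁻¹).map C : Matrix (Fin n) (Fin n) (MvPolynomial N k)).map (eval Y)) i j := rfl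
  rw [h1, Matrix.map_mul, Matrix.map_mul]
  have h2 : ((u⁻¹).map (C : k →+* MvPolynomial N k)).map (eval Y) = u⁻¹ := by
    ext a b
    simp
  have h3 : (diagonal (fun j : Fin n => if j.val = 0 then (C u.det : MvPolynomial N k) else W.det)).map
      (eval Y) = (W.map (eval Y)).det • diagonal (dl n (u.det / (W.map (eval Y)).det)) := by
    ext a b
    rw [Matrix.map_apply, Matrix.smul_apply, Matrix.diagonal_apply, Matrix.diagonal_apply]
    by_cases hab : a = b
    · rw [if_pos hab, if_pos hab]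
      unfold dl
      by_cases ha : a.val = 0
      · rw [if_pos ha, if_pos ha, eval_C, smul_eq_mul, mul_div_cancel₀ _ hY']
      · rw [if_neg ha, if_neg ha, hdet, smul_eq_mul, mul_one]
    · rw [if_neg hab, if_neg hab, map_zero, smul_zero]
  rw [h2, h3, Matrix.mul_smul, Matrix.smul_mul, Matrix.smul_apply, smul_eq_mul, hdet]
  ring

lemma slAlg_irr [Infinite k] : Irr (slAlg k n) := by
  have hu : (1 : Matrix (Fin n) (Fin n) k).det ≠ 0 := by rw [Matrix.det_one]; exact one_ne_zero
  refine irr_of_param (slAlg k n) _ _ (nrm_reg 1 hu (Matrix.mvPolynomialX (Fin n) (Fin n) k)) ?_ ⟨1⟩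
  intro g
  refine ⟨fun p => (g : Matrix (Fin n) (Fin n) k) p.1 p.2, ?_, ?_⟩
  · rw [RingHom.map_det]
    have : (eval fun p : Fin n × Fin n => (g : Matrix (Fin n) (Fin n) k) p.1 p.2).mapMatrix
        (Matrix.mvPolynomialX (Fin n) (Fin n) k) = g := by
      ext a b; simp
    rw [this, g.2]
    exact one_ne_zero
  · have h1 : (Matrix.mvPolynomialX (Fin n) (Fin n) k).map
        (eval fun p : Fin n × Fin n => (g : Matrix (Fin n) (Fin n) k) p.1 p.2)
        = (g : Matrix (Fin n) (Fin n) k) := by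
      ext a b; simp
    rw [h1]
    apply Subtype.ext
    rw [nrm_coe _ _ _ (by rw [g.2]; exact one_ne_zero)]
    have h2 : dl n ((1 : Matrix (Fin n) (Fin n) k).det / (g : Matrix (Fin n) (Fin n) k).det) = 1 := by
      rw [g.2, Matrix.det_one, div_one]
      funext j
      unfold dl
      simp
    rw [h2, inv_one, mul_one]
    have h3 : diagonal (1 : Fin n → k) = 1 := Matrix.diagonal_one
    rw [h3, mul_one]

end SL

end Pool.Agent.Helper14.RG
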