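import Pool.Agent.Helper14.RG.NF
import Pool.Agent.Helper14.RG.SLn

namespace Pool.Agent.Helper14.RG

open Matrix

section Ord

variable {n : ℕ} (star : Fin n → Fin n)

/-- the order of the orbit of an index -/
def od (j : Fin n) : ℕ := min j.val (star j).val

variable {star}

lemma od_star (hs : ∀ j, star (star j) = j) (j : Fin n) : od star (star j) = od star j := by
  unfold od
  rw [hs, min_comm]

lemma od_eq (hs : ∀ j, star (star j) = j) {i j : Fin n} (h : od star i = od star j) :
    i = j ∨ i = star j := by
  unfold od at h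
  rcases le_total i.val (star i).val with h1 | h1 <;> rcases le_total j.val (star j).val with h2 | h2
  · rw [min_eq_left h1, min_eq_left h2] at h
    exact Or.inl (Fin.ext h)
  · rw [min_eq_left h1, min_eq_right h2] at h
    exact Or.inr (Fin.ext h)
  · rw [min_eq_right h1, min_eq_left h2] at h
    right
    rw [← hs i, Fin.ext h]
  · rw [min_eq_right h1, min_eq_right h2] at h
    left
    rw [← hs i, ← hs j, Fin.ext h]

lemma od_lt (j : Fin n) : od star j < n := lt_of_le_of_lt (min_le_left _ _) j.isLt

end Ord

section LDL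

variable {k : Type*} [Field k] {n : ℕ} (star : Fin n → Fin n)

/-- one elimination step -/
def stepQ (p : ℕ) (Q : Matrix (Fin n) (Fin n) k) : Matrix (Fin n) (Fin n) k :=
  Matrix.of fun i j => Q i j - ∑ l ∈ Finset.univ.filter (fun l => od star l = p),
    Q i (star l) * Q l j / Q l (star l)

/-- elimination -/
def Qr : ℕ → Matrix (Fin n) (Fin n) k → Matrix (Fin n) (Fin n) k
  | 0, Q => Q
  | p + 1, Q => stepQ star p (Qr p Q)

lemma Qr_succ (p : ℕ) (Q : Matrix (Fin n) (Fin n) k) (i j : Fin n) :
    Qr star (p + 1) Q i j = Qr star p Q i j - ∑ l ∈ Finset.univ.filter (fun l => od star l = p),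
    Qr star p Q i (star l) * Qr star p Q l j / Qr star p Q l (star l) := rfl

/-- the pivots -/
def piv (Q : Matrix (Fin n) (Fin n) k) (l : Fin n) : k := Qr star (od star l) Q l (star l)

/-- the lower triangular factor -/
def Lm (Q : Matrix (Fin n) (Fin n) k) : Matrix (Fin n) (Fin n) k :=
  Matrix.of fun i l => Qr star (od star l) Q i (star l) / piv star Q l

lemma mul_MA_mul (L L' : Matrix (Fin n) (Fin n) k) (δ : Fin n → k) (i j : Fin n) :
    (L * MA star δ * L'.transpose) i j = ∑ l, L i l * δ l * L' j (star l) := by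
  rw [mul_assoc, Matrix.mul_apply]
  refine Finset.sum_congr rfl fun l _ => ?_
  rw [Matrix.mul_apply, Finset.sum_eq_single (star l)]
  · rw [MA, Matrix.of_apply, if_pos rfl, Matrix.transpose_apply, mul_assoc]
  · intro m _ hm
    rw [MA, Matrix.of_apply, if_neg hm, zero_mul]
  · intro h; exact absurd (Finset.mem_univ _) h

variable {star} (hs : ∀ j, star (star j) = j) (χ : Fin n → k) (hχs : ∀ j, χ (star j) * χ j = 1)
  (hχ1 : ∀ j, χ j = 1 → star j = j)

include hs hχs in
lemma sym_step (p : ℕ) (Q : Matrix (Fin n) (Fin n) k) (h1 : ∀ i j, Q i j = χ i * Q j i)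
    (h2 : ∀ i j, χ i * χ j ≠ 1 → Q i j = 0) :
    (∀ i j, stepQ star p Q i j = χ i * stepQ star p Q j i) ∧
      (∀ i j, χ i * χ j ≠ 1 → stepQ star p Q i j = 0) := by
  have hχ0 : ∀ j, χ j ≠ 0 := fun j h => by
    have := hχs j; rw [h, mul_zero] at this; exact zero_ne_one this
  have hxx : ∀ i l, Q i (star l) ≠ 0 → χ i = χ l := by
    intro i l h
    by_contra hne
    apply h
    apply h2
    intro h3
    apply hne
    have := hχs l
    have h4 : χ i * χ (star l) = χ l * χ (star l) := by rw [h3, mul_comm (χ l), this]
    exact mul_right_cancel₀ (hχ0 _) h4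
  have hyy : ∀ l j, Q l j ≠ 0 → χ l * χ j = 1 := by
    intro l j h
    by_contra hne
    exact h (h2 l j hne)
  constructor
  · intro i j
    show Q i j - ∑ l ∈ Finset.univ.filter (fun l => od star l = p),
      Q i (star l) * Q l j / Q l (star l) = χ i * (Q j i - ∑ l ∈ Finset.univ.filter
        (fun l => od star l = p), Q j (star l) * Q l i / Q l (star l))
    rw [mul_sub, ← h1 i j, Finset.mul_sum]
    congr 1
    refine Finset.sum_nbij' (fun l => star l) (fun l => star l) ?_ ?_ ?_ ?_ ?_
    · intro l hl
      rw [Finset.mem_filter] at hl ⊢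
      exact ⟨Finset.mem_univ _, by rw [od_star hs]; exact hl.2⟩
    · intro l hl
      rw [Finset.mem_filter] at hl ⊢
      exact ⟨Finset.mem_univ _, by rw [od_star hs]; exact hl.2⟩
    · intro l _; exact hs l
    · intro l _; exact hs l
    · intro l _
      simp only [hs]
      -- goal: Q i (star l) * Q l j / Q l (star l) = χ i * (Q j l * Q (star l) i / Q (star l) l)
      have e1 : Q l (star l) = χ l * Q (star l) l := h1 _ _
      have e2 : Q l j = χ l * Q j l := h1 _ _
      have e3 : Q i (star l) = χ i * Q (star l) i := h1 _ _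
      by_cases hz : Q (star l) l = 0
      · rw [e1, hz]; simp
      · rw [e1, e2, e3]
        field_simp [hχ0 l]
  · intro i j hij
    show Q i j - ∑ l ∈ Finset.univ.filter (fun l => od star l = p),
      Q i (star l) * Q l j / Q l (star l) = 0
    rw [h2 i j hij, zero_sub, neg_eq_zero]
    refine Finset.sum_eq_zero fun l _ => ?_
    by_cases ha : Q i (star l) = 0
    · rw [ha]; simp
    by_cases hb : Q l j = 0
    · rw [hb]; simp
    exact absurd (by rw [hxx i l ha]; exact hyy l j hb) hij

include hs hχs in
lemma sym_Qr (Q : Matrix (Fin n) (Fin n) k) (h1 : ∀ i j, Q i j = χ i * Q j i)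
    (h2 : ∀ i j, χ i * χ j ≠ 1 → Q i j = 0) (p : ℕ) :
    (∀ i j, Qr star p Q i j = χ i * Qr star p Q j i) ∧
      (∀ i j, χ i * χ j ≠ 1 → Qr star p Q i j = 0) := by
  induction p with
  | zero => exact ⟨h1, h2⟩
  | succ p ih => exact sym_step hs χ hχs p _ ih.1 ih.2

include hs hχs hχ1 in
lemma zero_rows (Q : Matrix (Fin n) (Fin n) k) (h1 : ∀ i j, Q i j = χ i * Q j i)
    (h2 : ∀ i j, χ i * χ j ≠ 1 → Q i j = 0) (p : ℕ)
    (hp : ∀ l, od star l < p → piv star Q l ≠ 0) (i j : Fin n) (hi : od star i < p) :
    Qr star p Q i j = 0 := by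
  induction p generalizing j with
  | zero => omega
  | succ p ih =>
    have ih' := fun j hi => ih (fun l hl => hp l (by omega)) j hi
    rw [Qr_succ]
    rcases Nat.lt_or_ge (od star i) p with h3 | h3
    · rw [ih' j h3, zero_sub, neg_eq_zero]
      refine Finset.sum_eq_zero fun l _ => ?_
      rw [ih' _ h3]; simp
    · have h4 : od star i = p := by omega
      have hpi := hp i hi
      unfold piv at hpi
      rw [h4] at hpi
      rw [Finset.sum_eq_single i]
      · field_simp
        ring
      · intro l hl hli
        rw [Finset.mem_filter] at hl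
        have h5 : od star l = od star i := by rw [hl.2, h4]
        rcases od_eq hs h5 with h6 | h6
        · exact absurd h6 hli
        · have h7 : star l = i := by rw [h6, hs]
          have hsi : star i ≠ i := by rw [← h6]; exact hli
          have h8 : Qr star p Q i i = 0 := by
            have h9 := (sym_Qr hs χ hχs Q h1 h2 p).1 i i
            have h10 : (1 - χ i) * Qr star p Q i i = 0 := by linear_combination h9
            refine (mul_eq_zero.mp h10).resolve_left ?_
            intro h11
            exact hsi (hχ1 i (sub_eq_zero.mp h11).symm)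
          rw [h7, h8]; simp
      · intro h
        simp only [Finset.mem_filter, Finset.mem_univ, true_and] at h
        exact absurd h4 h

include hs hχs in
lemma piv_star (Q : Matrix (Fin n) (Fin n) k) (h1 : ∀ i j, Q i j = χ i * Q j i)
    (h2 : ∀ i j, χ i * χ j ≠ 1 → Q i j = 0) (l : Fin n) :
    piv star Q l = χ l * piv star Q (star l) := by
  unfold piv
  rw [od_star hs, hs]
  exact (sym_Qr hs χ hχs Q h1 h2 _).1 _ _

include hs hχs in
lemma telescope (Q : Matrix (Fin n) (Fin n) k) (h1 : ∀ i j, Q i j = χ i * Q j i)
    (h2 : ∀ i j, χ i * χ j ≠ 1 → Q i j = 0) (p : ℕ)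
    (hp : ∀ l, od star l < p → piv star Q l ≠ 0) (i j : Fin n) :
    Qr star p Q i j = Q i j - ∑ l ∈ Finset.univ.filter (fun l => od star l < p),
      Lm star Q i l * piv star Q l * Lm star Q j (star l) := by
  induction p with
  | zero =>
    have : Finset.univ.filter (fun l => od star l < 0) = ∅ := by
      ext l; simp
    rw [this, Finset.sum_empty, sub_zero]
    rfl
  | succ p ih =>
    rw [Qr_succ, ih (fun l hl => hp l (by omega))]
    have hsplit : Finset.univ.filter (fun l => od star l < p + 1)
        = Finset.univ.filter (fun l => od star l < p) ∪ Finset.univ.filter (fun l => od star l = p) := by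
      ext l
      simp only [Finset.mem_filter, Finset.mem_union, Finset.mem_univ, true_and]
      omega
    have hdisj : Disjoint (Finset.univ.filter (fun l => od star l < p))
        (Finset.univ.filter (fun l => od star l = p)) := by
      rw [Finset.disjoint_left]
      intro l hl hl'
      simp only [Finset.mem_filter, Finset.mem_univ, true_and] at hl hl'
      omega
    rw [hsplit, Finset.sum_union hdisj, sub_sub]
    congr 2
    refine Finset.sum_congr rfl fun l hl => ?_
    simp only [Finset.mem_filter, Finset.mem_univ, true_and] at hl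
    have hpl := hp l (by omega)
    have hpl' := hp (star l) (by rw [od_star hs]; omega)
    have e1 : Lm star Q i l = Qr star p Q i (star l) / piv star Q l := by
      unfold Lm; rw [Matrix.of_apply, hl]
    have e2 : Lm star Q j (star l) = Qr star p Q j l / piv star Q (star l) := by
      unfold Lm; rw [Matrix.of_apply, od_star hs, hl, hs]
    have e3 : Qr star p Q l (star l) = piv star Q l := by unfold piv; rw [hl]
    have e4 := piv_star hs χ hχs Q h1 h2 l
    have e5 := (sym_Qr hs χ hχs Q h1 h2 p).1 l j
    rw [e1, e2, e3, e5]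
    rw [e4] at hpl ⊢
    have hχl : χ l ≠ 0 := left_ne_zero_of_mul hpl
    field_simp

include hs hχs hχ1 in
/-- The decomposition `Q = L Δ Lᵀ`. -/
theorem ldl (Q : Matrix (Fin n) (Fin n) k) (h1 : ∀ i j, Q i j = χ i * Q j i)
    (h2 : ∀ i j, χ i * χ j ≠ 1 → Q i j = 0) (hp : ∀ l, piv star Q l ≠ 0) :
    Q = Lm star Q * MA star (piv star Q) * (Lm star Q).transpose := by
  ext i j
  have h3 := telescope hs χ hχs Q h1 h2 n (fun l _ => hp l) i j
  have h4 := zero_rows hs χ hχs hχ1 Q h1 h2 n (fun l _ => hp l) i j (od_lt i)
  have h5 : Finset.univ.filter (fun l => od star l < n) = Finset.univ := by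
    ext l; simp [od_lt]
  rw [h4, h5] at h3
  rw [mul_MA_mul]
  exact (sub_eq_zero.mp h3.symm)

include hs hχs hχ1 in
lemma Lm_props (Q : Matrix (Fin n) (Fin n) k) (h1 : ∀ i j, Q i j = χ i * Q j i)
    (h2 : ∀ i j, χ i * χ j ≠ 1 → Q i j = 0) (hp : ∀ l, piv star Q l ≠ 0) :
    (∀ i l, od star i < od star l → Lm star Q i l = 0) ∧
    (∀ i l, od star i = od star l → i ≠ l → Lm star Q i l = 0) ∧
    (∀ l, Lm star Q l l = 1) ∧ (∀ i l, χ i ≠ χ l → Lm star Q i l = 0) := by
  have hχ0 : ∀ j, χ j ≠ 0 := fun j h => by
    have := hχs j; rw [h, mul_zero] at this; exact zero_ne_one this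
  refine ⟨?_, ?_, ?_, ?_⟩
  · intro i l h
    unfold Lm
    rw [Matrix.of_apply, zero_rows hs χ hχs hχ1 Q h1 h2 _ (fun l _ => hp l) i _ h, zero_div]
  · intro i l h hil
    rcases od_eq hs h with h3 | h3
    · exact absurd h3 hil
    · have hsi : star i ≠ i := by
        rw [h3, hs]; intro h4; exact hil (by rw [h3]; exact h4.symm)
      unfold Lm
      rw [Matrix.of_apply, ← h3, div_eq_zero_iff]
      left
      have h9 := (sym_Qr hs χ hχs Q h1 h2 (od star l)).1 i i
      have h10 : (1 - χ i) * Qr star (od star l) Q i i = 0 := by linear_combination h9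
      refine (mul_eq_zero.mp h10).resolve_left ?_
      intro h11
      exact hsi (hχ1 i (sub_eq_zero.mp h11).symm)
  · intro l
    unfold Lm
    rw [Matrix.of_apply]
    exact div_self (hp l)
  · intro i l h
    unfold Lm
    rw [Matrix.of_apply, (sym_Qr hs χ hχs Q h1 h2 _).2, zero_div]
    intro h3
    apply h
    have := hχs l
    have h4 : χ i * χ (star l) = χ l * χ (star l) := by rw [h3, mul_comm (χ l), this]
    exact mul_right_cancel₀ (hχ0 _) h4

/-- unipotent factors have determinant `1` -/
lemma det_L (L : Matrix (Fin n) (Fin n) k) (hL1 : ∀ i l, od star i < od star l → L i l = 0)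
    (hL2 : ∀ i l, od star i = od star l → i ≠ l → L i l = 0) (hL3 : ∀ l, L l l = 1) :
    L.det = 1 := by
  have hbt : (L.transpose).BlockTriangular (od star) := by
    intro i j hij
    exact hL1 j i hij
  rw [← Matrix.det_transpose, hbt.det]
  refine Finset.prod_eq_one fun a _ => ?_
  have : (L.transpose).toSquareBlock (od star) a = 1 := by
    ext ⟨i, hi⟩ ⟨j, hj⟩
    rw [Matrix.toSquareBlock_def, Matrix.of_apply, Matrix.transpose_apply, Matrix.one_apply]
    by_cases hij : i = j
    · subst hij
      rw [if_pos rfl]
      exact hL3 i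
    · rw [if_neg (fun h => hij (congrArg Subtype.val h))]
      exact hL2 j i (by rw [hi, hj]) (Ne.symm hij)
  rw [this, Matrix.det_one]

include hs in
/-- Uniqueness: elimination of `L Δ Lᵀ`. -/
lemma Qr_of_LDL (L : Matrix (Fin n) (Fin n) k) (δ : Fin n → k) (hδ : ∀ l, δ l ≠ 0)
    (hL1 : ∀ i l, od star i < od star l → L i l = 0)
    (hL2 : ∀ i l, od star i = od star l → i ≠ l → L i l = 0) (hL3 : ∀ l, L l l = 1) (p : ℕ)
    (i j : Fin n) :
    Qr star p (L * MA star δ * L.transpose) i j
      = ∑ l ∈ Finset.univ.filter (fun l => p ≤ od star l), L i l * δ l * L j (star l) := by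
  induction p generalizing i j with
  | zero =>
    have : Finset.univ.filter (fun l => 0 ≤ od star l) = Finset.univ := by ext l; simp
    rw [this]
    exact mul_MA_mul star L L δ i j
  | succ p ih =>
    have e1 : ∀ (i l : Fin n), od star l = p →
        ∑ m ∈ Finset.univ.filter (fun m => p ≤ od star m), L i m * δ m * L (star l) (star m)
          = L i l * δ l := by
      intro i l hl
      rw [Finset.sum_eq_single l]
      · rw [hL3, mul_one]
      · intro m hm hml
        simp only [Finset.mem_filter, Finset.mem_univ, true_and] at hm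
        have h4 : L (star l) (star m) = 0 := by
          rcases Nat.lt_or_ge p (od star m) with h5 | h5
          · exact hL1 _ _ (by rw [od_star hs, od_star hs]; omega)
          · refine hL2 _ _ (by rw [od_star hs, od_star hs]; omega) ?_
            intro h6
            apply hml
            rw [← hs m, ← h6, hs]
        rw [h4, mul_zero]
      · intro h
        simp only [Finset.mem_filter, Finset.mem_univ, true_and] at h
        omega
    have e2 : ∀ (l j : Fin n), od star l = p →
        ∑ m ∈ Finset.univ.filter (fun m => p ≤ od star m), L l m * δ m * L j (star m)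
          = δ l * L j (star l) := by
      intro l j hl
      rw [Finset.sum_eq_single l]
      · rw [hL3, one_mul]
      · intro m hm hml
        simp only [Finset.mem_filter, Finset.mem_univ, true_and] at hm
        have h4 : L l m = 0 := by
          rcases Nat.lt_or_ge p (od star m) with h5 | h5
          · exact hL1 _ _ (by omega)
          · exact hL2 _ _ (by omega) (Ne.symm hml)
        rw [h4, zero_mul, zero_mul]
      · intro h
        simp only [Finset.mem_filter, Finset.mem_univ, true_and] at h
        omega
    rw [Qr_succ, ih]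
    have hsplit : Finset.univ.filter (fun l => p ≤ od star l)
        = Finset.univ.filter (fun l => p + 1 ≤ od star l) ∪ Finset.univ.filter (fun l => od star l = p) := by
      ext l
      simp only [Finset.mem_filter, Finset.mem_union, Finset.mem_univ, true_and]
      omega
    have hdisj : Disjoint (Finset.univ.filter (fun l => p + 1 ≤ od star l))
        (Finset.univ.filter (fun l => od star l = p)) := by
      rw [Finset.disjoint_left]
      intro l hl hl'
      simp only [Finset.mem_filter, Finset.mem_univ, true_and] at hl hl'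
      omega
    have e3 : ∑ l ∈ Finset.univ.filter (fun l => od star l = p),
        Qr star p (L * MA star δ * L.transpose) i (star l)
          * Qr star p (L * MA star δ * L.transpose) l j
          / Qr star p (L * MA star δ * L.transpose) l (star l)
        = ∑ l ∈ Finset.univ.filter (fun l => od star l = p), L i l * δ l * L j (star l) := by
      refine Finset.sum_congr rfl fun l hl => ?_
      simp only [Finset.mem_filter, Finset.mem_univ, true_and] at hl
      rw [ih, ih, ih, e1 i l hl, e2 l j hl, e1 l l hl, hL3, one_mul]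
      have := hδ l
      field_simp
    rw [e3, hsplit, Finset.sum_union hdisj, add_sub_cancel_right]

include hs in
lemma piv_of_LDL (L : Matrix (Fin n) (Fin n) k) (δ : Fin n → k) (hδ : ∀ l, δ l ≠ 0)
    (hL1 : ∀ i l, od star i < od star l → L i l = 0)
    (hL2 : ∀ i l, od star i = od star l → i ≠ l → L i l = 0) (hL3 : ∀ l, L l l = 1) :
    piv star (L * MA star δ * L.transpose) = δ ∧ Lm star (L * MA star δ * L.transpose) = L := by
  have e1 : ∀ (i l : Fin n), Qr star (od star l) (L * MA star δ * L.transpose) i (star l)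
      = L i l * δ l := by
    intro i l
    rw [Qr_of_LDL hs L δ hδ hL1 hL2 hL3, Finset.sum_eq_single l]
    · rw [hL3, mul_one]
    · intro m hm hml
      simp only [Finset.mem_filter, Finset.mem_univ, true_and] at hm
      have h4 : L (star l) (star m) = 0 := by
        rcases Nat.lt_or_ge (od star l) (od star m) with h5 | h5
        · exact hL1 _ _ (by rw [od_star hs, od_star hs]; omega)
        · refine hL2 _ _ (by rw [od_star hs, od_star hs]; omega) ?_
          intro h6
          apply hml
          rw [← hs m, ← h6, hs]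
      rw [h4, mul_zero]
    · intro h
      simp only [Finset.mem_filter, Finset.mem_univ, true_and, le_refl, not_true_eq_false] at h
  have e2 : piv star (L * MA star δ * L.transpose) = δ := by
    funext l
    unfold piv
    rw [e1, hL3, one_mul]
  refine ⟨e2, ?_⟩
  ext i l
  unfold Lm
  rw [Matrix.of_apply, e1, e2, mul_div_cancel_right₀ _ (hδ l)]

lemma Qr_smul (z : k) (hz : z ≠ 0) (Q : Matrix (Fin n) (Fin n) k) (p : ℕ) (i j : Fin n) :
    Qr star p (z • Q) i j = z * Qr star p Q i j := by
  induction p generalizing i j with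
  | zero => rfl
  | succ p ih =>
    rw [Qr_succ, Qr_succ, ih, mul_sub, Finset.mul_sum]
    congr 1
    refine Finset.sum_congr rfl fun l _ => ?_
    rw [ih, ih, ih]
    by_cases h : Qr star p Q l (star l) = 0
    · rw [h]; simp
    · field_simp

lemma piv_smul (z : k) (hz : z ≠ 0) (Q : Matrix (Fin n) (Fin n) k) (l : Fin n) :
    piv star (z • Q) l = z * piv star Q l := Qr_smul z hz Q _ _ _

lemma Lm_smul (z : k) (hz : z ≠ 0) (Q : Matrix (Fin n) (Fin n) k) :
    Lm star (z • Q) = Lm star Q := by
  ext i l
  unfold Lm
  rw [Matrix.of_apply, Matrix.of_apply, Qr_smul z hz, piv_smul z hz, mul_div_mul_left _ _ hz]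

end LDL

section Reg

variable {k : Type*} [Field k] {n : ℕ} (star : Fin n → Fin n) {X : Type*}
  (A : Subalgebra k (X → k))

lemma RegU_mono {q q' : X → k} (h : ∀ g, q' g ≠ 0 → q g ≠ 0) : RegU A q ≤ RegU A q' := by
  rintro f ⟨a, ha, b, hb, hf⟩
  exact ⟨a, ha, b, hb, fun g hg => hf g (h g hg)⟩

lemma RegU_inv {q q' f : X → k} (hf : f ∈ RegU A q) (h : ∀ g, q' g ≠ 0 → q g ≠ 0)
    (hne : ∀ g, q' g ≠ 0 → f g ≠ 0) : (fun g => (f g)⁻¹) ∈ RegU A q' := by
  obtain ⟨a, ha, b, hb, hfab⟩ := hf
  refine ⟨b, hb, a, ha, fun g hg => ?_⟩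
  obtain ⟨h1, h2⟩ := hfab g (h g hg)
  have h3 := hne g hg
  refine ⟨?_, ?_⟩
  · rw [← h2]; exact mul_ne_zero h3 h1
  · rw [← h2, inv_mul_cancel_left₀ h3]

theorem Qr_reg (Qf : X → Matrix (Fin n) (Fin n) k) (q : X → k) (hq : q ∈ A)
    (hQ : ∀ i j, (fun g => Qf g i j) ∈ RegU A q) (p : ℕ) :
    ∃ q' ∈ A, (∀ g, q' g ≠ 0 ↔ (q g ≠ 0 ∧ ∀ l, od star l < p → piv star (Qf g) l ≠ 0)) ∧
      ∀ p' ≤ p, ∀ i j, (fun g => Qr star p' (Qf g) i j) ∈ RegU A q' := by
  classical
  induction p with
  | zero =>
    refine ⟨q, hq, fun g => ⟨fun h => ⟨h, fun l hl => by omega⟩, fun h => h.1⟩, ?_⟩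
    intro p' hp' i j
    have : p' = 0 := by omega
    subst this
    exact hQ i j
  | succ p ih =>
    obtain ⟨q', hq', hiff, hreg⟩ := ih
    choose a ha b hb hab using fun l => mem_RegU_iff.mp (hreg p le_rfl l (star l))
    let q'' : X → k := q' * ∏ l ∈ Finset.univ.filter (fun l => od star l = p), a l
    have hq''g : ∀ g, q'' g = q' g * ∏ l ∈ Finset.univ.filter (fun l => od star l = p), a l g := by
      intro g
      show q' g * (∏ l ∈ Finset.univ.filter (fun l => od star l = p), a l) g = _
      rw [Finset.prod_apply]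
    have hiff' : ∀ g, q'' g ≠ 0 ↔ (q' g ≠ 0 ∧ ∀ l, od star l = p → piv star (Qf g) l ≠ 0) := by
      intro g
      rw [hq''g, mul_ne_zero_iff, Finset.prod_ne_zero_iff]
      constructor
      · rintro ⟨h1, h2⟩
        refine ⟨h1, fun l hl => ?_⟩
        have h3 := h2 l (Finset.mem_filter.mpr ⟨Finset.mem_univ _, hl⟩)
        obtain ⟨h4, h5⟩ := hab l g h1
        rw [← h5] at h3
        have h6 := left_ne_zero_of_mul h3
        unfold piv
        rw [hl]
        exact h6
      · rintro ⟨h1, h2⟩
        refine ⟨h1, fun l hl => ?_⟩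
        have hl' := (Finset.mem_filter.mp hl).2
        have h3 := h2 l hl'
        unfold piv at h3
        rw [hl'] at h3
        obtain ⟨h4, h5⟩ := hab l g h1
        rw [← h5]
        exact mul_ne_zero h3 h4
    have hsub : ∀ g, q'' g ≠ 0 → q' g ≠ 0 := fun g hg => ((hiff' g).mp hg).1
    refine ⟨q'', mul_mem hq' (prod_mem fun l _ => ha l), ?_, ?_⟩
    · intro g
      rw [hiff', hiff]
      constructor
      · rintro ⟨⟨h1, h2⟩, h3⟩
        refine ⟨h1, fun l hl => ?_⟩
        rcases Nat.lt_or_ge (od star l) p with h4 | h4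
        · exact h2 l h4
        · exact h3 l (by omega)
      · rintro ⟨h1, h2⟩
        exact ⟨⟨h1, fun l hl => h2 l (by omega)⟩, fun l hl => h2 l (by omega)⟩
    · intro p' hp' i j
      rcases Nat.lt_or_ge p' (p + 1) with h4 | h4
      · exact RegU_mono A hsub (hreg p' (by omega) i j)
      · have : p' = p + 1 := by omega
        subst this
        have h5 : (fun g => Qr star (p + 1) (Qf g) i j) = (fun g => Qr star p (Qf g) i j)
            + ∑ l ∈ Finset.univ.filter (fun l => od star l = p),
              (fun _ => (-1 : k)) * (fun g => Qr star p (Qf g) i (star l))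
              * (fun g => Qr star p (Qf g) l j) * (fun g => (Qr star p (Qf g) l (star l))⁻¹) := by
          funext g
          rw [Qr_succ, Pi.add_apply, Finset.sum_apply, sub_eq_add_neg, ← Finset.sum_neg_distrib]
          congr 1
          refine Finset.sum_congr rfl fun l _ => ?_
          simp only [Pi.mul_apply]
          rw [div_eq_mul_inv]
          ring
        rw [h5]
        refine add_mem (RegU_mono A hsub (hreg p le_rfl i j)) (sum_mem fun l hl => ?_)
        have hl' := (Finset.mem_filter.mp hl).2
        refine mul_mem (mul_mem (mul_mem ?_ (RegU_mono A hsub (hreg p le_rfl i _)))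
          (RegU_mono A hsub (hreg p le_rfl l j))) ?_
        · exact Subalgebra.algebraMap_mem _ (-1 : k)
        · refine RegU_inv A (hreg p le_rfl l (star l)) hsub (fun g hg => ?_)
          have := ((hiff' g).mp hg).2 l hl'
          unfold piv at this
          rw [hl'] at this
          exact this

end Reg

end Pool.Agent.Helper14.RG
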