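import Pool.Agent.Helper14.RG.Fischer
import Pool.Agent.Helper14.RG.Diag

namespace Pool.Agent.Helper14.RG

open MvPolynomial

variable {k K : Type*} [Field k] [Field K] [Algebra k K] {N : Type*} [Fintype N] [DecidableEq N]
  {Γ : Type*} [Group Γ]

/-- Linear change of variables. -/
noncomputable def lsub (c : Matrix N N k) : MvPolynomial N k →ₐ[k] MvPolynomial N k :=
  aeval (fun j => ∑ l, C (c j l) * X l)

lemma lsub_lsub (c d : Matrix N N k) (P : MvPolynomial N k) :
    lsub d (lsub c P) = lsub (c * d) P := by
  have : (lsub d).comp (lsub c) = lsub (c * d) := by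
    ext1 j
    simp only [lsub, AlgHom.comp_apply, aeval_X, map_sum, map_mul, Matrix.mul_apply]
    have h1 : ∀ l, (aeval (fun j => ∑ l, C (d j l) * X l) : MvPolynomial N k →ₐ[k] MvPolynomial N k)
        (C (c j l)) = C (c j l) := by
      intro l
      rw [← algebraMap_eq, AlgHom.commutes]
    simp only [h1, Finset.mul_sum, Finset.sum_mul]
    rw [Finset.sum_comm]
    refine Finset.sum_congr rfl fun l _ => Finset.sum_congr rfl fun i _ => ?_
    ring
  exact DFunLike.congr_fun this P

lemma lsub_one (P : MvPolynomial N k) : lsub (1 : Matrix N N k) P = P := by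
  have : (lsub (1 : Matrix N N k)) = AlgHom.id k (MvPolynomial N k) := by
    ext1 j
    simp [lsub, Matrix.one_apply]
  exact DFunLike.congr_fun this P

lemma aeval_lsub (t : N → K) (c : Matrix N N k) (P : MvPolynomial N k) :
    aeval t (lsub c P) = aeval (fun j => ∑ l, algebraMap k K (c j l) * t l) P := by
  have : (aeval t).comp (lsub c)
      = (aeval (fun j => ∑ l, algebraMap k K (c j l) * t l) : MvPolynomial N k →ₐ[k] K) := by
    ext1 j
    simp [lsub]
  exact DFunLike.congr_fun this P

lemma algebraicIndependent_lsub {t : N → K} (ht : AlgebraicIndependent k t) (c : Matrix N N k)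
    (hc : IsUnit c) : AlgebraicIndependent k (fun j => ∑ l, algebraMap k K (c j l) * t l) := by
  rw [algebraicIndependent_iff]
  intro P hP
  rw [← aeval_lsub] at hP
  have h1 : lsub c P = 0 := (injective_iff_map_eq_zero (aeval t : MvPolynomial N k →ₐ[k] K)).mp ht _ hP
  have h2 := lsub_lsub c c⁻¹ P
  rw [h1, map_zero, Matrix.mul_nonsing_inv _ ((Matrix.isUnit_iff_isUnit_det _).mp hc), lsub_one] at h2
  exact h2.symm

/-- Fischer's theorem for a commuting family of linear substitutions of bounded exponent. -/
theorem linear_fixed [IsAlgClosed k] (t : N → K) (ht : AlgebraicIndependent k t)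
    (act : Γ →* (K ≃ₐ[k] K)) (ρ : Γ → Matrix N N k)
    (hρ : ∀ γ j, act γ (t j) = ∑ l, algebraMap k K (ρ γ j l) * t l)
    (hcomm : ∀ γ γ', ρ γ * ρ γ' = ρ γ' * ρ γ)
    (M : ℕ) (hM : (M : k) ≠ 0) (hpow : ∀ γ, ρ γ ^ M = 1) :
    ∃ r : ℕ, ∃ v : Fin r → K, AlgebraicIndependent k v ∧
      ∀ f : K, f ∈ IntermediateField.adjoin k (Set.range v) ↔
        (f ∈ IntermediateField.adjoin k (Set.range t) ∧ ∀ γ, act γ f = f) := by
  classical
  obtain ⟨c, hc, χ, hχ⟩ := exists_simul_diag ρ hcomm M hM (fun _ => 1) (fun _ => one_ne_zero)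
    (fun γ => by rw [hpow, one_smul])
  have hcdet : IsUnit c.det := (Matrix.isUnit_iff_isUnit_det _).mp hc
  let y : N → K := fun j => ∑ l, algebraMap k K (c j l) * t l
  have hy : AlgebraicIndependent k y := algebraicIndependent_lsub ht c hc
  have hM0 : 0 < M := by
    rcases Nat.eq_zero_or_pos M with h | h
    · rw [h] at hM; exact absurd Nat.cast_zero hM
    · exact h
  have hyact : ∀ γ j, act γ (y j) = algebraMap k K (χ γ j) * y j := by
    intro γ j
    have h1 : ∀ i, ∑ l, c j l * ρ γ l i = χ γ j * c j i := by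
      intro i
      have := congrFun (congrFun (hχ γ) j) i
      rw [Matrix.mul_apply, Matrix.diagonal_mul] at this
      exact this
    show act γ (∑ l, algebraMap k K (c j l) * t l) = algebraMap k K (χ γ j) * ∑ l, algebraMap k K (c j l) * t l
    rw [map_sum]
    simp only [map_mul, AlgEquiv.commutes, hρ]
    simp only [Finset.mul_sum]
    rw [Finset.sum_comm]
    refine Finset.sum_congr rfl fun i _ => ?_
    rw [← mul_assoc, ← map_mul, ← h1 i, map_sum, Finset.sum_mul]
    refine Finset.sum_congr rfl fun l _ => ?_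
    rw [map_mul]
    ring
  have hpow' : ∀ γ j, χ γ j ^ M = 1 := by
    intro γ j
    have h1 : ∀ m : ℕ, c * ρ γ ^ m = Matrix.diagonal (χ γ) ^ m * c := by
      intro m
      induction m with
      | zero => simp
      | succ m ih => rw [pow_succ, ← mul_assoc, ih, mul_assoc, hχ, ← mul_assoc, ← pow_succ]
    have h2 := h1 M
    rw [hpow, mul_one, Matrix.diagonal_pow] at h2
    have h3 : Matrix.diagonal ((χ γ) ^ M) = 1 := by
      have h4 := congrArg (· * c⁻¹) h2
      simp only [mul_assoc, Matrix.mul_nonsing_inv _ hcdet, mul_one] at h4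
      exact h4.symm
    have h5 := congrFun (congrFun h3 j) j
    rw [Matrix.diagonal_apply_eq, Matrix.one_apply_eq] at h5
    exact h5
  have hadj : IntermediateField.adjoin k (Set.range y) = IntermediateField.adjoin k (Set.range t) := by
    apply le_antisymm
    · rw [IntermediateField.adjoin_le_iff]
      rintro _ ⟨j, rfl⟩
      exact sum_mem fun l _ => mul_mem (IntermediateField.algebraMap_mem _ _)
        (IntermediateField.subset_adjoin k (Set.range t) (Set.mem_range_self l))
    · rw [IntermediateField.adjoin_le_iff]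
      rintro _ ⟨j, rfl⟩
      have h1 : t j = ∑ i, algebraMap k K (c⁻¹ j i) * y i := by
        show t j = ∑ i, algebraMap k K (c⁻¹ j i) * ∑ l, algebraMap k K (c i l) * t l
        simp only [Finset.mul_sum]
        rw [Finset.sum_comm]
        have h2 : ∀ l, ∑ i, algebraMap k K (c⁻¹ j i) * (algebraMap k K (c i l) * t l)
            = algebraMap k K ((1 : Matrix N N k) j l) * t l := by
          intro l
          rw [← Matrix.nonsing_inv_mul _ hcdet, Matrix.mul_apply, map_sum, Finset.sum_mul]
          refine Finset.sum_congr rfl fun i _ => ?_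
          rw [map_mul]
          ring
        simp only [h2, Matrix.one_apply]
        simp
      rw [h1]
      exact sum_mem fun l _ => mul_mem (IntermediateField.algebraMap_mem _ _)
        (IntermediateField.subset_adjoin k (Set.range y) (Set.mem_range_self l))
  obtain ⟨r, v, hv, hv2⟩ := monomial_fixed y hy act χ hyact M hM0 hpow'
  refine ⟨r, v, hv, fun f => ?_⟩
  rw [hv2, hadj]

end Pool.Agent.Helper14.RG
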