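import Mathlib

namespace Pool.Agent.Helper14.RG

open Matrix

section Abstract

variable {k : Type*} [Field k] [IsAlgClosed k] {V : Type*} [AddCommGroup V] [Module k V]
  [FiniteDimensional k V]

/-- Normal form data for a bilinear form on a subspace. -/
structure NFData (B : V →ₗ[k] V →ₗ[k] k) (W : Submodule k V) where
  J : Type
  fJ : Fintype J
  dJ : DecidableEq J
  b : J → V
  star : J → J
  c : J → k
  mem : ∀ j, b j ∈ W
  span : W ≤ Submodule.span k (Set.range b)
  inv : ∀ j, star (star j) = j
  gram : ∀ i j, B (b i) (b j) = if j = star i then c i else 0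
  c_ne : ∀ j, c j ≠ 0
  c_one : ∀ j, star j = j → c j = 1
  c_two : ∀ j, star j ≠ j → c j ≠ c (star j)

lemma exists_eigen (B : V →ₗ[k] V →ₗ[k] k) (A : V →ₗ[k] V) (W : Submodule k V)
    (hW : ∀ w ∈ W, A w ∈ W) (M : ℕ) (hM : (M : k) ≠ 0) (r : k) (hr : r ≠ 0)
    (hpow : ∀ w ∈ W, (A ^ M) w = r • w) (x : V) (hx : ∃ y ∈ W, B x y ≠ 0) :
    ∃ (μ : k) (y : V), y ∈ W ∧ A y = μ • y ∧ B x y ≠ 0 := by
  let A' : Module.End k W := A.restrict hW
  have hA'pow : ∀ (j : ℕ) (w : W), ((A' ^ j) w : V) = (A ^ j) (w : V) := by
    intro j
    induction j with
    | zero => intro w; rfl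
    | succ j ih =>
      intro w
      rw [pow_succ, pow_succ, Module.End.mul_apply, Module.End.mul_apply, ih]
      rfl
  have hss : A'.IsSemisimple := by
    refine Module.End.isSemisimple_of_squarefree_aeval_eq_zero
      (Polynomial.separable_X_pow_sub_C r hM hr).squarefree ?_
    rw [map_sub, map_pow, Polynomial.aeval_X, Polynomial.aeval_C, Module.algebraMap_end_eq_smul_id]
    ext w
    show (((A' ^ M) w : W) : V) - r • (w : V) = 0
    rw [hA'pow, hpow w w.2, sub_self]
  have htop := Module.End.iSup_maxGenEigenspace_eq_top A'
  by_contra hcon
  push Not at hcon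
  obtain ⟨y, hy, hxy⟩ := hx
  apply hxy
  have hle : ⨆ μ, Module.End.maxGenEigenspace A' μ ≤ LinearMap.ker ((B x).comp W.subtype) := by
    refine iSup_le fun μ w hw => ?_
    rw [hss.isFinitelySemisimple.maxGenEigenspace_eq_eigenspace] at hw
    have h1 := Module.End.mem_eigenspace_iff.mp hw
    rw [LinearMap.mem_ker]
    exact hcon μ w w.2 (congrArg Subtype.val h1)
  rw [htop] at hle
  have := hle (Submodule.mem_top (x := (⟨y, hy⟩ : W)))
  rw [LinearMap.mem_ker] at this
  exact this

theorem exists_NFData (h2 : (2 : k) ≠ 0) (B : V →ₗ[k] V →ₗ[k] k) (A : V →ₗ[k] V)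
    (hBA : ∀ x y, B x y = B y (A x)) (M : ℕ) (hM : (M : k) ≠ 0) (r : k) (hr : r ≠ 0)
    (hpow : ∀ w, (A ^ M) w = r • w) (d : ℕ) :
    ∀ W : Submodule k V, Module.finrank k W = d → (∀ w ∈ W, A w ∈ W) →
      (∀ w ∈ W, (∀ w' ∈ W, B w w' = 0) → w = 0) → Nonempty (NFData B W) := by
  classical
  induction d using Nat.strong_induction_on with
  | _ d ih =>
    intro W hd hW hnd
    by_cases hbot : W = ⊥
    · subst hbot
      exact ⟨{ J := Empty
               fJ := inferInstance
               dJ := inferInstance
               b := Empty.elim
               star := Empty.elim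
               c := Empty.elim
               mem := fun j => j.elim
               span := bot_le
               inv := fun j => j.elim
               gram := fun j => j.elim
               c_ne := fun j => j.elim
               c_one := fun j => j.elim
               c_two := fun j => j.elim }⟩
    · -- an eigenvector
      obtain ⟨x0, hx0W, hx0⟩ := Submodule.exists_mem_ne_zero_of_ne_bot hbot
      obtain ⟨y0, hy0W, hy0⟩ : ∃ y ∈ W, B x0 y ≠ 0 := by
        by_contra hcon
        push Not at hcon
        exact hx0 (hnd x0 hx0W hcon)
      -- x eigenvector with B y0' x ≠ 0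
      obtain ⟨lam, x, hxW, hAx, hx⟩ := exists_eigen B A W hW M hM r hr (fun w _ => hpow w) x0
        ⟨y0, hy0W, hy0⟩
      have hxne : x ≠ 0 := by rintro rfl; exact hx (map_zero _)
      obtain ⟨mu, y, hyW, hAy, hxy⟩ := exists_eigen B A W hW M hM r hr (fun w _ => hpow w) x (by
        by_contra hcon
        push Not at hcon
        exact hxne (hnd x hxW hcon))
      have hlm : lam * mu = 1 := by
        have h1 : B x y = lam * (mu * B x y) := by
          conv_lhs => rw [hBA x y, hAx, map_smul, smul_eq_mul, hBA y x, hAy, map_smul, smul_eq_mul]
        have h3 : (lam * mu - 1) * B x y = 0 := by linear_combination -h1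
        exact sub_eq_zero.mp ((mul_eq_zero.mp h3).resolve_right hxy)
      have hl0 : lam ≠ 0 := by rintro rfl; rw [zero_mul] at hlm; exact zero_ne_one hlm
      by_cases hl : lam = 1
      · -- orthogonal vector
        have hm1 : mu = 1 := by rw [hl, one_mul] at hlm; exact hlm
        rw [hl, one_smul] at hAx
        rw [hm1, one_smul] at hAy
        obtain ⟨v, hvW, hAv, hv⟩ : ∃ v ∈ W, A v = v ∧ B v v ≠ 0 := by
          by_contra hcon
          push Not at hcon
          have e1 := hcon x hxW hAx
          have e2 := hcon y hyW hAy
          have e3 := hcon (x + y) (add_mem hxW hyW) (by rw [map_add, hAx, hAy])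
          rw [map_add, map_add, LinearMap.add_apply, LinearMap.add_apply, e1, e2, hBA y x, hAy] at e3
          have e4 : (2 : k) * B x y = 0 := by linear_combination e3
          exact hxy ((mul_eq_zero.mp e4).resolve_left h2)
        obtain ⟨q, hq⟩ := IsAlgClosed.exists_pow_nat_eq (B v v) (n := 2) (by norm_num)
        have hq0 : q ≠ 0 := by rintro rfl; rw [zero_pow two_ne_zero] at hq; exact hv hq.symm
        obtain ⟨v', hv'W, hAv', hv'v'⟩ : ∃ v' ∈ W, A v' = v' ∧ B v' v' = 1 := by
          refine ⟨q⁻¹ • v, W.smul_mem _ hvW, by rw [map_smul, hAv], ?_⟩
          simp only [map_smul, LinearMap.smul_apply, smul_eq_mul]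
          rw [← hq]
          field_simp
        let W' : Submodule k V := W ⊓ LinearMap.ker (B v')
        have hW'1 : ∀ w ∈ W', B v' w = 0 := fun w hw => LinearMap.mem_ker.mp hw.2
        have hW'2 : ∀ w ∈ W', B w v' = 0 := fun w hw => by
          have := hBA v' w
          rw [hAv', hW'1 w hw] at this
          exact this.symm
        have hlt : Module.finrank k W' < d := by
          rw [← hd]
          refine Submodule.finrank_lt_finrank_of_lt (lt_of_le_of_ne inf_le_left ?_)
          intro heq
          have : v' ∈ W' := by rw [heq]; exact hv'W
          have := hW'1 v' this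
          rw [hv'v'] at this
          exact one_ne_zero this
        have hdec : ∀ w ∈ W, w - (B v' w) • v' ∈ W' := by
          intro w hw
          refine ⟨sub_mem hw (W.smul_mem _ hv'W), ?_⟩
          rw [SetLike.mem_coe, LinearMap.mem_ker, map_sub, map_smul, hv'v', smul_eq_mul, mul_one, sub_self]
        obtain ⟨D⟩ := ih _ hlt W' rfl (by
          intro w hw
          refine ⟨hW w hw.1, ?_⟩
          rw [SetLike.mem_coe, LinearMap.mem_ker, ← hBA w v']
          exact hW'2 w hw) (by
          intro w hw h3
          apply hnd w hw.1
          intro w' hw'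
          have h4 := h3 _ (hdec w' hw')
          rw [map_sub, map_smul, hW'2 w hw, smul_zero, sub_zero] at h4
          exact h4)
        haveI := D.fJ
        haveI := D.dJ
        refine ⟨{ J := Option D.J
                  fJ := inferInstance
                  dJ := inferInstance
                  b := fun o => o.elim v' D.b
                  star := fun o => o.map D.star
                  c := fun o => o.elim 1 D.c
                  mem := ?_
                  span := ?_
                  inv := ?_
                  gram := ?_
                  c_ne := ?_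
                  c_one := ?_
                  c_two := ?_ }⟩
        · rintro (_ | j)
          · exact hv'W
          · exact (D.mem j).1
        · intro w hw
          have h3 := D.span (hdec w hw)
          have h4 : Submodule.span k (Set.range D.b)
              ≤ Submodule.span k (Set.range (fun o : Option D.J => o.elim v' D.b)) := by
            apply Submodule.span_mono
            rintro _ ⟨j, rfl⟩
            exact ⟨some j, rfl⟩
          have h5 : v' ∈ Submodule.span k (Set.range (fun o : Option D.J => o.elim v' D.b)) :=
            Submodule.subset_span ⟨none, rfl⟩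
          have h6 : w = (w - (B v' w) • v') + (B v' w) • v' := by rw [sub_add_cancel]
          rw [h6]
          exact add_mem (h4 h3) (Submodule.smul_mem _ _ h5)
        · rintro (_ | j)
          · rfl
          · show some (D.star (D.star j)) = some j
            rw [D.inv]
        · rintro (_ | i) (_ | j)
          · exact hv'v'
          · show B v' (D.b j) = if some j = none then (1 : k) else 0
            rw [hW'1 _ (D.mem j), if_neg (by simp)]
          · show B (D.b i) v' = if none = some (D.star i) then D.c i else 0
            rw [hW'2 _ (D.mem i), if_neg (by simp)]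
          · show B (D.b i) (D.b j) = if some j = some (D.star i) then D.c i else 0
            rw [D.gram]
            by_cases h : j = D.star i
            · rw [if_pos h, if_pos (congrArg some h)]
            · rw [if_neg h, if_neg (fun h' => h (Option.some.inj h'))]
        · rintro (_ | j)
          · exact one_ne_zero
          · exact D.c_ne j
        · rintro (_ | j) h
          · rfl
          · exact D.c_one j (Option.some.inj h)
        · rintro (_ | j) h
          · exact absurd rfl h
          · exact D.c_two j (fun h' => h (congrArg some h'))
      · -- hyperbolic pair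
        have hm1 : mu ≠ 1 := by rintro rfl; rw [mul_one] at hlm; exact hl hlm
        have hxx : B x x = 0 := by
          have h1 := hBA x x
          rw [hAx, map_smul, smul_eq_mul] at h1
          have h3 : (1 - lam) * B x x = 0 := by linear_combination h1
          exact (mul_eq_zero.mp h3).resolve_left (sub_ne_zero.mpr (Ne.symm hl))
        have hyy : B y y = 0 := by
          have h1 := hBA y y
          rw [hAy, map_smul, smul_eq_mul] at h1
          have h3 : (1 - mu) * B y y = 0 := by linear_combination h1
          exact (mul_eq_zero.mp h3).resolve_left (sub_ne_zero.mpr (Ne.symm hm1))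
        have hxy' : B x y = lam * B y x := by rw [hBA x y, hAx, map_smul, smul_eq_mul]
        have hyx : B y x ≠ 0 := by
          intro h0; rw [h0, mul_zero] at hxy'; exact hxy hxy'
        have hne : B x y ≠ B y x := by
          intro h0
          rw [h0] at hxy'
          have : (lam - 1) * B y x = 0 := by linear_combination -hxy'
          exact hyx ((mul_eq_zero.mp this).resolve_left (sub_ne_zero.mpr hl))
        let W' : Submodule k V := W ⊓ (LinearMap.ker (B x) ⊓ LinearMap.ker (B y))
        have hW'x : ∀ w ∈ W', B x w = 0 := fun w hw => LinearMap.mem_ker.mp hw.2.1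
        have hW'y : ∀ w ∈ W', B y w = 0 := fun w hw => LinearMap.mem_ker.mp hw.2.2
        have hmu0 : mu ≠ 0 := by rintro rfl; rw [mul_zero] at hlm; exact zero_ne_one hlm
        have hW'x2 : ∀ w ∈ W', B w x = 0 := fun w hw => by
          have := hBA x w
          rw [hAx, hW'x w hw, map_smul, smul_eq_mul] at this
          exact (mul_eq_zero.mp this.symm).resolve_left hl0
        have hW'y2 : ∀ w ∈ W', B w y = 0 := fun w hw => by
          have := hBA y w
          rw [hAy, hW'y w hw, map_smul, smul_eq_mul] at this
          exact (mul_eq_zero.mp this.symm).resolve_left hmu0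
        have hlt : Module.finrank k W' < d := by
          rw [← hd]
          refine Submodule.finrank_lt_finrank_of_lt (lt_of_le_of_ne inf_le_left ?_)
          intro heq
          have : y ∈ W' := by rw [heq]; exact hyW
          exact hxy (hW'x y this)
        have hdec : ∀ w ∈ W, w - (B y w / B y x) • x - (B x w / B x y) • y ∈ W' := by
          intro w hw
          refine ⟨sub_mem (sub_mem hw (W.smul_mem _ hxW)) (W.smul_mem _ hyW), ?_, ?_⟩
          · rw [SetLike.mem_coe, LinearMap.mem_ker, map_sub, map_sub, map_smul, map_smul, hxx,
              smul_zero, sub_zero, smul_eq_mul, div_mul_cancel₀ _ hxy, sub_self]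
          · rw [SetLike.mem_coe, LinearMap.mem_ker, map_sub, map_sub, map_smul, map_smul, hyy,
              smul_zero, sub_zero, smul_eq_mul, div_mul_cancel₀ _ hyx, sub_self]
        obtain ⟨D⟩ := ih _ hlt W' rfl (by
          intro w hw
          refine ⟨hW w hw.1, ?_, ?_⟩
          · rw [SetLike.mem_coe, LinearMap.mem_ker, ← hBA w x]
            exact hW'x2 w hw
          · rw [SetLike.mem_coe, LinearMap.mem_ker, ← hBA w y]
            exact hW'y2 w hw) (by
          intro w hw h3
          apply hnd w hw.1
          intro w' hw'
          have h4 := h3 _ (hdec w' hw')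
          rw [map_sub, map_sub, map_smul, map_smul, hW'x2 w hw, hW'y2 w hw, smul_zero, smul_zero,
            sub_zero, sub_zero] at h4
          exact h4)
        haveI := D.fJ
        haveI := D.dJ
        refine ⟨{ J := D.J ⊕ Bool
                  fJ := inferInstance
                  dJ := inferInstance
                  b := Sum.elim D.b (fun e => if e then x else y)
                  star := Sum.elim (fun j => Sum.inl (D.star j)) (fun e => Sum.inr (!e))
                  c := Sum.elim D.c (fun e => if e then B x y else B y x)
                  mem := ?_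
                  span := ?_
                  inv := ?_
                  gram := ?_
                  c_ne := ?_
                  c_one := ?_
                  c_two := ?_ }⟩
        · rintro (j | e)
          · exact (D.mem j).1
          · cases e
            · exact hyW
            · exact hxW
        · intro w hw
          have h3 := D.span (hdec w hw)
          have h4 : Submodule.span k (Set.range D.b)
              ≤ Submodule.span k (Set.range (Sum.elim D.b (fun e : Bool => if e then x else y))) := by
            apply Submodule.span_mono
            rintro _ ⟨j, rfl⟩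
            exact ⟨Sum.inl j, rfl⟩
          have h5 : x ∈ Submodule.span k (Set.range (Sum.elim D.b (fun e : Bool => if e then x else y))) :=
            Submodule.subset_span ⟨Sum.inr true, rfl⟩
          have h5' : y ∈ Submodule.span k (Set.range (Sum.elim D.b (fun e : Bool => if e then x else y))) :=
            Submodule.subset_span ⟨Sum.inr false, rfl⟩
          have h6 : w = (w - (B y w / B y x) • x - (B x w / B x y) • y)
              + (B x w / B x y) • y + (B y w / B y x) • x := by
            rw [sub_add_cancel, sub_add_cancel]
          rw [h6]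
          exact add_mem (add_mem (h4 h3) (Submodule.smul_mem _ _ h5')) (Submodule.smul_mem _ _ h5)
        · rintro (j | e)
          · show Sum.inl (D.star (D.star j)) = Sum.inl j
            rw [D.inv]
          · show Sum.inr (!(!e)) = Sum.inr e
            rw [Bool.not_not]
        · rintro (i | e) (j | f)
          · show B (D.b i) (D.b j) = if Sum.inl j = Sum.inl (D.star i) then D.c i else 0
            rw [D.gram]
            by_cases h : j = D.star i
            · rw [if_pos h, if_pos (congrArg Sum.inl h)]
            · rw [if_neg h, if_neg (fun h' => h (Sum.inl.inj h'))]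
          · cases f
            · show B (D.b i) y = if Sum.inr false = Sum.inl (D.star i) then D.c i else 0
              rw [if_neg (by simp)]
              exact hW'y2 _ (D.mem i)
            · show B (D.b i) x = if Sum.inr true = Sum.inl (D.star i) then D.c i else 0
              rw [if_neg (by simp)]
              exact hW'x2 _ (D.mem i)
          · cases e
            · show B y (D.b j) = if Sum.inl j = Sum.inr (!false) then B y x else 0
              rw [if_neg (by simp)]
              exact hW'y _ (D.mem j)
            · show B x (D.b j) = if Sum.inl j = Sum.inr (!true) then B x y else 0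
              rw [if_neg (by simp)]
              exact hW'x _ (D.mem j)
          · cases e <;> cases f
            · show B y y = if Sum.inr false = Sum.inr (!false) then _ else 0
              rw [if_neg (by simp), hyy]
            · show B y x = if Sum.inr true = Sum.inr (!false) then B y x else 0
              rw [if_pos (by simp)]
            · show B x y = if Sum.inr false = Sum.inr (!true) then B x y else 0
              rw [if_pos (by simp)]
            · show B x x = if Sum.inr true = Sum.inr (!true) then _ else 0
              rw [if_neg (by simp), hxx]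
        · rintro (j | e)
          · exact D.c_ne j
          · cases e
            · exact hyx
            · exact hxy
        · rintro (j | e) h
          · exact D.c_one j (Sum.inl.inj h)
          · cases e
            · exact absurd (Sum.inr.inj h) (by simp)
            · exact absurd (Sum.inr.inj h) (by simp)
        · rintro (j | e) h
          · exact D.c_two j (fun h' => h (congrArg Sum.inl h'))
          · cases e
            · exact hne.symm
            · exact hne

end Abstract

section Concrete

variable {k : Type*} [Field k] [IsAlgClosed k] {n : ℕ}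

/-- the monomial matrix with entries `c i` at `(i, star i)` -/
def MA (star : Fin n → Fin n) (c : Fin n → k) : Matrix (Fin n) (Fin n) k :=
  Matrix.of fun i j => if j = star i then c i else 0

theorem exists_nf (h2 : (2 : k) ≠ 0) (a : Matrix (Fin n) (Fin n) k) (ha : a.det ≠ 0) (M : ℕ)
    (hM : (M : k) ≠ 0) (r : k) (hr : r ≠ 0) (hpow : (a⁻¹ * a.transpose) ^ M = r • (1 : Matrix _ _ k)) :
    ∃ (u : Matrix (Fin n) (Fin n) k) (star : Fin n → Fin n) (c : Fin n → k), u.det ≠ 0 ∧
      (∀ j, star (star j) = j) ∧ (∀ j, c j ≠ 0) ∧ (∀ j, star j = j → c j = 1) ∧
      (∀ j, star j ≠ j → c j ≠ c (star j)) ∧ a = u * MA star c * u.transpose := by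
  classical
  have hau : IsUnit a.det := isUnit_iff_ne_zero.mpr ha
  let B : (Fin n → k) →ₗ[k] (Fin n → k) →ₗ[k] k := Matrix.toLinearMap₂' k a
  have hB : ∀ x y, B x y = x ⬝ᵥ (a *ᵥ y) := fun x y => Matrix.toLinearMap₂'_apply' a x y
  let A : (Fin n → k) →ₗ[k] (Fin n → k) := Matrix.toLin' (a⁻¹ * a.transpose)
  have hA : ∀ x, A x = (a⁻¹ * a.transpose) *ᵥ x := fun x => Matrix.toLin'_apply _ _
  have hBA : ∀ x y, B x y = B y (A x) := by
    intro x y
    rw [hB, hB, hA, Matrix.mulVec_mulVec, ← mul_assoc, Matrix.mul_nonsing_inv _ hau, one_mul,
      Matrix.mulVec_transpose, Matrix.dotProduct_mulVec, dotProduct_comm]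
  have hApow : ∀ (j : ℕ) (w : Fin n → k), (A ^ j) w = ((a⁻¹ * a.transpose) ^ j) *ᵥ w := by
    intro j w
    show ((Matrix.toLin' (a⁻¹ * a.transpose)) ^ j) w = _
    rw [← Matrix.toLin'_pow, Matrix.toLin'_apply]
  obtain ⟨D⟩ := exists_NFData h2 B A hBA M hM r hr (by
    intro w
    rw [hApow, hpow, Matrix.smul_mulVec, Matrix.one_mulVec]) _ ⊤ rfl (fun w _ => Submodule.mem_top) (by
    intro w _ h
    have h1 : ∀ w', w ⬝ᵥ (a *ᵥ w') = 0 := fun w' => by rw [← hB]; exact h w' Submodule.mem_top
    have h3 : ∀ z, w ⬝ᵥ z = 0 := by
      intro z
      have := h1 (a⁻¹ *ᵥ z)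
      rw [Matrix.mulVec_mulVec, Matrix.mul_nonsing_inv _ hau, Matrix.one_mulVec] at this
      exact this
    exact dotProduct_eq_zero w h3)
  haveI := D.fJ
  haveI := D.dJ
  -- linear independence of the family
  have hlin : LinearIndependent k D.b := by
    rw [Fintype.linearIndependent_iff]
    intro g hg i
    have h1 := congrArg (fun v => B v (D.b (D.star i))) hg
    simp only [map_sum, map_smul, LinearMap.sum_apply, LinearMap.smul_apply, map_zero,
      LinearMap.zero_apply, D.gram, smul_eq_mul] at h1
    rw [Finset.sum_eq_single i] at h1
    · rw [if_pos rfl] at h1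
      exact (mul_eq_zero.mp h1).resolve_right (D.c_ne i)
    · intro j _ hj
      rw [if_neg, mul_zero]
      intro h4
      apply hj
      rw [← D.inv j, ← h4, D.inv]
    · intro h4; exact absurd (Finset.mem_univ _) h4
  let bs : Module.Basis D.J k (Fin n → k) := Module.Basis.mk hlin D.span
  let e : D.J ≃ Fin n := bs.indexEquiv (Pi.basisFun k (Fin n))
  let R : Matrix (Fin n) (Fin n) k := Matrix.of fun i => D.b (e.symm i)
  have hR : R * a * R.transpose = MA (fun i => e (D.star (e.symm i))) (fun i => D.c (e.symm i)) := by
    ext i j
    have h1 : (R * a * R.transpose) i j = B (D.b (e.symm i)) (D.b (e.symm j)) := by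
      rw [hB, mul_assoc, Matrix.mul_apply]
      rfl
    rw [h1, D.gram]
    show _ = if j = e (D.star (e.symm i)) then D.c (e.symm i) else 0
    by_cases h : j = e (D.star (e.symm i))
    · rw [if_pos h, if_pos (by rw [h, Equiv.symm_apply_apply])]
    · rw [if_neg h, if_neg]
      intro h'
      apply h
      rw [← h', Equiv.apply_symm_apply]
  have hRlin : LinearIndependent k R.row := hlin.comp e.symm e.symm.injective
  have hRu : IsUnit R := Matrix.linearIndependent_rows_iff_isUnit.mp hRlin
  have hRdet : IsUnit R.det := (Matrix.isUnit_iff_isUnit_det _).mp hRu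
  refine ⟨R⁻¹, fun i => e (D.star (e.symm i)), fun i => D.c (e.symm i), ?_, ?_, ?_, ?_, ?_, ?_⟩
  · rw [Matrix.det_nonsing_inv, Ring.inverse_eq_inv']
    exact inv_ne_zero hRdet.ne_zero
  · intro j
    simp only [Equiv.symm_apply_apply, D.inv, Equiv.apply_symm_apply]
  · intro j; exact D.c_ne _
  · intro j hj
    apply D.c_one
    apply e.injective
    rw [Equiv.apply_symm_apply]
    exact hj
  · intro j hj
    simp only [Equiv.symm_apply_apply]
    apply D.c_two
    intro h
    apply hj
    show e (D.star (e.symm j)) = j
    rw [h, Equiv.apply_symm_apply]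
  · rw [← hR]
    have hRt : IsUnit R.transpose.det := by rw [Matrix.det_transpose]; exact hRdet
    rw [Matrix.transpose_nonsing_inv]
    calc a = (R⁻¹ * R) * a * (R.transpose * R.transpose⁻¹) := by
          rw [Matrix.nonsing_inv_mul _ hRdet, Matrix.mul_nonsing_inv _ hRt, one_mul, mul_one]
      _ = R⁻¹ * (R * a * R.transpose) * R.transpose⁻¹ := by simp only [mul_assoc]

end Concrete

end Pool.Agent.Helper14.RG
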