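import Pool.Agent.Helper14.RG.LDL
import Pool.Agent.Helper14.RG.InnerChart

namespace Pool.Agent.Helper14.RG

open MvPolynomial Matrix

section Nrm0

variable {k : Type*} [Field k] {n : ℕ}

/-- scaling of one coordinate -/
noncomputable def dl0 (j0 : Fin n) (c : k) : Fin n → k := fun j => if j = j0 then c else 1

lemma prod_dl0 (j0 : Fin n) (c : k) : ∏ j, dl0 j0 c j = c := by
  rw [Finset.prod_eq_single j0]
  · simp [dl0]
  · intro j _ hj
    unfold dl0
    rw [if_neg hj]
  · intro h; exact absurd (Finset.mem_univ _) h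

lemma dl0_ne (j0 : Fin n) (c : k) (hc : c ≠ 0) (j : Fin n) : dl0 j0 c j ≠ 0 := by
  unfold dl0
  split_ifs
  · exact hc
  · exact one_ne_zero

lemma det_norm0 (j0 : Fin n) {W u : Matrix (Fin n) (Fin n) k} (hW : W.det ≠ 0) :
    (W * diagonal (dl0 j0 (u.det / W.det))).det = u.det := by
  rw [Matrix.det_mul, Matrix.det_diagonal, prod_dl0, mul_div_cancel₀ _ hW]

open Classical in
/-- normalization of an invertible matrix `W` to `SL_n`, relative to `u`, at the column `j0`. -/
noncomputable def nrm0 (j0 : Fin n) (u W : Matrix (Fin n) (Fin n) k) (hu : u.det ≠ 0) :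
    Matrix.SpecialLinearGroup (Fin n) k :=
  if h : W.det ≠ 0 then
    ⟨W * diagonal (dl0 j0 (u.det / W.det)) * u⁻¹, by
      rw [Matrix.det_mul, det_norm0 j0 h, Matrix.det_nonsing_inv, Ring.mul_inverse_cancel]
      exact isUnit_iff_ne_zero.mpr hu⟩
  else 1

lemma nrm0_coe (j0 : Fin n) (u W : Matrix (Fin n) (Fin n) k) (hu : u.det ≠ 0) (h : W.det ≠ 0) :
    (nrm0 j0 u W hu : Matrix (Fin n) (Fin n) k) = W * diagonal (dl0 j0 (u.det / W.det)) * u⁻¹ := by
  unfold nrm0
  rw [dif_pos h]

/-- regularity of the normalization -/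
lemma nrm0_reg {N : Type*} (j0 : Fin n) (u : Matrix (Fin n) (Fin n) k) (hu : u.det ≠ 0)
    (W : Matrix (Fin n) (Fin n) (MvPolynomial N k)) :
    slAlg k n ≤ RegAlong W.det (fun Y => nrm0 j0 u (W.map (eval Y)) hu) := by
  apply slAlg_le
  intro i j
  refine ⟨(W * diagonal (fun j : Fin n => if j = j0 then C u.det else W.det)
    * (u⁻¹).map C : Matrix (Fin n) (Fin n) (MvPolynomial N k)) i j, 1, fun Y hY => ?_⟩
  have hdet : eval Y W.det = (W.map (eval Y)).det := by
    rw [RingHom.map_det]; rfl
  have hY' : (W.map (eval Y)).det ≠ 0 := hdet ▸ hY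
  show (nrm0 j0 u (W.map (eval Y)) hu : Matrix (Fin n) (Fin n) k) i j * eval Y W.det ^ 1 = _
  rw [nrm0_coe _ _ _ _ hY', pow_one]
  have h1 : eval Y ((W * diagonal (fun j : Fin n => if j = j0 then C u.det else W.det)
    * (u⁻¹).map C : Matrix (Fin n) (Fin n) (MvPolynomial N k)) i j)
    = ((W * diagonal (fun j : Fin n => if j = j0 then C u.det else W.det)
    * (u⁻¹).map C : Matrix (Fin n) (Fin n) (MvPolynomial N k)).map (eval Y)) i j := rfl
  rw [h1, Matrix.map_mul, Matrix.map_mul]
  have h2 : ((u⁻¹).map (C : k →+* MvPolynomial N k)).map (eval Y) = u⁻¹ := by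
    ext a b
    simp
  have h3 : (diagonal (fun j : Fin n => if j = j0 then (C u.det : MvPolynomial N k) else W.det)).map
      (eval Y) = (W.map (eval Y)).det • diagonal (dl0 j0 (u.det / (W.map (eval Y)).det)) := by
    ext a b
    rw [Matrix.map_apply, Matrix.smul_apply, Matrix.diagonal_apply, Matrix.diagonal_apply]
    by_cases hab : a = b
    · rw [if_pos hab, if_pos hab]
      unfold dl0
      by_cases ha : a = j0
      · rw [if_pos ha, if_pos ha, eval_C, smul_eq_mul, mul_div_cancel₀ _ hY']
      · rw [if_neg ha, if_neg ha, hdet, smul_eq_mul, mul_one]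
    · rw [if_neg hab, if_neg hab, map_zero, smul_zero]
  rw [h2, h3, Matrix.mul_smul, Matrix.smul_mul, Matrix.smul_apply, smul_eq_mul, hdet]
  ring

end Nrm0

/-- The combinatorial data of a normal form of a bilinear form. -/
structure NFD (k : Type*) [Field k] (n : ℕ) where
  star : Fin n → Fin n
  c : Fin n → k
  hs : ∀ j, star (star j) = j
  hc : ∀ j, c j ≠ 0
  hc1 : ∀ j, star j = j → c j = 1
  hc2 : ∀ j, star j ≠ j → c j ≠ c (star j)
  j0 : Fin n
  hj0 : j0 ≤ star j0
  hj0' : star j0 ≠ j0 → ∀ j, star j ≠ j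

namespace NFD

variable {k : Type*} [Field k] {n : ℕ} (F : NFD k n)

/-- the asymmetry -/
def chi : Fin n → k := fun j => F.c j / F.c (F.star j)

/-- the matrix -/
def M : Matrix (Fin n) (Fin n) k := MA F.star F.c

lemma chi_star (j : Fin n) : F.chi (F.star j) * F.chi j = 1 := by
  unfold chi
  rw [F.hs]
  have h1 := F.hc j
  have h2 := F.hc (F.star j)
  field_simp

lemma chi_one (j : Fin n) (h : F.chi j = 1) : F.star j = j := by
  by_contra hne
  apply F.hc2 j hne
  unfold chi at h
  exact (div_eq_one_iff_eq (F.hc _)).mp h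

lemma chi_ne (j : Fin n) : F.chi j ≠ 0 := div_ne_zero (F.hc _) (F.hc _)

lemma M_apply (i j : Fin n) : F.M i j = if j = F.star i then F.c i else 0 := rfl

lemma star_eq_iff {i j : Fin n} : j = F.star i ↔ i = F.star j := by
  constructor
  · intro h; rw [h, F.hs]
  · intro h; rw [h, F.hs]

lemma M_eq : F.M = diagonal F.chi * F.M.transpose := by
  ext i j
  rw [Matrix.diagonal_mul, Matrix.transpose_apply, M_apply, M_apply]
  by_cases h : j = F.star i
  · rw [if_pos h, if_pos (F.star_eq_iff.mp h)]
    unfold chi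
    rw [h, div_mul_cancel₀ _ (F.hc _)]
  · rw [if_neg h, if_neg (fun h' => h (F.star_eq_iff.mpr h')), mul_zero]

lemma M_mul : F.M * MA F.star (fun j => (F.c (F.star j))⁻¹) = 1 := by
  ext i j
  rw [Matrix.mul_apply, Finset.sum_eq_single (F.star i)]
  · rw [M_apply, if_pos rfl]
    show F.c i * (if j = F.star (F.star i) then (F.c (F.star (F.star i)))⁻¹ else 0) = _
    rw [F.hs, Matrix.one_apply]
    by_cases h : i = j
    · rw [if_pos h.symm, if_pos h, mul_inv_cancel₀ (F.hc i)]
    · rw [if_neg (fun h' => h h'.symm), if_neg h, mul_zero]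
  · intro l _ hl
    rw [M_apply, if_neg hl, zero_mul]
  · intro h; exact absurd (Finset.mem_univ _) h

lemma M_det : F.M.det ≠ 0 := by
  intro h
  have := congrArg Matrix.det F.M_mul
  rw [Matrix.det_mul, h, zero_mul, Matrix.det_one] at this
  exact zero_ne_one this

lemma diag_M_diag (τ : Fin n → k) : diagonal τ * F.M * diagonal τ
    = MA F.star (fun j => τ j * F.c j * τ (F.star j)) := by
  ext i j
  rw [Matrix.mul_diagonal, Matrix.diagonal_mul, M_apply]
  show _ = if j = F.star i then τ i * F.c i * τ (F.star i) else 0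
  by_cases h : j = F.star i
  · rw [if_pos h, if_pos h, h]
  · rw [if_neg h, if_neg h, mul_zero, zero_mul]

lemma MA_diag (δ : Fin n → k) : MA F.star δ = diagonal (fun j => δ j / F.c j) * F.M := by
  ext i j
  rw [Matrix.diagonal_mul, M_apply]
  show (if j = F.star i then δ i else 0) = _
  by_cases h : j = F.star i
  · rw [if_pos h, if_pos h, div_mul_cancel₀ _ (F.hc _)]
  · rw [if_neg h, if_neg h, mul_zero]

/-- the invariant form -/
noncomputable def QQ (w : Matrix (Fin n) (Fin n) k) : Matrix (Fin n) (Fin n) k :=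
  TT F.chi w * F.M * (TT F.chi w).transpose

lemma comm_transpose {T : Matrix (Fin n) (Fin n) k} (h : T * diagonal F.chi = diagonal F.chi * T) :
    T.transpose * diagonal F.chi = diagonal F.chi * T.transpose := by
  have := congrArg Matrix.transpose h
  rw [Matrix.transpose_mul, Matrix.transpose_mul, Matrix.diagonal_transpose] at this
  exact this.symm

lemma QQ_sym (w : Matrix (Fin n) (Fin n) k) (i j : Fin n) :
    F.QQ w i j = F.chi i * F.QQ w j i := by
  have h1 : F.QQ w = diagonal F.chi * (F.QQ w).transpose := by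
    unfold QQ
    rw [Matrix.transpose_mul, Matrix.transpose_mul, Matrix.transpose_transpose]
    calc TT F.chi w * F.M * (TT F.chi w).transpose
        = TT F.chi w * (diagonal F.chi * F.M.transpose) * (TT F.chi w).transpose := by
          rw [← F.M_eq]
      _ = (TT F.chi w * diagonal F.chi) * F.M.transpose * (TT F.chi w).transpose := by
          simp only [mul_assoc]
      _ = diagonal F.chi * (TT F.chi w * (F.M.transpose * (TT F.chi w).transpose)) := by
          rw [TT_comm]; simp only [mul_assoc]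
  have h2 := congrFun (congrFun h1 i) j
  rw [Matrix.diagonal_mul, Matrix.transpose_apply] at h2
  exact h2

lemma QQ_zero (w : Matrix (Fin n) (Fin n) k) (i j : Fin n) (h : F.chi i * F.chi j ≠ 1) :
    F.QQ w i j = 0 := by
  unfold QQ M
  rw [mul_MA_mul]
  refine Finset.sum_eq_zero fun l _ => ?_
  by_cases h1 : F.chi i = F.chi l
  · by_cases h2 : F.chi j = F.chi (F.star l)
    · exfalso
      apply h
      rw [h1, h2, mul_comm]
      exact F.chi_star l
    · rw [TT_apply_ne F.chi w h2, mul_zero]
  · rw [TT_apply_ne F.chi w h1, zero_mul, zero_mul]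

/-- the action of similitudes -/
lemma act (w h : Matrix (Fin n) (Fin n) k) (hT : (TT F.chi w).det ≠ 0) (hdet : h.det ≠ 0) (z : k)
    (hh : h * F.M * h.transpose = z • F.M) :
    (TT F.chi (w * h)).det ≠ 0 ∧
      w * h * (TT F.chi (w * h))⁻¹ = w * (TT F.chi w)⁻¹ ∧ F.QQ (w * h) = z • F.QQ w := by
  have hMt : F.M.transpose.det ≠ 0 := by rw [Matrix.det_transpose]; exact F.M_det
  have hht : h.transpose.det ≠ 0 := by rw [Matrix.det_transpose]; exact hdet
  have hcomm : h * diagonal F.chi = diagonal F.chi * h := by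
    have e1 : h * diagonal F.chi * (F.M.transpose * h.transpose)
        = diagonal F.chi * h * (F.M.transpose * h.transpose) := by
      calc h * diagonal F.chi * (F.M.transpose * h.transpose)
          = h * (diagonal F.chi * F.M.transpose) * h.transpose := by simp only [mul_assoc]
        _ = z • F.M := by rw [← F.M_eq, hh]
        _ = diagonal F.chi * (z • F.M).transpose := by
          rw [Matrix.transpose_smul, Matrix.mul_smul, ← F.M_eq]
        _ = diagonal F.chi * (h * (F.M.transpose * h.transpose)) := by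
          rw [← hh, Matrix.transpose_mul, Matrix.transpose_mul, Matrix.transpose_transpose]
        _ = _ := by simp only [mul_assoc]
    have hu : IsUnit (F.M.transpose * h.transpose).det := by
      rw [Matrix.det_mul]
      exact isUnit_iff_ne_zero.mpr (mul_ne_zero hMt hht)
    calc h * diagonal F.chi = h * diagonal F.chi * (F.M.transpose * h.transpose)
          * (F.M.transpose * h.transpose)⁻¹ := by
          rw [mul_assoc _ (F.M.transpose * h.transpose), Matrix.mul_nonsing_inv _ hu, mul_one]
      _ = diagonal F.chi * h * (F.M.transpose * h.transpose)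
          * (F.M.transpose * h.transpose)⁻¹ := by rw [e1]
      _ = _ := by rw [mul_assoc _ (F.M.transpose * h.transpose), Matrix.mul_nonsing_inv _ hu, mul_one]
  have h1 : diagonal F.chi * h = (1 : k) • (h * diagonal F.chi) := by rw [one_smul, hcomm]
  have h2 := PP_shift F.chi w h hT hdet 1 one_ne_zero h1 id (fun j => by simp) (fun j => rfl)
  have h3 := TT_shift F.chi w h 1 one_ne_zero h1 id (fun j => by simp) (fun j => rfl)
  refine ⟨h2.1, ?_, ?_⟩
  · rw [h2.2]; rfl
  · unfold QQ
    have h4 : (TT F.chi w).submatrix id id = TT F.chi w := rfl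
    rw [h3, h4, Matrix.transpose_mul]
    calc TT F.chi w * h * F.M * (h.transpose * (TT F.chi w).transpose)
        = TT F.chi w * (h * F.M * h.transpose) * (TT F.chi w).transpose := by simp only [mul_assoc]
      _ = _ := by rw [hh, Matrix.mul_smul, Matrix.smul_mul]

lemma TT_PM' (Y : NP F.chi → k) (L : Matrix (Fin n) (Fin n) k)
    (hL : ∀ i l, F.chi i ≠ F.chi l → L i l = 0) :
    TT F.chi ((PM F.chi).map (eval Y) * L) = L := by
  have h1 : diagonal F.chi * L = (1 : k) • (L * diagonal F.chi) := by
    rw [one_smul]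
    exact ((comm_iff F.chi L).mpr hL).symm
  rw [TT_shift F.chi _ L 1 one_ne_zero h1 id (fun j => by simp) (fun j => rfl)]
  have h2 := TT_PM F.chi Y (fun _ => (1 : k))
  rw [Matrix.diagonal_one, mul_one] at h2
  rw [h2]
  exact Matrix.one_mul L

/-- the square of the determinant of the block part -/
lemma det_sq (w : Matrix (Fin n) (Fin n) k) (hp : ∀ l, piv F.star (F.QQ w) l ≠ 0) :
    (TT F.chi w).det ^ 2 = ∏ l, piv F.star (F.QQ w) l / F.c l := by
  obtain ⟨hL1, hL2, hL3, hL4⟩ := Lm_props F.hs F.chi F.chi_star F.chi_one (F.QQ w) (F.QQ_sym w)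
    (F.QQ_zero w) hp
  have h1 := ldl F.hs F.chi F.chi_star F.chi_one (F.QQ w) (F.QQ_sym w) (F.QQ_zero w) hp
  have h2 := congrArg Matrix.det h1
  rw [F.MA_diag, Matrix.det_mul, Matrix.det_mul, Matrix.det_mul, Matrix.det_transpose,
    det_L _ hL1 hL2 hL3, Matrix.det_diagonal, one_mul, mul_one] at h2
  unfold QQ at h2
  rw [Matrix.det_mul, Matrix.det_mul, Matrix.det_transpose] at h2
  have h3 : ((TT F.chi w).det ^ 2) * F.M.det = (∏ l, piv F.star (F.QQ w) l / F.c l) * F.M.det := by
    unfold QQ
    rw [← h2]; ring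
  exact mul_right_cancel₀ F.M_det h3

/-- the representatives -/
def R : Finset (Fin n) := Finset.univ.filter (fun l => l ≤ F.star l)

lemma prod_split (hns : ∀ j, F.star j ≠ j) (x : Fin n → k) :
    ∏ l, x l = ∏ l ∈ F.R, x l * x (F.star l) := by
  rw [← Finset.prod_filter_mul_prod_filter_not Finset.univ (fun l => l ≤ F.star l) x,
    Finset.prod_mul_distrib]
  congr 1
  refine Finset.prod_nbij' (fun l => F.star l) (fun l => F.star l) ?_ ?_ ?_ ?_ ?_
  · intro l hl
    simp only [Finset.mem_filter, Finset.mem_univ, true_and, R] at hl ⊢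
    rw [F.hs]
    exact (not_le.mp hl).le
  · intro l hl
    simp only [Finset.mem_filter, Finset.mem_univ, true_and, R] at hl ⊢
    rw [F.hs, not_le]
    exact lt_of_le_of_ne hl (Ne.symm (hns l))
  · intro l _; exact F.hs l
  · intro l _; exact F.hs l
  · intro l _; simp only [F.hs]

end NFD

end Pool.Agent.Helper14.RG
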