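import Pool.Agent.Helper14.RG.OuterA

namespace Pool.Agent.Helper14.RG

open MvPolynomial Matrix

namespace NFD

variable {k : Type*} [Field k] {n : ℕ} (F : NFD k n)

open Classical in
/-- positions of the free entries of the lower triangular factor -/
noncomputable def leS : Finset (Fin n × Fin n) :=
  Finset.univ.filter (fun p => F.chi p.1 = F.chi p.2 ∧ od F.star p.2 < od F.star p.1)

/-- representatives except the distinguished one -/
def deS : Finset (Fin n) := Finset.univ.filter (fun j => j ≤ F.star j ∧ j ≠ F.j0)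

lemma mem_leS {p : Fin n × Fin n} :
    p ∈ F.leS ↔ F.chi p.1 = F.chi p.2 ∧ od F.star p.2 < od F.star p.1 := by
  simp [leS]

lemma mem_deS {j : Fin n} : j ∈ F.deS ↔ j ≤ F.star j ∧ j ≠ F.j0 := by
  simp [deS]

/-- free entries of the triangular factor -/
abbrev LE : Type := {p : Fin n × Fin n // p ∈ F.leS}

/-- free pivots -/
abbrev DE : Type := {j : Fin n // j ∈ F.deS}

/-- the coordinates -/
abbrev N : Type := NP F.chi ⊕ (F.LE ⊕ F.DE)

/-- unitriangular matrix -/
noncomputable def LY {R : Type*} [CommRing R] (y : F.LE → R) : Matrix (Fin n) (Fin n) R :=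
  Matrix.of fun i l => if i = l then 1 else if h : (i, l) ∈ F.leS then y ⟨(i, l), h⟩ else 0

/-- diagonal part -/
noncomputable def tY (y : F.DE → k) (j : Fin n) : k :=
  if h : j ∈ F.deS then (F.c j)⁻¹ * y ⟨j, h⟩ else 1

/-- diagonal part, generic -/
noncomputable def tP (j : Fin n) : MvPolynomial F.N k :=
  if h : j ∈ F.deS then C (F.c j)⁻¹ * X (Sum.inr (Sum.inr ⟨j, h⟩)) else 1

/-- the generic matrix -/
noncomputable def WP : Matrix (Fin n) (Fin n) (MvPolynomial F.N k) :=
  (PM F.chi).map (rename Sum.inl) * F.LY (fun p => X (Sum.inr (Sum.inl p))) * diagonal F.tP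

/-- the matrix at a point -/
noncomputable def WY (Y : F.N → k) : Matrix (Fin n) (Fin n) k :=
  (PM F.chi).map (eval (fun p => Y (Sum.inl p))) * F.LY (fun p => Y (Sum.inr (Sum.inl p)))
    * diagonal (F.tY (fun j => Y (Sum.inr (Sum.inr j))))

lemma WP_eval (Y : F.N → k) : F.WP.map (eval Y) = F.WY Y := by
  unfold WP WY
  rw [Matrix.map_mul, Matrix.map_mul]
  congr 1
  · congr 1
    · ext i j
      rw [Matrix.map_apply, Matrix.map_apply, Matrix.map_apply]
      show eval Y (rename Sum.inl (PM F.chi i j)) = _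
      rw [eval_rename]
      rfl
    · ext i j
      rw [Matrix.map_apply]
      unfold LY
      rw [Matrix.of_apply, Matrix.of_apply]
      split_ifs
      · exact map_one _
      · exact eval_X _
      · exact map_zero _
  · ext i j
    rw [Matrix.map_apply, Matrix.diagonal_apply, Matrix.diagonal_apply]
    by_cases hij : i = j
    · rw [if_pos hij, if_pos hij]
      unfold tP tY
      split_ifs
      · rw [map_mul, eval_C, eval_X]
      · exact map_one _
    · rw [if_neg hij, if_neg hij, map_zero]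

lemma eval_det (Y : F.N → k) : eval Y F.WP.det = (F.WY Y).det := by
  rw [RingHom.map_det]
  have : (eval Y).mapMatrix F.WP = F.WP.map (eval Y) := rfl
  rw [this, WP_eval]

lemma LY_props (y : F.LE → k) : (∀ i l, od F.star i < od F.star l → F.LY y i l = 0) ∧
    (∀ i l, od F.star i = od F.star l → i ≠ l → F.LY y i l = 0) ∧ (∀ l, F.LY y l l = 1) ∧
    (∀ i l, F.chi i ≠ F.chi l → F.LY y i l = 0) := by
  refine ⟨?_, ?_, ?_, ?_⟩
  · intro i l h
    unfold LY
    rw [Matrix.of_apply, if_neg, dif_neg]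
    · intro h1
      have := (F.mem_leS.mp h1).2
      simp only at this
      omega
    · rintro rfl
      omega
  · intro i l h hil
    unfold LY
    rw [Matrix.of_apply, if_neg hil, dif_neg]
    intro h1
    have := (F.mem_leS.mp h1).2
    simp only at this
    omega
  · intro l
    unfold LY
    rw [Matrix.of_apply, if_pos rfl]
  · intro i l h
    unfold LY
    rw [Matrix.of_apply, if_neg, dif_neg]
    · intro h1
      exact h (F.mem_leS.mp h1).1
    · rintro rfl
      exact h rfl

lemma LY_eq (L : Matrix (Fin n) (Fin n) k) (hL1 : ∀ i l, od F.star i < od F.star l → L i l = 0)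
    (hL2 : ∀ i l, od F.star i = od F.star l → i ≠ l → L i l = 0) (hL3 : ∀ l, L l l = 1)
    (hL4 : ∀ i l, F.chi i ≠ F.chi l → L i l = 0) (y : F.LE → k)
    (hy : ∀ p : F.LE, y p = L p.1.1 p.1.2) : F.LY y = L := by
  ext i l
  unfold LY
  rw [Matrix.of_apply]
  by_cases hil : i = l
  · rw [if_pos hil, hil, hL3]
  · rw [if_neg hil]
    by_cases h : (i, l) ∈ F.leS
    · rw [dif_pos h, hy]
    · rw [dif_neg h]
      by_cases h1 : F.chi i = F.chi l
      · have h2 : ¬ od F.star l < od F.star i := fun h3 => h (F.mem_leS.mpr ⟨h1, h3⟩)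
        rcases lt_or_eq_of_le (not_lt.mp h2) with h3 | h3
        · exact (hL1 i l h3).symm
        · exact (hL2 i l h3 hil).symm
      · exact (hL4 i l h1).symm

lemma star_notMem (j : Fin n) (hj : j ∈ F.deS) (hne : F.star j ≠ j) :
    F.star j ∉ F.deS ∧ F.star j ≠ F.j0 := by
  have h1 := F.mem_deS.mp hj
  constructor
  · intro h
    have h2 := (F.mem_deS.mp h).1
    rw [F.hs] at h2
    exact hne (le_antisymm h2 h1.1)
  · intro h
    have h2 := F.hj0
    rw [← h, F.hs] at h2
    exact hne (le_antisymm h2 h1.1)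

/-- the products of the diagonal part, at a representative -/
lemma tY_rel (y : F.DE → k) (c0 : k) (j : Fin n) (hj : j ∈ F.deS) :
    F.tY y j * dl0 F.j0 c0 j * F.c j * (F.tY y (F.star j) * dl0 F.j0 c0 (F.star j))
      = y ⟨j, hj⟩ ^ dd (fun l : F.DE => decide (F.star l.1 = l.1)) ⟨j, hj⟩ := by
  have hj' := (F.mem_deS.mp hj).2
  have h1 : F.tY y j = (F.c j)⁻¹ * y ⟨j, hj⟩ := by unfold tY; rw [dif_pos hj]
  have h2 : dl0 F.j0 c0 j = 1 := by unfold dl0; rw [if_neg hj']
  by_cases hs : F.star j = j
  · have h3 : dd (fun l : F.DE => decide (F.star l.1 = l.1)) ⟨j, hj⟩ = 2 := by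
      unfold dd; simp [hs]
    rw [h3, hs, h1, h2, F.hc1 j hs]
    ring
  · have h3 : dd (fun l : F.DE => decide (F.star l.1 = l.1)) ⟨j, hj⟩ = 1 := by
      unfold dd; simp [hs]
    obtain ⟨h4, h5⟩ := F.star_notMem j hj hs
    have h6 : F.tY y (F.star j) = 1 := by unfold tY; rw [dif_neg h4]
    have h7 : dl0 F.j0 c0 (F.star j) = 1 := by unfold dl0; rw [if_neg h5]
    have h8 := F.hc j
    rw [h3, h1, h2, h6, h7]
    field_simp

end NFD

end Pool.Agent.Helper14.RG
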