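import Pool.Agent.Helper14.RG.OuterB

namespace Pool.Agent.Helper14.RG

open MvPolynomial Matrix

namespace NFD

variable {k : Type*} [Field k] {n : ℕ} (F : NFD k n)

/-- The invariants of a point of the section. -/
lemma sec_facts (Yp : NP F.chi → k) (y : F.LE → k) (τ : Fin n → k) (hτ : ∀ j, τ j ≠ 0)
    (w : Matrix (Fin n) (Fin n) k)
    (hw : w = (PM F.chi).map (eval Yp) * (F.LY y * diagonal τ)) :
    TT F.chi w = F.LY y * diagonal τ ∧ (TT F.chi w).det = ∏ j, τ j ∧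
      piv F.star (F.QQ w) = (fun l => τ l * F.c l * τ (F.star l)) ∧
      Lm F.star (F.QQ w) = F.LY y := by
  obtain ⟨hL1, hL2, hL3, hL4⟩ := F.LY_props y
  have h1 : TT F.chi w = F.LY y * diagonal τ := by
    rw [hw]
    apply F.TT_PM'
    intro i l hil
    rw [Matrix.mul_diagonal, hL4 i l hil, zero_mul]
  have h2 : F.QQ w = F.LY y * MA F.star (fun j => τ j * F.c j * τ (F.star j))
      * (F.LY y).transpose := by
    unfold QQ
    rw [h1, ← F.diag_M_diag, Matrix.transpose_mul, Matrix.diagonal_transpose]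
    simp only [mul_assoc]
  have h3 := piv_of_LDL F.hs (F.LY y) (fun j => τ j * F.c j * τ (F.star j))
    (fun l => mul_ne_zero (mul_ne_zero (hτ _) (F.hc _)) (hτ _)) hL1 hL2 hL3
  refine ⟨h1, ?_, ?_, ?_⟩
  · rw [h1, Matrix.det_mul, det_L _ hL1 hL2 hL3, Matrix.det_diagonal, one_mul]
  · rw [h2]; exact h3.1
  · rw [h2]; exact h3.2

lemma WY_det (Y : F.N → k) : (F.WY Y).det = ((PM F.chi).map (eval (fun p => Y (Sum.inl p)))).det
    * ∏ j, F.tY (fun j => Y (Sum.inr (Sum.inr j))) j := by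
  obtain ⟨hL1, hL2, hL3, hL4⟩ := F.LY_props (fun p => Y (Sum.inr (Sum.inl p)))
  unfold WY
  rw [Matrix.det_mul, Matrix.det_mul, det_L _ hL1 hL2 hL3, mul_one, Matrix.det_diagonal]

lemma tY_ne (Y : F.N → k) (hW : (F.WY Y).det ≠ 0) (j : Fin n) :
    F.tY (fun j => Y (Sum.inr (Sum.inr j))) j ≠ 0 := by
  rw [WY_det] at hW
  exact (Finset.prod_ne_zero_iff.mp (right_ne_zero_of_mul hW)) j (Finset.mem_univ _)

/-- the normalized diagonal part -/
noncomputable def tf (u : Matrix (Fin n) (Fin n) k) (Y : F.N → k) (j : Fin n) : k :=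
  F.tY (fun j => Y (Sum.inr (Sum.inr j))) j * dl0 F.j0 (u.det / (F.WY Y).det) j

lemma tf_ne (u : Matrix (Fin n) (Fin n) k) (hu : u.det ≠ 0) (Y : F.N → k)
    (hW : (F.WY Y).det ≠ 0) (j : Fin n) : F.tf u Y j ≠ 0 :=
  mul_ne_zero (F.tY_ne Y hW j) (dl0_ne _ _ (div_ne_zero hu hW) _)

lemma WY_dl0 (u : Matrix (Fin n) (Fin n) k) (Y : F.N → k) :
    F.WY Y * diagonal (dl0 F.j0 (u.det / (F.WY Y).det))
      = (PM F.chi).map (eval (fun p => Y (Sum.inl p)))
        * (F.LY (fun p => Y (Sum.inr (Sum.inl p))) * diagonal (F.tf u Y)) := by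
  have h1 : diagonal (F.tf u Y) = diagonal (F.tY (fun j => Y (Sum.inr (Sum.inr j))))
      * diagonal (dl0 F.j0 (u.det / (F.WY Y).det)) := by
    rw [Matrix.diagonal_mul_diagonal]; rfl
  rw [h1]
  generalize dl0 F.j0 (u.det / (F.WY Y).det) = d
  unfold WY
  simp only [mul_assoc]

lemma s_mul (u : Matrix (Fin n) (Fin n) k) (hu : u.det ≠ 0) (Y : F.N → k)
    (hW : (F.WY Y).det ≠ 0) :
    (nrm0 F.j0 u (F.WY Y) hu : Matrix (Fin n) (Fin n) k) * u
      = (PM F.chi).map (eval (fun p => Y (Sum.inl p)))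
        * (F.LY (fun p => Y (Sum.inr (Sum.inl p))) * diagonal (F.tf u Y)) := by
  rw [nrm0_coe _ _ _ _ hW, mul_assoc, Matrix.nonsing_inv_mul _ (isUnit_iff_ne_zero.mpr hu), mul_one,
    WY_dl0]

lemma exists_Y1 [Infinite k] (u : Matrix (Fin n) (Fin n) k) (hu : u.det ≠ 0) :
    ∃ Y : F.N → k, (F.WY Y).det ≠ 0 := by
  obtain ⟨g, hg⟩ := exists_generic F.chi u hu
  refine ⟨Sum.elim (fun p => (((g : Matrix (Fin n) (Fin n) k) * u)
      * (TT F.chi ((g : Matrix (Fin n) (Fin n) k) * u))⁻¹) p.1.1 p.1.2) (fun _ => 1), ?_⟩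
  rw [WY_det]
  refine mul_ne_zero ?_ (Finset.prod_ne_zero_iff.mpr fun j _ => ?_)
  · have h2 := PM_eq F.chi ((g : Matrix (Fin n) (Fin n) k) * u) hg _ (fun p => rfl)
    show ((PM F.chi).map (eval (fun p : NP F.chi => (((g : Matrix (Fin n) (Fin n) k) * u)
      * (TT F.chi ((g : Matrix (Fin n) (Fin n) k) * u))⁻¹) p.1.1 p.1.2))).det ≠ 0
    rw [h2, Matrix.det_mul, Matrix.det_mul, g.2, one_mul,
      Matrix.det_nonsing_inv, Ring.inverse_eq_inv']
    exact mul_ne_zero hu (inv_ne_zero hg)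
  · unfold tY
    split_ifs
    · simp only [Sum.elim_inr, mul_one]
      exact inv_ne_zero (F.hc j)
    · exact one_ne_zero

/-- the open set -/
def InU (w : Matrix (Fin n) (Fin n) k) : Prop :=
  (TT F.chi w).det ≠ 0 ∧ ∀ l, piv F.star (F.QQ w) l ≠ 0

lemma QQ_mem (u : Matrix (Fin n) (Fin n) k) (i j : Fin n) :
    (fun g : Matrix.SpecialLinearGroup (Fin n) k => F.QQ ((g : Matrix (Fin n) (Fin n) k) * u) i j)
      ∈ slAlg k n := by
  unfold QQ
  refine mul_mem_alg (slAlg k n) _ _ ?_ ?_ i j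
  · intro i j
    exact mul_mem_alg (slAlg k n) _ (fun _ => F.M) (TT_mem F.chi _ _ (wu_mem u))
      (fun _ _ => const_mem _ _) i j
  · intro i j
    simp only [Matrix.transpose_apply]
    exact TT_mem F.chi _ _ (wu_mem u) j i

lemma exists_q0 (u : Matrix (Fin n) (Fin n) k) : ∃ q ∈ slAlg k n,
    (∀ g : Matrix.SpecialLinearGroup (Fin n) k, q g ≠ 0 ↔
      F.InU ((g : Matrix (Fin n) (Fin n) k) * u)) ∧
    (∀ l i, (fun g : Matrix.SpecialLinearGroup (Fin n) k =>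
      Qr F.star (od F.star l) (F.QQ ((g : Matrix (Fin n) (Fin n) k) * u)) i (F.star l))
        ∈ RegU (slAlg k n) q) := by
  obtain ⟨q, hq, hiff, hreg⟩ := Qr_reg F.star (slAlg k n)
    (fun g : Matrix.SpecialLinearGroup (Fin n) k => F.QQ ((g : Matrix (Fin n) (Fin n) k) * u))
    (fun g => (TT F.chi ((g : Matrix (Fin n) (Fin n) k) * u)).det)
    (det_mem_alg _ _ (TT_mem F.chi _ _ (wu_mem u)))
    (fun i j => le_RegU _ _ (F.QQ_mem u i j)) n
  refine ⟨q, hq, fun g => ?_, fun l i => hreg _ (od_lt l).le i (F.star l)⟩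
  rw [hiff]
  constructor
  · rintro ⟨h1, h2⟩
    exact ⟨h1, fun l => h2 l (od_lt l)⟩
  · rintro ⟨h1, h2⟩
    exact ⟨h1, fun l _ => h2 l⟩

lemma piv_mem (u : Matrix (Fin n) (Fin n) k) (q : Matrix.SpecialLinearGroup (Fin n) k → k)
    (hreg : ∀ l i, (fun g : Matrix.SpecialLinearGroup (Fin n) k =>
      Qr F.star (od F.star l) (F.QQ ((g : Matrix (Fin n) (Fin n) k) * u)) i (F.star l))
        ∈ RegU (slAlg k n) q) (l : Fin n) :
    (fun g : Matrix.SpecialLinearGroup (Fin n) k =>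
      piv F.star (F.QQ ((g : Matrix (Fin n) (Fin n) k) * u)) l) ∈ RegU (slAlg k n) q :=
  hreg l l

lemma InU_s (u : Matrix (Fin n) (Fin n) k) (hu : u.det ≠ 0) (Y : F.N → k)
    (hW : (F.WY Y).det ≠ 0) :
    F.InU ((nrm0 F.j0 u (F.WY Y) hu : Matrix (Fin n) (Fin n) k) * u) := by
  obtain ⟨-, h2, h3, -⟩ := F.sec_facts _ _ (F.tf u Y) (F.tf_ne u hu Y hW) _ (F.s_mul u hu Y hW)
  refine ⟨?_, fun l => ?_⟩
  · rw [h2]
    exact Finset.prod_ne_zero_iff.mpr fun j _ => F.tf_ne u hu Y hW j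
  · rw [h3]
    exact mul_ne_zero (mul_ne_zero (F.tf_ne u hu Y hW _) (F.hc _)) (F.tf_ne u hu Y hW _)

/-- If there is no orthogonal part, the determinant of the block part is a Pfaffian. -/
lemma sign_lemma [Infinite k] (h2 : (2 : k) ≠ 0) (hns : ∀ j, F.star j ≠ j)
    (u : Matrix (Fin n) (Fin n) k) (hu : u.det ≠ 0) (g : Matrix.SpecialLinearGroup (Fin n) k)
    (hg : F.InU ((g : Matrix (Fin n) (Fin n) k) * u)) :
    (TT F.chi ((g : Matrix (Fin n) (Fin n) k) * u)).det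
      = ∏ l ∈ F.R, piv F.star (F.QQ ((g : Matrix (Fin n) (Fin n) k) * u)) l / F.c l := by
  obtain ⟨q, hq, hiff, hreg⟩ := F.exists_q0 u
  let f1 : Matrix.SpecialLinearGroup (Fin n) k → k := fun g =>
    (TT F.chi ((g : Matrix (Fin n) (Fin n) k) * u)).det
  let f2 : Matrix.SpecialLinearGroup (Fin n) k → k := fun g =>
    ∏ l ∈ F.R, piv F.star (F.QQ ((g : Matrix (Fin n) (Fin n) k) * u)) l / F.c l
  have hf1 : f1 ∈ RegU (slAlg k n) q := le_RegU _ _ (det_mem_alg _ _ (TT_mem F.chi _ _ (wu_mem u)))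
  have hf2 : f2 ∈ RegU (slAlg k n) q := by
    have h3 : f2 = ∏ l ∈ F.R, ((fun g : Matrix.SpecialLinearGroup (Fin n) k =>
        piv F.star (F.QQ ((g : Matrix (Fin n) (Fin n) k) * u)) l) * (fun _ => (F.c l)⁻¹)) := by
      funext g
      rw [Finset.prod_apply]
      refine Finset.prod_congr rfl fun l _ => ?_
      rw [Pi.mul_apply, div_eq_mul_inv]
    rw [h3]
    exact prod_mem fun l _ => mul_mem (F.piv_mem u q hreg l) (Subalgebra.algebraMap_mem _ _)
  obtain ⟨a, ha, b, hb, hab⟩ := mem_RegU_iff.mp (sub_mem hf1 hf2)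
  obtain ⟨a', ha', b', hb', hab'⟩ := mem_RegU_iff.mp (add_mem hf1 hf2)
  have hsq : ∀ g, q g ≠ 0 → (f1 g - f2 g) * (f1 g + f2 g) = 0 := by
    intro g hg
    have hg' := (hiff g).mp hg
    have h4 := F.det_sq _ hg'.2
    have h5 : ∏ l, piv F.star (F.QQ ((g : Matrix (Fin n) (Fin n) k) * u)) l / F.c l = f2 g ^ 2 := by
      rw [F.prod_split hns]
      show _ = (∏ l ∈ F.R, piv F.star (F.QQ ((g : Matrix (Fin n) (Fin n) k) * u)) l / F.c l) ^ 2
      rw [← Finset.prod_pow]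
      refine Finset.prod_congr rfl fun l _ => ?_
      have h6 := piv_star F.hs F.chi F.chi_star (F.QQ ((g : Matrix (Fin n) (Fin n) k) * u))
        (F.QQ_sym _) (F.QQ_zero _) (F.star l)
      rw [F.hs] at h6
      have h7 : F.chi (F.star l) = F.c (F.star l) / F.c l := by unfold chi; rw [F.hs]
      rw [h6, h7]
      have h8 := F.hc l
      have h9 := F.hc (F.star l)
      field_simp
    have h6 : f1 g ^ 2 = f2 g ^ 2 := by rw [← h5]; exact h4
    linear_combination h6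
  have hq0 : q ≠ 0 := by
    obtain ⟨Y, hY⟩ := F.exists_Y1 u hu
    exact Function.ne_iff.mpr ⟨_, (hiff _).mpr (F.InU_s u hu Y hY)⟩
  have ha'0 : a' ≠ 0 := by
    intro h0
    obtain ⟨Y, hY⟩ := F.exists_Y1 u hu
    have hU := F.InU_s u hu Y hY
    have h5 := (hab' _ ((hiff _).mpr hU)).2
    rw [h0] at h5
    have h6 := (mul_eq_zero.mp h5).resolve_right (hab' _ ((hiff _).mpr hU)).1
    obtain ⟨-, e2, e3, -⟩ := F.sec_facts _ _ (F.tf u Y) (F.tf_ne u hu Y hY) _ (F.s_mul u hu Y hY)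
    have h7 : f1 (nrm0 F.j0 u (F.WY Y) hu) = ∏ j, F.tf u Y j := e2
    have h8 : f2 (nrm0 F.j0 u (F.WY Y) hu) = ∏ j, F.tf u Y j := by
      rw [F.prod_split hns]
      show ∏ l ∈ F.R, piv F.star (F.QQ ((nrm0 F.j0 u (F.WY Y) hu : Matrix (Fin n) (Fin n) k) * u)) l
        / F.c l = _
      rw [e3]
      refine Finset.prod_congr rfl fun l _ => ?_
      have h8 := F.hc l
      field_simp
    rw [Pi.add_apply, h7, h8] at h6
    have h9 : (2 : k) * ∏ j, F.tf u Y j = 0 := by linear_combination h6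
    exact mul_ne_zero h2 (Finset.prod_ne_zero_iff.mpr fun j _ => F.tf_ne u hu Y hY j) h9
  have ha0 : a = 0 := by
    by_contra hne
    obtain ⟨-, hirr⟩ := (slAlg_irr : Irr (slAlg k n))
    obtain ⟨x, hx1, hx2⟩ := hirr a ha a' ha' hne ha'0
    have h10 : a * a' ≠ 0 := Function.ne_iff.mpr ⟨x, mul_ne_zero hx1 hx2⟩
    obtain ⟨y, hy1, hy2⟩ := hirr (a * a') (mul_mem ha ha') q hq h10 hq0
    apply hy1
    have h11 := (hab y hy2).2
    have h12 := (hab' y hy2).2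
    show a y * a' y = 0
    rw [← h11, ← h12]
    have h13 := hsq y hy2
    calc (f1 - f2) y * b y * ((f1 + f2) y * b' y)
        = ((f1 y - f2 y) * (f1 y + f2 y)) * (b y * b' y) := by
          rw [Pi.sub_apply, Pi.add_apply]; ring
      _ = 0 := by rw [h13, zero_mul]
  have hg' := (hiff g).mpr hg
  have h14 := (hab g hg').2
  rw [ha0] at h14
  have h15 := (mul_eq_zero.mp h14).resolve_right (hab g hg').1
  exact sub_eq_zero.mp h15

end NFD

end Pool.Agent.Helper14.RG
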