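import Pool.Agent.Helper14.RG.OuterD

namespace Pool.Agent.Helper14.RG

open MvPolynomial Matrix

namespace NFD

variable {k : Type*} [Field k] {n : ℕ} (F : NFD k n)

/-- the coordinates -/
noncomputable def tw (w : Matrix (Fin n) (Fin n) k) : F.N → k :=
  Sum.elim (fun p => (w * (TT F.chi w)⁻¹) p.1.1 p.1.2)
    (Sum.elim (fun p => Lm F.star (F.QQ w) p.1.1 p.1.2) (fun j => piv F.star (F.QQ w) j.1))

/-- the doubled coordinates -/
def db : F.N → Bool :=
  Sum.elim (fun _ => false) (Sum.elim (fun _ => false) (fun j => decide (F.star j.1 = j.1)))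

/-- the similitude action on coordinates -/
lemma act' {a u : Matrix (Fin n) (Fin n) k} (hu : u.det ≠ 0)
    (hau : a = u * F.M * u.transpose) (h g : Matrix.SpecialLinearGroup (Fin n) k) (z : k)
    (hz : z ≠ 0)
    (hh : (h : Matrix (Fin n) (Fin n) k) * a * (h : Matrix (Fin n) (Fin n) k).transpose = z • a)
    (hg : F.InU ((g : Matrix (Fin n) (Fin n) k) * u)) :
    F.InU (((g * h : Matrix.SpecialLinearGroup (Fin n) k) : Matrix (Fin n) (Fin n) k) * u) ∧
      (∀ p, F.tw (((g * h : Matrix.SpecialLinearGroup (Fin n) k) : Matrix (Fin n) (Fin n) k) * u)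
        (Sum.inl p) = F.tw ((g : Matrix (Fin n) (Fin n) k) * u) (Sum.inl p)) ∧
      (∀ p, F.tw (((g * h : Matrix.SpecialLinearGroup (Fin n) k) : Matrix (Fin n) (Fin n) k) * u)
        (Sum.inr (Sum.inl p)) = F.tw ((g : Matrix (Fin n) (Fin n) k) * u) (Sum.inr (Sum.inl p))) ∧
      (∀ j, F.tw (((g * h : Matrix.SpecialLinearGroup (Fin n) k) : Matrix (Fin n) (Fin n) k) * u)
        (Sum.inr (Sum.inr j)) = z * F.tw ((g : Matrix (Fin n) (Fin n) k) * u) (Sum.inr (Sum.inr j))) := by
  have hu' : IsUnit u.det := isUnit_iff_ne_zero.mpr hu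
  have hut : IsUnit u.transpose.det := by rw [Matrix.det_transpose]; exact hu'
  have h1 : (u⁻¹ * (h : Matrix (Fin n) (Fin n) k) * u) * F.M
      * (u⁻¹ * (h : Matrix (Fin n) (Fin n) k) * u).transpose = z • F.M := by
    rw [Matrix.transpose_mul, Matrix.transpose_mul, Matrix.transpose_nonsing_inv]
    calc (u⁻¹ * (h : Matrix (Fin n) (Fin n) k) * u) * F.M
          * (u.transpose * ((h : Matrix (Fin n) (Fin n) k).transpose * u.transpose⁻¹))
        = u⁻¹ * ((h : Matrix (Fin n) (Fin n) k) * (u * F.M * u.transpose)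
          * (h : Matrix (Fin n) (Fin n) k).transpose) * u.transpose⁻¹ := by simp only [mul_assoc]
      _ = z • (u⁻¹ * (u * F.M * u.transpose) * u.transpose⁻¹) := by
          rw [← hau, hh, Matrix.mul_smul, Matrix.smul_mul]
      _ = z • ((u⁻¹ * u) * F.M * (u.transpose * u.transpose⁻¹)) := by simp only [mul_assoc]
      _ = _ := by
          rw [Matrix.nonsing_inv_mul _ hu', Matrix.mul_nonsing_inv _ hut, one_mul, mul_one]
  have hdet : (u⁻¹ * (h : Matrix (Fin n) (Fin n) k) * u).det ≠ 0 := by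
    rw [Matrix.det_mul, Matrix.det_mul, h.2, mul_one, ← Matrix.det_mul,
      Matrix.nonsing_inv_mul _ hu', Matrix.det_one]
    exact one_ne_zero
  have h5 : ((g * h : Matrix.SpecialLinearGroup (Fin n) k) : Matrix (Fin n) (Fin n) k) * u
      = (g : Matrix (Fin n) (Fin n) k) * u * (u⁻¹ * (h : Matrix (Fin n) (Fin n) k) * u) := by
    rw [Matrix.SpecialLinearGroup.coe_mul]
    calc _ = (g : Matrix (Fin n) (Fin n) k) * 1 * (h : Matrix (Fin n) (Fin n) k) * u := by
          rw [mul_one]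
      _ = (g : Matrix (Fin n) (Fin n) k) * (u * u⁻¹) * (h : Matrix (Fin n) (Fin n) k) * u := by
          rw [Matrix.mul_nonsing_inv _ hu']
      _ = _ := by simp only [mul_assoc]
  obtain ⟨e1, e2, e3⟩ := F.act ((g : Matrix (Fin n) (Fin n) k) * u) _ hg.1 hdet z h1
  rw [h5]
  refine ⟨⟨e1, fun l => ?_⟩, fun p => ?_, fun p => ?_, fun j => ?_⟩
  · rw [e3, piv_smul z hz]
    exact mul_ne_zero hz (hg.2 l)
  · show ((g : Matrix (Fin n) (Fin n) k) * u * (u⁻¹ * (h : Matrix (Fin n) (Fin n) k) * u)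
      * (TT F.chi ((g : Matrix (Fin n) (Fin n) k) * u
        * (u⁻¹ * (h : Matrix (Fin n) (Fin n) k) * u)))⁻¹) p.1.1 p.1.2 = _
    rw [e2]
    rfl
  · show Lm F.star (F.QQ ((g : Matrix (Fin n) (Fin n) k) * u
        * (u⁻¹ * (h : Matrix (Fin n) (Fin n) k) * u))) p.1.1 p.1.2 = _
    rw [e3, Lm_smul z hz]
    rfl
  · show piv F.star (F.QQ ((g : Matrix (Fin n) (Fin n) k) * u
        * (u⁻¹ * (h : Matrix (Fin n) (Fin n) k) * u))) j.1 = _
    rw [e3, piv_smul z hz]
    rfl

/-- The chart for an outer automorphism of `SL_n`. -/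
noncomputable def outerChart [Infinite k] (h2 : (2 : k) ≠ 0) (a u : Matrix (Fin n) (Fin n) k)
    (ha : a.det ≠ 0) (hu : u.det ≠ 0) (hau : a = u * F.M * u.transpose)
    (τ : Matrix.SpecialLinearGroup (Fin n) k ≃* Matrix.SpecialLinearGroup (Fin n) k)
    (hτ : ∀ g, (τ g : Matrix (Fin n) (Fin n) k) * a * (g : Matrix (Fin n) (Fin n) k).transpose = a) :
    Chart (slAlg k n) (fixSub τ) (fixMod τ) F.N where
  hH := fixSub_le_fixMod τ
  q0 := (F.exists_q0 u).choose
  q0_mem := (F.exists_q0 u).choose_spec.1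
  q0_ne := by
    obtain ⟨Y, hY⟩ := F.exists_Y1 u hu
    exact Function.ne_iff.mpr ⟨_, ((F.exists_q0 u).choose_spec.2.1 _).mpr (F.InU_s u hu Y hY)⟩
  t := fun g => F.tw ((g : Matrix (Fin n) (Fin n) k) * u)
  treg := by
    obtain ⟨hq, hiff, hreg⟩ := (F.exists_q0 u).choose_spec
    rintro (p | p | j)
    · show (fun g : Matrix.SpecialLinearGroup (Fin n) k => (((g : Matrix (Fin n) (Fin n) k) * u)
        * (TT F.chi ((g : Matrix (Fin n) (Fin n) k) * u))⁻¹) p.1.1 p.1.2) ∈ _
      refine ⟨_, mul_mem_alg (slAlg k n) (fun g => ((g : Matrix (Fin n) (Fin n) k) * u))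
        (fun g => (TT F.chi ((g : Matrix (Fin n) (Fin n) k) * u)).adjugate) (wu_mem u)
        (adjugate_mem_alg _ _ (TT_mem F.chi _ _ (wu_mem u))) p.1.1 p.1.2, _,
        det_mem_alg _ _ (TT_mem F.chi _ _ (wu_mem u)), fun g hg => ?_⟩
      have hg' : (TT F.chi ((g : Matrix (Fin n) (Fin n) k) * u)).det ≠ 0 := ((hiff g).mp hg).1
      refine ⟨hg', ?_⟩
      show ((((g : Matrix (Fin n) (Fin n) k) * u)
        * (TT F.chi ((g : Matrix (Fin n) (Fin n) k) * u))⁻¹) p.1.1 p.1.2)
        * (TT F.chi ((g : Matrix (Fin n) (Fin n) k) * u)).det = _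
      rw [Matrix.inv_def, Ring.inverse_eq_inv', Matrix.mul_smul, Matrix.smul_apply, smul_eq_mul]
      field_simp
    · have h3 : (fun g : Matrix.SpecialLinearGroup (Fin n) k =>
          F.tw ((g : Matrix (Fin n) (Fin n) k) * u) (Sum.inr (Sum.inl p)))
          = (fun g : Matrix.SpecialLinearGroup (Fin n) k => Qr F.star (od F.star p.1.2)
            (F.QQ ((g : Matrix (Fin n) (Fin n) k) * u)) p.1.1
            (F.star p.1.2)) * (fun g : Matrix.SpecialLinearGroup (Fin n) k =>
              (piv F.star (F.QQ ((g : Matrix (Fin n) (Fin n) k) * u)) p.1.2)⁻¹) := by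
        funext g
        rw [Pi.mul_apply, ← div_eq_mul_inv]
        rfl
      rw [h3]
      exact mul_mem (hreg _ _) (RegU_inv _ (hreg p.1.2 p.1.2) (fun g hg => hg)
        (fun g hg => ((hiff g).mp hg).2 _))
    · exact hreg j.1 j.1
  dbl := F.db
  D := F.WP.det
  D_ne := by
    obtain ⟨Y, hY⟩ := F.exists_Y1 u hu
    intro h0
    apply hY
    rw [← F.eval_det, h0, map_zero]
  s := fun Y => nrm0 F.j0 u (F.WP.map (eval Y)) hu
  sreg := fun x hx => nrm0_reg F.j0 u hu F.WP hx
  fiber := by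
    intro g hg Y hY
    have hU := ((F.exists_q0 u).choose_spec.2.1 g).mp hg
    have hu' : IsUnit u.det := isUnit_iff_ne_zero.mpr hu
    have hut : IsUnit u.transpose.det := by rw [Matrix.det_transpose]; exact hu'
    obtain ⟨hW, hP, hL, hpiv⟩ := F.fiber_core ((g : Matrix (Fin n) (Fin n) k) * u) u hu
      (by rw [Matrix.det_mul, g.2, one_mul]) hU
      (fun hs => F.sign_lemma h2 (F.hj0' hs) u hu g hU) Y
      (fun p => by
        have h3 := hY (Sum.inl p)
        have h4 : dd F.db (Sum.inl p) = 1 := rfl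
        rw [h4, pow_one] at h3
        exact h3)
      (fun p => by
        have h3 := hY (Sum.inr (Sum.inl p))
        have h4 : dd F.db (Sum.inr (Sum.inl p)) = 1 := rfl
        rw [h4, pow_one] at h3
        exact h3)
      (fun j => hY (Sum.inr (Sum.inr j)))
    refine ⟨by rw [F.eval_det]; exact hW, ?_⟩
    rw [F.WP_eval]
    generalize hs : nrm0 F.j0 u (F.WY Y) hu = s
    have hsu : (s : Matrix (Fin n) (Fin n) k) * u = _ := hs ▸ F.s_mul u hu Y hW
    rw [hP, hL] at hsu
    generalize hT : TT F.chi ((g : Matrix (Fin n) (Fin n) k) * u) = T at hsu hP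
    have hTdet : T.det ≠ 0 := hT ▸ hU.1
    have hTu : IsUnit T.det := isUnit_iff_ne_zero.mpr hTdet
    -- `E = L diag τ`
    obtain ⟨hL1, hL2, hL3, hL4⟩ := Lm_props F.hs F.chi F.chi_star F.chi_one
      (F.QQ ((g : Matrix (Fin n) (Fin n) k) * u)) (F.QQ_sym _) (F.QQ_zero _) hU.2
    have hE1 : (Lm F.star (F.QQ ((g : Matrix (Fin n) (Fin n) k) * u))
        * diagonal (F.tf u Y)) * F.M * (Lm F.star (F.QQ ((g : Matrix (Fin n) (Fin n) k) * u))
        * diagonal (F.tf u Y)).transpose = T * F.M * T.transpose := by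
      have h3 : F.QQ ((g : Matrix (Fin n) (Fin n) k) * u) = T * F.M * T.transpose := by
        unfold QQ; rw [hT]
      rw [← h3]
      have h4 := ldl F.hs F.chi F.chi_star F.chi_one
        (F.QQ ((g : Matrix (Fin n) (Fin n) k) * u)) (F.QQ_sym _) (F.QQ_zero _) hU.2
      conv_rhs => rw [h4]
      have h5 : piv F.star (F.QQ ((g : Matrix (Fin n) (Fin n) k) * u))
          = fun l => F.tf u Y l * F.c l * F.tf u Y (F.star l) := funext hpiv
      rw [h5, ← F.diag_M_diag, Matrix.transpose_mul, Matrix.diagonal_transpose]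
      simp only [mul_assoc]
    have hEdet : (Lm F.star (F.QQ ((g : Matrix (Fin n) (Fin n) k) * u))
        * diagonal (F.tf u Y)).det ≠ 0 := by
      rw [Matrix.det_mul, det_L _ hL1 hL2 hL3, one_mul, Matrix.det_diagonal]
      exact Finset.prod_ne_zero_iff.mpr fun j _ => F.tf_ne u hu Y hW j
    generalize Lm F.star (F.QQ ((g : Matrix (Fin n) (Fin n) k) * u)) * diagonal (F.tf u Y) = E
      at hsu hE1 hEdet
    have hEu : IsUnit E.det := isUnit_iff_ne_zero.mpr hEdet
    have hEt : IsUnit E.transpose.det := by rw [Matrix.det_transpose]; exact hEu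
    refine ⟨s⁻¹ * g, ?_, by rw [mul_inv_cancel_left]⟩
    have hcoe : (((s⁻¹ * g : Matrix.SpecialLinearGroup (Fin n) k)) : Matrix (Fin n) (Fin n) k)
        = u * E⁻¹ * T * u⁻¹ := by
      have h3 : (s : Matrix (Fin n) (Fin n) k) * (u * E⁻¹ * T * u⁻¹) = g := by
        calc (s : Matrix (Fin n) (Fin n) k) * (u * E⁻¹ * T * u⁻¹)
            = ((s : Matrix (Fin n) (Fin n) k) * u) * E⁻¹ * T * u⁻¹ := by simp only [mul_assoc]
          _ = (g : Matrix (Fin n) (Fin n) k) * u * T⁻¹ * (E * E⁻¹) * T * u⁻¹ := by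
            rw [hsu]; simp only [mul_assoc]
          _ = (g : Matrix (Fin n) (Fin n) k) * u * (T⁻¹ * T) * u⁻¹ := by
            rw [Matrix.mul_nonsing_inv _ hEu, mul_one]; simp only [mul_assoc]
          _ = (g : Matrix (Fin n) (Fin n) k) * (u * u⁻¹) := by
            rw [Matrix.nonsing_inv_mul _ hTu, mul_one]; simp only [mul_assoc]
          _ = g := by rw [Matrix.mul_nonsing_inv _ hu', mul_one]
      have h4 : ((s⁻¹ : Matrix.SpecialLinearGroup (Fin n) k) : Matrix (Fin n) (Fin n) k)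
          * (s : Matrix (Fin n) (Fin n) k) = 1 := by
        rw [← Matrix.SpecialLinearGroup.coe_mul, inv_mul_cancel, Matrix.SpecialLinearGroup.coe_one]
      rw [Matrix.SpecialLinearGroup.coe_mul]
      calc ((s⁻¹ : Matrix.SpecialLinearGroup (Fin n) k) : Matrix (Fin n) (Fin n) k)
            * (g : Matrix (Fin n) (Fin n) k)
          = ((s⁻¹ : Matrix.SpecialLinearGroup (Fin n) k) : Matrix (Fin n) (Fin n) k)
            * ((s : Matrix (Fin n) (Fin n) k) * (u * E⁻¹ * T * u⁻¹)) := by rw [h3]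
        _ = _ := by rw [← mul_assoc, h4, one_mul]
    have hpres : (((s⁻¹ * g : Matrix.SpecialLinearGroup (Fin n) k)) : Matrix (Fin n) (Fin n) k) * a
        * (((s⁻¹ * g : Matrix.SpecialLinearGroup (Fin n) k)) : Matrix (Fin n) (Fin n) k).transpose
        = a := by
      rw [hcoe, hau]
      simp only [Matrix.transpose_mul, Matrix.transpose_nonsing_inv]
      calc u * E⁻¹ * T * u⁻¹ * (u * F.M * u.transpose)
            * (u.transpose⁻¹ * (T.transpose * (E.transpose⁻¹ * u.transpose)))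
          = u * E⁻¹ * T * (u⁻¹ * u) * F.M * (u.transpose
            * u.transpose⁻¹) * T.transpose * E.transpose⁻¹ * u.transpose := by
            simp only [mul_assoc]
        _ = u * E⁻¹ * (T * F.M * T.transpose) * E.transpose⁻¹ * u.transpose := by
            rw [Matrix.nonsing_inv_mul _ hu', Matrix.mul_nonsing_inv _ hut, mul_one, mul_one]
            simp only [mul_assoc]
        _ = u * (E⁻¹ * E) * F.M * (E.transpose * E.transpose⁻¹) * u.transpose := by
            rw [← hE1]; simp only [mul_assoc]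
        _ = _ := by
            rw [Matrix.nonsing_inv_mul _ hEu, Matrix.mul_nonsing_inv _ hEt, mul_one, mul_one]
    rw [mem_fixSub]
    apply Subtype.ext
    have h5 := hτ (s⁻¹ * g)
    generalize s⁻¹ * g = h at h5 hpres
    have hau' : IsUnit (a * (h : Matrix (Fin n) (Fin n) k).transpose).det := by
      rw [Matrix.det_mul, Matrix.det_transpose, h.2, mul_one]
      exact isUnit_iff_ne_zero.mpr ha
    have h6 : ((τ h : Matrix.SpecialLinearGroup (Fin n) k) : Matrix (Fin n) (Fin n) k)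
        * (a * (h : Matrix (Fin n) (Fin n) k).transpose)
        = (h : Matrix (Fin n) (Fin n) k) * (a * (h : Matrix (Fin n) (Fin n) k).transpose) := by
      rw [← mul_assoc, ← mul_assoc, h5, hpres]
    calc ((τ h : Matrix.SpecialLinearGroup (Fin n) k) : Matrix (Fin n) (Fin n) k)
        = ((τ h : Matrix.SpecialLinearGroup (Fin n) k) : Matrix (Fin n) (Fin n) k)
          * (a * (h : Matrix (Fin n) (Fin n) k).transpose)
          * (a * (h : Matrix (Fin n) (Fin n) k).transpose)⁻¹ := by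
          rw [mul_assoc _ (a * (h : Matrix (Fin n) (Fin n) k).transpose),
            Matrix.mul_nonsing_inv _ hau', mul_one]
      _ = _ := by
          rw [h6, mul_assoc _ (a * (h : Matrix (Fin n) (Fin n) k).transpose),
            Matrix.mul_nonsing_inv _ hau', mul_one]
  dom := by
    intro Y hY
    rw [F.eval_det] at hY
    rw [F.WP_eval]
    refine ⟨((F.exists_q0 u).choose_spec.2.1 _).mpr (F.InU_s u hu Y hY), ?_⟩
    obtain ⟨e1, e2, e3, e4⟩ := F.sec_facts _ _ (F.tf u Y) (F.tf_ne u hu Y hY) _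
      (F.s_mul u hu Y hY)
    rintro (p | p | j)
    · show (((nrm0 F.j0 u (F.WY Y) hu : Matrix (Fin n) (Fin n) k) * u)
        * (TT F.chi ((nrm0 F.j0 u (F.WY Y) hu : Matrix (Fin n) (Fin n) k) * u))⁻¹) p.1.1 p.1.2
        = Y (Sum.inl p) ^ 1
      have hTdet : (TT F.chi ((nrm0 F.j0 u (F.WY Y) hu : Matrix (Fin n) (Fin n) k) * u)).det ≠ 0 :=
        (F.InU_s u hu Y hY).1
      rw [pow_one, e1, F.s_mul u hu Y hY, mul_assoc, Matrix.mul_nonsing_inv _, mul_one,
        PM_eval F.chi (fun p => Y (Sum.inl p)) _ _ p.2]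
      rw [← e1]
      exact isUnit_iff_ne_zero.mpr hTdet
    · show Lm F.star (F.QQ ((nrm0 F.j0 u (F.WY Y) hu : Matrix (Fin n) (Fin n) k) * u)) p.1.1 p.1.2
        = Y (Sum.inr (Sum.inl p)) ^ 1
      rw [e4, pow_one]
      unfold LY
      rw [Matrix.of_apply, if_neg, dif_pos p.2]
      intro h3
      have h4 := (F.mem_leS.mp p.2).2
      rw [h3] at h4
      exact lt_irrefl _ h4
    · show piv F.star (F.QQ ((nrm0 F.j0 u (F.WY Y) hu : Matrix (Fin n) (Fin n) k) * u)) j.1
        = Y (Sum.inr (Sum.inr j)) ^ dd (fun l : F.DE => decide (F.star l.1 = l.1)) j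
      rw [e3]
      exact F.tY_rel (fun j => Y (Sum.inr (Sum.inr j))) (u.det / (F.WY Y).det) j.1 j.2
  inv := by
    intro h hh g hg j
    have hU := ((F.exists_q0 u).choose_spec.2.1 g).mp hg
    have h3 : (h : Matrix (Fin n) (Fin n) k) * a * (h : Matrix (Fin n) (Fin n) k).transpose
        = (1 : k) • a := by
      have h4 := hτ h
      rw [mem_fixSub.mp hh] at h4
      rw [h4, one_smul]
    obtain ⟨-, e1, e2, e3⟩ := F.act' hu hau h g 1 one_ne_zero h3 hU
    rcases j with (p | p | j)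
    · exact e1 p
    · exact e2 p
    · have := e3 j
      rw [one_mul] at this
      exact this
  equiv := by
    intro h hh
    obtain ⟨z, hz, hzh⟩ := mem_fixMod.mp hh
    obtain ⟨r, hr, hrz⟩ := Matrix.SpecialLinearGroup.mem_center_iff.mp hz
    rw [Fintype.card_fin] at hr
    have hn : 0 < n := lt_of_le_of_lt (Nat.zero_le _) F.j0.isLt
    have hr0 : r ≠ 0 := by
      rintro rfl
      rw [zero_pow hn.ne'] at hr
      exact zero_ne_one hr
    have h3 : (h : Matrix (Fin n) (Fin n) k) * a * (h : Matrix (Fin n) (Fin n) k).transpose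
        = r⁻¹ • a := by
      have h4 := hτ h
      rw [hzh, Matrix.SpecialLinearGroup.coe_mul, ← hrz, Matrix.scalar_apply,
        ← Matrix.smul_one_eq_diagonal, Matrix.smul_mul, one_mul, Matrix.smul_mul,
        Matrix.smul_mul] at h4
      have h5 := congrArg (fun m => r⁻¹ • m) h4
      simp only [smul_smul] at h5
      rw [inv_mul_cancel₀ hr0, one_smul] at h5
      exact h5
    refine ⟨Matrix.diagonal (Sum.elim (fun _ => (1 : k)) (Sum.elim (fun _ => (1 : k))
      (fun _ => r⁻¹))), fun g hg => ?_⟩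
    have hU := ((F.exists_q0 u).choose_spec.2.1 g).mp hg
    obtain ⟨e0, e1, e2, e3⟩ := F.act' hu hau h g r⁻¹ (inv_ne_zero hr0) h3 hU
    refine ⟨((F.exists_q0 u).choose_spec.2.1 _).mpr e0, fun j => ?_⟩
    rw [Finset.sum_eq_single j]
    · rw [Matrix.diagonal_apply_eq]
      rcases j with (p | p | j)
      · rw [e1 p]; simp
      · rw [e2 p]; simp
      · rw [e3 j]; simp
    · intro l _ hl
      rw [Matrix.diagonal_apply_ne _ (Ne.symm hl), zero_mul]
    · intro h; exact absurd (Finset.mem_univ _) h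

end NFD

end Pool.Agent.Helper14.RG
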