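import Pool.Agent.Helper14.RG.OuterC

namespace Pool.Agent.Helper14.RG

open MvPolynomial Matrix

namespace NFD

variable {k : Type*} [Field k] {n : ℕ} (F : NFD k n)

lemma tY_j0 (y : F.DE → k) : F.tY y F.j0 = 1 := by
  unfold tY
  rw [dif_neg]
  intro h
  exact (F.mem_deS.mp h).2 rfl

/-- the coordinates of a point in the open set determine it up to the stabilizer -/
lemma fiber_core (w u : Matrix (Fin n) (Fin n) k) (hu : u.det ≠ 0) (hwu : w.det = u.det)
    (hU : F.InU w)
    (hsign : F.star F.j0 ≠ F.j0 →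
      (TT F.chi w).det = ∏ l ∈ F.R, piv F.star (F.QQ w) l / F.c l)
    (Y : F.N → k) (hY1 : ∀ p : NP F.chi, Y (Sum.inl p) = (w * (TT F.chi w)⁻¹) p.1.1 p.1.2)
    (hY2 : ∀ p : F.LE, Y (Sum.inr (Sum.inl p)) = Lm F.star (F.QQ w) p.1.1 p.1.2)
    (hY3 : ∀ j : F.DE, Y (Sum.inr (Sum.inr j)) ^ dd (fun l : F.DE => decide (F.star l.1 = l.1)) j
      = piv F.star (F.QQ w) j.1) :
    (F.WY Y).det ≠ 0 ∧
      (PM F.chi).map (eval (fun p => Y (Sum.inl p))) = w * (TT F.chi w)⁻¹ ∧
      F.LY (fun p => Y (Sum.inr (Sum.inl p))) = Lm F.star (F.QQ w) ∧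
      ∀ l, piv F.star (F.QQ w) l = F.tf u Y l * F.c l * F.tf u Y (F.star l) := by
  obtain ⟨hT, hp⟩ := hU
  obtain ⟨hL1, hL2, hL3, hL4⟩ := Lm_props F.hs F.chi F.chi_star F.chi_one (F.QQ w) (F.QQ_sym w)
    (F.QQ_zero w) hp
  have hP := PM_eq F.chi w hT (fun p => Y (Sum.inl p)) hY1
  have hL := F.LY_eq (Lm F.star (F.QQ w)) hL1 hL2 hL3 hL4 (fun p => Y (Sum.inr (Sum.inl p))) hY2
  -- the diagonal part
  set y : F.DE → k := fun j => Y (Sum.inr (Sum.inr j)) with hy
  have hyne : ∀ j, y j ≠ 0 := by
    intro j h0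
    have h1 := hY3 j
    have h2 : Y (Sum.inr (Sum.inr j)) = 0 := h0
    rw [h2, zero_pow (dd_pos _ _).ne'] at h1
    exact hp _ h1.symm
  have htne : ∀ j, F.tY y j ≠ 0 := by
    intro j
    unfold tY
    split_ifs
    · exact mul_ne_zero (inv_ne_zero (F.hc _)) (hyne _)
    · exact one_ne_zero
  have hPdet : ((PM F.chi).map (eval (fun p => Y (Sum.inl p)))).det
      = u.det / (TT F.chi w).det := by
    rw [hP, Matrix.det_mul, Matrix.det_nonsing_inv, Ring.inverse_eq_inv', hwu, div_eq_mul_inv]
  have hprod : ∏ j, F.tY y j ≠ 0 := Finset.prod_ne_zero_iff.mpr fun j _ => htne j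
  have hWdet : (F.WY Y).det = u.det / (TT F.chi w).det * ∏ j, F.tY y j := by
    rw [WY_det, hPdet]
  have hW : (F.WY Y).det ≠ 0 := by
    rw [hWdet]
    exact mul_ne_zero (div_ne_zero hu hT) hprod
  have hratio : u.det / (F.WY Y).det = (TT F.chi w).det / ∏ j, F.tY y j := by
    rw [hWdet]
    field_simp
  have hrel : ∀ l (hl : l ∈ F.deS), piv F.star (F.QQ w) l
      = F.tf u Y l * F.c l * F.tf u Y (F.star l) := by
    intro l hl
    have h1 := F.tY_rel y (u.det / (F.WY Y).det) l hl
    have h2 := hY3 ⟨l, hl⟩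
    rw [← h2]
    exact h1.symm
  have hstar : ∀ l, piv F.star (F.QQ w) (F.star l)
      = F.tf u Y (F.star l) * F.c (F.star l) * F.tf u Y (F.star (F.star l)) →
      piv F.star (F.QQ w) l = F.tf u Y l * F.c l * F.tf u Y (F.star l) := by
    intro l h1
    rw [piv_star F.hs F.chi F.chi_star (F.QQ w) (F.QQ_sym w) (F.QQ_zero w) l, h1, F.hs]
    unfold chi
    have h2 := F.hc (F.star l)
    field_simp
  have hj0 : piv F.star (F.QQ w) F.j0 = F.tf u Y F.j0 * F.c F.j0 * F.tf u Y (F.star F.j0) := by
    have htf0 : F.tf u Y F.j0 = (TT F.chi w).det / ∏ j, F.tY y j := by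
      show F.tY y F.j0 * dl0 F.j0 (u.det / (F.WY Y).det) F.j0 = _
      rw [F.tY_j0, one_mul, hratio]
      unfold dl0
      rw [if_pos rfl]
    have herase : ∏ j ∈ Finset.univ.erase F.j0, F.tY y j = ∏ j, F.tY y j := by
      rw [← Finset.mul_prod_erase Finset.univ _ (Finset.mem_univ F.j0), F.tY_j0, one_mul]
    by_cases hs0 : F.star F.j0 = F.j0
    · -- orthogonal case
      have hsq := F.det_sq w hp
      rw [← Finset.mul_prod_erase Finset.univ _ (Finset.mem_univ F.j0), F.hc1 _ hs0, div_one] at hsq
      have h3 : ∏ l ∈ Finset.univ.erase F.j0, piv F.star (F.QQ w) l / F.c l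
          = (∏ j, F.tY y j) ^ 2 := by
        rw [← herase, pow_two]
        have h4 : ∏ l ∈ Finset.univ.erase F.j0, F.tY y l
            = ∏ l ∈ Finset.univ.erase F.j0, F.tY y (F.star l) := by
          refine Finset.prod_nbij' (fun l => F.star l) (fun l => F.star l) ?_ ?_ ?_ ?_ ?_
          · intro l hl
            rw [Finset.mem_erase] at hl ⊢
            refine ⟨fun h5 => hl.1 ?_, Finset.mem_univ _⟩
            rw [← F.hs l, h5, hs0]
          · intro l hl
            rw [Finset.mem_erase] at hl ⊢
            refine ⟨fun h5 => hl.1 ?_, Finset.mem_univ _⟩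
            rw [← F.hs l, h5, hs0]
          · intro l _; exact F.hs l
          · intro l _; exact F.hs l
          · intro l _; simp only [F.hs]
        have h4' : (∏ l ∈ Finset.univ.erase F.j0, F.tY y l) * (∏ l ∈ Finset.univ.erase F.j0, F.tY y l)
            = ∏ l ∈ Finset.univ.erase F.j0, F.tY y l * F.tY y (F.star l) := by
          rw [Finset.prod_mul_distrib, ← h4]
        rw [h4']
        refine Finset.prod_congr rfl fun l hl => ?_
        have hlj : l ≠ F.j0 := (Finset.mem_erase.mp hl).1
        have hslj : F.star l ≠ F.j0 := by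
          intro h5
          apply hlj
          rw [← F.hs l, h5, hs0]
        have h5 : piv F.star (F.QQ w) l = F.tf u Y l * F.c l * F.tf u Y (F.star l) := by
          rcases le_total l (F.star l) with h6 | h6
          · exact hrel l (F.mem_deS.mpr ⟨h6, hlj⟩)
          · apply hstar
            exact hrel (F.star l) (F.mem_deS.mpr ⟨by rw [F.hs]; exact h6, hslj⟩)
        have h6 : F.tf u Y l = F.tY y l := by
          show F.tY y l * dl0 F.j0 _ l = _
          unfold dl0
          rw [if_neg hlj, mul_one]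
        have h7 : F.tf u Y (F.star l) = F.tY y (F.star l) := by
          show F.tY y (F.star l) * dl0 F.j0 _ (F.star l) = _
          unfold dl0
          rw [if_neg hslj, mul_one]
        rw [h5, h6, h7]
        have h8 := F.hc l
        field_simp
      rw [h3] at hsq
      rw [hs0, F.hc1 _ hs0, htf0]
      field_simp
      exact hsq.symm
    · -- no orthogonal part
      have hns := F.hj0' hs0
      have h1 := hsign hs0
      have hj0R : F.j0 ∈ F.R := by
        unfold R
        exact Finset.mem_filter.mpr ⟨Finset.mem_univ _, F.hj0⟩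
      rw [← Finset.mul_prod_erase F.R _ hj0R] at h1
      have h2 : F.R.erase F.j0 = F.deS := by
        ext l
        rw [Finset.mem_erase, mem_deS]
        unfold R
        simp only [Finset.mem_filter, Finset.mem_univ, true_and]
        exact and_comm
      have h3 : ∏ l ∈ F.deS, piv F.star (F.QQ w) l / F.c l = ∏ j, F.tY y j := by
        rw [← Finset.prod_subset (Finset.subset_univ F.deS) (f := F.tY y)]
        · refine Finset.prod_congr rfl fun l hl => ?_
          obtain ⟨h4, h5⟩ := F.star_notMem l hl (hns l)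
          rw [hrel l hl]
          have h6 : F.tf u Y l = F.tY y l := by
            show F.tY y l * dl0 F.j0 _ l = _
            unfold dl0
            rw [if_neg (F.mem_deS.mp hl).2, mul_one]
          have h7 : F.tf u Y (F.star l) = 1 := by
            show F.tY y (F.star l) * dl0 F.j0 _ (F.star l) = _
            unfold dl0 tY
            rw [if_neg h5, dif_neg h4, mul_one]
          rw [h6, h7]
          have h8 := F.hc l
          field_simp
        · intro l _ hl
          unfold tY
          rw [dif_neg hl]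
      rw [h2, h3] at h1
      have h4 : F.tf u Y (F.star F.j0) = 1 := by
        show F.tY y (F.star F.j0) * dl0 F.j0 _ (F.star F.j0) = _
        unfold dl0 tY
        rw [if_neg hs0, dif_neg, mul_one]
        intro h5
        have h6 := (F.mem_deS.mp h5).1
        rw [F.hs] at h6
        exact hs0 (le_antisymm h6 F.hj0)
      rw [h4, htf0, h1]
      have h8 := F.hc F.j0
      field_simp
  refine ⟨hW, hP, hL, fun l => ?_⟩
  by_cases hl : l ∈ F.deS
  · exact hrel l hl
  by_cases hsl : F.star l ∈ F.deS
  · exact hstar l (hrel _ hsl)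
  rcases le_total l (F.star l) with h6 | h6
  · have : l = F.j0 := by
      by_contra h7
      exact hl (F.mem_deS.mpr ⟨h6, h7⟩)
    rw [this]; exact hj0
  · have : F.star l = F.j0 := by
      by_contra h7
      exact hsl (F.mem_deS.mpr ⟨by rw [F.hs]; exact h6, h7⟩)
    apply hstar
    rw [this]; exact hj0

end NFD

end Pool.Agent.Helper14.RG
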