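import Pool.Agent.Helper14.RG.Core

namespace Pool.Agent.Helper14.RG

open MvPolynomial

variable {k : Type*} [Field k] {C : Type*} [Fintype C] [DecidableEq C] {G : C → Type*}

/-- The algebra of functions on a product. -/
def prodAlg (A : ∀ c, Subalgebra k (G c → k)) : Subalgebra k ((∀ c, G c) → k) :=
  Algebra.adjoin k {f | ∃ c, ∃ a ∈ A c, f = fun g => a (g c)}

lemma mem_prodAlg (A : ∀ c, Subalgebra k (G c → k)) (c : C) {a : G c → k} (ha : a ∈ A c) :
    (fun g : ∀ c, G c => a (g c)) ∈ prodAlg A :=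
  Algebra.subset_adjoin ⟨c, a, ha, rfl⟩

lemma slice_mem (A : ∀ c, Subalgebra k (G c → k)) {a : (∀ c, G c) → k} (ha : a ∈ prodAlg A)
    (g : ∀ c, G c) (c : C) : (fun u => a (Function.update g c u)) ∈ A c := by
  induction ha using Algebra.adjoin_induction with
  | mem x hx =>
    obtain ⟨c', a', ha', rfl⟩ := hx
    by_cases hc : c' = c
    · subst hc
      simpa using ha'
    · simp only [Function.update_of_ne hc]
      exact Subalgebra.algebraMap_mem (A c) (a' (g c'))
  | algebraMap r => exact Subalgebra.algebraMap_mem (A c) r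
  | add x y _ _ hx hy => exact add_mem hx hy
  | mul x y _ _ hx hy => exact mul_mem hx hy

lemma Irr.prod {A : ∀ c, Subalgebra k (G c → k)} (h : ∀ c, Irr (A c)) : Irr (prodAlg A) := by
  classical
  refine ⟨⟨fun c => (h c).1.some⟩, ?_⟩
  intro a ha b hb ha0 hb0
  obtain ⟨x0, hx0⟩ := Function.ne_iff.mp ha0
  obtain ⟨y0, hy0⟩ := Function.ne_iff.mp hb0
  have key : ∀ S : Finset C, ∃ x y : ∀ c, G c, a x ≠ 0 ∧ b y ≠ 0 ∧ ∀ c ∈ S, x c = y c := by
    intro S
    induction S using Finset.induction_on with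
    | empty => exact ⟨x0, y0, hx0, hy0, fun c hc => absurd hc (Finset.notMem_empty c)⟩
    | insert c S hc ih =>
      obtain ⟨x, y, hx, hy, hxy⟩ := ih
      obtain ⟨u, hu1, hu2⟩ := (h c).2 _ (slice_mem A ha x c) _ (slice_mem A hb y c)
        (Function.ne_iff.mpr ⟨x c, by simpa using hx⟩) (Function.ne_iff.mpr ⟨y c, by simpa using hy⟩)
      refine ⟨Function.update x c u, Function.update y c u, hu1, hu2, ?_⟩
      intro c' hc'
      by_cases hcc : c' = c
      · subst hcc; simp
      · rw [Function.update_of_ne hcc, Function.update_of_ne hcc]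
        exact hxy c' (Finset.mem_of_mem_insert_of_ne hc' hcc)
  obtain ⟨x, y, hx, hy, hxy⟩ := key Finset.univ
  have : x = y := funext fun c => hxy c (Finset.mem_univ c)
  subst this
  exact ⟨x, hx, hy⟩

variable [∀ c, Group (G c)]

lemma RStable.prod {A : ∀ c, Subalgebra k (G c → k)} (h : ∀ c, RStable (A c)) :
    RStable (prodAlg A) := by
  intro h' a ha
  induction ha using Algebra.adjoin_induction with
  | mem x hx =>
    obtain ⟨c', a', ha', rfl⟩ := hx
    exact mem_prodAlg A c' (h c' (h' c') a' ha')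
  | algebraMap r => exact Subalgebra.algebraMap_mem _ r
  | add x y _ _ hx hy => exact add_mem hx hy
  | mul x y _ _ hx hy => exact mul_mem hx hy

/-- product of charts -/
noncomputable def Chart.prod {A : ∀ c, Subalgebra k (G c → k)} {H H' : ∀ c, Subgroup (G c)}
    {N : C → Type*} [∀ c, Fintype (N c)] [∀ c, DecidableEq (N c)]
    (ch : ∀ c, Chart (A c) (H c) (H' c) (N c))
    (HH : Subgroup (∀ c, G c)) (h1 : Subgroup.pi Set.univ H ≤ HH)
    (h2 : HH ≤ Subgroup.pi Set.univ H') :
    Chart (prodAlg A) (Subgroup.pi Set.univ H) HH (Σ c, N c) where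
  hH := h1
  q0 := fun g => ∏ c, (ch c).q0 (g c)
  q0_mem := by
    have : (fun g : ∀ c, G c => ∏ c, (ch c).q0 (g c)) = ∏ c, fun g : ∀ c, G c => (ch c).q0 (g c) := by
      funext g
      rw [Finset.prod_apply]
    rw [this]
    exact prod_mem fun c _ => mem_prodAlg A c (ch c).q0_mem
  q0_ne := by
    choose g hg using fun c => Function.ne_iff.mp (ch c).q0_ne
    exact Function.ne_iff.mpr ⟨g, Finset.prod_ne_zero_iff.mpr fun c _ => hg c⟩
  t := fun g j => (ch j.1).t (g j.1) j.2
  treg := by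
    rintro ⟨c, j⟩
    obtain ⟨a, ha, b, hb, h⟩ := (ch c).treg j
    refine ⟨_, mem_prodAlg A c ha, _, mem_prodAlg A c hb, fun g hg => ?_⟩
    exact h (g c) (Finset.prod_ne_zero_iff.mp hg c (Finset.mem_univ c))
  dbl := fun j => (ch j.1).dbl j.2
  D := ∏ c, rename (Sigma.mk c) (ch c).D
  D_ne := by
    refine Finset.prod_ne_zero_iff.mpr fun c _ => ?_
    intro h0
    exact (ch c).D_ne ((injective_iff_map_eq_zero _).mp
      (rename_injective _ sigma_mk_injective) _ h0)
  s := fun Y c => (ch c).s (fun j => Y ⟨c, j⟩)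
  sreg := by
    have hevD : ∀ (Y : (Σ c, N c) → k), eval Y (∏ c, rename (Sigma.mk c) (ch c).D)
        = ∏ c, eval (fun j => Y ⟨c, j⟩) (ch c).D := by
      intro Y
      rw [map_prod]
      refine Finset.prod_congr rfl fun c _ => ?_
      rw [eval_rename]
      rfl
    intro a ha
    induction ha using Algebra.adjoin_induction with
    | mem x hx =>
      obtain ⟨c, a', ha', rfl⟩ := hx
      obtain ⟨P, m, hP⟩ := (ch c).sreg a' ha'
      refine ⟨rename (Sigma.mk c) P * (∏ c' ∈ Finset.univ.erase c, rename (Sigma.mk c') (ch c').D) ^ m,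
        m, fun Y hY => ?_⟩
      rw [hevD] at hY
      have hYc := Finset.prod_ne_zero_iff.mp hY c (Finset.mem_univ c)
      rw [hevD, ← Finset.mul_prod_erase Finset.univ _ (Finset.mem_univ c), mul_pow, ← mul_assoc,
        hP _ hYc, map_mul, map_pow, map_prod, eval_rename]
      congr 2
      refine Finset.prod_congr rfl fun c' _ => ?_
      rw [eval_rename]
      rfl
    | algebraMap r =>
      refine ⟨MvPolynomial.C r, 0, fun Y hY => ?_⟩
      rw [pow_zero, mul_one, eval_C]
      rfl
    | add x y _ _ hx hy =>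
      obtain ⟨P, m, hP⟩ := hx
      obtain ⟨P', m', hP'⟩ := hy
      refine ⟨P * (∏ c, rename (Sigma.mk c) (ch c).D) ^ m'
        + P' * (∏ c, rename (Sigma.mk c) (ch c).D) ^ m, m + m', fun Y hY => ?_⟩
      rw [map_add, map_mul, map_mul, map_pow, map_pow, ← hP Y hY, ← hP' Y hY, Pi.add_apply]
      ring
    | mul x y _ _ hx hy =>
      obtain ⟨P, m, hP⟩ := hx
      obtain ⟨P', m', hP'⟩ := hy
      refine ⟨P * P', m + m', fun Y hY => ?_⟩
      rw [map_mul, ← hP Y hY, ← hP' Y hY, Pi.mul_apply]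
      ring
  fiber := by
    intro g hg Y hY
    have hf := fun c => (ch c).fiber (g c) (Finset.prod_ne_zero_iff.mp hg c (Finset.mem_univ c))
      (fun j => Y ⟨c, j⟩) (fun j => hY ⟨c, j⟩)
    choose hD h hh hgs using hf
    refine ⟨?_, h, fun c _ => hh c, funext fun c => hgs c⟩
    rw [map_prod]
    refine Finset.prod_ne_zero_iff.mpr fun c _ => ?_
    rw [eval_rename]
    exact hD c
  dom := by
    intro Y hY
    rw [map_prod] at hY
    have hY' : ∀ c, eval (fun j => Y ⟨c, j⟩) (ch c).D ≠ 0 := by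
      intro c
      have := Finset.prod_ne_zero_iff.mp hY c (Finset.mem_univ c)
      rw [eval_rename] at this
      exact this
    refine ⟨Finset.prod_ne_zero_iff.mpr fun c _ => ((ch c).dom _ (hY' c)).1, ?_⟩
    rintro ⟨c, j⟩
    exact ((ch c).dom _ (hY' c)).2 j
  inv := by
    intro h hh g hg
    rintro ⟨c, j⟩
    exact (ch c).inv (h c) (hh c (Set.mem_univ c)) (g c)
      (Finset.prod_ne_zero_iff.mp hg c (Finset.mem_univ c)) j
  equiv := by
    intro h hh
    choose ρ hρ using fun c => (ch c).equiv (h c) (h2 hh c (Set.mem_univ c))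
    refine ⟨Matrix.blockDiagonal' ρ, fun g hg => ?_⟩
    have hf := fun c => hρ c (g c) (Finset.prod_ne_zero_iff.mp hg c (Finset.mem_univ c))
    refine ⟨Finset.prod_ne_zero_iff.mpr fun c _ => (hf c).1, ?_⟩
    rintro ⟨c, j⟩
    rw [Fintype.sum_sigma, Finset.sum_eq_single c]
    · simp only [Matrix.blockDiagonal'_apply_eq]
      exact (hf c).2 j
    · intro c' _ hc'
      refine Finset.sum_eq_zero fun l _ => ?_
      rw [Matrix.blockDiagonal'_apply_ne _ _ _ (Ne.symm hc'), zero_mul]
    · intro hc; exact absurd (Finset.mem_univ c) hc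

end Pool.Agent.Helper14.RG
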