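import Pool.Agent.Helper14.RG.InnerChart

namespace Pool.Agent.Helper14.RG

open MvPolynomial

variable {k : Type*} [Field k] {G Q : Type*} [Group G] [Group Q]

/-- The algebra of functions on `Q` whose pullback along `π : G → Q` belongs to `A`. -/
def quotAlg (A : Subalgebra k (G → k)) (π : G →* Q) : Subalgebra k (Q → k) where
  carrier := {f | (fun g : G => f (π g)) ∈ A}
  mul_mem' := by
    intro a b ha hb
    exact A.mul_mem (x := fun g : G => a (π g)) (y := fun g : G => b (π g)) ha hb
  add_mem' := by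
    intro a b ha hb
    exact A.add_mem (x := fun g : G => a (π g)) (y := fun g : G => b (π g)) ha hb
  algebraMap_mem' := fun r => Subalgebra.algebraMap_mem A r

lemma mem_quotAlg {A : Subalgebra k (G → k)} {π : G →* Q} {f : Q → k} :
    f ∈ quotAlg A π ↔ (fun g : G => f (π g)) ∈ A := Iff.rfl

lemma Irr.quot {A : Subalgebra k (G → k)} (h : Irr A) (π : G →* Q)
    (hπ : Function.Surjective π) : Irr (quotAlg A π) := by
  refine ⟨⟨1⟩, ?_⟩
  intro a ha b hb ha0 hb0
  have ha1 : (fun g : G => a (π g)) ≠ 0 := by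
    obtain ⟨x, hx⟩ := Function.ne_iff.mp ha0
    obtain ⟨g, rfl⟩ := hπ x
    exact Function.ne_iff.mpr ⟨g, hx⟩
  have hb1 : (fun g : G => b (π g)) ≠ 0 := by
    obtain ⟨x, hx⟩ := Function.ne_iff.mp hb0
    obtain ⟨g, rfl⟩ := hπ x
    exact Function.ne_iff.mpr ⟨g, hx⟩
  obtain ⟨g, hg1, hg2⟩ := h.2 _ ha _ hb ha1 hb1
  exact ⟨π g, hg1, hg2⟩

lemma RStable.quot {A : Subalgebra k (G → k)} (h : RStable A) (π : G →* Q)
    (hπ : Function.Surjective π) : RStable (quotAlg A π) := by
  intro x a ha
  obtain ⟨g', rfl⟩ := hπ x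
  show (fun g : G => a (π g * π g')) ∈ A
  simp only [← map_mul]
  exact h g' _ ha

section Compare

variable {A : Subalgebra k (G → k)} [IsDomain A] (hA : RStable A) (π : G →* Q)
  (hπ : Function.Surjective π) [IsDomain (quotAlg A π)]

/-- pullback of regular functions -/
def pbA (A : Subalgebra k (G → k)) (π : G →* Q) : quotAlg A π →ₐ[k] A where
  toFun f := ⟨fun g : G => (f : Q → k) (π g), f.2⟩
  map_one' := rfl
  map_mul' := fun _ _ => rfl
  map_zero' := rfl
  map_add' := fun _ _ => rfl
  commutes' := fun _ => rfl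

lemma pbA_injective (A : Subalgebra k (G → k)) (π : G →* Q) (hπ : Function.Surjective π) :
    Function.Injective (pbA A π) := by
  intro a b hab
  apply Subtype.ext
  funext x
  obtain ⟨g, rfl⟩ := hπ x
  exact congrFun (congrArg Subtype.val hab) g

omit [IsDomain (quotAlg A π)] in
include hπ in
lemma pbK_aux : Function.Injective ((IsScalarTower.toAlgHom k A (FractionRing A)).comp (pbA A π)) := by
  intro a b hab
  exact pbA_injective A π hπ (aM_inj hab)

/-- pullback of rational functions -/
noncomputable def pbK (A : Subalgebra k (G → k)) [IsDomain A] (π : G →* Q)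
    (hπ : Function.Surjective π) [IsDomain (quotAlg A π)] :
    FractionRing (quotAlg A π) →ₐ[k] FractionRing A :=
  IsFractionRing.liftAlgHom (K := FractionRing (quotAlg A π)) (pbK_aux (A := A) π hπ)

lemma pbK_algebraMap (a : quotAlg A π) :
    pbK A π hπ (algebraMap _ (FractionRing (quotAlg A π)) a)
      = algebraMap A (FractionRing A) (pbA A π a) := by
  unfold pbK
  rw [IsFractionRing.liftAlgHom_apply, IsFractionRing.lift_algebraMap]
  rfl

lemma pbK_tr (h : G) (x : FractionRing (quotAlg A π)) :
    pbK A π hπ (trK (hA.quot π hπ) (π h) x) = trK hA h (pbK A π hπ x) := by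
  obtain ⟨a, b, hb, rfl⟩ := IsFractionRing.div_surjective (quotAlg A π) x
  have key : ∀ c : quotAlg A π, pbA A π (trA (hA.quot π hπ) (π h) c) = trA hA h (pbA A π c) := by
    intro c
    apply Subtype.ext
    funext g
    show (c : Q → k) (π g * π h) = (c : Q → k) (π (g * h))
    rw [map_mul]
  rw [map_div₀, map_div₀, map_div₀, map_div₀, trK_algebraMap, trK_algebraMap, pbK_algebraMap,
    pbK_algebraMap, pbK_algebraMap, pbK_algebraMap, trK_algebraMap, trK_algebraMap, key, key]

include hπ in
omit [IsDomain A] [IsDomain (quotAlg A π)] in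
/-- descent of an invariant function -/
lemma exists_descend (a : A) (ha : ∀ z ∈ π.ker, trA hA z a = a) :
    ∃ f : quotAlg A π, pbA A π f = a := by
  have h1 : ∀ g g' : G, π g = π g' → (a : G → k) g = (a : G → k) g' := by
    intro g g' hgg
    have h2 : g⁻¹ * g' ∈ π.ker := by
      rw [MonoidHom.mem_ker, map_mul, map_inv, hgg, inv_mul_cancel]
    have h3 := congrFun (congrArg Subtype.val (ha _ h2)) g
    rw [trA_apply, mul_inv_cancel_left] at h3
    exact h3.symm
  choose sec hsec using hπ
  have h2 : (fun g : G => (a : G → k) (sec (π g))) = (a : G → k) := by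
    funext g
    exact h1 _ _ (hsec (π g))
  refine ⟨⟨fun x => (a : G → k) (sec x), ?_⟩, ?_⟩
  · show (fun g : G => (a : G → k) (sec (π g))) ∈ A
    rw [h2]
    exact a.2
  · apply Subtype.ext
    exact h2

lemma mem_range_pbK [Finite π.ker] (x : FractionRing A) (hx : ∀ z ∈ π.ker, trK hA z x = x) :
    ∃ y, pbK A π hπ y = x := by
  classical
  have := Fintype.ofFinite π.ker
  obtain ⟨a, b, hb, rfl⟩ := IsFractionRing.div_surjective A x
  have hb0 : b ≠ 0 := nonZeroDivisors.ne_zero hb
  let Nb : A := ∏ z : π.ker, trA hA (z : G) b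
  let Cb : A := ∏ z ∈ Finset.univ.erase (1 : π.ker), trA hA (z : G) b
  have hNb : Nb = b * Cb := by
    show ∏ z : π.ker, trA hA (z : G) b = b * _
    rw [← Finset.mul_prod_erase Finset.univ _ (Finset.mem_univ (1 : π.ker))]
    congr 1
    rw [OneMemClass.coe_one, map_one]
    rfl
  have hNb0 : Nb ≠ 0 := by
    refine Finset.prod_ne_zero_iff.mpr fun z _ => ?_
    intro h0
    exact hb0 ((trA hA (z : G)).injective (h0.trans (map_zero _).symm))
  have hCb0 : Cb ≠ 0 := by
    intro h0
    rw [h0, mul_zero] at hNb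
    exact hNb0 hNb
  have hNbinv : ∀ z ∈ π.ker, trA hA z Nb = Nb := by
    intro z hz
    show trA hA z (∏ z' : π.ker, trA hA (z' : G) b) = ∏ z' : π.ker, trA hA (z' : G) b
    rw [map_prod]
    refine Fintype.prod_equiv (Equiv.mulLeft (⟨z, hz⟩ : π.ker)) _ _ fun z' => ?_
    show trA hA z (trA hA (z' : G) b) = trA hA ((⟨z, hz⟩ * z' : π.ker) : G) b
    rw [Subgroup.coe_mul, map_mul]
    rfl
  have hx' : algebraMap A (FractionRing A) a / algebraMap A (FractionRing A) b
      = algebraMap A (FractionRing A) (a * Cb) / algebraMap A (FractionRing A) Nb := by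
    rw [hNb, map_mul, map_mul, mul_div_mul_right _ _ (aM_ne hCb0)]
  have hainv : ∀ z ∈ π.ker, trA hA z (a * Cb) = a * Cb := by
    intro z hz
    have h1 := hx z hz
    rw [hx', map_div₀, trK_algebraMap, trK_algebraMap, hNbinv z hz] at h1
    exact aM_inj ((div_left_inj' (aM_ne hNb0)).mp h1)
  obtain ⟨f1, hf1⟩ := exists_descend hA π hπ _ hainv
  obtain ⟨f2, hf2⟩ := exists_descend hA π hπ _ hNbinv
  refine ⟨algebraMap _ (FractionRing (quotAlg A π)) f1
    / algebraMap _ (FractionRing (quotAlg A π)) f2, ?_⟩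
  rw [map_div₀, pbK_algebraMap, pbK_algebraMap, hf1, hf2, hx']

theorem quot_rational' [Finite π.ker] (S : Subgroup Q) {r : ℕ} (v : Fin r → FractionRing A)
    (hv : AlgebraicIndependent k v)
    (hv2 : ∀ f : FractionRing A, f ∈ IntermediateField.adjoin k (Set.range v) ↔
      ∀ h ∈ S.comap π, trK hA h f = f) :
    ∃ y : Fin r → FractionRing (quotAlg A π), AlgebraicIndependent k y ∧
      ∀ f, f ∈ IntermediateField.adjoin k (Set.range y) ↔
        ∀ h ∈ S, trK (hA.quot π hπ) h f = f := by
  have hZS : ∀ z ∈ π.ker, z ∈ S.comap π := by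
    intro z hz
    rw [Subgroup.mem_comap, MonoidHom.mem_ker.mp hz]
    exact one_mem S
  have hex : ∀ i, ∃ y, pbK A π hπ y = v i := by
    intro i
    apply mem_range_pbK hA π hπ
    intro z hz
    exact (hv2 (v i)).mp (IntermediateField.subset_adjoin k _ (Set.mem_range_self i)) z (hZS z hz)
  choose y hy using hex
  have hcomp : (pbK A π hπ) ∘ y = v := funext hy
  refine ⟨y, ?_, ?_⟩
  · rw [← AlgHom.algebraicIndependent_iff (pbK A π hπ) (pbK A π hπ).injective, hcomp]
    exact hv
  · intro f
    have h1 : (IntermediateField.adjoin k (Set.range y)).map (pbK A π hπ)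
        = IntermediateField.adjoin k (Set.range v) := by
      rw [IntermediateField.adjoin_map, ← Set.range_comp, hcomp]
    have h2 : f ∈ IntermediateField.adjoin k (Set.range y) ↔
        pbK A π hπ f ∈ IntermediateField.adjoin k (Set.range v) := by
      rw [← h1, IntermediateField.mem_map]
      constructor
      · intro hf; exact ⟨f, hf, rfl⟩
      · rintro ⟨f', hf', hff⟩
        have : f' = f := (pbK A π hπ).injective hff
        rw [← this]; exact hf'
    rw [h2, hv2]
    constructor
    · intro hf x hx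
      obtain ⟨h, rfl⟩ := hπ x
      apply (pbK A π hπ).injective
      show pbK A π hπ _ = pbK A π hπ f
      rw [pbK_tr]
      exact hf h hx
    · intro hf h hh
      rw [← pbK_tr]
      exact congrArg _ (hf _ hh)

end Compare

end Pool.Agent.Helper14.RG
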