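import Pool.Agent.Helper14.RG.OuterChart
import Pool.Agent.Helper14.RG.Cyc
import Pool.Agent.Helper14.RG.Defs

namespace Pool.Agent.Helper14.RG

open MvPolynomial Matrix

section Comp

variable {k : Type*} [Field k] {n : ℕ}

/-- pullback of regular functions along a map to `SL_n` with regular entries -/
lemma slAlg_comp {X : Type*} (B : Subalgebra k (X → k)) (f : X → Matrix.SpecialLinearGroup (Fin n) k)
    (h : ∀ i j, (fun x => (f x : Matrix (Fin n) (Fin n) k) i j) ∈ B) :
    ∀ a ∈ slAlg k n, (fun x => a (f x)) ∈ B := by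
  intro a ha
  induction ha using Algebra.adjoin_induction with
  | mem x hx =>
    obtain ⟨i, j, rfl⟩ := hx
    exact h i j
  | algebraMap r => exact Subalgebra.algebraMap_mem _ r
  | add x y _ _ hx hy => exact add_mem hx hy
  | mul x y _ _ hx hy => exact mul_mem hx hy

lemma slAlg_inv : ∀ a ∈ slAlg k n, (fun g => a g⁻¹) ∈ slAlg k n := by
  apply slAlg_comp
  intro i j
  simp only [Matrix.SpecialLinearGroup.coe_inv]
  exact adjugate_mem_alg (slAlg k n) (fun g => (g : Matrix (Fin n) (Fin n) k)) entry_mem i j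

lemma slAlg_mul {X : Type*} (a : Matrix.SpecialLinearGroup (Fin n) k → k) (ha : a ∈ slAlg k n)
    (B : Subalgebra k (X → k)) (f f' : X → Matrix.SpecialLinearGroup (Fin n) k)
    (hf : ∀ b ∈ slAlg k n, (fun x => b (f x)) ∈ B) (hf' : ∀ b ∈ slAlg k n, (fun x => b (f' x)) ∈ B) :
    (fun x => a (f x * f' x)) ∈ B := by
  refine slAlg_comp B (fun x => f x * f' x) ?_ a ha
  intro i j
  simp only [Matrix.SpecialLinearGroup.coe_mul]
  exact mul_mem_alg B (fun x => (f x : Matrix (Fin n) (Fin n) k))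
    (fun x => (f' x : Matrix (Fin n) (Fin n) k)) (fun i j => hf _ (entry_mem i j))
    (fun i j => hf' _ (entry_mem i j)) i j

end Comp

section Std

variable {k : Type*} [Field k] {n : ℕ}

/-- inner automorphisms and the conjugates of inverse transpose -/
def IsStd (τ : Matrix.SpecialLinearGroup (Fin n) k ≃* Matrix.SpecialLinearGroup (Fin n) k) : Prop :=
  ∃ a : Matrix (Fin n) (Fin n) k, a.det ≠ 0 ∧
    ((∀ g, (τ g : Matrix (Fin n) (Fin n) k) * a = a * (g : Matrix (Fin n) (Fin n) k)) ∨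
      (∀ g, (τ g : Matrix (Fin n) (Fin n) k) * a * (g : Matrix (Fin n) (Fin n) k).transpose = a))

lemma IsStd.refl : IsStd (MulEquiv.refl (Matrix.SpecialLinearGroup (Fin n) k)) :=
  ⟨1, by rw [Matrix.det_one]; exact one_ne_zero, Or.inl fun g => by
    rw [mul_one, one_mul]; rfl⟩

lemma cancel_right {n : ℕ} {a x y : Matrix (Fin n) (Fin n) k} (ha : a.det ≠ 0) (h : x * a = y * a) :
    x = y := by
  have hu : IsUnit a.det := isUnit_iff_ne_zero.mpr ha
  calc x = x * a * a⁻¹ := by rw [mul_assoc, Matrix.mul_nonsing_inv _ hu, mul_one]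
    _ = y * a * a⁻¹ := by rw [h]
    _ = y := by rw [mul_assoc, Matrix.mul_nonsing_inv _ hu, mul_one]

lemma cancel_left {n : ℕ} {a x y : Matrix (Fin n) (Fin n) k} (ha : a.det ≠ 0) (h : a * x = a * y) :
    x = y := by
  have hu : IsUnit a.det := isUnit_iff_ne_zero.mpr ha
  calc x = a⁻¹ * (a * x) := by rw [← mul_assoc, Matrix.nonsing_inv_mul _ hu, one_mul]
    _ = a⁻¹ * (a * y) := by rw [h]
    _ = y := by rw [← mul_assoc, Matrix.nonsing_inv_mul _ hu, one_mul]

lemma IsStd.trans {τ1 τ2 : Matrix.SpecialLinearGroup (Fin n) k ≃* Matrix.SpecialLinearGroup (Fin n) k}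
    (h1 : IsStd τ1) (h2 : IsStd τ2) : IsStd (τ2.trans τ1) := by
  obtain ⟨a, ha, h1⟩ := h1
  obtain ⟨b, hb, h2⟩ := h2
  have hbu : IsUnit b.det := isUnit_iff_ne_zero.mpr hb
  have hbt : b.transpose.det ≠ 0 := by rw [Matrix.det_transpose]; exact hb
  have hbtu : IsUnit b.transpose.det := isUnit_iff_ne_zero.mpr hbt
  have hbti : b.transpose⁻¹.det ≠ 0 := by
    rw [Matrix.det_nonsing_inv, Ring.inverse_eq_inv']
    exact inv_ne_zero hbt
  rcases h1 with h1 | h1 <;> rcases h2 with h2 | h2
  · refine ⟨a * b, by rw [Matrix.det_mul]; exact mul_ne_zero ha hb, Or.inl fun g => ?_⟩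
    show (τ1 (τ2 g) : Matrix (Fin n) (Fin n) k) * (a * b) = _
    rw [← mul_assoc, h1, mul_assoc, h2, mul_assoc]
  · refine ⟨a * b, by rw [Matrix.det_mul]; exact mul_ne_zero ha hb, Or.inr fun g => ?_⟩
    show (τ1 (τ2 g) : Matrix (Fin n) (Fin n) k) * (a * b) * _ = _
    rw [← mul_assoc, h1, mul_assoc a, mul_assoc a, h2]
  · refine ⟨a * b.transpose⁻¹, by rw [Matrix.det_mul]; exact mul_ne_zero ha hbti,
      Or.inr fun g => ?_⟩
    show (τ1 (τ2 g) : Matrix (Fin n) (Fin n) k) * (a * b.transpose⁻¹) * _ = _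
    have e1 : b.transpose⁻¹ * (g : Matrix (Fin n) (Fin n) k).transpose
        = (τ2 g : Matrix (Fin n) (Fin n) k).transpose * b.transpose⁻¹ := by
      apply cancel_left hbt
      have e2 := congrArg Matrix.transpose (h2 g)
      rw [Matrix.transpose_mul, Matrix.transpose_mul] at e2
      rw [← mul_assoc, Matrix.mul_nonsing_inv _ hbtu, one_mul, ← mul_assoc, e2, mul_assoc,
        Matrix.mul_nonsing_inv _ hbtu, mul_one]
    rw [mul_assoc, mul_assoc a, e1, ← mul_assoc a, ← mul_assoc, ← mul_assoc, h1]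
  · refine ⟨a * b.transpose⁻¹, by rw [Matrix.det_mul]; exact mul_ne_zero ha hbti,
      Or.inl fun g => ?_⟩
    show (τ1 (τ2 g) : Matrix (Fin n) (Fin n) k) * (a * b.transpose⁻¹) = _
    -- `(τ2 g)ᵀ b^{-T} g = b^{-T}`
    have e1 : (τ2 g : Matrix (Fin n) (Fin n) k).transpose * (b.transpose⁻¹
        * (g : Matrix (Fin n) (Fin n) k)) = b.transpose⁻¹ := by
      have e2 := congrArg Matrix.transpose (h2 g)
      rw [Matrix.transpose_mul, Matrix.transpose_mul, Matrix.transpose_transpose] at e2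
      have hgb : ((g : Matrix (Fin n) (Fin n) k) * b.transpose).det ≠ 0 := by
        rw [Matrix.det_mul, g.2, one_mul]; exact hbt
      apply cancel_left hgb
      rw [← mul_assoc, mul_assoc (g : Matrix (Fin n) (Fin n) k) b.transpose, e2, ← mul_assoc,
        Matrix.mul_nonsing_inv _ hbtu, one_mul, mul_assoc, Matrix.mul_nonsing_inv _ hbtu, mul_one]
    have hg := g.2
    have hgi : ((g : Matrix (Fin n) (Fin n) k)).det ≠ 0 := by rw [hg]; exact one_ne_zero
    -- `τ1 (τ2 g) a = a (τ2 g)^{-T}`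
    have hat : (τ2 g : Matrix (Fin n) (Fin n) k).transpose.det ≠ 0 := by
      rw [Matrix.det_transpose, (τ2 g).2]; exact one_ne_zero
    have e3 := h1 (τ2 g)
    have e4 : (b.transpose⁻¹ * (g : Matrix (Fin n) (Fin n) k)) * (b.transpose⁻¹)⁻¹
        * (τ2 g : Matrix (Fin n) (Fin n) k).transpose = 1 := by
      have h5 : (τ2 g : Matrix (Fin n) (Fin n) k).transpose * ((b.transpose⁻¹
        * (g : Matrix (Fin n) (Fin n) k)) * (b.transpose⁻¹)⁻¹) = 1 := by
        rw [← mul_assoc, e1, Matrix.mul_nonsing_inv _ (isUnit_iff_ne_zero.mpr hbti)]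
      exact mul_eq_one_comm.mp h5
    calc (τ1 (τ2 g) : Matrix (Fin n) (Fin n) k) * (a * b.transpose⁻¹)
        = (τ1 (τ2 g) : Matrix (Fin n) (Fin n) k) * a * (1 * b.transpose⁻¹) := by
          rw [one_mul, mul_assoc]
      _ = (τ1 (τ2 g) : Matrix (Fin n) (Fin n) k) * a
          * ((τ2 g : Matrix (Fin n) (Fin n) k).transpose * (b.transpose⁻¹
            * (g : Matrix (Fin n) (Fin n) k)) * (b.transpose⁻¹)⁻¹ * b.transpose⁻¹) := by
          congr 2
          rw [e1, Matrix.mul_nonsing_inv _ (isUnit_iff_ne_zero.mpr hbti)]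
      _ = ((τ1 (τ2 g) : Matrix (Fin n) (Fin n) k) * a
          * (τ2 g : Matrix (Fin n) (Fin n) k).transpose) * (b.transpose⁻¹
            * (g : Matrix (Fin n) (Fin n) k) * ((b.transpose⁻¹)⁻¹ * b.transpose⁻¹)) := by
          simp only [mul_assoc]
      _ = a * (b.transpose⁻¹ * (g : Matrix (Fin n) (Fin n) k)) := by
          rw [e3, Matrix.nonsing_inv_mul _ (isUnit_iff_ne_zero.mpr hbti), mul_one]
      _ = _ := by rw [mul_assoc]

lemma IsStd.symm {τ : Matrix.SpecialLinearGroup (Fin n) k ≃* Matrix.SpecialLinearGroup (Fin n) k}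
    (h : IsStd τ) : IsStd τ.symm := by
  obtain ⟨a, ha, h⟩ := h
  have hau : IsUnit a.det := isUnit_iff_ne_zero.mpr ha
  rcases h with h | h
  · refine ⟨a⁻¹, ?_, Or.inl fun g => ?_⟩
    · rw [Matrix.det_nonsing_inv, Ring.inverse_eq_inv']
      exact inv_ne_zero ha
    · have h1 := h (τ.symm g)
      rw [MulEquiv.apply_symm_apply] at h1
      apply cancel_left ha
      apply cancel_right ha
      rw [mul_assoc, mul_assoc, Matrix.nonsing_inv_mul _ hau, mul_one, ← mul_assoc a,
        Matrix.mul_nonsing_inv _ hau, one_mul, h1]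
  · refine ⟨a.transpose, by rw [Matrix.det_transpose]; exact ha, Or.inr fun g => ?_⟩
    have h1 := h (τ.symm g)
    rw [MulEquiv.apply_symm_apply] at h1
    have h2 := congrArg Matrix.transpose h1
    rw [Matrix.transpose_mul, Matrix.transpose_mul, Matrix.transpose_transpose] at h2
    rw [← mul_assoc] at h2
    exact h2

lemma IsStd.reg {τ : Matrix.SpecialLinearGroup (Fin n) k ≃* Matrix.SpecialLinearGroup (Fin n) k}
    (h : IsStd τ) : ∀ f ∈ slAlg k n, (fun g => f (τ g)) ∈ slAlg k n := by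
  obtain ⟨a, ha, h⟩ := h
  have hau : IsUnit a.det := isUnit_iff_ne_zero.mpr ha
  apply slAlg_comp
  intro i j
  rcases h with h | h
  · have h1 : ∀ g, (τ g : Matrix (Fin n) (Fin n) k) = a * (g : Matrix (Fin n) (Fin n) k) * a⁻¹ := by
      intro g
      apply cancel_right ha
      rw [h, mul_assoc, Matrix.nonsing_inv_mul _ hau, mul_one]
    simp only [h1]
    exact mul_mem_alg (slAlg k n) _ (fun _ => a⁻¹) (fun i j => mul_mem_alg (slAlg k n) (fun _ => a)
      (fun g => (g : Matrix (Fin n) (Fin n) k)) (fun _ _ => const_mem _ _) entry_mem i j)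
      (fun _ _ => const_mem _ _) i j
  · have h1 : ∀ g : Matrix.SpecialLinearGroup (Fin n) k, (τ g : Matrix (Fin n) (Fin n) k)
        = a * ((g : Matrix (Fin n) (Fin n) k).adjugate).transpose * a⁻¹ := by
      intro g
      have hgt : (a * (g : Matrix (Fin n) (Fin n) k).transpose).det ≠ 0 := by
        rw [Matrix.det_mul, Matrix.det_transpose, g.2, mul_one]; exact ha
      apply cancel_right hgt
      have h2 : ((g : Matrix (Fin n) (Fin n) k).adjugate).transpose
          * (g : Matrix (Fin n) (Fin n) k).transpose = 1 := by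
        rw [← Matrix.transpose_mul, Matrix.mul_adjugate, g.2, one_smul, Matrix.transpose_one]
      calc (τ g : Matrix (Fin n) (Fin n) k) * (a * (g : Matrix (Fin n) (Fin n) k).transpose)
          = a := by rw [← mul_assoc, h]
        _ = a * (((g : Matrix (Fin n) (Fin n) k).adjugate).transpose
          * (g : Matrix (Fin n) (Fin n) k).transpose) := by rw [h2, mul_one]
        _ = a * ((g : Matrix (Fin n) (Fin n) k).adjugate).transpose * (a⁻¹ * a)
          * (g : Matrix (Fin n) (Fin n) k).transpose := by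
          rw [Matrix.nonsing_inv_mul _ hau, mul_one]; simp only [mul_assoc]
        _ = _ := by simp only [mul_assoc]
    simp only [h1]
    exact mul_mem_alg (slAlg k n) _ (fun _ => a⁻¹) (fun i j => mul_mem_alg (slAlg k n) (fun _ => a)
      (fun g => ((g : Matrix (Fin n) (Fin n) k).adjugate).transpose) (fun _ _ => const_mem _ _)
      (fun i j => adjugate_mem_alg (slAlg k n) (fun g => (g : Matrix (Fin n) (Fin n) k)) entry_mem
        j i) i j)
      (fun _ _ => const_mem _ _) i j

lemma IsStd.thN (m : ℕ) (τ : Fin (m + 1) → (Matrix.SpecialLinearGroup (Fin n) k ≃*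
    Matrix.SpecialLinearGroup (Fin n) k)) (h : ∀ j, IsStd (τ j)) (j : ℕ) : IsStd (thN m τ j) := by
  induction j with
  | zero => exact IsStd.refl
  | succ j ih => exact ih.trans (h _)

end Std

end Pool.Agent.Helper14.RG
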