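import Pool.Agent.Helper14.RG.Std

namespace Pool.Agent.Helper14.RG

open MvPolynomial Matrix

section

variable {k : Type*} [Field k] {n : ℕ}

lemma transvection_pow {i j : Fin n} (hij : i ≠ j) (b : k) (m : ℕ) :
    (SpecialLinearGroup.transvection hij b) ^ m
      = SpecialLinearGroup.transvection hij ((m : k) * b) := by
  induction m with
  | zero => simp
  | succ m ih =>
    rw [pow_succ, ih, ← SpecialLinearGroup.transvection_add]
    congr 1
    push_cast
    ring

lemma center_scalar {z : Matrix.SpecialLinearGroup (Fin n) k}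
    (hz : z ∈ Subgroup.center (Matrix.SpecialLinearGroup (Fin n) k)) :
    ∃ r : k, r ^ n = 1 ∧ (z : Matrix (Fin n) (Fin n) k) = r • (1 : Matrix (Fin n) (Fin n) k) := by
  obtain ⟨r, hr, hrz⟩ := Matrix.SpecialLinearGroup.mem_center_iff.mp hz
  rw [Fintype.card_fin] at hr
  exact ⟨r, hr, by rw [← hrz, Matrix.scalar_apply, Matrix.smul_one_eq_diagonal]⟩

/-- a matrix which normalizes every element up to the centre is scalar -/
lemma scalar_of_conj [CharZero k] (b : Matrix (Fin n) (Fin n) k) (hb : b.det ≠ 0)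
    (h : ∀ x : Matrix.SpecialLinearGroup (Fin n) k,
      ∃ z ∈ Subgroup.center (Matrix.SpecialLinearGroup (Fin n) k),
      ((z * x : Matrix.SpecialLinearGroup (Fin n) k) : Matrix (Fin n) (Fin n) k) * b
        = b * (x : Matrix (Fin n) (Fin n) k)) :
    ∃ r : k, r ≠ 0 ∧ b = r • (1 : Matrix (Fin n) (Fin n) k) := by
  rcases Nat.eq_zero_or_pos n with hn | hn
  · subst hn
    exact ⟨1, one_ne_zero, Subsingleton.elim _ _⟩
  have hmem : b ∈ Set.range (Matrix.scalar (Fin n)) := by
    apply Matrix.mem_range_scalar_of_commute_transvectionStruct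
    rintro ⟨i, j, hij, c⟩
    obtain ⟨z, hz, hzy⟩ := h (SpecialLinearGroup.transvection hij (c / n))
    obtain ⟨r, hr, hrz⟩ := center_scalar hz
    rw [Matrix.SpecialLinearGroup.coe_mul, hrz, Matrix.smul_mul, one_mul, Matrix.smul_mul] at hzy
    generalize hy : SpecialLinearGroup.transvection hij (c / (n : k)) = y at hzy
    have key : ∀ m : ℕ, b * (y : Matrix (Fin n) (Fin n) k) ^ m
        = r ^ m • ((y : Matrix (Fin n) (Fin n) k) ^ m * b) := by
      intro m
      induction m with
      | zero => simp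
      | succ m ih =>
        rw [pow_succ, ← mul_assoc, ih, Matrix.smul_mul, mul_assoc, ← hzy, Matrix.mul_smul, smul_smul,
          pow_succ, mul_assoc]
    have h1 := key n
    have h2 : (y : Matrix (Fin n) (Fin n) k) ^ n = Matrix.transvection i j c := by
      rw [← Matrix.SpecialLinearGroup.coe_pow, ← hy, transvection_pow]
      have hn0 : (n : k) ≠ 0 := by
        rw [Nat.cast_ne_zero]; exact hn.ne'
      rw [mul_div_cancel₀ _ hn0]
      rfl
    rw [hr, one_smul, h2] at h1
    show Matrix.transvection i j c * b = b * Matrix.transvection i j c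
    exact h1.symm
  obtain ⟨r, hr⟩ := hmem
  refine ⟨r, ?_, by rw [← hr, Matrix.scalar_apply, Matrix.smul_one_eq_diagonal]⟩
  rintro rfl
  apply hb
  rw [← hr, Matrix.scalar_apply, Matrix.det_diagonal]
  simp [hn.ne']

lemma iterate_inner (T : Matrix.SpecialLinearGroup (Fin n) k → Matrix.SpecialLinearGroup (Fin n) k)
    (a : Matrix (Fin n) (Fin n) k)
    (h : ∀ g, (T g : Matrix (Fin n) (Fin n) k) * a = a * (g : Matrix (Fin n) (Fin n) k)) (M : ℕ)
    (x : Matrix.SpecialLinearGroup (Fin n) k) :
    (T^[M] x : Matrix (Fin n) (Fin n) k) * a ^ M = a ^ M * (x : Matrix (Fin n) (Fin n) k) := by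
  induction M generalizing x with
  | zero => simp
  | succ M ih =>
    rw [Function.iterate_succ_apply, pow_succ a M, ← mul_assoc, ih, mul_assoc, h, mul_assoc]

/-- the trivial chart -/
noncomputable def trivChart {G : Type*} [Group G] [Subsingleton G] (A : Subalgebra k (G → k))
    (H H' : Subgroup G) (hH : H ≤ H') : Chart A H H' Empty where
  hH := hH
  q0 := 1
  q0_mem := one_mem _
  q0_ne := Function.ne_iff.mpr ⟨1, one_ne_zero⟩
  t := fun _ j => j.elim
  treg := fun j => j.elim
  dbl := fun _ => false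
  D := 1
  D_ne := one_ne_zero
  s := fun _ => 1
  sreg := fun a _ => ⟨C (a 1), 0, fun Y _ => by rw [pow_zero, mul_one, eval_C]⟩
  fiber := fun g _ Y _ => ⟨by rw [map_one]; exact one_ne_zero, 1, one_mem _, Subsingleton.elim _ _⟩
  dom := fun Y _ => ⟨one_ne_zero, fun j => j.elim⟩
  inv := fun h _ g _ j => j.elim
  equiv := fun h _ => ⟨0, fun g _ => ⟨one_ne_zero, fun j => j.elim⟩⟩

lemma exists_NFD [IsAlgClosed k] [CharZero k] (hn : 0 < n) (a : Matrix (Fin n) (Fin n) k)
    (ha : a.det ≠ 0) (M : ℕ) (hM : 0 < M) (r : k) (hr : r ≠ 0)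
    (hpow : (a⁻¹ * a.transpose) ^ M = r • (1 : Matrix _ _ k)) :
    ∃ (F : NFD k n) (u : Matrix (Fin n) (Fin n) k), u.det ≠ 0 ∧ a = u * F.M * u.transpose := by
  classical
  obtain ⟨u, star, c, hu, hs, hc, hc1, hc2, hau⟩ := exists_nf two_ne_zero a ha M
    (by rw [Nat.cast_ne_zero]; exact hM.ne') r hr hpow
  by_cases hex : ∃ j, star j = j
  · obtain ⟨j, hj⟩ := hex
    refine ⟨⟨star, c, hs, hc, hc1, hc2, j, hj.ge, fun h => absurd hj h⟩, u, hu, hau⟩
  · refine ⟨⟨star, c, hs, hc, hc1, hc2, ⟨0, hn⟩, ?_, ?_⟩, u, hu, hau⟩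
    · exact Fin.mk_le_of_le_val (Nat.zero_le _)
    · intro _ j hj
      exact hex ⟨j, hj⟩

lemma map_center_iterate {S : Type*} [Group S] (f : S ≃* S) (M : ℕ) {z : S}
    (hz : z ∈ Subgroup.center S) : f^[M] z ∈ Subgroup.center S := by
  induction M generalizing z with
  | zero => exact hz
  | succ M ih =>
    rw [Function.iterate_succ_apply]
    exact ih (map_center f hz)

lemma map_iterate_mul {S : Type*} [Group S] (f : S ≃* S) (M : ℕ) (x y : S) :
    f^[M] (x * y) = f^[M] x * f^[M] y := by
  induction M generalizing x y with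
  | zero => rfl
  | succ M ih =>
    rw [Function.iterate_succ_apply, Function.iterate_succ_apply, Function.iterate_succ_apply,
      map_mul, ih]

theorem exists_chart [IsAlgClosed k] [CharZero k]
    (T : Matrix.SpecialLinearGroup (Fin n) k ≃* Matrix.SpecialLinearGroup (Fin n) k)
    (hT : IsStd T) (M : ℕ) (hM : 0 < M)
    (hpow : ∀ x, ∃ z ∈ Subgroup.center (Matrix.SpecialLinearGroup (Fin n) k), T^[M] x = z * x) :
    ∃ (N : Type) (_ : Fintype N) (_ : DecidableEq N),
      Nonempty (Chart (slAlg k n) (fixSub T) (fixMod T) N) := by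
  classical
  obtain ⟨a, ha, h⟩ := hT
  have hMk : (M : k) ≠ 0 := by rw [Nat.cast_ne_zero]; exact hM.ne'
  rcases h with h | h
  · have hdet : (a ^ M).det ≠ 0 := by rw [Matrix.det_pow]; exact pow_ne_zero _ ha
    obtain ⟨r, hr, hr1⟩ := scalar_of_conj (a ^ M) hdet (fun x => by
      obtain ⟨z, hz, h1⟩ := hpow x
      exact ⟨z, hz, by rw [← h1]; exact iterate_inner T a h M x⟩)
    obtain ⟨u, χ, hu, hau⟩ := exists_eigenbasis a M hMk r hr hr1
    exact ⟨NP χ, inferInstance, inferInstance, ⟨innerChart χ a u ha hu hau T h⟩⟩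
  · rcases Nat.eq_zero_or_pos n with hn | hn
    · subst hn
      exact ⟨Empty, inferInstance, inferInstance, ⟨trivChart _ _ _ (fixSub_le_fixMod T)⟩⟩
    have hau' : IsUnit a.det := isUnit_iff_ne_zero.mpr ha
    have hat : a.transpose.det ≠ 0 := by rw [Matrix.det_transpose]; exact ha
    have hatu : IsUnit a.transpose.det := isUnit_iff_ne_zero.mpr hat
    -- `T ∘ T` is inner
    have hT2 : ∀ g, (T (T g) : Matrix (Fin n) (Fin n) k) * (a * a.transpose⁻¹)
        = (a * a.transpose⁻¹) * (g : Matrix (Fin n) (Fin n) k) := by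
      intro g
      have e0 := h g
      have e1 := h (T g)
      have hTg : (T g : Matrix (Fin n) (Fin n) k).transpose.det ≠ 0 := by
        rw [Matrix.det_transpose, (T g).2]; exact one_ne_zero
      -- `(T g)ᵀ = ...`
      have e2 := congrArg Matrix.transpose e0
      rw [Matrix.transpose_mul, Matrix.transpose_mul, Matrix.transpose_transpose] at e2
      -- e2 : g * (aᵀ * (T g)ᵀ) = aᵀ
      have e3 : (T (T g) : Matrix (Fin n) (Fin n) k) * (a * a.transpose⁻¹) * a.transpose
          = (a * a.transpose⁻¹) * (g : Matrix (Fin n) (Fin n) k) * a.transpose := by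
        apply cancel_right hTg
        rw [mul_assoc _ (a * a.transpose⁻¹), mul_assoc a, Matrix.nonsing_inv_mul _ hatu, mul_one, e1]
        calc a = a * (a.transpose⁻¹ * a.transpose) := by
              rw [Matrix.nonsing_inv_mul _ hatu, mul_one]
          _ = a * (a.transpose⁻¹ * ((g : Matrix (Fin n) (Fin n) k) * (a.transpose
              * (T g : Matrix (Fin n) (Fin n) k).transpose))) := by rw [e2]
          _ = _ := by simp only [mul_assoc]
      exact cancel_right hat e3
    have hbdet : (a * a.transpose⁻¹).det ≠ 0 := by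
      rw [Matrix.det_mul, Matrix.det_nonsing_inv, Ring.inverse_eq_inv']
      exact mul_ne_zero ha (inv_ne_zero hat)
    have hdet : ((a * a.transpose⁻¹) ^ M).det ≠ 0 := by
      rw [Matrix.det_pow]; exact pow_ne_zero _ hbdet
    obtain ⟨r, hr, hr1⟩ := scalar_of_conj ((a * a.transpose⁻¹) ^ M) hdet (fun x => by
      obtain ⟨z, hz, h1⟩ := hpow x
      refine ⟨T^[M] z * z, mul_mem (map_center_iterate T M hz) hz, ?_⟩
      have h2 : (T^[2])^[M] x = T^[M] z * z * x := by
        rw [← Function.iterate_mul, two_mul, Function.iterate_add_apply, h1, map_iterate_mul, h1,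
          mul_assoc]
      rw [← h2]
      exact iterate_inner (T^[2]) (a * a.transpose⁻¹) hT2 M x)
    have hc : (a⁻¹ * a.transpose) ^ M = r⁻¹ • (1 : Matrix (Fin n) (Fin n) k) := by
      have e1 : ∀ m : ℕ, a * (a.transpose⁻¹ * a) ^ m = (a * a.transpose⁻¹) ^ m * a := by
        intro m
        induction m with
        | zero => simp
        | succ m ih =>
          rw [pow_succ, ← mul_assoc, ih, pow_succ, mul_assoc, mul_assoc, mul_assoc]
      have e2 : (a.transpose⁻¹ * a) ^ M = r • (1 : Matrix (Fin n) (Fin n) k) := by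
        apply cancel_left ha
        rw [e1, hr1, Matrix.smul_mul, Matrix.mul_smul, one_mul, mul_one]
      have e3 : (a⁻¹ * a.transpose) * (a.transpose⁻¹ * a) = 1 := by
        calc (a⁻¹ * a.transpose) * (a.transpose⁻¹ * a)
            = a⁻¹ * (a.transpose * a.transpose⁻¹) * a := by simp only [mul_assoc]
          _ = 1 := by
            rw [Matrix.mul_nonsing_inv _ hatu, mul_one, Matrix.nonsing_inv_mul _ hau']
      have e4 : (a⁻¹ * a.transpose) ^ M * (a.transpose⁻¹ * a) ^ M = 1 := by
        have hcm : Commute (a⁻¹ * a.transpose) (a.transpose⁻¹ * a) := by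
          show _ = _
          rw [e3, mul_eq_one_comm.mp e3]
        rw [← hcm.mul_pow, e3, one_pow]
      rw [e2, Matrix.mul_smul, mul_one] at e4
      have e5 := congrArg (fun m => r⁻¹ • m) e4
      simp only [smul_smul] at e5
      rw [inv_mul_cancel₀ hr, one_smul] at e5
      exact e5
    obtain ⟨F, u, hu, hau⟩ := exists_NFD hn a ha M hM r⁻¹ (inv_ne_zero hr) hc
    exact ⟨F.N, inferInstance, inferInstance, ⟨F.outerChart two_ne_zero a u ha hu hau T h⟩⟩

lemma exists_centerChart (n : ℕ) : ∃ (N : Type) (_ : Fintype N) (_ : DecidableEq N),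
    Nonempty (Chart (slAlg k n) ⊥ (Subgroup.center (Matrix.SpecialLinearGroup (Fin n) k)) N) := by
  classical
  rcases Nat.eq_zero_or_pos n with hn | hn
  · subst hn
    exact ⟨Empty, inferInstance, inferInstance, ⟨trivChart _ _ _ bot_le⟩⟩
  · exact ⟨NZ n, inferInstance, inferInstance, ⟨centerChart hn⟩⟩

end

end Pool.Agent.Helper14.RG
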